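import Pool.Agent.P.MP_a18ac8_lc.Basic2

universe u

namespace Pool.Agent.P.MP_a18ac8_lc

open Cardinal Set Sum Filter

variable {Λ : Type u} [ConditionallyCompleteLinearOrderBot Λ] [WellFoundedLT Λ]

variable [Ctx Λ]

variable {q q' q₁ q₂ p : Cond Λ} {S s : Set (Co Λ)} {ω ω' : Pt Λ} {c : Co Λ} {t : Pt Λ → Λ}
  {x : Set Λ} {ζ : Λ}

open Classical in
/-- The unsteered version of `t` on the cylinder `(s, ω)`. -/
noncomputable def loc (s : Set (Co Λ)) (ω : Pt Λ) (x : Set Λ) (t : Pt Λ → Λ) : Pt Λ → Λ :=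
  fun ω' => if EqOn ω'.f ω.f (s ∩ Un x) then t (pw (Un x) ω' ω) else t ω

theorem basic_loc_pos (h : EqOn ω'.f ω.f (s ∩ Un x)) :
    loc s ω x t ω' = t (pw (Un x) ω' ω) := by
  unfold loc
  exact if_pos h

theorem basic_loc_neg (h : ¬ EqOn ω'.f ω.f (s ∩ Un x)) : loc s ω x t ω' = t ω := by
  unfold loc
  exact if_neg h

theorem basic_loc_congr {ω₁ ω₂ : Pt Λ} (h : EqOn ω₁.f ω₂.f (s ∩ Un x))
    (h' : t (pw (Un x) ω₁ ω) = t (pw (Un x) ω₂ ω)) : loc s ω x t ω₁ = loc s ω x t ω₂ := by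
  by_cases h1 : EqOn ω₁.f ω.f (s ∩ Un x)
  · rw [basic_loc_pos h1, basic_loc_pos (h.symm.trans h1), h']
  · rw [basic_loc_neg h1, basic_loc_neg fun h2 => h1 (h.trans h2)]

theorem basic_pw_eqOn {ω₁ ω₂ : Pt Λ} {T : Set (Co Λ)} (h : EqOn ω₁.f ω₂.f (T ∩ S)) :
    EqOn (pw S ω₁ ω).f (pw S ω₂ ω).f T := by
  intro c hc
  by_cases hS : c ∈ S
  · rw [pw_mem hS, pw_mem hS]
    exact h ⟨hc, hS⟩
  · rw [pw_notMem hS, pw_notMem hS]

theorem loc_dep : Dep (loc s ω x t) (Un x) := by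
  intro ω₁ ω₂ h
  refine basic_loc_congr (h.mono inter_subset_right) (congrArg t (Pt.ext (funext fun c => ?_)))
  exact basic_pw_eqOn (T := univ) (h.mono inter_subset_right) (mem_univ c)

theorem loc_eq (hd : DepIn s ω t (Un x)) (h : EqOn ω'.f ω.f s) : loc s ω x t ω' = t ω' := by
  rw [basic_loc_pos (h.mono inter_subset_left)]
  refine hd _ _ (fun c hc => ?_) h fun c hc => pw_mem hc
  by_cases hS : c ∈ Un x
  · rw [pw_mem hS]
    exact h hc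
  · exact pw_notMem hS

theorem basic_loc_supp (hs : s.Finite) (hs' : s ⊆ Fn Λ) (hx : Node x) (hn : Supp x t) :
    Supp x (loc s ω x t) := by
  obtain ⟨y, hy, hc, hd, hv⟩ := hn
  have hfin : ({i | i ∈ x ∧ ∃ n : ℕ, (inl (i, n) : Co Λ) ∈ s} : Set Λ).Finite := by
    refine ((hs.preimage (f := (inl : Λ × ℕ → Co Λ)) inl_injective.injOn).image Prod.fst).subset ?_
    rintro i ⟨-, n, hn⟩
    exact ⟨(i, n), hn, rfl⟩
  refine ⟨y ∪ {i | i ∈ x ∧ ∃ n : ℕ, (inl (i, n) : Co Λ) ∈ s}, ?_, ?_, ?_, ?_⟩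
  · exact union_subset hy fun i hi => Or.inl hi.1
  · exact card_union_lt hx.1.1.aleph0_le hc (hfin.lt_aleph0.trans_le hx.1.1.aleph0_le)
  · intro ω₁ ω₂ h
    refine basic_loc_congr (h.mono ?_) (hd _ _ (basic_pw_eqOn (h.mono ?_)))
    · rintro c ⟨h1, h2⟩
      obtain ⟨k, rfl⟩ := hs' h1
      exact Or.inr ⟨h2, k.2, h1⟩
    · exact inter_subset_left.trans (Sp_mono subset_union_left
        (powerset_mono.2 (inter_subset_inter_left _ subset_union_left)))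
  · intro ω₁
    have key : ∀ ω₂, t ω₂ ∈ (y ∪ {i | i ∈ x ∧ ∃ n : ℕ, (inl (i, n) : Co Λ) ∈ s}) ∩ x :=
      fun ω₂ => ⟨Or.inl (hv ω₂).1, (hv ω₂).2⟩
    by_cases h1 : EqOn ω₁.f ω.f (s ∩ Un x)
    · rw [basic_loc_pos h1]
      exact key _
    · rw [basic_loc_neg h1]
      exact key _

theorem basic_col_const (h : Valid q) (hc : c ∈ q.D) (hc' : c ∈ Fn Λ) (ω₁ ω₂ : Pt Λ) :
    q.r c ω₁ = q.r c ω₂ := by
  obtain ⟨k, rfl⟩ := hc'
  obtain ⟨v, -, hv⟩ := h.name hc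
  rw [hv, hv]

theorem basic_loc_dec (hs : s.Finite) (hs' : s ⊆ Fn Λ) (hd : DepIn s ω t (Un x)) (hx : Node x)
    (hn : Dec Valid t) : Dec Valid (loc s ω x t) := by
  intro q hq
  by_cases hA : ∃ ω₂ ∈ q.set, EqOn ω₂.f ω.f (s ∩ Un x)
  · obtain ⟨ω₂, hω₂, he⟩ := hA
    have h1 : (cyl s ω).un (q.res (Un x)) ≤ q.res (Un x) := by
      refine un_le_of_res (S := s) ?_ inter_subset_left
      rintro ω₃ hω₃ c ⟨⟨hc1, hc2⟩, hc3⟩
      have e1 : ω₃.f c = ω.f c := hω₃ c hc3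
      have e2 : ω₂.f c = ω.f c := he ⟨hc3, hc2⟩
      have e3 : ω₂.f c = q.r c ω₂ := hω₂ c hc1
      change ω₃.f c = q.r c ω₃
      rw [e1, ← e2, e3]
      exact basic_col_const hq hc1 (hs' hc3) _ _
    obtain ⟨q₂, hq₂, hle, v, hv⟩ := hn _ ((valid_cyl hs hs' ω).un (hq.res (Un x)))
    have h2 : q₂.res (Un x) ≤ q.res (Un x) :=
      res_le hq₂ (hq.res _) (closed_Un hx) inter_subset_right (hle.trans h1)
    refine ⟨(q₂.res (Un x)).un q, (hq₂.res _).un hq,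
      un_le_of_res h2 fun c hc => hc.1.2, v, fun ω₃ hω₃ => ?_⟩
    refine res_const hq₂ (closed_Un hx) loc_dep (fun ω₄ hω₄ => ?_) ω₃ (un_le_left hω₃)
    rw [loc_eq hd (mem_cyl.1 (un_le_left (hle hω₄)))]
    exact hv ω₄ hω₄
  · exact ⟨q, hq, le_rfl, t ω, fun ω₂ hω₂ => basic_loc_neg fun h => hA ⟨ω₂, hω₂, h⟩⟩

theorem loc_name (hs : s.Finite) (hs' : s ⊆ Fn Λ) (hd : DepIn s ω t (Un x))
    (hn : Name (inr (x, ζ) : Co Λ) t) : Name (inr (x, ζ) : Co Λ) (loc s ω x t) :=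
  ⟨hn.1, hn.2.1, basic_loc_supp hs hs' hn.1 hn.2.2.1, basic_loc_dec hs hs' hd hn.1 hn.2.2.2⟩

theorem Unif.finite (h : Unif q) {F : Set (Set Λ)} (hF : F.Finite) (hs : s.Finite)
    (hs' : s ⊆ Fn Λ) (ω : Pt Λ) : ∃ (s' : Set (Co Λ)) (ω' : Pt Λ), s'.Finite ∧ s' ⊆ Fn Λ ∧
      s ⊆ s' ∧ EqOn ω'.f ω.f s ∧ ∀ x ζ, inr (x, ζ) ∈ q.D → (∃ x' ∈ F, Ini x x') →
        DepIn s' ω' (q.r (inr (x, ζ))) (Un x) := by
  induction F, hF using Set.Finite.induction_on with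
  | empty => exact ⟨s, ω, hs, hs', Subset.rfl, fun _ _ => rfl, fun _ _ _ h => by simp at h⟩
  | @insert x' F₀ _ _ ih =>
    obtain ⟨s₁, ω₁, h1, h2, h3, h4, h5⟩ := ih
    obtain ⟨s₂, ω₂, g1, g2, g3, g4, g5⟩ := h x' s₁ ω₁ h1 h2
    refine ⟨s₂, ω₂, g1, g2, h3.trans g3, (g4.mono h3).trans h4, ?_⟩
    rintro x ζ hc ⟨x'', hx'', hi⟩
    rcases hx'' with rfl | hx''
    · exact g5 x ζ hc hi
    · exact (h5 x ζ hc ⟨x'', hx'', hi⟩).mono g3 g4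

/-- The names of `p` on the chain of `x'` are unsteered. -/
def Ust (x' : Set Λ) (p : Cond Λ) : Prop :=
  ∀ x ζ, inr (x, ζ) ∈ p.D → Ini x x' → Dep (p.r (inr (x, ζ))) (Un x)

theorem exists_ust (hp : Valid p) (x' : Set Λ) :
    ∃ p', Valid p' ∧ p' ≤ p ∧ Ust x' p' ∧ p'.D ⊆ p.D ∪ Fn Λ := by
  classical
  obtain ⟨ω, hω⟩ := hp.nonempty
  obtain ⟨s', ω', h1, h2, h3, h4, h5⟩ :=
    hp.unif x' (p.D ∩ Fn Λ) ω hp.domOK.1 inter_subset_right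
  have hq : Valid ((cyl s' ω').un p) := (valid_cyl h1 h2 ω').un hp
  have hnot : ∀ k : Set Λ × Λ, (inr k : Co Λ) ∉ (cyl s' ω').D := fun k hk =>
    notMem_Fn_inr (h2 hk)
  have hmem : ∀ k : Set Λ × Λ, (inr k : Co Λ) ∈ ((cyl s' ω').un p).D → inr k ∈ p.D :=
    fun k hk => hk.resolve_left (hnot k)
  let r : Co Λ → Pt Λ → Λ := Sum.elim (fun k => ((cyl s' ω').un p).r (inl k)) fun k =>
    if Ini k.1 x' then loc s' ω' k.1 (p.r (inr k)) else ((cyl s' ω').un p).r (inr k)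
  have r1 : ∀ k, r (inl k) = ((cyl s' ω').un p).r (inl k) := fun k => rfl
  have r2 : ∀ y ζ, Ini y x' → r (inr (y, ζ)) = loc s' ω' y (p.r (inr (y, ζ))) :=
    fun y ζ h => if_pos h
  have r3 : ∀ y ζ, ¬ Ini y x' → r (inr (y, ζ)) = ((cyl s' ω').un p).r (inr (y, ζ)) :=
    fun y ζ h => if_neg h
  refine ⟨⟨((cyl s' ω').un p).D, r⟩, hq.modify fun c hc => ⟨hc, ?_⟩, ?_, ?_, ?_⟩
  · rcases c with k | ⟨y, ζ⟩
    · exact Or.inl (r1 k)
    · by_cases hi : Ini y x'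
      · refine Or.inr ⟨y, ζ, rfl, ?_, ?_⟩
        · change Name (inr (y, ζ)) (r (inr (y, ζ)))
          rw [r2 y ζ hi]
          exact loc_name h1 h2 (h5 y ζ (hmem _ hc) hi) (hp.name (hmem _ hc))
        · change Dep (r (inr (y, ζ))) (Un y)
          rw [r2 y ζ hi]
          exact loc_dep
      · exact Or.inl (r3 y ζ hi)
  · intro ω₃ hω₃
    have he : EqOn ω₃.f ω'.f s' := by
      intro c hc
      obtain ⟨k, rfl⟩ := h2 hc
      have e1 : ω₃.f (inl k) = r (inl k) ω₃ := hω₃ _ (Or.inl hc)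
      rw [e1, r1, un_r_left (q := cyl s' ω') hc]
      rfl
    intro c hc
    rcases c with k | ⟨y, ζ⟩
    · have hs : (inl k : Co Λ) ∈ p.D ∩ Fn Λ := ⟨hc, mem_Fn_inl⟩
      rw [he (h3 hs), h4 hs, hω _ hc]
      exact basic_col_const hp hc mem_Fn_inl _ _
    · have e1 : ω₃.f (inr (y, ζ)) = r (inr (y, ζ)) ω₃ := hω₃ _ (Or.inr hc)
      by_cases hi : Ini y x'
      · rw [e1, r2 y ζ hi]
        exact loc_eq (h5 y ζ hc hi) he
      · rw [e1, r3 y ζ hi, un_r_right (hnot _)]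
  · intro y ζ _ hi
    change Dep (r (inr (y, ζ))) (Un y)
    rw [r2 y ζ hi]
    exact loc_dep
  · rintro c (hc | hc)
    · exact Or.inr (h2 hc)
    · exact Or.inl hc

theorem Cmp.symm (h : Cmp q q') : Cmp q' q := by
  obtain ⟨r, h1, h2, h3⟩ := h
  exact ⟨r, h1, h3, h2⟩

theorem Valid.cmp_self (h : Valid q) : Cmp q q := ⟨q, h, le_rfl, le_rfl⟩

end Pool.Agent.P.MP_a18ac8_lc
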