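import Pool.Agent.P.MP_a18ac8_lc.Gen

universe u

namespace Pool.Agent.P.MP_a18ac8_lc

open Cardinal Set Sum Filter

variable {Λ : Type u} [ConditionallyCompleteLinearOrderBot Λ] [WellFoundedLT Λ]

variable [Ctx Λ]

@[simp] theorem mem_Sp_inl {Y : Set Λ} {N : Set (Set Λ)} {k : Λ × ℕ} :
    (inl k : Co Λ) ∈ Sp Y N ↔ k.1 ∈ Y := Iff.rfl

@[simp] theorem mem_Sp_inr {Y : Set Λ} {N : Set (Set Λ)} {k : Set Λ × Λ} :
    (inr k : Co Λ) ∈ Sp Y N ↔ k.1 ∈ N ∧ k.2 ∈ k.1 := Iff.rfl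

@[simp] theorem mem_Lev_inl {c : Cardinal.{u}} {k : Λ × ℕ} : (inl k : Co Λ) ∈ Lev c := trivial

@[simp] theorem mem_Lev_inr {c : Cardinal.{u}} {k : Set Λ × Λ} :
    (inr k : Co Λ) ∈ Lev c ↔ #k.1 < c ∧ k.2 ∈ k.1 := Iff.rfl

@[simp] theorem mem_Fn_inl {k : Λ × ℕ} : (inl k : Co Λ) ∈ Fn Λ := ⟨k, rfl⟩

@[simp] theorem notMem_Fn_inr {k : Set Λ × Λ} : (inr k : Co Λ) ∉ Fn Λ := by simp [Fn]

@[simp] theorem mem_CY_inl {y : Set Λ} {k : Λ × ℕ} : (inl k : Co Λ) ∈ CY y ↔ k.1 ∈ y := Iff.rfl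

@[simp] theorem mem_CY_inr {y : Set Λ} {k : Set Λ × Λ} : (inr k : Co Λ) ∈ CY y ↔
    k.2 ∈ y ∧ (k.1 ⊆ y ∨ ∃ σ ∈ y, kap ≤ σ ∧ k.1 = Iio σ) := Iff.rfl

theorem Sp_mono {Y Y' : Set Λ} {N N' : Set (Set Λ)} (h : Y ⊆ Y') (h' : N ⊆ N') :
    Sp Y N ⊆ Sp Y' N' := by
  rintro (k | k) hk
  · exact h hk
  · exact ⟨h' hk.1, hk.2⟩

theorem Fn_subset_Lev {c : Cardinal.{u}} : Fn Λ ⊆ Lev c := by
  rintro _ ⟨k, rfl⟩
  exact mem_Lev_inl

theorem Lev_mono {c c' : Cardinal.{u}} (h : c ≤ c') : (Lev c : Set (Co Λ)) ⊆ Lev c' :=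
  Sp_mono Subset.rfl fun _ hx => lt_of_lt_of_le hx h

variable {q q' q₁ q₂ p : Cond Λ} {S s : Set (Co Λ)} {ω ω' : Pt Λ} {c : Co Λ} {t : Pt Λ → Λ}
  {x : Set Λ} {ζ : Λ}

theorem Cond.le_def : q ≤ q' ↔ q.set ⊆ q'.set := Iff.rfl

theorem pw_mem (h : c ∈ S) : (pw S ω ω').f c = ω.f c :=
  if_pos h

theorem pw_notMem (h : c ∉ S) : (pw S ω ω').f c = ω'.f c :=
  if_neg h

theorem un_r_left (h : c ∈ q.D) : (q.un q').r c = q.r c :=
  if_pos h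

theorem un_r_right (h : c ∉ q.D) : (q.un q').r c = q'.r c :=
  if_neg h

theorem mem_un : ω ∈ (q.un q').set ↔ ω ∈ q.set ∧ ∀ c ∈ q'.D, c ∉ q.D → ω.f c = q'.r c ω := by
  constructor
  · intro h
    exact ⟨fun c hc => by rw [← un_r_left (q' := q') hc]; exact h c (Or.inl hc),
      fun c hc hc' => by rw [← un_r_right (q' := q') hc']; exact h c (Or.inr hc)⟩
  · rintro ⟨h, h'⟩ c hc
    by_cases hq : c ∈ q.D
    · rw [un_r_left hq]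
      exact h c hq
    · rw [un_r_right hq]
      exact h' c (hc.resolve_left hq) hq

theorem set_un_of_disjoint (h : Disjoint q.D q'.D) : (q.un q').set = q.set ∩ q'.set := by
  ext ω
  rw [mem_un]
  exact ⟨fun H => ⟨H.1, fun c hc => H.2 c hc (disjoint_right.1 h hc)⟩,
    fun H => ⟨H.1, fun c hc _ => H.2 c hc⟩⟩

theorem mem_cyl : ω' ∈ (cyl s ω).set ↔ EqOn ω'.f ω.f s := Iff.rfl

theorem le_res : q ≤ q.res S :=
  fun _ hω c hc => hω c hc.1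

theorem un_le_left : q.un q' ≤ q :=
  fun _ hω => (mem_un.1 hω).1

theorem le_un (h : p ≤ q) (h' : p ≤ q') : p ≤ q.un q' :=
  fun _ hω => mem_un.2 ⟨h hω, fun c hc _ => h' hω c hc⟩

/-- Amalgamation. -/
theorem un_le_of_res (h : q ≤ q'.res S) (hD : q.D ∩ q'.D ⊆ S) : q.un q' ≤ q' := by
  intro ω hω c hc
  obtain ⟨h1, h2⟩ := mem_un.1 hω
  by_cases hq : c ∈ q.D
  · exact h h1 c ⟨hc, hD ⟨hq, hc⟩⟩
  · exact h2 c hc hq

theorem Ext.le (h : Ext q q') : q' ≤ q := by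
  intro ω hω c hc
  rw [← (h c hc).2]
  exact hω c (h c hc).1

theorem Ext.refl (q : Cond Λ) : Ext q q :=
  fun _ hc => ⟨hc, rfl⟩

theorem Ext.trans (h : Ext q q₁) (h' : Ext q₁ q₂) : Ext q q₂ :=
  fun c hc =>
  ⟨(h' c (h c hc).1).1, (h' c (h c hc).1).2.trans (h c hc).2⟩

theorem ext_un : Ext q (q.un q') :=
  fun _ hc => ⟨Or.inl hc, un_r_left hc⟩

theorem Agr.symm (h : Agr S q q') : Agr S q' q :=
  fun c hc =>
  ⟨(h c hc).1.symm, fun h1 => ((h c hc).2 ((h c hc).1.2 h1)).symm⟩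

theorem Agr.trans (h : Agr S q q₁) (h' : Agr S q₁ q₂) : Agr S q q₂ :=
  fun c hc =>
  ⟨(h c hc).1.trans (h' c hc).1, fun h1 => ((h c hc).2 h1).trans ((h' c hc).2 ((h c hc).1.1 h1))⟩

theorem Agr.mono {S' : Set (Co Λ)} (h : Agr S q q') (h' : S' ⊆ S) : Agr S' q q' :=
  fun c hc => h c (h' hc)

theorem Agr.un {p' : Cond Λ} (h : Agr S q q') (h' : Agr S p p') : Agr S (q.un p) (q'.un p') := by
  intro c hc
  refine ⟨or_congr (h c hc).1 (h' c hc).1, fun h1 => ?_⟩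
  by_cases hq : c ∈ q.D
  · rw [un_r_left hq, un_r_left ((h c hc).1.1 hq)]
    exact (h c hc).2 hq
  · rw [un_r_right hq, un_r_right fun h2 => hq ((h c hc).1.2 h2)]
    exact (h' c hc).2 (h1.resolve_left hq)

theorem Agr.set_res (h : Agr S q q') : (q.res S).set = (q'.res S).set := by
  have key : ∀ {q q' : Cond Λ}, Agr S q q' → (q.res S).set ⊆ (q'.res S).set := by
    intro q q' h ω hω c hc
    have h1 := (h c hc.2).1.2 hc.1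
    have h2 := hω c ⟨h1, hc.2⟩
    change ω.f c = q'.r c ω
    rw [← (h c hc.2).2 h1]
    exact h2
  exact Subset.antisymm (key h) (key h.symm)

theorem Dep.mono {S' : Set (Co Λ)} (h : Dep t S) (h' : S ⊆ S') : Dep t S' :=
  fun ω ω' e => h ω ω' (e.mono h')

theorem Dep.inter {S' : Set (Co Λ)} (h : Dep t S) (h' : Dep t S') : Dep t (S ∩ S') := by
  intro ω ω' e
  rw [h ω (pw S ω ω') fun c hc => (pw_mem hc).symm]
  refine h' _ _ fun c hc => ?_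
  by_cases hS : c ∈ S
  · rw [pw_mem hS]
    exact e ⟨hS, hc⟩
  · exact pw_notMem hS

theorem Dep.depIn (h : Dep t S) : DepIn s ω t S :=
  fun ω₁ ω₂ _ _ e => h ω₁ ω₂ e

theorem DepIn.mono {s' : Set (Co Λ)} (h : DepIn s ω t S) (h1 : s ⊆ s') (h2 : EqOn ω'.f ω.f s) :
    DepIn s' ω' t S :=
  fun ω₁ ω₂ e₁ e₂ e =>
  h ω₁ ω₂ ((e₁.mono h1).trans h2) ((e₂.mono h1).trans h2) e

theorem Supp.dep (h : Supp x t) : Dep t (Sp (st x) (low x)) := by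
  obtain ⟨y, hy, hc, hd, -⟩ := h
  exact hd.mono (Sp_mono hy fun x' hx' => ⟨fun _ ha => (hx' ha).2,
    (mk_le_mk_of_subset fun _ ha => (hx' ha).1).trans_lt hc⟩)

theorem DomOK.mono {D D' : Set (Co Λ)} (h : DomOK D) (h' : D' ⊆ D) : DomOK D' := by
  obtain ⟨h1, ⟨X, hX, h2⟩, h3⟩ := h
  refine ⟨h1.subset (inter_subset_inter_left _ h'), ⟨X, hX, fun x ζ hc => h2 x ζ (h' hc)⟩,
    fun μ hμ hr => lt_of_le_of_lt (mk_le_mk_of_subset ?_) (h3 μ hμ hr)⟩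
  exact fun c hc => ⟨h' hc.1, hc.2⟩

theorem DomOK.union {D D' : Set (Co Λ)} (h : DomOK D) (h' : DomOK D') : DomOK (D ∪ D') := by
  obtain ⟨h1, ⟨X, hX, h2⟩, h3⟩ := h
  obtain ⟨h1', ⟨X', hX', h2'⟩, h3'⟩ := h'
  refine ⟨?_, ⟨X ∪ X', card_union_lt aleph0_lt_rho.le hX hX', ?_⟩, fun μ hμ hr => ?_⟩
  · rw [union_inter_distrib_right]
    exact h1.union h1'
  · rintro x ζ (hc | hc)
    · obtain ⟨x', hx', e⟩ := h2 x ζ hc
      exact ⟨x', Or.inl hx', e⟩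
    · obtain ⟨x', hx', e⟩ := h2' x ζ hc
      exact ⟨x', Or.inr hx', e⟩
  · refine (mk_le_mk_of_subset ?_).trans_lt
      (card_union_lt hμ.1.aleph0_le (h3 μ hμ hr) (h3' μ hμ hr))
    rintro c ⟨hc | hc, e⟩
    · exact Or.inl ⟨hc, e⟩
    · exact Or.inr ⟨hc, e⟩

theorem DomOK.iUnion {I : Type u} {s : Set I} (hs : #s < crd (rho : Λ)) {D : I → Set (Co Λ)}
    (h : ∀ i ∈ s, DomOK (D i)) (h' : ((⋃ i ∈ s, D i) ∩ Fn Λ).Finite) :
    DomOK (⋃ i ∈ s, D i) := by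
  have h2 : ∀ i, ∃ X : Set (Set Λ), i ∈ s → #X < crd (rho : Λ) ∧
      ∀ x ζ, inr (x, ζ) ∈ D i → ∃ x' ∈ X, Ini x x' := by
    intro i
    by_cases hi : i ∈ s
    · obtain ⟨X, hX⟩ := (h i hi).2.1
      exact ⟨X, fun _ => hX⟩
    · exact ⟨∅, fun hi' => absurd hi' hi⟩
  choose X hX using h2
  refine ⟨h', ⟨⋃ i ∈ s, X i, card_iUnion_lt rho_reg.1 hs fun i hi => (hX i hi).1, ?_⟩,
    fun μ hμ hr => ?_⟩
  · intro x ζ hc
    obtain ⟨i, hi, hc⟩ := mem_iUnion₂.1 hc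
    obtain ⟨x', hx', e⟩ := (hX i hi).2 x ζ hc
    exact ⟨x', mem_biUnion hi hx', e⟩
  · refine (mk_le_mk_of_subset ?_).trans_lt (card_iUnion_lt hμ.1 (hs.trans_le (crd_mono hr))
      fun i hi => (h i hi).2.2 μ hμ hr)
    rintro c ⟨hc, e⟩
    obtain ⟨i, hi, hc⟩ := mem_iUnion₂.1 hc
    exact mem_biUnion hi ⟨hc, e⟩

theorem closed_of {c : Cardinal.{u}} (h1 : Lev c ⊆ S)
    (h2 : ∀ x ζ, inr (x, ζ) ∈ S → Node x → crd (mu x) ≤ c) : Closed S := by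
  intro x ζ hc hx
  refine Subset.trans ?_ h1
  exact Sp_mono (subset_univ _) fun x' hx' => hx'.2.trans_le (h2 x ζ hc hx)

theorem closed_Lev (c : Cardinal.{u}) : Closed (Lev c : Set (Co Λ)) :=
  closed_of Subset.rfl fun x _ hc _ => (crd_mu_le x).trans hc.1.le

theorem closed_S1 (x : Set Λ) : Closed (S1 x) := by
  refine closed_of subset_union_left fun x' ζ hc _ => ?_
  rcases hc with hc | ⟨x₁, ζ₁, e, hi, -⟩
  · exact (crd_mu_le x').trans hc.1.le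
  · cases e
    rw [hi.1]

theorem closed_Bd (α : Λ) : Closed (Bd α) :=
  closed_of subset_union_left fun x _ _ _ => crd_mono (mu_le_kap x)

theorem closed_Fn : Closed (Fn Λ) :=
  fun _ _ hc => absurd hc notMem_Fn_inr

theorem closed_Un (hx : Node x) : Closed (Un x) := by
  rintro x' ζ ⟨⟨h1, h2⟩, -⟩ -
  refine Sp_mono ?_ fun x₁ hx₁ => ⟨hx₁.1.trans h1, (mk_le_mk_of_subset hx₁.1).trans_lt h2⟩
  rintro i (hi | hi)
  · exact h1 hi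
  · exact mem_of_lt_mu (hx.1.crd_lt_iff.1 (lt_trans hi h2))

end Pool.Agent.P.MP_a18ac8_lc
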