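import Pool.Agent.P.MP_a18ac8_lc.Basic1

universe u

namespace Pool.Agent.P.MP_a18ac8_lc

open Cardinal Set Sum Filter

variable {Λ : Type u} [ConditionallyCompleteLinearOrderBot Λ] [WellFoundedLT Λ]

variable [Ctx Λ]

variable {q q' q₁ q₂ p : Cond Λ} {S s : Set (Co Λ)} {ω ω' : Pt Λ} {c : Co Λ} {t : Pt Λ → Λ}
  {x : Set Λ} {ζ : Λ}

theorem b2_vd {c : Cardinal.{u}} : Vd c q ↔ Base q ∧ ∀ x ζ, inr (x, ζ) ∈ q.D →
    #x < c ∧ Dec (Vd (crd (mu x))) (q.r (inr (x, ζ))) := by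
  unfold Vd
  rw [WellFounded.fix_eq]
  refine and_congr_right fun _ => forall₃_congr fun x ζ _ => and_congr_right fun hx => ?_
  exact ⟨fun ⟨_, h⟩ => h, fun h => ⟨(crd_mu_le x).trans_lt hx, h⟩⟩

theorem b2_valid : Valid q ↔ Base q ∧ ∀ x ζ, inr (x, ζ) ∈ q.D →
    Dec (Vd (crd (mu x))) (q.r (inr (x, ζ))) := by
  constructor
  · rintro ⟨c, h⟩
    exact ⟨(b2_vd.1 h).1, fun x ζ hc => ((b2_vd.1 h).2 x ζ hc).2⟩
  · intro h
    exact ⟨Order.succ #Λ, b2_vd.2 ⟨h.1, fun x ζ hc =>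
      ⟨Order.lt_succ_of_le (mk_set_le x), h.2 x ζ hc⟩⟩⟩

theorem b2_vd' {c : Cardinal.{u}} : Vd c q ↔ Valid q ∧ q.D ⊆ Lev c := by
  constructor
  · intro h
    refine ⟨⟨c, h⟩, ?_⟩
    rintro (k | ⟨x, ζ⟩) hc
    · exact mem_Lev_inl
    · exact ⟨((b2_vd.1 h).2 x ζ hc).1, mem_of_lt_mu ((b2_vd.1 h).1.2.2.2 x ζ hc).2.1⟩
  · rintro ⟨h, hD⟩
    exact b2_vd.2 ⟨(b2_valid.1 h).1, fun x ζ hc => ⟨(hD hc).1, (b2_valid.1 h).2 x ζ hc⟩⟩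

/-- The rank of a coordinate. -/
noncomputable def b2rk : Co Λ → Cardinal.{u}
  | inl _ => 0
  | inr k => Order.succ #k.1

/-- The coordinates of smaller rank. -/
def b2lo (c : Co Λ) : Set (Co Λ) := {c' | b2rk c' < b2rk c}

theorem b2_val (h : Base q) (hc : c ∈ q.D) (ω : Pt Λ) : q.r c ω ∈ Val c := by
  rcases c with k | ⟨x, ζ⟩
  · obtain ⟨v, hv, h'⟩ := h.2.2.1 k hc
    rw [h']
    exact hv
  · obtain ⟨y, -, -, -, h'⟩ := (h.2.2.2 x ζ hc).2.2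
    exact Or.inr (h' ω).2

theorem b2_dep_of (h : Base q) (hc : c ∈ q.D)
    (hS : ∀ x ζ, c = inr (x, ζ) → Node x → Sp (st x) (low x) ⊆ S) : Dep (q.r c) S := by
  rcases c with k | ⟨x, ζ⟩
  · obtain ⟨v, -, h'⟩ := h.2.2.1 k hc
    intro ω ω' _
    rw [h', h']
  · exact (h.2.2.2 x ζ hc).2.2.dep.mono (hS x ζ rfl (h.2.2.2 x ζ hc).1)

theorem b2_dep_lo (h : Base q) (hc : c ∈ q.D) : Dep (q.r c) (b2lo c) := by
  refine b2_dep_of h hc ?_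
  rintro x ζ rfl -
  rintro (k | ⟨x', ζ'⟩) hk
  · exact Order.lt_succ_of_le (a := (0 : Cardinal.{u})) bot_le
  · exact Order.succ_lt_succ (hk.1.2.trans_le (crd_mu_le x))

theorem b2_dep_lo' (h : Base q) (c : Co Λ) : ∀ c' ∈ q.D ∩ b2lo c, Dep (q.r c') (b2lo c) :=
  fun _ hc' => (b2_dep_lo h hc'.1).mono fun _ h' => lt_trans (α := Cardinal.{u}) h' hc'.2

omit [ConditionallyCompleteLinearOrderBot Λ] [WellFoundedLT Λ] [Ctx Λ] in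
theorem b2_wf : WellFounded fun c' c : Co Λ => b2rk c' < b2rk c :=
  InvImage.wf b2rk Cardinal.lt_wf

theorem b2_fill (h : Base q) (ω₀ : Pt Λ) : ∃ ω ∈ q.set, (∀ c ∉ q.D, ω.f c = ω₀.f c) ∧
    ∀ S, (∀ c ∈ q.D ∩ S, Dep (q.r c) S) → ω₀ ∈ (q.res S).set → EqOn ω.f ω₀.f S := by
  classical
  let G : ∀ c : Co Λ, (∀ c', b2rk c' < b2rk c → Val c') → Val c := fun c IH =>
    if hc : c ∈ q.D then
      ⟨q.r c ⟨fun c' => if h' : b2rk c' < b2rk c then (IH c' h').1 else ω₀.f c', fun c' => by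
        split_ifs with h'
        exacts [(IH c' h').2, ω₀.mem c']⟩, b2_val h hc _⟩
    else ⟨ω₀.f c, ω₀.mem c⟩
  let F : ∀ c : Co Λ, Val c := WellFounded.fix (C := fun c => Val c) b2_wf G
  have hF : ∀ c, F c = G c fun c' _ => F c' := fun c => WellFounded.fix_eq _ _ c
  let ω : Pt Λ := ⟨fun c => (F c).1, fun c => (F c).2⟩
  have h1 : ω ∈ q.set := by
    intro c hc
    change (F c).1 = _
    rw [hF c]
    simp only [G, dif_pos hc]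
    refine b2_dep_lo h hc _ _ fun c' hc' => ?_
    exact dif_pos hc'
  have h2 : ∀ c ∉ q.D, ω.f c = ω₀.f c := by
    intro c hc
    change (F c).1 = _
    rw [hF c]
    simp only [G, dif_neg hc]
  refine ⟨ω, h1, h2, fun S hS h0 c => ?_⟩
  induction c using b2_wf.induction with
  | _ c IH =>
    intro hc
    by_cases hD : c ∈ q.D
    · rw [h1 c hD, h0 c ⟨hD, hc⟩]
      exact (hS c ⟨hD, hc⟩).inter (b2_dep_lo h hD) _ _ fun c' hc' => IH c' hc'.2 hc'.1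
    · exact h2 c hD

theorem b2_res_le' (hq' : Base q') (h1 : ∀ c ∈ q'.D ∩ S, Dep (q'.r c) S)
    (h2 : ∀ c ∈ q.D, c ∈ S ∧ Dep (q.r c) S) (h : q' ≤ q) : q'.res S ≤ q := by
  intro ω₀ h0 c hc
  obtain ⟨ω, hω, -, he⟩ := b2_fill hq' ω₀
  have he' := he S h1 h0
  rw [← he' (h2 c hc).1, h hω c hc]
  exact (h2 c hc).2 _ _ he'

theorem b2_dep (h : Base q) (hS : Closed S) (hc : c ∈ q.D) (hc' : c ∈ S) : Dep (q.r c) S :=
  b2_dep_of h hc fun x ζ e hx => hS x ζ (e ▸ hc') hx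

theorem b2_res_const (hq : Base q) (hS : Closed S) (ht : Dep t S) {v : Λ}
    (h : ∀ ω ∈ q.set, t ω = v) : ∀ ω ∈ (q.res S).set, t ω = v := by
  intro ω₀ h0
  obtain ⟨ω, hω, -, he⟩ := b2_fill hq ω₀
  rw [← h ω hω]
  exact (ht _ _ (he S (fun c hc => b2_dep hq hS hc.1 hc.2) h0)).symm

theorem b2_pieces (h₁ : Valid q₁) (h₂ : Valid q₂)
    (h : ∀ c ∈ q.D, (c ∈ q₁.D ∧ q.r c = q₁.r c) ∨ (c ∈ q₂.D ∧ q.r c = q₂.r c)) : Valid q := by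
  obtain ⟨⟨a1, a2, a3, a4⟩, a5⟩ := b2_valid.1 h₁
  obtain ⟨⟨b1, b2, b3, b4⟩, b5⟩ := b2_valid.1 h₂
  refine b2_valid.2 ⟨⟨(a1.union b1).mono fun c hc => (h c hc).imp And.left And.left,
    fun x' s ω hs hs' => ?_, fun k hk => ?_, fun x ζ hc => ?_⟩, fun x ζ hc => ?_⟩
  · obtain ⟨s₁, ω₁, c1, c2, c3, c4, c5⟩ := a2 x' s ω hs hs'
    obtain ⟨s₂, ω₂, d1, d2, d3, d4, d5⟩ := b2 x' s₁ ω₁ c1 c2
    refine ⟨s₂, ω₂, d1, d2, c3.trans d3, (d4.mono c3).trans c4, fun x ζ hc hx => ?_⟩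
    rcases h _ hc with ⟨e1, e2⟩ | ⟨e1, e2⟩
    · rw [e2]
      exact (c5 x ζ e1 hx).mono d3 d4
    · rw [e2]
      exact d5 x ζ e1 hx
  · rcases h _ hk with ⟨e1, e2⟩ | ⟨e1, e2⟩ <;> rw [e2]
    exacts [a3 k e1, b3 k e1]
  · rcases h _ hc with ⟨e1, e2⟩ | ⟨e1, e2⟩ <;> rw [e2]
    exacts [a4 x ζ e1, b4 x ζ e1]
  · rcases h _ hc with ⟨e1, e2⟩ | ⟨e1, e2⟩ <;> rw [e2]
    exacts [a5 x ζ e1, b5 x ζ e1]

theorem b2_res (h : Valid q) (S : Set (Co Λ)) : Valid (q.res S) :=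
  b2_pieces h h fun _ hc => Or.inl ⟨hc.1, rfl⟩

theorem b2_un (h : Valid q) (h' : Valid q') : Valid (q.un q') := by
  refine b2_pieces h h' fun c hc => ?_
  by_cases hD : c ∈ q.D
  · exact Or.inl ⟨hD, un_r_left hD⟩
  · exact Or.inr ⟨hc.resolve_left hD, un_r_right hD⟩

theorem b2_dec {c : Cardinal.{u}} (ht : Dep t (Lev c)) : Dec (Vd c) t ↔ Dec Valid t := by
  constructor
  · intro h q hq
    obtain ⟨q', h1, h2, v, h3⟩ := h (q.res (Lev c)) (b2_vd'.2 ⟨b2_res hq _, inter_subset_right⟩)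
    have h4 := b2_vd'.1 h1
    exact ⟨q'.un q, b2_un h4.1 hq, un_le_of_res h2 fun c hc => h4.2 hc.1, v,
      fun ω hω => h3 ω (un_le_left hω)⟩
  · intro h q hq
    have h4 := b2_vd'.1 hq
    obtain ⟨q', h1, h2, v, h3⟩ := h q h4.1
    have hb := (b2_valid.1 h1).1
    exact ⟨q'.res (Lev c), b2_vd'.2 ⟨b2_res h1 _, inter_subset_right⟩,
      b2_res_le' hb (fun c hc => b2_dep hb (closed_Lev _) hc.1 hc.2)
        (fun c hc => ⟨h4.2 hc, b2_dep (b2_valid.1 h4.1).1 (closed_Lev _) hc (h4.2 hc)⟩) h2,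
      v, b2_res_const hb (closed_Lev _) ht h3⟩

theorem b2_dec' (h : Supp x t) : Dec (Vd (crd (mu x))) t ↔ Dec Valid t :=
  b2_dec (h.dep.mono (Sp_mono (subset_univ _) fun _ hx => hx.2))

theorem b2_domOK {D : Set (Co Λ)} (h : D.Finite) : DomOK D := by
  refine ⟨h.inter_of_left _, ⟨{x | ∃ ζ, inr (x, ζ) ∈ D}, ?_, fun x ζ hc =>
    ⟨x, ⟨ζ, hc⟩, Ini.refl x⟩⟩, fun μ hμ _ => ?_⟩
  · refine lt_trans (Set.Finite.lt_aleph0 ?_) aleph0_lt_rho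
    refine ((h.preimage (f := inr) inr_injective.injOn).image Prod.fst).subset ?_
    rintro x ⟨ζ, hc⟩
    exact ⟨(x, ζ), hc, rfl⟩
  · exact (h.subset (sep_subset _ _)).lt_aleph0.trans_le hμ.1.aleph0_le

/-- The recursion is hidden: this is the working definition of validity. -/
theorem valid_iff : Valid q ↔ DomOK q.D ∧ Unif q ∧ ∀ c ∈ q.D, Name c (q.r c) := by
  rw [b2_valid]
  constructor
  · rintro ⟨⟨a1, a2, a3, a4⟩, a5⟩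
    refine ⟨a1, a2, ?_⟩
    rintro (k | ⟨x, ζ⟩) hc
    · exact a3 k hc
    · exact ⟨(a4 x ζ hc).1, (a4 x ζ hc).2.1, (a4 x ζ hc).2.2,
        (b2_dec' (a4 x ζ hc).2.2).1 (a5 x ζ hc)⟩
  · rintro ⟨a1, a2, a3⟩
    exact ⟨⟨a1, a2, fun k hk => a3 _ hk, fun x ζ hc =>
      ⟨(a3 _ hc).1, (a3 _ hc).2.1, (a3 _ hc).2.2.1⟩⟩,
      fun x ζ hc => (b2_dec' (a3 _ hc).2.2.1).2 (a3 _ hc).2.2.2⟩

theorem Valid.domOK (h : Valid q) : DomOK q.D := (valid_iff.1 h).1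

theorem Valid.unif (h : Valid q) : Unif q := (valid_iff.1 h).2.1

theorem Valid.name (h : Valid q) (hc : c ∈ q.D) : Name c (q.r c) := (valid_iff.1 h).2.2 c hc

theorem Valid.node (h : Valid q) (hc : inr (x, ζ) ∈ q.D) : Node x ∧ ζ < mu x ∧ ζ ∈ x :=
  ⟨(h.name hc).1, (h.name hc).2.1, mem_of_lt_mu (h.name hc).2.1⟩

theorem Valid.val (h : Valid q) (hc : c ∈ q.D) (ω : Pt Λ) : q.r c ω ∈ Val c := b2_val (b2_valid.1 h).1 hc ω

theorem Valid.dep (h : Valid q) (hS : Closed S) (hc : c ∈ q.D) (hc' : c ∈ S) :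
    Dep (q.r c) S := b2_dep (b2_valid.1 h).1 hS hc hc'

theorem Valid.subset_S1_univ (h : Valid q) : q.D ⊆ S1 univ := by
  rintro (k | ⟨x, ζ⟩) hc
  · exact Or.inl mem_Lev_inl
  · obtain ⟨h1, -, h3⟩ := h.node hc
    rcases h1.small_or with h4 | ⟨σ, h4, rfl⟩
    · exact Or.inl ⟨by rw [mu_univ]; exact h4.1, h3⟩
    · exact Or.inr ⟨_, ζ, rfl, (node_Iio h4).2, h3⟩

theorem Valid.fill (h : Valid q) (ω₀ : Pt Λ) : ∃ ω ∈ q.set, (∀ c ∉ q.D, ω.f c = ω₀.f c) ∧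
    ∀ S, (∀ c ∈ q.D ∩ S, Dep (q.r c) S) → ω₀ ∈ (q.res S).set → EqOn ω.f ω₀.f S := b2_fill (b2_valid.1 h).1 ω₀

theorem Valid.nonempty (h : Valid q) : q.set.Nonempty := by
  obtain ⟨ω, hω, -⟩ := h.fill ⟨fun _ => ⊥, by
    rintro (k | k)
    · exact bot_le (a := bd k.1)
    · exact Or.inl rfl⟩
  exact ⟨ω, hω⟩

theorem Valid.of_pieces (h₁ : Valid q₁) (h₂ : Valid q₂)
    (h : ∀ c ∈ q.D, (c ∈ q₁.D ∧ q.r c = q₁.r c) ∨ (c ∈ q₂.D ∧ q.r c = q₂.r c)) : Valid q := b2_pieces h₁ h₂ h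

theorem Valid.modify (h₁ : Valid q₁) (h : ∀ c ∈ q.D, c ∈ q₁.D ∧ (q.r c = q₁.r c ∨
    ∃ x ζ, c = inr (x, ζ) ∧ Name c (q.r c) ∧ Dep (q.r c) (Un x))) : Valid q := by
  refine valid_iff.2 ⟨h₁.domOK.mono fun c hc => (h c hc).1, fun x' s ω hs hs' => ?_,
    fun c hc => ?_⟩
  · obtain ⟨s₁, ω₁, c1, c2, c3, c4, c5⟩ := h₁.unif x' s ω hs hs'
    refine ⟨s₁, ω₁, c1, c2, c3, c4, fun x ζ hc hx => ?_⟩
    rcases h _ hc with ⟨e1, e2 | ⟨x₀, ζ₀, e2, -, e3⟩⟩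
    · rw [e2]
      exact c5 x ζ e1 hx
    · obtain ⟨rfl, rfl⟩ := Prod.mk.inj (inr.inj e2)
      exact e3.depIn
  · rcases h _ hc with ⟨e1, e2 | ⟨x₀, ζ₀, -, e2, -⟩⟩
    · rw [e2]
      exact h₁.name e1
    · exact e2

theorem Valid.res (h : Valid q) (S : Set (Co Λ)) : Valid (q.res S) := b2_res h S

theorem Valid.un (h : Valid q) (h' : Valid q') : Valid (q.un q') := b2_un h h'

theorem valid_cyl (h : s.Finite) (h' : s ⊆ Fn Λ) (ω : Pt Λ) : Valid (cyl s ω) := by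
  refine valid_iff.2 ⟨b2_domOK h, fun x' s₁ ω₁ hs hs' =>
    ⟨s₁, ω₁, hs, hs', Subset.rfl, fun _ _ => rfl, fun x ζ hc => absurd (h' hc) notMem_Fn_inr⟩, ?_⟩
  rintro (k | k) hc
  · exact ⟨ω.f (inl k), ω.mem _, fun _ => rfl⟩
  · exact absurd (h' hc) notMem_Fn_inr

theorem valid_single (h : Name c t) (h' : ∀ x ζ, c = inr (x, ζ) → Dep t (Un x)) :
    Valid (⟨{c}, fun _ => t⟩ : Cond Λ) := by
  refine valid_iff.2 ⟨b2_domOK (finite_singleton c), fun x' s₁ ω₁ hs hs' =>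
    ⟨s₁, ω₁, hs, hs', Subset.rfl, fun _ _ => rfl, fun x ζ hc _ =>
      (h' x ζ (mem_singleton_iff.1 hc).symm).depIn⟩, fun c' hc => ?_⟩
  rw [mem_singleton_iff.1 hc]
  exact h

theorem Valid.set_res_Fn (h : Valid q) (hω : ω ∈ (q.res (Fn Λ)).set) :
    (cyl (q.D ∩ Fn Λ) ω).set = (q.res (Fn Λ)).set := by
  have key : ∀ (ω' : Pt Λ), ∀ c ∈ q.D ∩ Fn Λ, ω.f c = q.r c ω' := by
    rintro ω' _ ⟨hc, k, rfl⟩
    obtain ⟨v, -, hv⟩ := h.name hc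
    rw [hω _ ⟨hc, mem_Fn_inl⟩]
    exact (hv ω).trans (hv ω').symm
  ext ω'
  exact ⟨fun h1 c hc => (h1 c hc).trans (key ω' c hc),
    fun h1 c hc => (h1 c hc).trans (key ω' c hc).symm⟩

theorem res_le' (hq' : Valid q') (h1 : ∀ c ∈ q'.D ∩ S, Dep (q'.r c) S)
    (h2 : ∀ c ∈ q.D, c ∈ S ∧ Dep (q.r c) S) (h : q' ≤ q) : q'.res S ≤ q := b2_res_le' (b2_valid.1 hq').1 h1 h2 h

theorem res_le (hq' : Valid q') (hq : Valid q) (hS : Closed S) (hD : q.D ⊆ S) (h : q' ≤ q) :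
    q'.res S ≤ q :=
  res_le' hq' (fun _ hc => hq'.dep hS hc.1 hc.2) (fun _ hc => ⟨hD hc, hq.dep hS hc (hD hc)⟩) h

theorem res_mono (hq' : Valid q') (hq : Valid q) (hS : Closed S) (h : q' ≤ q) :
    q'.res S ≤ q.res S := res_le hq' (hq.res S) hS inter_subset_right (h.trans le_res)

theorem res_const (hq : Valid q) (hS : Closed S) (ht : Dep t S) {v : Λ}
    (h : ∀ ω ∈ q.set, t ω = v) : ∀ ω ∈ (q.res S).set, t ω = v := b2_res_const (b2_valid.1 hq).1 hS ht h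

/-- An extension is equivalent to one that keeps the old names. -/
theorem fix_le (hq' : Valid q') (hq : Valid q) (h : q' ≤ q) : q.un q' ≤ q' := by
  intro ω hω c
  obtain ⟨h1, h2⟩ := mem_un.1 hω
  have hb := (b2_valid.1 hq).1
  have hb' := (b2_valid.1 hq').1
  induction c using b2_wf.induction with
  | _ c IH =>
    intro hc
    by_cases hD : c ∈ q.D
    · obtain ⟨ω', h3, -, h4⟩ := hq'.fill ω
      have h5 := h4 (b2lo c) (b2_dep_lo' hb' c) fun c' hc' => IH c' hc'.2 hc'.1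
      rw [h1 c hD, ← b2_dep_lo hb hD _ _ h5, ← h h3 c hD, h3 c hc]
      exact b2_dep_lo hb' hc _ _ h5
    · exact h2 c hc hD

theorem dom_mono (hq' : Valid q') (hq : Valid q) (h : q' ≤ q) (hc : inr (x, ζ) ∈ q.D) :
    inr (x, ζ) ∈ q'.D := by
  classical
  by_contra hn
  obtain ⟨ω₀, h0⟩ := hq'.nonempty
  have hb := (b2_valid.1 hq).1
  have hb' := (b2_valid.1 hq').1
  obtain ⟨d, hd, hd'⟩ : ∃ d ∈ Val (inr (x, ζ) : Co Λ), d ≠ q.r (inr (x, ζ)) ω₀ := by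
    by_cases e : q.r (inr (x, ζ)) ω₀ = ⊥
    · refine ⟨one, Or.inr (mem_of_lt_mu (one_lt_rho.trans_le (hq.node hc).1.2.1)), ?_⟩
      rw [e]
      exact Ctx.bot_lt_one.ne'
    · exact ⟨⊥, Or.inl rfl, fun e' => e e'.symm⟩
  let ω₁ : Pt Λ := ⟨fun c => if c = inr (x, ζ) then d else ω₀.f c, fun c => by
    split_ifs with e
    · rw [e]
      exact hd
    · exact ω₀.mem c⟩
  have h1 : EqOn ω₁.f ω₀.f (b2lo (inr (x, ζ))) := fun c hc =>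
    if_neg fun e => by
      rw [e] at hc
      exact lt_irrefl (α := Cardinal.{u}) _ hc
  obtain ⟨ω, h3, h4, h5⟩ := hq'.fill ω₁
  have h6 := h5 _ (b2_dep_lo' hb' (inr (x, ζ))) fun c' hc' => by
    rw [h1 hc'.2, h0 c' hc'.1]
    exact (b2_dep_lo' hb' _ c' hc' _ _ h1).symm
  refine hd' ?_
  rw [← b2_dep_lo hb hc _ _ (h6.trans h1), ← h h3 _ hc, h4 _ hn]
  exact (if_pos rfl).symm

theorem name_const (hx : Node x) (hζ : ζ < mu x) {v : Λ} (hv : v ∈ x) :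
    Name (inr (x, ζ) : Co Λ) fun _ => v := by
  refine ⟨hx, hζ, ⟨{v}, singleton_subset_iff.2 (Or.inl hv), ?_, fun _ _ _ => rfl,
    fun _ => ⟨rfl, hv⟩⟩, fun q hq => ⟨q, hq, le_rfl, v, fun _ _ => rfl⟩⟩
  exact (finite_singleton v).lt_aleph0.trans_le hx.1.1.aleph0_le

theorem dec_eval (hx : Node x) (hζ : ζ < mu x) :
    Dec Valid fun ω : Pt Λ => ω.f (inr (x, ζ)) := by
  intro q hq
  by_cases hc : inr (x, ζ) ∈ q.D
  · obtain ⟨q', h1, h2, v, h3⟩ := (hq.name hc).2.2.2 q hq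
    exact ⟨q', h1, h2, v, fun ω hω => (h2 hω _ hc).trans (h3 ω hω)⟩
  · have h1 := valid_single (name_const hx hζ (mem_of_lt_mu hζ)) fun _ _ _ _ _ _ => rfl
    refine ⟨_, h1.un hq, un_le_of_res (S := ∅) (fun ω _ c hc' => absurd hc'.2 (notMem_empty c))
      ?_, ζ, fun ω hω => un_le_left hω _ rfl⟩
    rintro c ⟨e, hc'⟩
    exact hc (mem_singleton_iff.1 e ▸ hc')

theorem Valid.card_dom (h : Valid q) {c : Cardinal.{u}} (hc : c.IsRegular)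
    (hρ : crd (rho : Λ) ≤ c) : #↥(q.D ∩ Lev c) < c := by
  obtain ⟨h1, ⟨X, hX, h2⟩, h3⟩ := h.domOK
  have h4 : q.D ∩ Lev c ⊆ (q.D ∩ Fn Λ) ∪
      ⋃ x' ∈ {x' ∈ X | Reg (mu x') ∧ rho ≤ mu x' ∧ crd (mu x') < c},
        {c ∈ q.D | ∃ x ζ, c = inr (x, ζ) ∧ mu x = mu x'} := by
    rintro (k | ⟨x, ζ⟩) ⟨h5, h6⟩
    · exact Or.inl ⟨h5, mem_Fn_inl⟩
    · obtain ⟨x', h7, h8⟩ := h2 x ζ h5
      have h9 := (h.node h5).1
      refine Or.inr (mem_biUnion (x := x') ⟨h7, ?_⟩ ⟨h5, x, ζ, rfl, h8.1⟩)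
      rw [← h8.1]
      exact ⟨h9.1, h9.2.1, (crd_mu_le x).trans_lt h6.1⟩
  refine (mk_le_mk_of_subset h4).trans_lt (card_union_lt hc.aleph0_le
    (h1.lt_aleph0.trans_le hc.aleph0_le) (card_iUnion_lt hc ?_ fun x' hx' => ?_))
  · exact (mk_le_mk_of_subset (sep_subset _ _)).trans_lt (hX.trans_le hρ)
  · exact (h3 _ hx'.2.1 hx'.2.2.1).trans hx'.2.2.2

end Pool.Agent.P.MP_a18ac8_lc
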