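import Pool.Agent.P.MP_a18ac8_lc.Basic

universe u

namespace Pool.Agent.P.MP_a18ac8_lc

open Cardinal Set Sum Filter

variable {Λ : Type u} [ConditionallyCompleteLinearOrderBot Λ] [WellFoundedLT Λ]

variable [Ctx Λ] {q q' : Cond Λ} {y y' : Set Λ} {μ : Λ}

/-- Membership in `A` depends only on the values in `y` at the coordinates over `y`. -/
def Satu (y : Set Λ) (A : Set (Pt Λ)) : Prop := ∀ ω ω' : Pt Λ,
  (∀ c ∈ CY y, ω.f c ∈ y ∨ ω'.f c ∈ y → ω.f c = ω'.f c) → ω ∈ A → ω' ∈ A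

theorem Lives.satu (h : Lives q y) : Satu y q.set := by
  intro ω ω' hE hω c hc
  obtain ⟨h1, h2, h3⟩ := h.2 c hc
  have e1 : ω.f c = ω'.f c := hE c h1 (Or.inl (by rw [hω c hc]; exact h3 ω))
  rw [← e1, hω c hc]
  refine h2 ω ω' fun d hd => ?_
  rcases d with k | k
  · exact hE _ hd (Or.inl (h.1 (lt_of_le_of_lt (ω.mem (inl k)) (bd_lt_rho _))))
  · refine hE _ ⟨hd.1 hd.2, Or.inl hd.1⟩ (Or.inl ?_)
    rcases ω.mem (inr k) with h0 | h0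
    · rw [h0]
      exact h.1 bot_lt_rho
    · exact hd.1 h0

theorem CC_card_CY {c : Cardinal.{u}} (hc : c.IsInaccessible) (hy : #y < c) :
    #(CY y : Set (Co Λ)) < c := by
  have h0 : ℵ₀ ≤ c := hc.aleph0_lt.le
  have h1 : (CY y : Set (Co Λ)) ⊆
      inl '' (y ×ˢ (univ : Set ℕ)) ∪ inr '' ((𝒫 y ∪ Iio '' y) ×ˢ y) := by
    rintro (k | k) hk
    · exact Or.inl ⟨k, ⟨hk, trivial⟩, rfl⟩
    · refine Or.inr ⟨k, ⟨?_, hk.1⟩, rfl⟩
      rcases hk.2 with h | ⟨σ, hσ, -, h⟩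
      · exact Or.inl h
      · exact Or.inr ⟨σ, hσ, h.symm⟩
  refine lt_of_le_of_lt (mk_le_mk_of_subset h1) (card_union_lt h0 ?_ ?_)
  · refine lt_of_le_of_lt mk_image_le ?_
    rw [mk_congr (Equiv.Set.prod _ _), mk_prod, lift_uzero, mk_univ, mk_nat, lift_aleph0]
    exact mul_lt_of_lt h0 hy hc.aleph0_lt
  · refine lt_of_le_of_lt mk_image_le ?_
    rw [mk_setProd]
    refine mul_lt_of_lt h0 (card_union_lt h0 ?_ (lt_of_le_of_lt mk_image_le hy)) hy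
    rw [mk_powerset]
    exact hc.isStrongLimit.two_power_lt hy

theorem card_satu {c : Cardinal.{u}} (hc : c.IsInaccessible) (hy : #y < c) :
    #{A : Set (Pt Λ) | Satu y A} < c := by
  let tr : Pt Λ → Set (↥(CY y) × ↥y) := fun ω => {p | ω.f p.1 = p.2}
  have key : ∀ ω ω', tr ω = tr ω' → ∀ c ∈ CY y, ω.f c ∈ y → ω.f c = ω'.f c := by
    intro ω ω' h d hd hv
    have h1 : ((⟨d, hd⟩, ⟨_, hv⟩) : ↥(CY y) × ↥y) ∈ tr ω := rfl
    rw [h] at h1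
    exact Eq.symm h1
  have sub : ∀ A B : Set (Pt Λ), Satu y B → tr '' A = tr '' B → A ⊆ B := by
    intro A B hB h ω hω
    obtain ⟨ω', h1, h2⟩ : tr ω ∈ tr '' B := h ▸ mem_image_of_mem tr hω
    refine hB ω' ω (fun d hd hv => ?_) h1
    rcases hv with hv | hv
    · exact key ω' ω h2 d hd hv
    · exact (key ω ω' h2.symm d hd hv).symm
  have inj : Function.Injective fun A : {A : Set (Pt Λ) | Satu y A} => tr '' A.1 :=
    fun A B h => Subtype.ext ((sub _ _ B.2 h).antisymm (sub _ _ A.2 h.symm))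
  refine lt_of_le_of_lt (mk_le_of_injective inj) ?_
  rw [mk_set, mk_set, mk_prod, lift_id, lift_id]
  exact hc.isStrongLimit.two_power_lt (hc.isStrongLimit.two_power_lt
    (mul_lt_of_lt hc.aleph0_lt.le (CC_card_CY hc hy) hy))

theorem CC_CY_mono (h : y ⊆ y') : (CY y : Set (Co Λ)) ⊆ CY y' := by
  rintro (k | k) hk
  · exact h hk
  · refine ⟨h hk.1, ?_⟩
    rcases hk.2 with h1 | ⟨σ, hσ, h1⟩
    · exact Or.inl (h1.trans h)
    · exact Or.inr ⟨σ, h hσ, h1⟩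

theorem Lives.mono (h : Lives q y) (h' : y ⊆ y') : Lives q y' := by
  refine ⟨h.1.trans h', fun c hc => ?_⟩
  obtain ⟨h1, h2, h3⟩ := h.2 c hc
  exact ⟨CC_CY_mono h' h1, h2.mono (Sp_mono h' (powerset_mono.2 h')), fun ω => h' (h3 ω)⟩

theorem Lives.res (h : Lives q y) (S : Set (Co Λ)) : Lives (q.res S) y :=
  ⟨h.1, fun c hc => h.2 c hc.1⟩

theorem CC_lives_of {c : Cardinal.{u}} (hc : c.IsRegular) (hρ : crd (rho : Λ) < c)
    (hD : #q.D < c) (h : ∀ d ∈ q.D, ∃ y : Set Λ, #y < c ∧ d ∈ CY y ∧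
      Dep (q.r d) (Sp y (𝒫 y)) ∧ ∀ ω, q.r d ω ∈ y) : ∃ y : Set Λ, #y < c ∧ Lives q y := by
  choose! Y hY using h
  refine ⟨Iio rho ∪ ⋃ d ∈ q.D, Y d, card_union_lt hc.aleph0_le hρ
    (card_iUnion_lt hc hD fun d hd => (hY d hd).1), subset_union_left, fun d hd => ?_⟩
  have h1 : Y d ⊆ Iio rho ∪ ⋃ d ∈ q.D, Y d :=
    (subset_biUnion_of_mem (u := Y) hd).trans subset_union_right
  obtain ⟨-, h2, h3, h4⟩ := hY d hd
  exact ⟨CC_CY_mono h1 h2, h3.mono (Sp_mono h1 (powerset_mono.2 h1)), fun ω => h1 (h4 ω)⟩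

theorem CC_inl (h : Valid q) {k : Λ × ℕ} (hk : inl k ∈ q.D) (S : Set (Co Λ)) :
    Dep (q.r (inl k)) S ∧ ∀ ω, q.r (inl k) ω < rho := by
  obtain ⟨v, hv, h1⟩ := h.name hk
  exact ⟨fun ω ω' _ => (h1 ω).trans (h1 ω').symm,
    fun ω => lt_of_le_of_lt ((h1 ω).le.trans hv) (bd_lt_rho _)⟩

theorem CC_col {c : Cardinal.{u}} (hc : c.IsRegular) (hρ : crd (rho : Λ) < c) (h : Valid q)
    {k : Λ × ℕ} (hk : inl k ∈ q.D) : ∃ y : Set Λ, #y < c ∧ (inl k : Co Λ) ∈ CY y ∧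
      Dep (q.r (inl k)) (Sp y (𝒫 y)) ∧ ∀ ω, q.r (inl k) ω ∈ y := by
  refine ⟨Iio rho ∪ {k.1}, card_union_lt hc.aleph0_le hρ ?_, Or.inr rfl, (CC_inl h hk _).1,
    fun ω => Or.inl ((CC_inl h hk ∅).2 ω)⟩
  rw [mk_singleton]
  exact one_lt_aleph0.trans_le hc.aleph0_le

theorem CC_supp {x : Set Λ} {t : Pt Λ → Λ} (h1 : y ⊆ y') (h2 : Dep t (Sp y (𝒫 (y ∩ x))))
    (h3 : ∀ ω, t ω ∈ y ∩ x) : Dep t (Sp y' (𝒫 y')) ∧ ∀ ω, t ω ∈ y' :=
  ⟨h2.mono (Sp_mono h1 (powerset_mono.2 (inter_subset_left.trans h1))), fun ω => h1 (h3 ω).1⟩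

theorem exists_lives (h : Valid q) : ∃ y : Set Λ, #y < crd (kap : Λ) ∧ Lives q y := by
  have hk : Reg (kap : Λ) := kap_reg
  have hρ : crd (rho : Λ) < crd (kap : Λ) := hk.2 _ Ctx.rho_lt
  have h0 := hk.1.aleph0_le
  refine CC_lives_of hk.1 hρ ?_ ?_
  · have h1 : q.D ⊆ (q.D ∩ Lev (crd (kap : Λ))) ∪
        {c ∈ q.D | ∃ x ζ, c = inr (x, ζ) ∧ mu x = kap} := by
      intro c hc
      rcases h.subset_S1_univ hc with h2 | ⟨x, ζ, h2, h3, -⟩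
      · rw [mu_univ] at h2
        exact Or.inl ⟨hc, h2⟩
      · exact Or.inr ⟨hc, x, ζ, h2, h3.1.trans mu_univ⟩
    exact lt_of_le_of_lt (mk_le_mk_of_subset h1)
      (card_union_lt h0 (h.card_dom hk.1 hρ.le) (h.domOK.2.2 kap hk Ctx.rho_lt.le))
  · rintro (k | ⟨x, ζ⟩) hd
    · exact CC_col hk.1 hρ h hd
    · obtain ⟨hx, -, ⟨y, -, h1, h2, h3⟩, -⟩ := h.name hd
      have h4 : #y < crd (kap : Λ) := h1.trans_le (crd_mono (mu_le_kap x))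
      have h5 : ζ ∈ x := (h.node hd).2.2
      rcases hx.small_or with ⟨h6, -⟩ | ⟨σ, h6, h7⟩
      · exact ⟨y ∪ x, card_union_lt h0 h4 h6, ⟨Or.inr h5, Or.inl subset_union_right⟩,
          CC_supp subset_union_left h2 h3⟩
      · refine ⟨y ∪ {σ, ζ}, card_union_lt h0 h4 ?_,
          ⟨Or.inr (Or.inr rfl), Or.inr ⟨σ, Or.inr (Or.inl rfl), h6, h7⟩⟩,
          CC_supp subset_union_left h2 h3⟩
        exact (toFinite _).lt_aleph0.trans_le h0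

theorem CC_card_D (hμ : Reg μ) (hρ : rho < μ) (h : VL μ q) : #q.D < crd μ := by
  have := h.1.card_dom hμ.1 (hμ.2 _ hρ).le
  rwa [inter_eq_left.2 h.2] at this

theorem exists_lives_VL (hμ : Reg μ) (hρ : rho < μ) (h : VL μ q) :
    ∃ y : Set Λ, #y < crd μ ∧ Lives q y := by
  refine CC_lives_of hμ.1 (hμ.2 _ hρ) (CC_card_D hμ hρ h) ?_
  rintro (k | ⟨x, ζ⟩) hd
  · exact CC_col hμ.1 (hμ.2 _ hρ) h.1 hd
  · obtain ⟨-, -, ⟨y, -, h1, h2, h3⟩, -⟩ := h.1.name hd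
    obtain ⟨h4, h5⟩ := h.2 hd
    exact ⟨y ∪ x, card_union_lt hμ.1.aleph0_le (h1.trans ((crd_mu_le x).trans_lt h4)) h4,
      ⟨Or.inr h5, Or.inl subset_union_right⟩, CC_supp subset_union_left h2 h3⟩

/-- The ordinals that a valid name at a coordinate may use. -/
def CC_base : Co Λ → Set Λ
  | inl k => {k.1}
  | inr k => st k.1

theorem CC_card_base (hμ : Reg μ) {d : Co Λ} (hd : d ∈ Lev (crd μ)) : #(CC_base d) < crd μ := by
  rcases d with k | k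
  · change #({k.1} : Set Λ) < crd μ
    rw [mk_singleton]
    exact one_lt_aleph0.trans_le hμ.1.aleph0_le
  · obtain ⟨ξ, hξ, h1⟩ := hμ.exists_crd hd.1
    refine card_union_lt hμ.1.aleph0_le hd.1 (lt_of_le_of_lt ?_ (hμ.2 ξ hξ))
    refine mk_le_mk_of_subset fun i hi => ?_
    by_contra h2
    exact absurd (h1 ▸ hi : crd i < crd ξ) (not_lt.2 (crd_mono (not_lt.1 h2)))

/-- A small set of coordinates carries a small set over which all restrictions live. -/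
theorem CC_few (hμ : Reg μ) (hρ : rho < μ) {E : Set (Co Λ)} (hE : #E < crd μ)
    (hL : E ⊆ Lev (crd μ)) :
    ∃ Y : Set Λ, #Y < crd μ ∧ ∀ p : Cond Λ, Valid p → Lives (p.res E) Y := by
  refine ⟨Iio rho ∪ ⋃ d ∈ E, CC_base d, card_union_lt hμ.1.aleph0_le (hμ.2 _ hρ)
    (card_iUnion_lt hμ.1 hE fun d hd => CC_card_base hμ (hL hd)), fun p hp => ?_⟩
  refine ⟨subset_union_left, fun d hd => ?_⟩
  have h1 : CC_base d ⊆ Iio rho ∪ ⋃ d ∈ E, CC_base d :=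
    (subset_biUnion_of_mem (u := CC_base) hd.2).trans subset_union_right
  rcases d with k | ⟨x, ζ⟩
  · exact ⟨h1 rfl, (CC_inl hp hd.1 _).1, fun ω => Or.inl ((CC_inl hp hd.1 ∅).2 ω)⟩
  · obtain ⟨-, -, ⟨y, h2, -, h3, h4⟩, -⟩ := hp.name hd.1
    have h5 : x ⊆ Iio rho ∪ ⋃ d ∈ E, CC_base d := subset_union_left.trans h1
    exact ⟨⟨h5 (hp.node hd.1).2.2, Or.inl h5⟩, CC_supp (h2.trans h1) h3 h4⟩

omit [Ctx Λ] in
/-- Coding of small families by bounded sets of ordinals. -/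
theorem CC_code {X : Type u} (hμ : Reg μ) (T : Λ → Set X) (hT : ∀ β < μ, #(T β) < crd μ) :
    ∃ (e : Λ → X → Λ) (f : Λ → Λ), (∀ β < μ, f β < μ) ∧ (∀ β < μ, ∀ a ∈ T β, e β a < f β) ∧
      ∀ β < μ, ∀ a ∈ T β, ∀ β' < μ, ∀ a' ∈ T β', e β a = e β' a' → β = β' ∧ a = a' := by
  classical
  let Ω : Set (Λ × X) := ⋃ β ∈ Iio μ, Prod.mk β '' T β
  have h1 : #Ω ≤ #(Iio μ) := by
    refine (mk_biUnion_le _ _).trans ?_
    refine (mul_le_mul' le_rfl (ciSup_le' fun β : Iio μ => mk_image_le.trans (hT β β.2).le)).trans ?_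
    exact (mul_eq_self hμ.1.aleph0_le).le
  obtain ⟨j⟩ := h1
  have h2 : ∀ β < μ, ∀ a ∈ T β, (β, a) ∈ Ω := fun β hβ a ha =>
    mem_biUnion (show β ∈ Iio μ from hβ) (mem_image_of_mem _ ha)
  let e : Λ → X → Λ := fun β a => if h : (β, a) ∈ Ω then (j ⟨_, h⟩ : Λ) else ⊥
  have h3 : ∀ β (hβ : β < μ) a (ha : a ∈ T β), e β a = j ⟨_, h2 β hβ a ha⟩ :=
    fun β hβ a ha => dif_pos _
  have h4 : ∀ β < μ, ∃ γ < μ, ∀ a ∈ T β, e β a < γ := by
    intro β hβ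
    obtain ⟨γ, hγ, h5⟩ := hμ.bdd (s := e β '' T β) (by
      rintro - ⟨a, ha, rfl⟩
      rw [h3 β hβ a ha]
      exact (j _).2) (lt_of_le_of_lt mk_image_le (hT β hβ))
    exact ⟨γ, hγ, fun a ha => h5 _ (mem_image_of_mem _ ha)⟩
  choose! f hf hf' using h4
  refine ⟨e, f, hf, hf', fun β hβ a ha β' hβ' a' ha' h => ?_⟩
  rw [h3 β hβ a ha, h3 β' hβ' a' ha'] at h
  have h5 := congrArg Subtype.val (j.injective (Subtype.ext h))
  exact Prod.mk.inj h5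

/-- The union of the nodes of a small set of coordinates. -/
theorem CC_level (hμ : Reg μ) {E : Set (Co Λ)} (hE : #E < crd μ) (hL : E ⊆ Lev (crd μ)) :
    ∃ γ < μ, ∀ α, Reg α → γ < α → E ⊆ Lev (crd α) := by
  obtain ⟨γ, hγ, h1⟩ := hμ.exists_crd
    (card_iUnion_lt hμ.1 hE fun d hd => CC_card_base hμ (hL hd))
  refine ⟨γ, hγ, fun α hα h2 d hd => ?_⟩
  rcases d with k | k
  · trivial
  · refine ⟨lt_of_le_of_lt ?_ (hα.2 γ h2), (hL hd).2⟩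
    rw [h1]
    exact mk_le_mk_of_subset
      (subset_union_left.trans (subset_biUnion_of_mem (u := CC_base) hd))

theorem pair_cc (hμ : Inac μ) (hρ : rho < μ) (hK : KP μ) (q q' : Λ → Cond Λ)
    (hq : ∀ α < μ, VL μ (q α)) (hq' : ∀ α < μ, VL μ (q' α)) :
    ∃ α α', α < α' ∧ α' < μ ∧ (q α).un (q α') ≤ q α' ∧ (q' α).un (q' α') ≤ q' α' := by
  have hr := hμ.reg
  have h0 := hr.1.aleph0_le
  let D : Λ → Set (Co Λ) := fun β => (q β).D ∪ (q' β).D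
  have hD : ∀ β < μ, #(D β) < crd μ := fun β hβ =>
    card_union_lt h0 (CC_card_D hr hρ (hq β hβ)) (CC_card_D hr hρ (hq' β hβ))
  have hDL : ∀ β < μ, D β ⊆ Lev (crd μ) := fun β hβ => union_subset (hq β hβ).2 (hq' β hβ).2
  let E : Λ → Set (Co Λ) := fun β => ⋃ β' ∈ Iio β, D β'
  have hE : ∀ β < μ, #(E β) < crd μ := fun β hβ =>
    card_iUnion_lt hr.1 (hr.2 β hβ) fun β' h => hD β' (lt_trans h hβ)
  have hEL : ∀ β < μ, E β ⊆ Lev (crd μ) := fun β hβ =>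
    iUnion₂_subset fun β' h => hDL β' (lt_trans h hβ)
  choose! f hf hf' using fun β hβ => CC_level hr (hD β hβ) (hDL β hβ)
  choose! Y hY hY' using fun β hβ => CC_few hr hρ (hE β hβ) (hEL β hβ)
  obtain ⟨e, g, hg, hg', he⟩ := CC_code hr
    (fun β => {A : Set (Pt Λ) | Satu (Y β) A} ×ˢ {A : Set (Pt Λ) | Satu (Y β) A}) (by
      intro β hβ
      rw [mk_setProd]
      exact mul_lt_of_lt h0 (card_satu hμ.1 (hY β hβ)) (card_satu hμ.1 (hY β hβ)))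
  have hb : ∀ α, α < μ ∧ Reg α ∧ rho < α ∧ (∀ β < α, max (f β) (g β) < α) →
      ∃ b < α, D α ∩ E α ⊆ E b := by
    rintro α ⟨hα, h1, h2, h3⟩
    have h4 : E α ⊆ Lev (crd α) := iUnion₂_subset fun β hβ =>
      hf' β (lt_trans hβ hα) α h1 ((le_max_left _ _).trans_lt (h3 β hβ))
    have h5 : #↥(D α ∩ E α) < crd α := by
      refine lt_of_le_of_lt (mk_le_mk_of_subset ?_) (card_union_lt h1.1.aleph0_le
        ((hq α hα).1.card_dom h1.1 (h1.2 _ h2).le) ((hq' α hα).1.card_dom h1.1 (h1.2 _ h2).le))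
      rintro d ⟨h5 | h5, h6⟩
      exacts [Or.inl ⟨h5, h4 h6⟩, Or.inr ⟨h5, h4 h6⟩]
    have h6 : ∀ d ∈ D α ∩ E α, ∃ β < α, d ∈ D β := by
      intro d hd
      obtain ⟨β, hβ, h6⟩ := mem_iUnion₂.1 hd.2
      exact ⟨β, hβ, h6⟩
    choose! k hk hk' using h6
    obtain ⟨b, hb, h7⟩ := h1.bdd (s := k '' (D α ∩ E α)) (by
      rintro - ⟨d, hd, rfl⟩
      exact hk d hd) (lt_of_le_of_lt mk_image_le h5)
    exact ⟨b, hb, fun d hd => mem_biUnion (h7 _ (mem_image_of_mem k hd)) (hk' d hd)⟩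
  choose! b hb hb' using hb
  have hm : ∀ α < μ, ∀ β < μ, (((q α).res (E β)).set, ((q' α).res (E β)).set) ∈
      {A : Set (Pt Λ) | Satu (Y β) A} ×ˢ {A : Set (Pt Λ) | Satu (Y β) A} := fun α hα β hβ =>
    ⟨(hY' β hβ _ (hq α hα).1).satu, (hY' β hβ _ (hq' α hα).1).satu⟩
  obtain ⟨α, α', h1, h2, h3, h4, h5⟩ := hK (fun β => max (f β) (g β))
    (fun α => e (b α) (((q α).res (E (b α))).set, ((q' α).res (E (b α))).set))
    (fun β hβ => max_lt (hf β hβ) (hg β hβ)) (by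
      intro α hα h1 h2 h3
      have h4 := hb α ⟨hα, h1, h2, h3⟩
      exact (hg' _ (h4.trans hα) _ (hm α hα _ (h4.trans hα))).trans
        ((le_max_right _ _).trans_lt (h3 _ h4)))
  have hα : α < μ := h1.trans h2
  have h6 := (hb α ⟨hα, h3⟩).trans hα
  have h7 := (hb α' ⟨h2, h4⟩).trans h2
  obtain ⟨h8, h9⟩ := he _ h6 _ (hm α hα _ h6) _ h7 _ (hm α' h2 _ h7) h5
  obtain ⟨h10, h11⟩ := Prod.mk.inj h9
  have h12 : D α ∩ D α' ⊆ E (b α') := fun d hd =>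
    hb' α' ⟨h2, h4⟩ ⟨hd.2, mem_biUnion (show α ∈ Iio α' from h1) hd.1⟩
  refine ⟨α, α', h1, h2, un_le_of_res (S := E (b α')) ?_ ?_, un_le_of_res (S := E (b α')) ?_ ?_⟩
  · rw [Cond.le_def, ← h10]
    exact le_res
  · exact fun d hd => h12 ⟨Or.inl hd.1, Or.inl hd.2⟩
  · rw [Cond.le_def, ← h11]
    exact le_res
  · exact fun d hd => h12 ⟨Or.inr hd.1, Or.inr hd.2⟩

theorem cc (hμ : Inac μ) (hρ : rho < μ) (hK : KP μ) {I : Type u} {s : Set I} (hs : crd μ ≤ #s)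
    (q : I → Cond Λ) (hq : ∀ i ∈ s, VL μ (q i)) :
    ∃ i ∈ s, ∃ j ∈ s, i ≠ j ∧ ∃ r, VL μ r ∧ r ≤ q i ∧ r ≤ q j := by
  classical
  obtain ⟨j⟩ := hs
  let p : Λ → Cond Λ := fun α => if h : α < μ then q (j ⟨α, h⟩) else ⟨∅, fun _ _ => ⊥⟩
  have hp : ∀ α (h : α < μ), p α = q (j ⟨α, h⟩) := fun α h => dif_pos h
  have hv : ∀ α < μ, VL μ (p α) := fun α h => hp α h ▸ hq _ (j ⟨α, h⟩).2
  obtain ⟨α, α', h1, h2, h3, -⟩ := pair_cc hμ hρ hK p p hv hv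
  have hα := h1.trans h2
  refine ⟨j ⟨α, hα⟩, (j _).2, j ⟨α', h2⟩, (j _).2, fun h => ?_, (p α).un (p α'),
    ⟨(hv α hα).1.un (hv α' h2).1, union_subset (hv α hα).2 (hv α' h2).2⟩, ?_, ?_⟩
  · exact h1.ne (congrArg Subtype.val (j.injective (Subtype.ext h)))
  · rw [← hp α hα]
    exact un_le_left
  · rw [← hp α' h2]
    exact h3

end Pool.Agent.P.MP_a18ac8_lc
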