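import Pool.Agent.P.MP_a18ac8_lc.Fusion3

/-!
The fusion lemma.
-/

universe u

set_option linter.unusedSectionVars false

namespace Pool.Agent.P.MP_a18ac8_lc

open Cardinal Set Sum Filter

variable {Λ : Type u} [ConditionallyCompleteLinearOrderBot Λ] [WellFoundedLT Λ]

variable [Ctx Λ]

/-- Admissible steering columns. -/
def Adm (L L₁ : Set (Set Λ)) (grp : Set Λ → Set Λ) (Y : Set (Set Λ)) (K : Set Λ) (i : Λ)
    (ι : Set Λ → Λ) : Prop :=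
  i ∉ K ∧ i ≠ ⊥ ∧ (∀ y ∈ Y, ι y ∉ K ∧ ι y ≠ ⊥) ∧
    (∀ x ∈ L, Node x → i ∈ st x ∧ (x ∉ L₁ → i ∈ x)) ∧ ∀ x ∈ L₁, grp x ∈ Y → ι (grp x) ∈ x

variable {L L₁ : Set (Set Λ)} {grp : Set Λ → Set Λ} {q₀ : Cond Λ}
  {Good : ℕ → Cond Λ → Cond Λ → Prop}

/-- The cells of the columns in `T` below `n`. -/
def cells (T : Set Λ) (n : ℕ) : Set (Co Λ) := inl '' (T ×ˢ Iio n)

theorem cells_finite {T : Set Λ} (hT : T.Finite) (n : ℕ) : (cells T n).Finite :=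
  (hT.prod (Set.finite_lt_nat n)).image _

theorem cells_subset (T : Set Λ) (n : ℕ) : cells T n ⊆ Fn Λ := image_subset_range _ _

theorem mem_cells {T : Set Λ} {n m : ℕ} {ξ : Λ} (h : ξ ∈ T) (h' : m < n) :
    inl (ξ, m) ∈ cells T n := ⟨(ξ, m), ⟨h, h'⟩, rfl⟩

theorem exists_time {s : Set (Co Λ)} (hs : s.Finite) : ∃ n, ∀ ξ m, inl (ξ, m) ∈ s → m < n := by
  obtain ⟨n, hn⟩ := ((hs.preimage (f := inl) inl_injective.injOn).image Prod.snd).bddAbove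
  exact ⟨n + 1, fun ξ m h => Nat.lt_succ_of_le (hn ⟨(ξ, m), h, rfl⟩)⟩

theorem oc_inr_of_mem {x : Set Λ} {ζ : Λ} (h : x ∈ L₁) :
    oc L₁ grp (inr (x, ζ)) = some (grp x) := if_pos h

theorem oc_inr_of_notMem {x : Set Λ} {ζ : Λ} (h : x ∉ L₁) :
    oc L₁ grp (inr (x, ζ)) = none := if_neg h

namespace FD

variable (d : FD L L₁ grp q₀ Good) {i : Λ} {ι : Set Λ → Λ}

theorem col_mem (Y : Set (Set Λ)) (o : Option (Set Λ)) :
    col i ι Y o = i ∨ ∃ y ∈ Y, o = some y ∧ col i ι Y o = ι y := by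
  rcases o with _ | y
  · exact Or.inl rfl
  · simp only [col]
    split_ifs with h
    exacts [Or.inr ⟨y, h, rfl, rfl⟩, Or.inl rfl]

theorem fin_name (hL : L₁ ⊆ L) (ha : Adm L L₁ grp d.Y (insert d.τ d.K) i ι) {x : Set Λ} {ζ : Λ}
    (hc : inr (x, ζ) ∈ ⋃ q ∈ ⋃ a ∈ d.S, range a.R, q.D) :
    Name (inr (x, ζ) : Co Λ) (d.nm i ι (inr (x, ζ))) := by
  classical
  obtain ⟨c1, hv, -, -⟩ := domOK_states d.cS d.inv
  obtain ⟨q₁, hq₁, hc₁⟩ := mem_iUnion₂.1 hc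
  obtain ⟨hx, hζ, -⟩ := (hv q₁ hq₁).node hc₁
  have hρ : ∀ ξ < rho, ξ ∈ x := fun ξ h => mem_of_lt_mu (h.trans_le hx.2.1)
  have hℵ : ℵ₀ < crd (mu x) := aleph0_lt_rho.trans_le (crd_mono hx.2.1)
  have hgx : x ∈ L₁ → grp x ∈ d.Y := by
    intro h
    obtain ⟨a, h1, s, rfl⟩ := mem_iUnion₂.1 hq₁
    exact d.grpY a h1 s x h ζ hc₁
  refine ⟨hx, hζ, ?_, fun q hq => ?_⟩
  · have h1 : ∀ q ∈ ⋃ a ∈ d.S, range a.R, ∃ y ⊆ st x, #y < crd (mu x) ∧ (inr (x, ζ) ∈ q.D →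
        Dep (q.r (inr (x, ζ))) (Sp y (𝒫 (y ∩ x))) ∧ ∀ ω, q.r (inr (x, ζ)) ω ∈ y ∩ x) := by
      intro q hq
      by_cases h : inr (x, ζ) ∈ q.D
      · obtain ⟨y, h1, h2, h3⟩ := ((hv q hq).name h).2.2.1
        exact ⟨y, h1, h2, fun _ => h3⟩
      · exact ⟨∅, empty_subset _, by simpa using hx.1.1.pos, fun h' => (h h').elim⟩
    choose! yy y1 y2 y3 using h1
    let T : Set Λ := {⊥, d.τ} ∪ {ξ | x ∈ L ∧ ξ = i} ∪ {ξ | x ∈ L₁ ∧ ξ = ι (grp x)}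
    have hT : T.Finite := ((toFinite _).union ((finite_singleton i).subset fun _ h => h.2)).union
      ((finite_singleton _).subset fun _ h => h.2)
    have hsub : ∀ q ∈ ⋃ a ∈ d.S, range a.R, yy q ⊆ T ∪ ⋃ q ∈ ⋃ a ∈ d.S, range a.R, yy q :=
      fun q hq => (subset_biUnion_of_mem hq).trans subset_union_right
    refine ⟨T ∪ ⋃ q ∈ ⋃ a ∈ d.S, range a.R, yy q, union_subset ?_ (iUnion₂_subset y1),
      card_union_lt hℵ.le ((le_aleph0_iff_set_countable.2 hT.countable).trans_lt hℵ)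
        (card_iUnion_lt hx.1.1 (c1.trans_le (crd_mono hx.2.1)) y2), fun ω ω' h => ?_, fun ω => ?_⟩
    · rintro ξ (((rfl | rfl) | ⟨h, rfl⟩) | ⟨h, rfl⟩)
      exacts [Or.inl (hρ _ bot_lt_rho), Or.inl (hρ _ d.τρ), (ha.2.2.2.1 x h hx).1,
        Or.inl (ha.2.2.2.2 x h (hgx h))]
    · have g1 : ∀ ξ ∈ T, ∀ m, ω.f (inl (ξ, m)) = ω'.f (inl (ξ, m)) :=
        fun ξ hξ m => h (mem_Sp_inl.2 (Or.inl hξ))
      have g2 : ∀ m, ω.f (inl (d.τ, m)) = ω'.f (inl (d.τ, m)) :=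
        g1 _ (Or.inl (Or.inl (Or.inr rfl)))
      refine d.nm_congr i ι (fun k => ?_) fun k hk _ => (y3 _ (d.RR_mem i ι ω _ k) hk).1 ω ω'
        (h.mono (Sp_mono (hsub _ (d.RR_mem i ι ω _ k)) (powerset_mono.2
          (inter_subset_inter_left _ (hsub _ (d.RR_mem i ι ω _ k))))))
      by_cases hxL : x ∈ L
      · rw [d.RR_congr i ι (fun m _ => g2 m) fun m _ => g1 _ ?_ m]
        · exact fun _ _ => ⟨Iff.rfl, fun _ => rfl⟩
        · rcases col_mem (i := i) (ι := ι) (d.run ω (m + 1)).1.Y (oc L₁ grp (inr (x, ζ))) with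
            h1 | ⟨y, -, h1, h2⟩
          · exact Or.inl (Or.inr ⟨hxL, h1⟩)
          · by_cases h3 : x ∈ L₁
            · rw [oc_inr_of_mem h3] at h1
              exact Or.inr ⟨h3, by rw [h2, Option.some_injective _ h1]⟩
            · rw [oc_inr_of_notMem h3] at h1
              cases h1
      · refine d.RR_agr_common i ι (fun x' ζ' h1 => ?_) fun m _ => g2 m
        cases h1
        exact hxL
    · by_cases h : ∃ k, inr (x, ζ) ∈ (d.RR i ι ω (inr (x, ζ)) k).D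
      · obtain ⟨k, hk⟩ := h
        rw [d.nm_eq i ι hk]
        have := (y3 _ (d.RR_mem i ι ω _ k) hk).2 ω
        exact ⟨hsub _ (d.RR_mem i ι ω _ k) this.1, this.2⟩
      · rw [nm, dif_neg h]
        exact ⟨Or.inl (Or.inl (Or.inl (Or.inl rfl))), hρ _ bot_lt_rho⟩
  · by_cases h : ∃ ω ∈ q.set, ∃ k, inr (x, ζ) ∈ (d.RR i ι ω (inr (x, ζ)) k).D
    · obtain ⟨ω, hω, k, hk⟩ := h
      have h1 : Valid ((cyl (cells {d.τ, i, ι (grp x)} k) ω).un q) :=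
        (valid_cyl (cells_finite (toFinite _) k) (cells_subset _ _) ω).un hq
      have h2 : (cyl (cells {d.τ, i, ι (grp x)} k) ω).un q ≤ q := by
        refine un_le_of_res (S := cells {d.τ, i, ι (grp x)} k) ?_ inter_subset_left
        intro ω' hω' c hc
        obtain ⟨k', -, rfl⟩ := hc.2
        obtain ⟨v, -, hv⟩ := hq.name hc.1
        rw [hω' _ hc.2]
        exact (hω _ hc.1).trans ((hv ω).trans (hv ω').symm)
      obtain ⟨q', g1, g2, v, g3⟩ := ((hv _ (d.RR_mem i ι ω _ k)).name hk).2.2.2 _ h1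
      refine ⟨q', g1, g2.trans h2, v, fun ω' hω' => ?_⟩
      have g4 : EqOn ω'.f ω.f (cells {d.τ, i, ι (grp x)} k) := un_le_left (g2 hω')
      have g5 : d.RR i ι ω (inr (x, ζ)) k = d.RR i ι ω' (inr (x, ζ)) k := by
        refine d.RR_congr i ι (fun m hm => (g4 (mem_cells (by simp) hm)).symm)
          fun m hm => (g4 (mem_cells ?_ hm)).symm
        rcases col_mem (i := i) (ι := ι) (d.run ω (m + 1)).1.Y (oc L₁ grp (inr (x, ζ))) with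
          h1 | ⟨y, -, h1, h2⟩
        · simp [h1]
        · by_cases h3 : x ∈ L₁
          · rw [oc_inr_of_mem h3] at h1
            rw [h2, Option.some_injective _ h1]
            simp
          · rw [oc_inr_of_notMem h3] at h1
            cases h1
      rw [d.nm_eq i ι (g5 ▸ hk), ← g5]
      exact g3 ω' hω'
    · exact ⟨q, hq, le_rfl, ⊥, fun ω hω => dif_neg fun h' => h ⟨ω, hω, h'⟩⟩

theorem fin_unif (hL : L₁ ⊆ L)
    (hgrp : ∀ x ∈ L₁, ∀ x' ∈ L₁, ∀ x'', Ini x x'' → Ini x' x'' → grp x = grp x')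
    (ha : Adm L L₁ grp d.Y (insert d.τ d.K) i ι) : Unif (d.fin i ι) := by
  classical
  intro x' s ω hs hs'
  obtain ⟨c1, hv, -, -⟩ := domOK_states d.cS d.inv
  obtain ⟨n, hn⟩ := exists_time hs
  obtain ⟨o, ho1, ho2⟩ : ∃ o : Option (Set Λ), (∀ y, o = some y → y ∈ d.Y) ∧
      ∀ x ∈ L₁, Ini x x' → (∃ ζ, inr (x, ζ) ∈ ⋃ q ∈ ⋃ a ∈ d.S, range a.R, q.D) →
        o = some (grp x) := by
    by_cases h : ∃ x ∈ L₁, Ini x x' ∧ ∃ ζ, inr (x, ζ) ∈ ⋃ q ∈ ⋃ a ∈ d.S, range a.R, q.D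
    · obtain ⟨x, h1, h2, ζ, h3⟩ := h
      refine ⟨some (grp x), fun y hy => ?_, fun x₁ h4 h5 _ => by rw [hgrp x h1 x₁ h4 x' h2 h5]⟩
      obtain ⟨q, h4, h5⟩ := mem_iUnion₂.1 h3
      obtain ⟨a, h6, t, rfl⟩ := mem_iUnion₂.1 h4
      rw [← Option.some_injective _ hy]
      exact d.grpY a h6 t x h1 ζ h5
    · exact ⟨none, fun _ h => (by cases h), fun x h1 h2 h3 => (h ⟨x, h1, h2, h3⟩).elim⟩
  obtain ⟨v, hvτ, hv1, hv2⟩ := d.decOn x' _ (insIn_triv d.K ho1)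
  set ω₁ := pw {inl (d.τ, n)} (ptAt d.τρ hvτ) ω with hω₁
  have e1 : ω₁.f (inl (d.τ, n)) = v := by
    rw [hω₁, pw_mem (mem_singleton _)]; exact if_pos rfl
  have e2 : EqOn ω₁.f ω.f s := fun c hc => pw_notMem (by
    rintro rfl
    exact lt_irrefl _ (hn _ _ hc))
  let T : Set Λ := {d.τ, i, ι (o.getD ∅)}
  have f1 : (s ∪ cells T (n + 1)).Finite := hs.union (cells_finite (toFinite _) _)
  have vR : ∀ t, Valid ((d.run ω₁ n).1.R t) := fun t => ((d.inv _ (d.run_mem ω₁ n).1).2.1 t).1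
  obtain ⟨s₂, ω₂, f₂, g₂, i₂, e₂, d₂⟩ := (vR (d.view i ι ω₁ none n)).unif x' _ ω₁ f1
    (union_subset hs' (cells_subset _ _))
  obtain ⟨s₃, ω₃, f₃, g₃, i₃, e₃, d₃⟩ := (vR (d.view i ι ω₁ o n)).unif x' s₂ ω₂ f₂ g₂
  refine ⟨s₃, ω₃, f₃, g₃, subset_union_left.trans (i₂.trans i₃), fun c hc =>
    (e₃ (i₂ (Or.inl hc))).trans ((e₂ (Or.inl hc)).trans (e2 hc)), fun x ζ hc hx => ?_⟩
  have hc' := hc.resolve_left fun h => notMem_Fn_inr h.2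
  obtain ⟨q₁, hq₁, hc₁⟩ := mem_iUnion₂.1 hc'
  obtain ⟨hnode, -, -⟩ := (hv q₁ hq₁).node hc₁
  have hτx : d.τ ∈ x := mem_of_lt_mu (d.τρ.trans_le hnode.2.1)
  have hcl : oc L₁ grp (inr (x, ζ)) = none ∨ oc L₁ grp (inr (x, ζ)) = o := by
    by_cases h : x ∈ L₁
    · exact Or.inr ((oc_inr_of_mem h).trans (ho2 x h hx ⟨ζ, hc'⟩).symm)
    · exact Or.inl (oc_inr_of_notMem h)
  have hcol : ∀ Y, col i ι Y (oc L₁ grp (inr (x, ζ))) ∈ T := by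
    intro Y
    rcases col_mem (i := i) (ι := ι) Y (oc L₁ grp (inr (x, ζ))) with h1 | ⟨y, -, h1, h2⟩
    · simp [T, h1]
    · rcases hcl with h3 | h3
      · rw [h3] at h1; cases h1
      · rw [h2]
        rw [h3] at h1
        simp [T, h1]
  have hcell : ∀ ωa : Pt Λ, EqOn ωa.f ω₃.f s₃ → ∀ ξ ∈ T, ∀ m < n + 1,
      ω₁.f (inl (ξ, m)) = ωa.f (inl (ξ, m)) := fun ωa h ξ hξ m hm =>
    ((h (i₃ (i₂ (Or.inr (mem_cells hξ hm))))).trans ((e₃ (i₂ (Or.inr (mem_cells hξ hm)))).trans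
      (e₂ (Or.inr (mem_cells hξ hm))))).symm
  rw [fin_r]
  intro ωa ωb ha' hb' hab
  have g2 : ∀ m, ωa.f (inl (d.τ, m)) = ωb.f (inl (d.τ, m)) := fun m => hab (show d.τ ∈ x from hτx)
  have r1 : d.run ω₁ (n + 1) = d.run ωa (n + 1) :=
    d.run_congr fun m hm => hcell ωa ha' _ (by simp [T]) m hm
  refine d.nm_congr i ι (fun k => ?_) fun k hk hk' => ?_
  · by_cases hxL : x ∈ L
    · rw [d.RR_congr i ι (fun m _ => g2 m) fun m _ => ?_]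
      · exact fun _ _ => ⟨Iff.rfl, fun _ => rfl⟩
      · by_cases hm : m < n + 1
        · exact (hcell ωa ha' _ (hcol _) m hm).symm.trans (hcell ωb hb' _ (hcol _) m hm)
        · refine hab (show col i ι _ _ ∈ x from ?_)
          by_cases h : x ∈ L₁
          · have h1 : grp x ∈ (d.run ωa (m + 1)).1.Y := by
              refine d.run_Y_mono ωa (show n + 1 ≤ m + 1 by omega) ?_
              change grp x ∈ (d.run ωa (n + 1)).1.Y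
              rw [← r1, run_Y, e1, hv1]
              exact Or.inr (ho2 x h hx ⟨ζ, hc'⟩)
            rw [oc_inr_of_mem h]
            simp only [col, if_pos h1]
            exact ha.2.2.2.2 x h (d.run_Y_subset _ _ h1)
          · rw [oc_inr_of_notMem h]
            exact (ha.2.2.2.1 x hxL hnode).2 h
    · refine d.RR_agr_common i ι (fun x' ζ' h1 => ?_) fun m _ => g2 m
      cases h1
      exact hxL
  · by_cases hkn : k ≤ n
    · have h1 := d.RR_ext i ι ωa (inr (x, ζ)) hkn _ hk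
      have h2 : d.RR i ι ω₁ (inr (x, ζ)) n = d.RR i ι ωa (inr (x, ζ)) n :=
        d.RR_congr i ι (fun m hm => hcell ωa ha' _ (by simp [T]) m (by omega))
          fun m hm => hcell ωa ha' _ (hcol _) m (by omega)
      rw [← h1.2]
      rw [← h2] at h1 ⊢
      rcases hcl with h3 | h3 <;> rw [RR, h3] at h1 ⊢
      · exact ((d₂ x ζ h1.1 hx).mono i₃ e₃) ωa ωb ha' hb' hab
      · exact d₃ x ζ h1.1 hx ωa ωb ha' hb' hab
    · obtain ⟨k, rfl⟩ : ∃ k', k = k' + 1 := ⟨k - 1, by omega⟩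
      refine (d.run_rel ωa k).choose_spec.new _ _ x ζ hk (hk' k (by omega))
        ⟨(d.dec v).1, d.run_F_mono ωa (show n + 1 ≤ k + 1 by omega) ?_, ?_⟩ ωa ωb hab
      · change _ ∈ (d.run ωa (n + 1)).2
        rw [← r1, ← e1]
        exact mem_insert _ _
      · obtain ⟨a, h1, t, rfl⟩ := mem_iUnion₂.1 hq₁
        exact hv2 a h1 t x ζ hc₁ hx

theorem fin_valid (hL : L₁ ⊆ L)
    (hgrp : ∀ x ∈ L₁, ∀ x' ∈ L₁, ∀ x'', Ini x x'' → Ini x' x'' → grp x = grp x')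
    (hq₀ : Valid q₀) (ha : Adm L L₁ grp d.Y (insert d.τ d.K) i ι) : Valid (d.fin i ι) := by
  obtain ⟨-, -, h1, h2⟩ := domOK_states d.cS d.inv
  refine valid_iff.2 ⟨(hq₀.domOK.mono inter_subset_left).union h2, d.fin_unif hL hgrp ha, ?_⟩
  rintro (k | ⟨x, ζ⟩) hc
  · have h3 := hc.resolve_right fun h => disjoint_left.1 h1 h mem_Fn_inl
    simp only [fin, if_pos h3.2]
    exact hq₀.name h3.1
  · rw [fin_r]
    exact d.fin_name hL ha (hc.resolve_left fun h => notMem_Fn_inr h.2)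

open Classical in
/-- The views of all frozen groups. -/
noncomputable def pat (i : Λ) (ι : Set Λ → Λ) (ω : Pt Λ) (n : ℕ) : Option (Set Λ) → List Bool
  | none => d.view i ι ω none n
  | some y => if y ∈ (d.run ω n).1.Y then d.view i ι ω (some y) n else []

theorem pat_flt (ω : Pt Λ) (n : ℕ) (o : Option (Set Λ)) :
    d.pat i ι ω n (flt (d.run ω n).1.Y o) = d.view i ι ω o n := by
  rcases o with _ | y
  · rfl
  · simp only [flt]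
    split_ifs with h
    · simp only [pat, if_pos h]
    · exact (d.view_unfrozen i ι h).symm

theorem sep_aux {ω ω₂ : Pt Λ} {n : ℕ} {e : Bool} (h0 : ω₂ ∈ (d.fin i ι).set)
    (hY : (d.run ω₂ (n + 1)).1.Y = (d.run ω n).1.Y)
    (h1 : ∀ ξ ∈ insert d.τ (insert i (ι '' (d.run ω n).1.Y)), ∀ m < n,
      ω.f (inl (ξ, m)) = ω₂.f (inl (ξ, m)))
    (h2 : ∀ ξ ∈ insert i (ι '' (d.run ω n).1.Y), bit (ω₂.f (inl (ξ, n))) = e) :
    ω₂ ∈ (glue fun c => (d.run ω₂ (n + 1)).1.R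
      (e :: d.pat i ι ω n (flt (d.run ω₂ (n + 1)).1.Y (oc L₁ grp c)))).set := by
  intro c hc
  have h3 : ∀ Y ⊆ (d.run ω n).1.Y, col i ι Y (oc L₁ grp c) ∈ insert i (ι '' (d.run ω n).1.Y) := by
    intro Y hY
    rcases col_mem (i := i) (ι := ι) Y (oc L₁ grp c) with h | ⟨y, h, -, h'⟩
    exacts [Or.inl h, Or.inr ⟨y, hY h, h'.symm⟩]
  have h4 : d.RR i ι ω₂ c (n + 1) = (d.run ω₂ (n + 1)).1.R
      (e :: d.pat i ι ω n (flt (d.run ω₂ (n + 1)).1.Y (oc L₁ grp c))) := by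
    rw [RR, view, hY, h2 _ (h3 _ Subset.rfl), pat_flt, d.view_congr i ι
      (h1 _ (mem_insert _ _)) fun m hm => h1 _ (Or.inr (h3 _ (d.run_Y_mono ω hm))) m hm]
  have h5 := d.fin_mem i ι h0 (c := c) (k := n + 1) (h4 ▸ hc)
  rw [h4] at h5
  exact h5

theorem fin_sep (hq₀ : Valid q₀) {i' : Λ} {ι' : Set Λ → Λ}
    (ha : Adm L L₁ grp d.Y (insert d.τ d.K) i ι) (ha' : Adm L L₁ grp d.Y (insert d.τ d.K) i' ι')
    (hd : Disjoint (insert i (ι '' d.Y)) (insert i' (ι' '' d.Y))) (n₀ : ℕ) {s : Set (Co Λ)}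
    {ω : Pt Λ} (hs : s.Finite) (hs' : s ⊆ Fn Λ) (hω : ω ∈ (q₀.res (Fn Λ)).set) :
    ∃ (s' : Set (Co Λ)) (ω' : Pt Λ), s'.Finite ∧ s' ⊆ Fn Λ ∧ s ⊆ s' ∧ EqOn ω'.f ω.f s ∧
      ∃ g ∈ d.G, Good n₀ g.1 g.2 ∧ (cyl s' ω').set ∩ (d.fin i ι).set ⊆ g.1.set ∧
        (cyl s' ω').set ∩ (d.fin i' ι').set ⊆ g.2.set := by
  classical
  obtain ⟨n, hn⟩ := exists_time hs
  have hYf : (d.run ω n).1.Y.Finite := (d.inv _ (d.run_mem ω n).1).1
  have hin : InsIn d.K d.Y ⟨none, s ∩ Sp d.K ∅, pw (s ∩ Sp d.K ∅) ω ptBot, d.pat i ι ω n,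
      d.pat i' ι' ω n, n₀⟩ :=
    ⟨fun _ h => (by cases h), hs.inter_of_left _, inter_subset_right, fun c hc => pw_notMem hc,
      _, d.run_Y_subset ω n, hYf, fun y hy => ⟨if_neg hy, if_neg hy⟩⟩
  obtain ⟨v, hvτ, hv1, -⟩ := d.decOn ∅ _ hin
  obtain ⟨-, f1, f2, g, hg, hgood, hrel⟩ := d.step _ (d.run_mem ω n).1 _ hin
    (insert (d.dec v).1 (d.run ω n).2) ((d.run_mem ω n).2.insert _)
  set o := d.nx (d.run ω n).1 ⟨none, s ∩ Sp d.K ∅, pw (s ∩ Sp d.K ∅) ω ptBot, d.pat i ι ω n,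
      d.pat i' ι' ω n, n₀⟩ (insert (d.dec v).1 (d.run ω n).2) with ho
  let A₀ : Set (Co Λ) := {c | ∃ ξ ∈ insert i (ι '' d.Y), c = inl (ξ, n)}
  let A₁ : Set (Co Λ) := {c | ∃ ξ ∈ insert i' (ι' '' d.Y), c = inl (ξ, n)}
  let T : Set Λ := insert d.τ (insert i (ι '' (d.run ω n).1.Y) ∪ insert i' (ι' '' (d.run ω n).1.Y))
  have hT : T.Finite := (((hYf.image _).insert _).union ((hYf.image _).insert _)).insert _
  set ω' := pw o.2.1 o.2.2 (pw {inl (d.τ, n)} (ptAt d.τρ hvτ) (pw A₀ ptBot (pw A₁ ptOne ω)))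
    with hω'
  have k0 : ∀ ξ ∈ insert i (ι '' d.Y), ξ ∉ insert d.τ d.K := by
    rintro _ (rfl | ⟨y, hy, rfl⟩)
    exacts [ha.1, (ha.2.2.1 y hy).1]
  have k1 : ∀ ξ ∈ insert i' (ι' '' d.Y), ξ ∉ insert d.τ d.K ∧ ξ ≠ ⊥ := by
    rintro _ (rfl | ⟨y, hy, rfl⟩)
    exacts [⟨ha'.1, ha'.2.1⟩, ha'.2.2.1 y hy]
  have m0 : insert i (ι '' (d.run ω n).1.Y) ⊆ insert i (ι '' d.Y) :=
    insert_subset_insert (image_mono (d.run_Y_subset ω n))
  have m1 : insert i' (ι' '' (d.run ω n).1.Y) ⊆ insert i' (ι' '' d.Y) :=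
    insert_subset_insert (image_mono (d.run_Y_subset ω n))
  have hTK : ∀ ξ ∈ T, ∀ m, inl (ξ, m) ∉ o.2.1 := by
    intro ξ hξ m h
    have h1 : ξ ∈ d.K := f2 h
    rcases hξ with rfl | hξ | hξ
    exacts [d.τK h1, k0 ξ (m0 hξ) (Or.inr h1), (k1 ξ (m1 hξ)).1 (Or.inr h1)]
  have low : ∀ ξ m, m < n → inl (ξ, m) ∉ o.2.1 → ω'.f (inl (ξ, m)) = ω.f (inl (ξ, m)) := by
    intro ξ m hm h
    rw [hω', pw_notMem h, pw_notMem, pw_notMem, pw_notMem]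
    · rintro ⟨_, -, h⟩; cases h; omega
    · rintro ⟨_, -, h⟩; cases h; omega
    · intro h; cases h; omega
  have atτ : ω'.f (inl (d.τ, n)) = v := by
    rw [hω', pw_notMem (hTK _ (mem_insert _ _) _), pw_mem (mem_singleton _)]
    exact if_pos rfl
  have at0 : ∀ ξ ∈ insert i (ι '' (d.run ω n).1.Y), ω'.f (inl (ξ, n)) = ⊥ := by
    intro ξ hξ
    rw [hω', pw_notMem (hTK _ (Or.inr (Or.inl hξ)) _), pw_notMem, pw_mem (S := A₀) ⟨ξ, m0 hξ, rfl⟩]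
    · rfl
    · intro h
      cases h
      exact k0 _ (m0 hξ) (mem_insert _ _)
  have at1 : ∀ ξ ∈ insert i' (ι' '' (d.run ω n).1.Y), ω'.f (inl (ξ, n)) = one := by
    intro ξ hξ
    rw [hω', pw_notMem (hTK _ (Or.inr (Or.inr hξ)) _), pw_notMem, pw_notMem,
      pw_mem (S := A₁) ⟨ξ, m1 hξ, rfl⟩]
    · exact if_neg (k1 ξ (m1 hξ)).2
    · rintro ⟨ξ', h1, h⟩
      cases h
      exact disjoint_left.1 hd h1 (m1 hξ)
    · intro h
      cases h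
      exact (k1 _ (m1 hξ)).1 (mem_insert _ _)
  have main : ∀ ω₂ ∈ (cyl (o.2.1 ∪ s ∪ cells T (n + 1)) ω').set, ω₂ ∈ (cyl o.2.1 o.2.2).set ∧
      (d.run ω₂ (n + 1)).1 = o.1 ∧
      (∀ ξ ∈ T, ∀ m < n, ω.f (inl (ξ, m)) = ω₂.f (inl (ξ, m))) ∧
      ∀ ξ ∈ T, ω₂.f (inl (ξ, n)) = ω'.f (inl (ξ, n)) := by
    intro ω₂ h
    have h1 : ∀ ξ ∈ T, ∀ m < n, ω.f (inl (ξ, m)) = ω₂.f (inl (ξ, m)) := fun ξ hξ m hm =>
      (low ξ m hm (hTK ξ hξ m)).symm.trans (h _ (Or.inr (mem_cells hξ (by omega)))).symm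
    have h2 : ∀ ξ ∈ T, ω₂.f (inl (ξ, n)) = ω'.f (inl (ξ, n)) := fun ξ hξ =>
      h _ (Or.inr (mem_cells hξ (by omega)))
    refine ⟨fun c hc => (h c (Or.inl (Or.inl hc))).trans (pw_mem hc), ?_, h1, h2⟩
    simp only [run]
    rw [← d.run_congr (h1 _ (mem_insert _ _)), h2 _ (mem_insert _ _), atτ, hv1]
  have hY : o.1.Y = (d.run ω n).1.Y := by rw [hrel.Y]; simp
  refine ⟨o.2.1 ∪ s ∪ cells T (n + 1), ω', (f1.union hs).union (cells_finite hT _),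
    union_subset (union_subset (f2.trans Sp_empty_subset) hs') (cells_subset _ _),
    subset_union_right.trans subset_union_left, fun c hc => ?_, g, hg, hgood, ?_, ?_⟩
  · by_cases h : c ∈ o.2.1
    · have h1 := mem_un.1 (hrel.le (show o.2.2 ∈ (cyl o.2.1 o.2.2).set from fun _ _ => rfl))
      rw [hω', pw_mem h]
      by_cases h2 : c ∈ (q₀.res (Fn Λ)).D
      · obtain ⟨k, rfl⟩ := hs' hc
        obtain ⟨w, -, hw⟩ := hq₀.name h2.1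
        exact (h1.1 _ h2).trans (((hw _).trans (hw ω).symm).trans (hω _ h2).symm)
      · exact (h1.2 c ⟨hc, f2 h⟩ h2).trans (pw_mem ⟨hc, f2 h⟩)
    · obtain ⟨⟨ξ, m⟩, rfl⟩ := hs' hc
      exact low ξ m (hn ξ m hc) h
  · rintro ω₂ ⟨h1, h2⟩
    obtain ⟨g1, g2, g3, g4⟩ := main ω₂ h1
    refine hrel.sep₁ ω₂ g1 ?_
    rw [← g2]
    refine d.sep_aux h2 (by rw [g2, hY])
      (fun ξ hξ => g3 ξ (insert_subset_insert subset_union_left hξ)) fun ξ hξ => ?_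
    rw [g4 ξ (Or.inr (Or.inl hξ)), at0 ξ hξ]
    simp [bit]
  · rintro ω₂ ⟨h1, h2⟩
    obtain ⟨g1, g2, g3, g4⟩ := main ω₂ h1
    refine hrel.sep₂ ω₂ g1 ?_
    rw [← g2]
    refine d.sep_aux h2 (by rw [g2, hY])
      (fun ξ hξ => g3 ξ (insert_subset_insert subset_union_right hξ)) fun ξ hξ => ?_
    rw [g4 ξ (Or.inr (Or.inr hξ)), at1 ξ hξ]
    simpa [bit] using Ctx.bot_lt_one.ne'

end FD

theorem fusion (L L₁ : Set (Set Λ)) (hL : L₁ ⊆ L) (grp : Set Λ → Set Λ)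
    (hgrp : ∀ x ∈ L₁, ∀ x' ∈ L₁, ∀ x'', Ini x x'' → Ini x' x'' → grp x = grp x')
    {q₀ : Cond Λ} (hq₀ : Valid q₀) (Good : ℕ → Cond Λ → Cond Λ → Prop)
    (H : ∀ n q₁ q₂, Valid q₁ → Valid q₂ → q₁ ≤ q₀ → q₂ ≤ q₀ → Agr (Cm L) q₁ q₂ →
      ∃ q₁' q₂', Valid q₁' ∧ Valid q₂' ∧ q₁' ≤ q₁ ∧ q₂' ≤ q₂ ∧ Agr (Cm L) q₁' q₂' ∧
        Good n q₁' q₂') :
    ∃ (G : Set (Cond Λ × Cond Λ)) (Y : Set (Set Λ)) (K : Set Λ), #G < crd (rho : Λ) ∧
      #Y < crd (rho : Λ) ∧ #K < crd (rho : Λ) ∧ Y ⊆ grp '' L₁ ∧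
      (∀ g ∈ G, Valid g.1 ∧ Valid g.2) ∧ ∃ F : Λ → (Set Λ → Λ) → Cond Λ,
      (∀ i ι, Adm L L₁ grp Y K i ι → Valid (F i ι) ∧ F i ι ≤ q₀) ∧
      (∀ i ι i' ι', Agr (Cm L) (F i ι) (F i' ι')) ∧
      ∀ i ι i' ι', Adm L L₁ grp Y K i ι → Adm L L₁ grp Y K i' ι' →
        Disjoint (insert i (ι '' Y)) (insert i' (ι' '' Y)) →
        ∀ (n : ℕ) (s : Set (Co Λ)) (ω : Pt Λ), s.Finite → s ⊆ Fn Λ → ω ∈ (q₀.res (Fn Λ)).set →
          ∃ (s' : Set (Co Λ)) (ω' : Pt Λ), s'.Finite ∧ s' ⊆ Fn Λ ∧ s ⊆ s' ∧ EqOn ω'.f ω.f s ∧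
            ∃ g ∈ G, Good n g.1 g.2 ∧ (cyl s' ω').set ∩ (F i ι).set ⊆ g.1.set ∧
              (cyl s' ω').set ∩ (F i' ι').set ⊆ g.2.set := by
  obtain ⟨d⟩ := exists_FD hgrp hq₀ H
  refine ⟨d.G, d.Y, insert d.τ d.K, d.cG, d.cY, ?_, d.sY, d.vG, d.fin,
    fun i ι h => ⟨d.fin_valid hL hgrp hq₀ h, d.fin_le i ι⟩, d.fin_agr,
    fun i ι i' ι' h h' hd n s ω => d.fin_sep hq₀ h h' hd n⟩
  rw [insert_eq]
  exact card_union_lt aleph0_lt_rho.le (fu_countable (countable_singleton _)) d.cK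

end Pool.Agent.P.MP_a18ac8_lc
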