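import Mathlib.SetTheory.Cardinal.Regular

/-!
The order-theoretic properties of the forcing notion that are handed to the generic extension.
`V` is the set of conditions, `le q p` means that `q` extends `p`. A name for a subset of a
ground set `A` is a relation `W : A → R → Prop` that is open in the last argument.
-/

universe u

namespace Pool.Agent.P.MP_a18ac8_lc

open Set

variable {Λ R : Type u}

/-- `O` is closed under extension. -/
def AOpen (V : R → Prop) (le : R → R → Prop) (O : R → Prop) : Prop :=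
  ∀ p q, V q → le q p → O p → O q

/-- `O` is dense below `p₀`. -/
def ABelow (V : R → Prop) (le : R → R → Prop) (p₀ : R) (O : R → Prop) : Prop :=
  ∀ p, V p → le p p₀ → ∃ q, V q ∧ le q p ∧ O q

/-- `W` is an open name for a partial function. -/
def AFun {I : Type*} (V : R → Prop) (le : R → R → Prop) (W : I → Λ → R → Prop) : Prop :=
  (∀ i γ, AOpen V le (W i γ)) ∧ ∀ i γ γ' p, V p → W i γ p → W i γ' p → γ = γ'

/-- The interface. -/
structure Iface [LinearOrder Λ] (ρ κ : Λ) (V : R → Prop) (le : R → R → Prop) : Prop where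
  ne : ∃ p, V p
  refl : ∀ p, le p p
  trans : ∀ p q r, le p q → le q r → le p r
  unc : Cardinal.aleph0 < Cardinal.mk (Iio ρ)
  lt : ρ < κ
  col_rho : ∀ τ < ρ, ∃ W : ℕ → Λ → R → Prop, AFun V le W ∧
    ∀ γ < τ, ∀ p, V p → ∃ q, V q ∧ le q p ∧ ∃ n, W n γ q
  col_kap : ∀ τ < κ, ∃ W : Λ → Λ → R → Prop, AFun V le W ∧
    ∀ γ < τ, ∀ p, V p → ∃ q, V q ∧ le q p ∧ ∃ i < ρ, W i γ q
  col_lam : ∀ τ : Λ, ∃ W : Λ → Λ → R → Prop, AFun V le W ∧
    ∀ γ < τ, ∀ p, V p → ∃ q, V q ∧ le q p ∧ ∃ i < κ, W i γ q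
  pres_rho : ∀ W : ℕ → Λ → R → Prop, AFun V le W → ∀ p, V p → ∃ q, V q ∧ le q p ∧
    ∃ β < ρ, ∀ n, ∀ γ < ρ, ∀ r, V r → le r q → W n γ r → γ < β
  pres_kap : ∀ W : Λ → Λ → R → Prop, AFun V le W → ∀ p, V p → ∃ q, V q ∧ le q p ∧
    ∃ β < κ, ∀ i < ρ, ∀ γ < κ, ∀ r, V r → le r q → W i γ r → γ < β
  tp : ∀ (W : Λ → Λ → Λ → Λ → R → Prop) (p₀ : R), V p₀ →
    (∀ β i α j, AOpen V le (W β i α j)) →
    (∀ β i α j j' p, V p → le p p₀ → W β i α j p → W β i α j' p → j = j') →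
    (∀ β < κ, ∀ i < ρ, ∀ α < β, ABelow V le p₀ fun p => ∃ j < ρ, W β i α j p) →
    (∀ γ i β j α k k' p, α < β → β < γ → V p → le p p₀ →
      W γ i β j p → W β j α k p → W γ i α k' p → k = k') →
    ∃ q, V q ∧ le q p₀ ∧ ∃ B : Λ → Λ → R → Prop, (∀ β j, AOpen V le (B β j)) ∧
      (∀ β < κ, ABelow V le q fun p => ∃ j < ρ, B β j p) ∧
      (∀ β j j' p, V p → le p q → B β j p → B β j' p → j = j') ∧
      ∀ β j α k k' p, α < β → V p → le p q → B β j p → B α k p → W β j α k' p → k = k'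
  ideal : ∃ J : R → (Λ → R → Prop) → Prop,
    (∀ X, AOpen V le fun p => J p X) ∧
    (∀ p X, V p → (∀ γ, AOpen V le (X γ)) → (ABelow V le p fun r => J r X) → J p X) ∧
    (∀ p X X', V p → (∀ γ, AOpen V le (X γ)) → (∀ γ, AOpen V le (X' γ)) →
      (∀ γ < κ, ∀ q, V q → le q p → X γ q → ∃ r, V r ∧ le r q ∧ X' γ r) → J p X' → J p X) ∧
    (∀ p, ∀ τ < κ, ∀ X : Λ → Λ → R → Prop, V p → (∀ i γ, AOpen V le (X i γ)) →
      (∀ i < τ, J p (X i)) → J p fun γ q => ∃ i < τ, X i γ q) ∧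
    (∀ p γ, V p → J p fun γ' _ => γ' = γ) ∧
    (∀ p, V p → ¬ J p fun _ _ => True) ∧
    ∀ p (X : Λ → Λ → R → Prop), V p → (∀ ξ γ, AOpen V le (X ξ γ)) →
      (∀ ξ η, ξ ≠ η → J p fun γ q => X ξ γ q ∧ X η γ q) → ∃ ξ, J p (X ξ)

end Pool.Agent.P.MP_a18ac8_lc
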