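import Pool.Agent.P.MP_a18ac8_lc.Easton
import Pool.Agent.P.MP_a18ac8_lc.Fusion
import Pool.Agent.P.MP_a18ac8_lc.Iface

universe u

namespace Pool.Agent.P.MP_a18ac8_lc

open Cardinal Set Sum Filter

variable {Λ : Type u} [ConditionallyCompleteLinearOrderBot Λ] [WellFoundedLT Λ]

variable [Ctx Λ]

theorem Collapse_add {p : Cond Λ} (hp : Valid p) {c : Co Λ} (hc : c ∉ p.D) {v : Λ}
    (hn : Name c fun _ => v) : ∃ q, Valid q ∧ q ≤ p ∧ ∀ ω ∈ q.set, ω.f c = v :=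
  ⟨p.un ⟨{c}, fun _ _ => v⟩, hp.un (valid_single hn fun _ _ _ _ _ _ => rfl), un_le_left,
    fun _ h => (mem_un.1 h).2 c rfl hc⟩

theorem Collapse_afun {I : Type*} (c : I → Co Λ) {f : Λ → Λ} (hf : Function.Injective f) :
    AFun Valid (· ≤ ·) fun (i : I) (γ : Λ) (q : Cond Λ) => ∀ ω ∈ q.set, ω.f (c i) = f γ := by
  refine ⟨fun i γ p q _ h h' ω hω => h' ω (h hω), fun i γ γ' p hp h h' => ?_⟩
  obtain ⟨ω, hω⟩ := hp.nonempty
  exact hf ((h ω hω).symm.trans (h' ω hω))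

theorem Collapse_node {x : Set Λ} (hx : Node x) {f : Λ → Λ} (hf : Function.Injective f) {τ : Λ}
    (h : ∀ γ < τ, f γ ∈ x) : ∃ W : Λ → Λ → Cond Λ → Prop, AFun Valid (· ≤ ·) W ∧
      ∀ γ < τ, ∀ p, Valid p → ∃ q, Valid q ∧ q ≤ p ∧ ∃ i < mu x, W i γ q := by
  refine ⟨_, Collapse_afun (fun i => inr (x, i)) hf, fun γ hγ p hp => ?_⟩
  have h1 : #↥{i | (inr (x, i) : Co Λ) ∈ p.D} < #(Iio (mu x)) := by
    refine lt_of_le_of_lt ?_ (hp.domOK.2.2 (mu x) hx.1 hx.2.1)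
    refine mk_le_of_injective (f := fun i => ⟨inr (x, i.1), i.2, x, i.1, rfl, rfl⟩) ?_
    intro i j e
    simpa [Subtype.ext_iff] using e
  obtain ⟨i, hi, hi'⟩ := exists_notMem_of_lt h1
  obtain ⟨q, hq, hle, hv⟩ := Collapse_add hp hi' (name_const hx hi (h γ hγ))
  exact ⟨q, hq, hle, i, hi, hv⟩

theorem col_rho : ∀ τ < (rho : Λ), ∃ W : ℕ → Λ → Cond Λ → Prop, AFun Valid (· ≤ ·) W ∧
    ∀ γ < τ, ∀ p, Valid p → ∃ q, Valid q ∧ q ≤ p ∧ ∃ n, W n γ q := by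
  intro τ hτ
  refine ⟨_, Collapse_afun (fun n => inl (τ, n)) Function.injective_id, fun γ hγ p hp => ?_⟩
  have h1 : {n : ℕ | (inl (τ, n) : Co Λ) ∈ p.D}.Finite := by
    refine (hp.domOK.1.preimage (f := fun n : ℕ => (inl (τ, n) : Co Λ)) ?_).subset
      fun n hn => ⟨hn, mem_Fn_inl⟩
    intro i _ j _ e
    simpa using e
  obtain ⟨n, hn⟩ := h1.exists_notMem
  obtain ⟨q, hq, hle, hv⟩ := Collapse_add hp hn (v := γ) ⟨γ, by
    change γ ≤ bd τ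
    rw [bd, if_pos hτ]
    exact hγ.le, fun _ => rfl⟩
  exact ⟨q, hq, hle, n, hv⟩

theorem col_kap : ∀ τ < (kap : Λ), ∃ W : Λ → Λ → Cond Λ → Prop, AFun Valid (· ≤ ·) W ∧
    ∀ γ < τ, ∀ p, Valid p → ∃ q, Valid q ∧ q ≤ p ∧ ∃ i < rho, W i γ q := by
  intro τ hτ
  obtain ⟨a, ha, h1⟩ := kap_reg.exists_gt (max_lt hτ (Ctx.rho_lt (Λ := Λ)))
  obtain ⟨b, hb, h2⟩ := kap_reg.exists_gt ha
  have h3 : τ < a := (le_max_left _ _).trans_lt h1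
  have h4 : rho < a := (le_max_right _ _).trans_lt h1
  have hm : mu (Iio b \ {rho}) = rho :=
    mu_eq (fun ξ hξ => ⟨(mem_Iio.1 hξ).trans (h4.trans h2), (mem_Iio.1 hξ).ne⟩) Ctx.rho_lt.le
      (Or.inl fun h => h.2 rfl)
  have hx : Node (Iio b \ {rho}) := by
    rw [Node, hm]
    exact ⟨rho_reg, le_rfl, Or.inl ((mk_le_mk_of_subset sdiff_subset).trans_lt (kap_reg.2 b hb))⟩
  classical
  have h := Collapse_node hx (Equiv.swap rho a).injective (τ := τ) fun γ hγ => by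
    by_cases e : γ = rho
    · rw [e, Equiv.swap_apply_left]
      exact ⟨h2, h4.ne'⟩
    · rw [Equiv.swap_apply_of_ne_of_ne e (hγ.trans h3).ne]
      exact ⟨hγ.trans (h3.trans h2), e⟩
  rwa [hm] at h

theorem col_lam : ∀ τ : Λ, ∃ W : Λ → Λ → Cond Λ → Prop, AFun Valid (· ≤ ·) W ∧
    ∀ γ < τ, ∀ p, Valid p → ∃ q, Valid q ∧ q ≤ p ∧ ∃ i < kap, W i γ q := by
  intro τ
  have h := Collapse_node (node_Iio (le_max_right τ kap)).1 Function.injective_id (τ := τ)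
    fun γ hγ => lt_max_of_lt_left hγ
  rwa [mu_Iio (le_max_right τ kap)] at h

omit [WellFoundedLT Λ] in
theorem Collapse_res_le {q : Cond Λ} {S : Set (Co Λ)} (h : q.D ⊆ S) : q.res S ≤ q :=
  fun _ hω c hc => hω c ⟨hc, h hc⟩

theorem pres_rho : ∀ W : ℕ → Λ → Cond Λ → Prop, AFun Valid (· ≤ ·) W → ∀ p, Valid p →
    ∃ q, Valid q ∧ q ≤ p ∧ ∃ β < (rho : Λ), ∀ n, ∀ γ < (rho : Λ), ∀ r, Valid r → r ≤ q →
      W n γ r → γ < β := by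
  intro W hW p hp
  obtain ⟨G, Y, K, hG, -, hK, hY, hGv, F, hF, -, hF'⟩ := fusion ∅ ∅ Subset.rfl id
    (fun _ h => h.elim) hp
    (fun n q _ => (∃ γ, W n γ q) ∨ ∀ r, Valid r → r ≤ q → ∀ γ, ¬ W n γ r) (by
      intro n q₁ q₂ h₁ _ _ _ ha
      have hle : q₁ ≤ q₂ := by
        refine le_trans (le_res.trans ha.set_res.le) (Collapse_res_le fun c _ x ζ _ h => h)
      by_cases h : ∀ r, Valid r → r ≤ q₁ → ∀ γ, ¬ W n γ r
      · exact ⟨q₁, q₁, h₁, h₁, le_rfl, hle, fun _ _ => ⟨Iff.rfl, fun _ => rfl⟩, Or.inr h⟩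
      · push Not at h
        obtain ⟨r, hr, hr', γ, hγ⟩ := h
        exact ⟨r, r, hr, hr, hr', hr'.trans hle, fun _ _ => ⟨Iff.rfl, fun _ => rfl⟩,
          Or.inl ⟨γ, hγ⟩⟩)
  obtain rfl : Y = ∅ := by simpa using hY
  have h0 := (aleph0_lt_rho (Λ := Λ)).le
  have ins : ∀ (a : Λ) {s : Set Λ}, #s < crd (rho : Λ) → #↥(insert a s) < crd (rho : Λ) :=
    fun a s hs => mk_insert_le.trans_lt (add_lt_of_lt h0 hs (one_lt_aleph0.trans_le h0))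
  obtain ⟨i, -, hi⟩ := exists_notMem_of_lt (t := Iio rho) (ins ⊥ hK)
  obtain ⟨i', -, hi'⟩ := exists_notMem_of_lt (t := Iio rho) (ins i (ins ⊥ hK))
  simp only [mem_insert_iff, not_or] at hi hi'
  have adm : ∀ a : Λ, a ≠ ⊥ → a ∉ K → Adm ∅ ∅ id ∅ K a fun _ => ⊥ := fun a h h' =>
    ⟨h', h, fun _ h => h.elim, fun _ h => h.elim, fun _ h => h.elim⟩
  have hA := adm i hi.1 hi.2
  have hc : #↥((⋃ g ∈ G, ⋃ n, {γ | W n γ g.1}) ∩ Iio rho) < crd (rho : Λ) := by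
    refine (mk_le_mk_of_subset inter_subset_left).trans_lt (card_iUnion_lt rho_reg.1 hG ?_)
    intro g hg
    refine lt_of_le_of_lt (le_aleph0_iff_set_countable.2 (countable_iUnion fun n => ?_))
      aleph0_lt_rho
    exact Set.Subsingleton.countable fun a ha b hb => hW.2 n a b _ (hGv g hg).1 ha hb
  obtain ⟨β, hβ, hb⟩ := rho_reg.bdd (fun a ha => ha.2) hc
  refine ⟨F i fun _ => ⊥, (hF _ _ hA).1, (hF _ _ hA).2, β, hβ, fun n γ hγ r hr hle h => ?_⟩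
  obtain ⟨ω, hω⟩ := hr.nonempty
  obtain ⟨s', ω', hs', hs'', hsub, he, g, hg, hgood, h1, -⟩ := hF' _ _ _ _ hA
    (adm i' hi'.2.1 hi'.2.2) (by simpa using Ne.symm hi'.1) n (r.D ∩ Fn Λ) ω hr.domOK.1
    inter_subset_right ((hle.trans ((hF _ _ hA).2.trans le_res)) hω)
  have hv : Valid ((cyl s' ω').un r) := (valid_cyl hs' hs'' ω').un hr
  have h2 : (cyl s' ω').un r ≤ r := by
    refine un_le_of_res (S := Fn Λ) ?_ fun c hc => hs'' hc.1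
    rw [Cond.le_def, ← hr.set_res_Fn ((le_res (q := r)) hω)]
    exact fun ω'' h' => ((mem_cyl.1 h').mono hsub).trans he
  have h3 : (cyl s' ω').un r ≤ g.1 := fun ω'' h' =>
    h1 ⟨(un_le_left (q := cyl s' ω') (q' := r)) h', hle (h2 h')⟩
  have h4 := hW.1 n γ _ _ hv h2 h
  rcases hgood with ⟨γ', h5⟩ | h5
  · obtain rfl := hW.2 n γ γ' _ hv h4 (hW.1 n γ' _ _ hv h3 h5)
    exact hb γ ⟨mem_iUnion₂.2 ⟨g, hg, mem_iUnion.2 ⟨n, h5⟩⟩, hγ⟩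
  · exact (h5 _ hv h3 γ h4).elim

theorem pres_kap (hK : KP (kap : Λ)) : ∀ W : Λ → Λ → Cond Λ → Prop, AFun Valid (· ≤ ·) W →
    ∀ p, Valid p → ∃ q, Valid q ∧ q ≤ p ∧ ∃ β < (kap : Λ), ∀ i < (rho : Λ), ∀ γ < (kap : Λ),
      ∀ r, Valid r → r ≤ q → W i γ r → γ < β := by
  intro W hW p hp
  obtain ⟨q, hq, hle, -, I, hI, h⟩ := pres (x' := univ) (mu_univ (Λ := Λ) ▸ Ctx.kap_inac)
    (mu_univ (Λ := Λ) ▸ Ctx.rho_lt) (mu_univ (Λ := Λ) ▸ hK) W hW.1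
    (fun j a q hq h => hW.1 j a _ _ (hq.res _) (Collapse_res_le hq.subset_S1_univ) h) hp
    hp.subset_S1_univ fun j a a' q hq _ => hW.2 j a a' q hq
  rw [mu_univ] at hI
  obtain ⟨β, hβ, hb⟩ := kap_reg.bdd (s := I ∩ Iio kap) (fun a ha => ha.2)
    ((mk_le_mk_of_subset inter_subset_left).trans_lt hI)
  exact ⟨q, hq, hle, β, hβ, fun i hi γ hγ r hr hrq hw => hb γ ⟨h i hi γ r hr hrq hw, hγ⟩⟩

end Pool.Agent.P.MP_a18ac8_lc
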