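import Mathlib.SetTheory.Cardinal.Regular
import Mathlib.SetTheory.Cardinal.Arithmetic
import Mathlib.Order.ConditionallyCompleteLattice.Basic
import Mathlib.Order.Filter.CardinalInter
import Mathlib.Order.Filter.Ultrafilter.Basic

/-!
The forcing notion for the tree property together with a saturated ideal: definitions.

`Λ` is a well order of type `λ`, `rho < kap` are two inaccessible elements. A point of the
space `Pt Λ` is a candidate generic object; a condition prescribes, on a set `D` of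
coordinates, the value of the point as a function of the point; conditions are ordered by
inclusion of the sets of points that obey them.
-/

universe u

namespace Pool.Agent.P.MP_a18ac8_lc

open Cardinal Set Sum

variable {Λ : Type u} [ConditionallyCompleteLinearOrderBot Λ] [WellFoundedLT Λ]

/-- The cardinality of the ordinal `ξ`. -/
def crd (ξ : Λ) : Cardinal.{u} := #(Iio ξ)

/-- `ξ` is a regular initial ordinal. -/
def Reg (ξ : Λ) : Prop := (crd ξ).IsRegular ∧ ∀ η < ξ, crd η < crd ξ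

/-- `ξ` is an inaccessible initial ordinal. -/
def Inac (ξ : Λ) : Prop := (crd ξ).IsInaccessible ∧ ∀ η < ξ, crd η < crd ξ

/-- The parameters of the construction. -/
class Ctx (Λ : Type u) [ConditionallyCompleteLinearOrderBot Λ] where
  rho : Λ
  kap : Λ
  one : Λ
  bot_lt_one : ⊥ < one
  one_le : ∀ ξ : Λ, ⊥ < ξ → one ≤ ξ
  rho_inac : Inac rho
  kap_inac : Inac kap
  rho_lt : rho < kap

export Ctx (rho kap one)

variable [Ctx Λ]

/-- Pressing down at `μ` (Mahlo plus Fodor, in the form used). -/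
def KP (μ : Λ) : Prop := ∀ f g : Λ → Λ, (∀ β < μ, f β < μ) →
  (∀ α < μ, Reg α → rho < α → (∀ β < α, f β < α) → g α < α) →
  ∃ α α', α < α' ∧ α' < μ ∧ (Reg α ∧ rho < α ∧ ∀ β < α, f β < α) ∧
    (Reg α' ∧ rho < α' ∧ ∀ β < α', f β < α') ∧ g α = g α'

/-- Coordinates: cells `(ξ, n)` of the column `ξ`, and cells `(x, ζ)` of the node `x`. -/
abbrev Co (Λ : Type u) : Type u := (Λ × ℕ) ⊕ (Set Λ × Λ)

/-- The largest value in column `ξ`. -/
noncomputable def bd (ξ : Λ) : Λ := if ξ < rho then ξ else one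

/-- The values allowed at a coordinate. -/
def Val : Co Λ → Set Λ
  | inl k => Iic (bd k.1)
  | inr k => insert ⊥ k.1

/-- Points. -/
@[ext] structure Pt (Λ : Type u) [ConditionallyCompleteLinearOrderBot Λ] [Ctx Λ] where
  f : Co Λ → Λ
  mem : ∀ c, f c ∈ Val c

open Classical in
/-- The point equal to `ω` on `S` and to `ω'` elsewhere. -/
noncomputable def pw (S : Set (Co Λ)) (ω ω' : Pt Λ) : Pt Λ :=
  ⟨fun c => if c ∈ S then ω.f c else ω'.f c, fun c => by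
    split_ifs
    exacts [ω.mem c, ω'.mem c]⟩

/-- `t` depends only on the coordinates in `S`. -/
def Dep (t : Pt Λ → Λ) (S : Set (Co Λ)) : Prop := ∀ ω ω' : Pt Λ, EqOn ω.f ω'.f S → t ω = t ω'

/-- Conditions (valid or not). -/
structure Cond (Λ : Type u) [ConditionallyCompleteLinearOrderBot Λ] [Ctx Λ] where
  D : Set (Co Λ)
  r : Co Λ → Pt Λ → Λ

/-- The points that obey a condition. -/
def Cond.set (q : Cond Λ) : Set (Pt Λ) := {ω | ∀ c ∈ q.D, ω.f c = q.r c ω}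

instance : Preorder (Cond Λ) := Preorder.lift Cond.set

/-- Restriction. -/
def Cond.res (q : Cond Λ) (S : Set (Co Λ)) : Cond Λ := ⟨q.D ∩ S, q.r⟩

open Classical in
/-- Union, with priority to the first condition. -/
noncomputable def Cond.un (q q' : Cond Λ) : Cond Λ :=
  ⟨q.D ∪ q'.D, fun c => if c ∈ q.D then q.r c else q'.r c⟩

/-- The condition that fixes the values of `ω` on `s`. -/
def cyl (s : Set (Co Λ)) (ω : Pt Λ) : Cond Λ := ⟨s, fun c _ => ω.f c⟩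

/-- `q'` keeps all names of `q`. -/
def Ext (q q' : Cond Λ) : Prop := ∀ c ∈ q.D, c ∈ q'.D ∧ q'.r c = q.r c

/-- `q` and `q'` are the same on `S`. -/
def Agr (S : Set (Co Λ)) (q q' : Cond Λ) : Prop :=
  ∀ c ∈ S, (c ∈ q.D ↔ c ∈ q'.D) ∧ (c ∈ q.D → q.r c = q'.r c)

/-- The column coordinates. -/
def Fn (Λ : Type u) : Set (Co Λ) := range inl

/-- The first gap of `x`, cut off at `kap`. -/
noncomputable def mu (x : Set Λ) : Λ := sInf {ξ | ξ ∉ x ∨ ξ = kap}

/-- `x` is an initial segment of `x'` with the same first gap. -/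
def Ini (x x' : Set Λ) : Prop := mu x = mu x' ∧ x ⊆ x' ∧ ∀ a ∈ x', ∀ b ∈ x, a < b → a ∈ x

/-- Nodes: small sets and initial segments, with regular first gap. -/
def Node (x : Set Λ) : Prop :=
  Reg (mu x) ∧ rho ≤ mu x ∧ (#x < crd (kap : Λ) ∨ ∃ σ, x = Iio σ)

/-- The columns that may steer the names at the node `x`. -/
def st (x : Set Λ) : Set Λ := x ∪ {i | crd i < #x}

/-- The coordinates of the columns in `Y` and of the nodes in `N`. -/
def Sp (Y : Set Λ) (N : Set (Set Λ)) : Set (Co Λ)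
  | inl k => k.1 ∈ Y
  | inr k => k.1 ∈ N ∧ k.2 ∈ k.1

/-- The nodes below `x`. -/
def low (x : Set Λ) : Set (Set Λ) := {x' | x' ⊆ x ∧ #x' < crd (mu x)}

/-- The coordinates an unsteered name at `x` may look at. -/
def Un (x : Set Λ) : Set (Co Λ) := Sp x (low x)

/-- All columns and the nodes of size below `c`. -/
def Lev (c : Cardinal.{u}) : Set (Co Λ) := Sp univ {x | #x < c}

/-- `t` is decided by a dense set of conditions in `P`. -/
def Dec (P : Cond Λ → Prop) (t : Pt Λ → Λ) : Prop :=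
  ∀ q, P q → ∃ q', P q' ∧ q' ≤ q ∧ ∃ v, ∀ ω ∈ q'.set, t ω = v

/-- `t` has a small support suitable for the node `x`. -/
def Supp (x : Set Λ) (t : Pt Λ → Λ) : Prop :=
  ∃ y ⊆ st x, #y < crd (mu x) ∧ Dep t (Sp y (𝒫 (y ∩ x))) ∧ ∀ ω, t ω ∈ y ∩ x

/-- Admissible domains. -/
def DomOK (D : Set (Co Λ)) : Prop :=
  (D ∩ Fn Λ).Finite ∧
  (∃ X : Set (Set Λ), #X < crd (rho : Λ) ∧ ∀ x ζ, inr (x, ζ) ∈ D → ∃ x' ∈ X, Ini x x') ∧
  ∀ μ : Λ, Reg μ → rho ≤ μ → #{c ∈ D | ∃ x ζ, c = inr (x, ζ) ∧ mu x = μ} < crd μ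

/-- On the cylinder `(s, ω)` the function `t` depends only on `S`. -/
def DepIn (s : Set (Co Λ)) (ω : Pt Λ) (t : Pt Λ → Λ) (S : Set (Co Λ)) : Prop :=
  ∀ ω₁ ω₂ : Pt Λ, EqOn ω₁.f ω.f s → EqOn ω₂.f ω.f s → EqOn ω₁.f ω₂.f S → t ω₁ = t ω₂

/-- Uniformity: along each chain a finite condition removes the steering. -/
def Unif (q : Cond Λ) : Prop :=
  ∀ (x' : Set Λ) (s : Set (Co Λ)) (ω : Pt Λ), s.Finite → s ⊆ Fn Λ →
    ∃ (s' : Set (Co Λ)) (ω' : Pt Λ), s'.Finite ∧ s' ⊆ Fn Λ ∧ s ⊆ s' ∧ EqOn ω'.f ω.f s ∧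
      ∀ x ζ, inr (x, ζ) ∈ q.D → Ini x x' → DepIn s' ω' (q.r (inr (x, ζ))) (Un x)

/-- The non-recursive part of validity. -/
def Base (q : Cond Λ) : Prop :=
  DomOK q.D ∧ Unif q ∧ (∀ k, inl k ∈ q.D → ∃ v ∈ Val (inl k), ∀ ω, q.r (inl k) ω = v) ∧
    ∀ x ζ, inr (x, ζ) ∈ q.D → Node x ∧ ζ < mu x ∧ Supp x (q.r (inr (x, ζ)))

/-- Valid conditions with nodes of size below `c`, by recursion on `c`. -/
noncomputable def Vd : Cardinal.{u} → Cond Λ → Prop :=
  WellFounded.fix (C := fun _ => Cond Λ → Prop) Cardinal.lt_wf fun c IH q =>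
    Base q ∧ ∀ x ζ, inr (x, ζ) ∈ q.D →
      #x < c ∧ ∃ h : crd (mu x) < c, Dec (IH _ h) (q.r (inr (x, ζ)))

/-- Valid conditions: the forcing notion. -/
def Valid (q : Cond Λ) : Prop := ∃ c, Vd c q

/-- `t` is a legal name at the coordinate. -/
def Name : Co Λ → (Pt Λ → Λ) → Prop
  | inl k, t => ∃ v ∈ Val (inl k : Co Λ), ∀ ω, t ω = v
  | inr k, t => Node k.1 ∧ k.2 < mu k.1 ∧ Supp k.1 t ∧ Dec Valid t

/-- `S` contains everything the names at its nodes may look at. -/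
def Closed (S : Set (Co Λ)) : Prop :=
  ∀ x ζ, inr (x, ζ) ∈ S → Node x → Sp (st x) (low x) ⊆ S

/-- Valid conditions with nodes of size below `crd μ`. -/
def VL (μ : Λ) (q : Cond Λ) : Prop := Valid q ∧ q.D ⊆ Lev (crd μ)

/-- Compatibility. -/
def Cmp (q q' : Cond Λ) : Prop := ∃ r, Valid r ∧ r ≤ q ∧ r ≤ q'

/-- `O` is closed under valid extensions. -/
def Opn (O : Cond Λ → Prop) : Prop := ∀ p q, Valid q → q ≤ p → O p → O q

/-- `O` is dense. -/
def Dns (O : Cond Λ → Prop) : Prop := ∀ p, Valid p → ∃ q, Valid q ∧ q ≤ p ∧ O q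

/-- The coordinates of the chain of `x'`. -/
def Ch (x' : Set Λ) : Set (Co Λ) := {c | ∃ x ζ, c = inr (x, ζ) ∧ Ini x x' ∧ ζ ∈ x}

/-- Small nodes together with the chain of `x'`. -/
def S1 (x' : Set Λ) : Set (Co Λ) := Lev (crd (mu x')) ∪ Ch x'

/-- Unsteered conditions on the chain of `x'`. -/
def Term (x' : Set Λ) (t : Cond Λ) : Prop :=
  Valid t ∧ ∀ c ∈ t.D, ∃ x ζ, c = inr (x, ζ) ∧ Ini x x' ∧ Dep (t.r c) (Un x)

/-- The coordinates over `y`. -/
def CY (y : Set Λ) : Set (Co Λ)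
  | inl k => k.1 ∈ y
  | inr k => k.2 ∈ y ∧ (k.1 ⊆ y ∨ ∃ σ ∈ y, kap ≤ σ ∧ k.1 = Iio σ)

/-- The condition `q` lives over `y`. -/
def Lives (q : Cond Λ) (y : Set Λ) : Prop :=
  Iio rho ⊆ y ∧ ∀ c ∈ q.D, c ∈ CY y ∧ Dep (q.r c) (Sp y (𝒫 y)) ∧ ∀ ω, q.r c ω ∈ y

/-- `q` is captured by `z`. -/
def Capt (z : Set Λ) (q : Cond Λ) : Prop :=
  Valid q ∧ ∃ y ⊆ z, #y < crd (mu z) ∧ Lives q y

/-- Typical sets of the measure. -/
structure GoodZ (z : Set Λ) : Prop where
  lt : mu z < kap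
  inter : ∀ ξ ∈ z, ξ < kap → ξ < mu z
  card : #z = crd (kap : Λ)
  seg : ∀ ξ ∈ z, #↥(z ∩ Iio ξ) < crd (kap : Λ)
  kap_mem : kap ∈ z
  inac : Inac (mu z)
  rho_lt : rho < mu z
  kp : KP (mu z)

/-- What is used of the huge cardinal. -/
structure HugeData (U : Ultrafilter (Set Λ)) : Prop where
  compl : CardinalInterFilter (U : Filter (Set Λ)) (crd (kap : Λ))
  fine : ∀ ξ : Λ, ∀ᶠ z in (U : Filter (Set Λ)), ξ ∈ z
  normal : ∀ f : Set Λ → Λ, (∀ᶠ z in (U : Filter (Set Λ)), f z ∈ z) →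
    ∃ ξ, ∀ᶠ z in (U : Filter (Set Λ)), f z = ξ
  good : ∀ᶠ z in (U : Filter (Set Λ)), GoodZ z
  lam : (#Λ).IsInaccessible
  init : ∀ ξ : Λ, crd ξ < #Λ
  kp : KP (kap : Λ)

open Classical in
/-- Reading the big nodes off the chain of `z`. -/
noncomputable def phi (z : Set Λ) (ω : Pt Λ) : Pt Λ :=
  ⟨fun c => match c with
    | inl k => ω.f (inl k)
    | inr k => if Ini k.1 univ then ω.f (inr (z ∩ k.1, k.2)) else ω.f (inr k),
  fun c => by
    rcases c with k | k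
    · exact ω.mem _
    · dsimp only
      split_ifs
      · exact (ω.mem (inr (z ∩ k.1, k.2))).imp id fun h => h.2
      · exact ω.mem _⟩

/-- Conditions whose big nodes lie below `α`. -/
def Bd (α : Λ) : Set (Co Λ) :=
  Lev (crd (kap : Λ)) ∪ {c | ∃ σ < α, ∃ ζ < σ, c = inr (Iio σ, ζ)}

/-- The master condition of `z` below `α`. -/
noncomputable def mast (z : Set Λ) (α : Λ) : Cond Λ :=
  ⟨{c | ∃ σ ∈ z, kap ≤ σ ∧ σ < α ∧ ∃ ζ < mu z, c = inr (Iio σ, ζ)}, fun c ω => (phi z ω).f c⟩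

end Pool.Agent.P.MP_a18ac8_lc
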