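import Mathlib.Order.Filter.CardinalInter
import Mathlib.Order.Filter.Ultrafilter.Basic
import Mathlib.SetTheory.Cardinal.Ordinal
import Pool.Agent.P.MP_af0a18_lc.Defs

/-!
The notions of the problem: huge cardinals in the ambient universe; successor cardinals, the
tree property and saturated ideals relativised to a transitive class `N` of sets.
-/

universe u

namespace Pool.Agent.P.MP_a18ac8_lc

open ZFSet Pool.Agent.P.MP_af0a18_lc

/-- `κ` is huge (Kanamori, The Higher Infinite, 24.8): `κ` is uncountable and for some `λ > κ`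
there is a `κ`-complete fine normal ultrafilter on the power set of `λ` that concentrates on
the sets of order type `κ`. -/
def IsHuge (κ : Cardinal.{u}) : Prop :=
  Cardinal.aleph0 < κ ∧ ∃ lam : Cardinal.{u}, κ < lam ∧
    ∃ U : Ultrafilter (Set lam.ord.ToType),
      CardinalInterFilter (U : Filter (Set lam.ord.ToType)) κ ∧
      (∀ ξ, ∀ᶠ z in (U : Filter (Set lam.ord.ToType)), ξ ∈ z) ∧
      (∀ f : Set lam.ord.ToType → lam.ord.ToType,
        (∀ᶠ z in (U : Filter (Set lam.ord.ToType)), f z ∈ z) →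
        ∃ ξ, ∀ᶠ z in (U : Filter (Set lam.ord.ToType)), f z = ξ) ∧
      ∀ᶠ z : Set lam.ord.ToType in (U : Filter (Set lam.ord.ToType)),
        Ordinal.type ((· < ·) : z → z → Prop) = κ.ord

/-- `N` satisfies: `b` is the least cardinal above `a`. -/
def IsSuccCard (N : Set ZFSet.{u}) (a b : ZFSet.{u}) : Prop :=
  IsCardinalIn N b ∧ a ∈ b ∧ ∀ μ ∈ b, IsCardinalIn N μ → μ ⊆ a

/-- `N` contains an order isomorphism from the ordinal `α` onto the set of `lt`-predecessors of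
`t`; `pair s t ∈ lt` means that `s` is below `t`. -/
def HeightIs (N : Set ZFSet.{u}) (lt t α : ZFSet.{u}) : Prop :=
  ∃ f ∈ N, (∀ a ∈ α, ∃ s, pair a s ∈ f) ∧
    (∀ a s, pair a s ∈ f → a ∈ α ∧ pair s t ∈ lt) ∧
    (∀ s, pair s t ∈ lt → ∃ a, pair a s ∈ f) ∧
    ∀ a s, pair a s ∈ f → ∀ a' s', pair a' s' ∈ f →
      (a = a' ↔ s = s') ∧ (a ∈ a' ↔ pair s s' ∈ lt)

/-- `N` satisfies: `(T, lt)` is a `κ`-tree. -/
structure IsTree (N : Set ZFSet.{u}) (κ T lt : ZFSet.{u}) : Prop where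
  sub : lt ⊆ T.prod T
  irrefl : ∀ t, pair t t ∉ lt
  trans : ∀ r s t, pair r s ∈ lt → pair s t ∈ lt → pair r t ∈ lt
  height : ∀ t ∈ T, ∃ α ∈ κ, HeightIs N lt t α
  level : ∀ α ∈ κ, ∃ t ∈ T, HeightIs N lt t α
  small : ∀ α ∈ κ, ∀ L ∈ N, (∀ t ∈ L, t ∈ T ∧ HeightIs N lt t α) → CardLt N L κ

/-- `N` satisfies the tree property at `κ`: every `κ`-tree has a cofinal branch. -/
def TreeProperty (N : Set ZFSet.{u}) (κ : ZFSet.{u}) : Prop :=
  ∀ T ∈ N, ∀ lt ∈ N, IsTree N κ T lt → ∃ b ∈ N, b ⊆ T ∧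
    (∀ s ∈ b, ∀ t ∈ b, s = t ∨ pair s t ∈ lt ∨ pair t s ∈ lt) ∧
    ∀ α ∈ κ, ∃ t ∈ b, HeightIs N lt t α

/-- `N` satisfies: `I` is a saturated ideal on `κ` (proper, `κ`-complete, containing all
singletons, every antichain of positive sets has size at most `κ`). -/
structure IsSaturatedIdeal (N : Set ZFSet.{u}) (κ I : ZFSet.{u}) : Prop where
  sub : ∀ A ∈ I, A ⊆ κ
  proper : κ ∉ I
  down : ∀ A ∈ I, ∀ B ∈ N, B ⊆ A → B ∈ I
  sing : ∀ γ ∈ κ, ({γ} : ZFSet.{u}) ∈ I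
  compl : ∀ F ∈ N, F ⊆ I → CardLt N F κ → (⋃₀ F : ZFSet.{u}) ∈ I
  sat : ∀ 𝒜 ∈ N, (∀ A ∈ 𝒜, A ⊆ κ ∧ A ∉ I) → (∀ A ∈ 𝒜, ∀ B ∈ 𝒜, A ≠ B → A ∩ B ∈ I) →
    CardLt N 𝒜 κ ∨ HasCard N 𝒜 κ

end Pool.Agent.P.MP_a18ac8_lc
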