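import Pool.Agent.P.MP_a18ac8_lc.CC

universe u

namespace Pool.Agent.P.MP_a18ac8_lc

open Cardinal Set Sum Filter

variable {Λ : Type u} [ConditionallyCompleteLinearOrderBot Λ] [WellFoundedLT Λ]

variable [Ctx Λ] {x' : Set Λ} {q t E : Cond Λ}

theorem term_empty (x' : Set Λ) : Term x' (⟨∅, fun _ _ => ⊥⟩ : Cond Λ) := by
  let ω : Pt Λ := ⟨fun _ => ⊥, fun c => by
    rcases c with k | k
    · exact bot_le (α := Λ)
    · exact mem_insert _ _⟩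
  have h := valid_cyl finite_empty (empty_subset _) ω
  exact ⟨h.of_pieces h fun c hc => hc.elim, fun c hc => hc.elim⟩

theorem Term.subset_Ch (h : Term x' t) : t.D ⊆ Ch x' := by
  intro c hc
  obtain ⟨x, ζ, rfl, h1, -⟩ := h.2 c hc
  exact ⟨x, ζ, rfl, h1, (h.1.node hc).2.2⟩

theorem Term.res (h : Term x' t) (S : Set (Co Λ)) : Term x' (t.res S) :=   ⟨h.1.res S, fun c hc => h.2 c hc.1⟩

theorem Easton_notLev (h : Term x' t) {c : Co Λ} (hc : c ∈ t.D) : c ∉ Lev (crd (mu x')) := by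
  obtain ⟨x, ζ, rfl, h1, -⟩ := h.2 c hc
  intro h2
  have h3 := crd_mu_le x
  rw [h1.1] at h3
  exact (mem_Lev_inr.1 h2).1.not_ge h3

theorem Term.set_un (h : Term x' t) (hE : VL (mu x') E) : (E.un t).set = E.set ∩ t.set :=   set_un_of_disjoint (disjoint_left.2 fun _ hc hc' => Easton_notLev h hc' (hE.2 hc))

theorem Easton_un_mono {E' t' : Cond Λ} (hE : VL (mu x') E) (ht : Term x' t) (hE' : VL (mu x') E')
    (ht' : Term x' t') (h1 : E' ≤ E) (h2 : t' ≤ t) : E'.un t' ≤ E.un t := by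
  rw [Cond.le_def, ht.set_un hE, ht'.set_un hE']
  exact inter_subset_inter h1 h2

theorem Easton_un_right (hE : VL (mu x') E) (ht : Term x' t) : E.un t ≤ t := by
  rw [Cond.le_def, ht.set_un hE]
  exact inter_subset_right

theorem Easton_un_S1 (hE : VL (mu x') E) (ht : Term x' t) : (E.un t).D ⊆ S1 x' :=
  union_subset_union hE.2 ht.subset_Ch

theorem Easton_term_un {t' : Cond Λ} (ht : Term x' t) (ht' : Term x' t') :
    Term x' (t.un t') := by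
  refine ⟨ht.1.un ht'.1, fun c hc => ?_⟩
  by_cases h : c ∈ t.D
  · rw [un_r_left h]
    exact ht.2 c h
  · rw [un_r_right h]
    exact ht'.2 c (hc.resolve_left h)

theorem term_union (hr : Reg (mu x')) {I : Type u} {s : Set I} (hs : #s < crd (mu x'))
    (t : I → Cond Λ) (ht : ∀ i ∈ s, Term x' (t i))
    (hc : ∀ i ∈ s, ∀ j ∈ s, ∀ c ∈ (t i).D, c ∈ (t j).D → (t i).r c = (t j).r c) :
    ∃ u, Term x' u ∧ u.D = ⋃ i ∈ s, (t i).D ∧ ∀ i ∈ s, Ext (t i) u := by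
  classical
  let u : Cond Λ := ⟨⋃ i ∈ s, (t i).D, fun c =>
    if h : ∃ i ∈ s, c ∈ (t i).D then (t h.choose).r c else fun _ => ⊥⟩
  have hu : ∀ i ∈ s, ∀ c ∈ (t i).D, u.r c = (t i).r c := by
    intro i hi c hci
    have h : ∃ i ∈ s, c ∈ (t i).D := ⟨i, hi, hci⟩
    exact (dif_pos h).trans (hc _ h.choose_spec.1 i hi c h.choose_spec.2 hci)
  have hm : ∀ c ∈ u.D, ∃ i ∈ s, c ∈ (t i).D := fun c h => by
    simpa only [u, mem_iUnion, exists_prop] using h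
  have hT : ∀ c ∈ u.D, ∃ x ζ, c = inr (x, ζ) ∧ Ini x x' ∧ Dep (u.r c) (Un x) := by
    intro c h
    obtain ⟨i, hi, hci⟩ := hm c h
    rw [hu i hi c hci]
    exact (ht i hi).2 c hci
  refine ⟨u, ⟨valid_iff.2 ⟨⟨?_, ⟨{x'}, ?_, ?_⟩, ?_⟩, ?_, ?_⟩, hT⟩, rfl,
    fun i hi c hci => ⟨mem_biUnion hi hci, hu i hi c hci⟩⟩
  · refine finite_empty.subset fun c h => ?_
    obtain ⟨x, ζ, rfl, -⟩ := hT c h.1
    exact notMem_Fn_inr h.2
  · rw [Cardinal.mk_singleton]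
    exact Cardinal.one_lt_aleph0.trans aleph0_lt_rho
  · intro x ζ h
    obtain ⟨x₁, ζ₁, e, h1, -⟩ := hT _ h
    obtain ⟨rfl, rfl⟩ := Prod.mk.inj (inr.inj e)
    exact ⟨x', rfl, h1⟩
  · intro μ hμ hρ
    by_cases e : μ = mu x'
    · subst e
      refine lt_of_le_of_lt (Cardinal.mk_le_mk_of_subset ?_) (card_iUnion_lt hr.1 hs
        (t := fun i => {c ∈ (t i).D | ∃ x ζ, c = inr (x, ζ) ∧ mu x = mu x'})
        fun i hi => (ht i hi).1.domOK.2.2 _ hμ hρ)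
      rintro c ⟨h1, h2⟩
      obtain ⟨i, hi, hci⟩ := hm c h1
      exact mem_biUnion hi ⟨hci, h2⟩
    · have : {c ∈ u.D | ∃ x ζ, c = inr (x, ζ) ∧ mu x = μ} = ∅ := by
        refine eq_empty_of_forall_notMem ?_
        rintro c ⟨h1, x, ζ, rfl, h2⟩
        obtain ⟨x₁, ζ₁, e', h3, -⟩ := hT _ h1
        obtain ⟨rfl, rfl⟩ := Prod.mk.inj (inr.inj e')
        exact e (h2.symm.trans h3.1)
      rw [this, Cardinal.mk_emptyCollection]
      exact hμ.1.pos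
  · intro y s₀ ω h1 h2
    refine ⟨s₀, ω, h1, h2, Subset.rfl, fun _ _ => rfl, fun x ζ h _ => ?_⟩
    obtain ⟨x₁, ζ₁, e, -, h3⟩ := hT _ h
    obtain ⟨rfl, rfl⟩ := Prod.mk.inj (inr.inj e)
    exact h3.depIn
  · intro c h
    obtain ⟨i, hi, hci⟩ := hm c h
    rw [hu i hi c hci]
    exact (ht i hi).1.name hci

theorem decomp (hq : Valid q) (hD : q.D ⊆ S1 x') (ht : Term x' t) (h : q ≤ t) :
    ∃ E t', VL (mu x') E ∧ Term x' t' ∧ Ext t t' ∧ E.un t' ≤ q := by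
  obtain ⟨p, hp, hpq, hU, hpD⟩ := exists_ust hq x'
  have hE : VL (mu x') (p.res (Lev (crd (mu x')))) := ⟨hp.res _, inter_subset_right⟩
  have hC : Term x' (p.res (Ch x')) := by
    refine ⟨hp.res _, ?_⟩
    rintro c ⟨h1, x, ζ, rfl, h2, -⟩
    exact ⟨x, ζ, rfl, h2, hU x ζ h1 h2⟩
  have hT := Easton_term_un ht hC
  refine ⟨_, _, hE, hT, ext_un, le_trans ?_ ((fix_le hp ht.1 (hpq.trans h)).trans hpq)⟩
  rw [Cond.le_def, hT.set_un hE]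
  rintro ω ⟨h1, h2⟩
  rw [mem_un] at h2 ⊢
  refine ⟨h2.1, fun c hc hct => ?_⟩
  have hS : c ∈ S1 x' := (hpD hc).elim (fun h => hD h) fun h => Or.inl (Fn_subset_Lev h)
  rcases hS with hS | hS
  · exact h1 c ⟨hc, hS⟩
  · exact h2.2 c ⟨hc, hS⟩ hct

theorem le_of_un_le {E' t' : Cond Λ} (hE : VL (mu x') E) (ht : Term x' t) (hE' : VL (mu x') E')
    (h : E.un t ≤ E'.un t') : E ≤ E' := by
  refine le_trans ?_ (res_le (hE.1.un ht.1) hE'.1 (closed_Lev _) hE'.2 (h.trans un_le_left))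
  rintro ω hω c ⟨hc, hL⟩
  have hcE : c ∈ E.D := hc.resolve_right fun h => Easton_notLev ht h hL
  exact (hω c hcE).trans (congrFun (un_r_left hcE).symm ω)

theorem Easton_chain (hr : Reg (mu x')) {ξ : Λ} (hξ : ξ < mu x') {t₀ : Cond Λ} (ht₀ : Term x' t₀)
    (f : Λ → Cond Λ) (h1 : ∀ η < ξ, Term x' (f η) ∧ Ext t₀ (f η))
    (h2 : ∀ η < ξ, ∀ η' < η, Ext (f η') (f η)) :
    ∃ u, Term x' u ∧ Ext t₀ u ∧ ∀ η < ξ, Ext (f η) u := by
  obtain ⟨u, hu, -, hE⟩ := term_union hr (s := Iio ξ) (hr.crd_lt_iff.2 hξ) f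
    (fun i hi => (h1 i hi).1) fun i hi j hj c hci hcj => by
      rcases lt_trichotomy i j with h | rfl | h
      · exact ((h2 j hj i h) c hci).2.symm
      · rfl
      · exact ((h2 i hi j h) c hcj).2
  refine ⟨t₀.un u, Easton_term_un ht₀ hu, ext_un, fun η hη c hc => ?_⟩
  refine ⟨Or.inr (hE η hη c hc).1, ?_⟩
  by_cases h : c ∈ t₀.D
  · rw [un_r_left h, ((h1 η hη).2 c h).2]
  · rw [un_r_right h, (hE η hη c hc).2]

/-- The term `t` reduces the decision of `O` to the small part. -/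
def EastonGood (x' : Set Λ) (O : Cond Λ → Prop) (t : Cond Λ) : Prop :=
  ∀ E, VL (mu x') E → ∃ E', VL (mu x') E' ∧ E' ≤ E ∧
    (O (E'.un t) ∨ ∀ q, Valid q → q ≤ E'.un t → ¬ O q)

theorem EastonGood.mono {O : Cond Λ → Prop} {t' : Cond Λ} (h : EastonGood x' O t) (ho : Opn O)
    (ht : Term x' t) (ht' : Term x' t') (he : Ext t t') : EastonGood x' O t' := by
  intro E hE
  obtain ⟨E', hE', h1, h2⟩ := h E hE
  have h3 : E'.un t' ≤ E'.un t := Easton_un_mono hE' ht hE' ht' le_rfl he.le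
  exact ⟨E', hE', h1, h2.imp (ho _ _ (hE'.1.un ht'.1) h3) fun h q hq hle => h q hq (hle.trans h3)⟩

theorem Easton_single (hμ : Inac (mu x')) (hρ : rho < mu x') (hK : KP (mu x'))
    {O : Cond Λ → Prop} (ho : Opn O) (hO : ∀ q, Valid q → O q → O (q.res (S1 x')))
    {t₀ : Cond Λ} (ht₀ : Term x' t₀) : ∃ t, Term x' t ∧ Ext t₀ t ∧ EastonGood x' O t := by
  by_contra hcon
  have : Nonempty (Cond Λ × Cond Λ) := ⟨(t₀, t₀)⟩
  obtain ⟨f, hP, hR⟩ := exists_seq (Λ := Λ) (X := Cond Λ × Cond Λ)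
    (fun ξ a => ξ < mu x' → VL (mu x') a.1 ∧ Term x' a.2 ∧ Ext t₀ a.2 ∧ O (a.1.un a.2))
    (fun _ a ξ b => ξ < mu x' → Ext a.2 b.2 ∧ ¬ ∃ r, VL (mu x') r ∧ r ≤ a.1 ∧ r ≤ b.1)
    fun ξ f h1 h2 => by
      by_cases hξ : ξ < mu x'
      swap
      · exact ⟨(t₀, t₀), fun h => absurd h hξ, fun _ _ h => absurd h hξ⟩
      obtain ⟨u, hu, hu0, hue⟩ := Easton_chain hμ.reg hξ ht₀ (fun η => (f η).2)
        (fun η hη => ⟨(h1 η hη (hη.trans hξ)).2.1, (h1 η hη (hη.trans hξ)).2.2.1⟩)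
        fun η hη η' hη' => (h2 η hη η' hη' (hη.trans hξ)).1
      have hbad : ¬ EastonGood x' O u := fun h => hcon ⟨u, hu, hu0, h⟩
      simp only [EastonGood, not_forall, not_exists, not_and, not_or, not_not, exists_prop]
        at hbad
      obtain ⟨E, hE, hbad⟩ := hbad
      obtain ⟨q, hq, hqle, hOq⟩ := (hbad E hE le_rfl).2
      have hq1 : q.res (S1 x') ≤ E.un u :=
        res_le hq (hE.1.un hu.1) (closed_S1 _) (Easton_un_S1 hE hu) hqle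
      obtain ⟨E₁, t₁, hE₁, ht₁, he, hle⟩ := decomp (hq.res (S1 x')) inter_subset_right hu
        (hq1.trans (Easton_un_right hE hu))
      have hE₁E : E₁ ≤ E := le_of_un_le hE₁ ht₁ hE (hle.trans hq1)
      refine ⟨(E₁, t₁), fun _ => ⟨hE₁, ht₁, hu0.trans he,
        ho _ _ (hE₁.1.un ht₁.1) hle (hO q hq hOq)⟩, fun η hη _ => ⟨(hue η hη).trans he, ?_⟩⟩
      rintro ⟨r, hr, r1, r2⟩
      obtain ⟨a1, a2, -, a4⟩ := h1 η hη (hη.trans hξ)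
      exact (hbad r hr (r2.trans hE₁E)).1
        (ho _ _ (hr.1.un hu.1) (Easton_un_mono a1 a2 hr hu r1 (hue η hη).le) a4)
  obtain ⟨i, hi, j, hj, hij, r, hr, r1, r2⟩ := cc hμ hρ hK (s := Iio (mu x')) le_rfl
    (fun ξ => (f ξ).1) fun i hi => (hP i hi).1
  rcases lt_or_gt_of_ne hij with h | h
  · exact (hR j i h hj).2 ⟨r, hr, r1, r2⟩
  · exact (hR i j h hi).2 ⟨r, hr, r2, r1⟩

theorem easton (hμ : Inac (mu x')) (hρ : rho < mu x') (hK : KP (mu x')) {I : Type u} {s : Set I}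
    (hs : #s < crd (mu x')) (O : I → Cond Λ → Prop) (ho : ∀ i, Opn (O i))
    (hO : ∀ i q, Valid q → O i q → O i (q.res (S1 x'))) {t₀ : Cond Λ} (ht₀ : Term x' t₀) :
    ∃ t, Term x' t ∧ Ext t₀ t ∧ ∀ i ∈ s, ∀ E, VL (mu x') E → ∃ E', VL (mu x') E' ∧ E' ≤ E ∧
      (O i (E'.un t) ∨ ∀ q, Valid q → q ≤ E'.un t → ¬ O i q) := by
  obtain ⟨θ, hθ, hc⟩ := hμ.reg.exists_crd hs
  obtain ⟨e⟩ : Nonempty (s ≃ Iio θ) := Cardinal.eq.1 hc.symm
  have : Nonempty (Cond Λ) := ⟨t₀⟩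
  obtain ⟨f, hP, hR⟩ := exists_seq (Λ := Λ) (X := Cond Λ)
    (fun ξ a => ξ < θ → Term x' a ∧ Ext t₀ a ∧ ∀ i : s, (e i : Λ) = ξ → EastonGood x' (O i) a)
    (fun _ a ξ b => ξ < θ → Ext a b)
    fun ξ f h1 h2 => by
      by_cases hξ : ξ < θ
      swap
      · exact ⟨t₀, fun h => absurd h hξ, fun _ _ h => absurd h hξ⟩
      obtain ⟨u, hu, hu0, hue⟩ := Easton_chain hμ.reg (hξ.trans hθ) ht₀ f
        (fun η hη => ⟨(h1 η hη (hη.trans hξ)).1, (h1 η hη (hη.trans hξ)).2.1⟩)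
        fun η hη η' hη' => h2 η hη η' hη' (hη.trans hξ)
      obtain ⟨t, ht, he, hg⟩ := Easton_single hμ hρ hK (ho (e.symm ⟨ξ, hξ⟩))
        (hO (e.symm ⟨ξ, hξ⟩)) hu
      refine ⟨t, fun _ => ⟨ht, hu0.trans he, fun i hi => ?_⟩, fun η hη _ => (hue η hη).trans he⟩
      obtain rfl : i = e.symm ⟨ξ, hξ⟩ := e.eq_symm_apply.2 (Subtype.ext hi)
      exact hg
  obtain ⟨u, hu, hu0, hue⟩ := Easton_chain hμ.reg hθ ht₀ f
    (fun η hη => ⟨(hP η hη).1, (hP η hη).2.1⟩) fun η hη η' hη' => hR η η' hη' hη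
  refine ⟨u, hu, hu0, fun i hi => ?_⟩
  obtain ⟨a1, -, a3⟩ := hP _ (e ⟨i, hi⟩).2
  exact (a3 ⟨i, hi⟩ rfl).mono (ho i) a1 hu (hue _ (e ⟨i, hi⟩).2)

theorem pres (hμ : Inac (mu x')) (hρ : rho < mu x') (hK : KP (mu x'))
    (O : Λ → Λ → Cond Λ → Prop) (ho : ∀ j a, Opn (O j a))
    (hO : ∀ j a q, Valid q → O j a q → O j a (q.res (S1 x'))) {q₀ : Cond Λ} (hq₀ : Valid q₀)
    (hD : q₀.D ⊆ S1 x')
    (hf : ∀ j a a' q, Valid q → q ≤ q₀ → O j a q → O j a' q → a = a') :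
    ∃ q, Valid q ∧ q ≤ q₀ ∧ q.D ⊆ S1 x' ∧ ∃ I : Set Λ, #I < crd (mu x') ∧
      ∀ j < rho, ∀ a q', Valid q' → q' ≤ q → O j a q' → a ∈ I := by
  obtain ⟨E₀, t₀, hE₀, ht₀, -, hle₀⟩ := decomp hq₀ hD (term_empty x')
    (fun ω _ c hc => hc.elim)
  have hρ' : #(Iio (rho : Λ)) < crd (mu x') := hμ.reg.crd_lt_iff.2 hρ
  obtain ⟨t, ht, he, hg⟩ := easton hμ hρ hK hρ' (fun j q => ∃ a, O j a q)
    (fun j p q hq hle ⟨a, ha⟩ => ⟨a, ho j a p q hq hle ha⟩)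
    (fun j q hq ⟨a, ha⟩ => ⟨a, hO j a q hq ha⟩) ht₀
  have hle : E₀.un t ≤ q₀ := (Easton_un_mono hE₀ ht₀ hE₀ ht le_rfl he.le).trans hle₀
  refine ⟨E₀.un t, hE₀.1.un ht.1, hle, Easton_un_S1 hE₀ ht,
    ⋃ j ∈ Iio (rho : Λ), {a | ∃ E, VL (mu x') E ∧ E ≤ E₀ ∧ O j a (E.un t)},
    card_iUnion_lt hμ.reg.1 hρ' fun j _ => ?_, fun j hj a q' hq' hq'le hOa => ?_⟩
  · by_contra hcon
    have : Nonempty (Cond Λ) := ⟨t₀⟩
    have hch : ∀ a ∈ {a | ∃ E, VL (mu x') E ∧ E ≤ E₀ ∧ O j a (E.un t)},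
        ∃ E, VL (mu x') E ∧ E ≤ E₀ ∧ O j a (E.un t) := fun a ha => ha
    choose! F h1 h2 h3 using hch
    obtain ⟨a, ha, a', ha', hne, r, hr, r1, r2⟩ := cc hμ hρ hK (not_lt.1 hcon) F h1
    have hv := hr.1.un ht.1
    exact hne (hf j a a' _ hv
      ((Easton_un_mono hE₀ ht hr ht (r1.trans (h2 a ha)) le_rfl).trans hle)
      (ho j a _ _ hv (Easton_un_mono (h1 a ha) ht hr ht r1 le_rfl) (h3 a ha))
      (ho j a' _ _ hv (Easton_un_mono (h1 a' ha') ht hr ht r2 le_rfl) (h3 a' ha')))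
  · have hq1 : q'.res (S1 x') ≤ E₀.un t :=
      res_le hq' (hE₀.1.un ht.1) (closed_S1 _) (Easton_un_S1 hE₀ ht) hq'le
    obtain ⟨E₁, t₁, hE₁, ht₁, he₁, hle₁⟩ := decomp (hq'.res (S1 x')) inter_subset_right ht
      (hq1.trans (Easton_un_right hE₀ ht))
    have hE₁E : E₁ ≤ E₀ := le_of_un_le hE₁ ht₁ hE₀ (hle₁.trans hq1)
    obtain ⟨E', hE', hE'le, hor⟩ := hg j hj E₁ hE₁
    have hv := hE'.1.un ht₁.1
    have b1 : E'.un t₁ ≤ q'.res (S1 x') :=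
      (Easton_un_mono hE₁ ht₁ hE' ht₁ hE'le le_rfl).trans hle₁
    have b2 : E'.un t₁ ≤ E'.un t := Easton_un_mono hE' ht hE' ht₁ le_rfl he₁.le
    have b3 : O j a (E'.un t₁) := ho j a _ _ hv b1 (hO j a q' hq' hOa)
    rcases hor with ⟨a', ha'⟩ | hno
    · obtain rfl : a = a' := hf j a a' _ hv ((b1.trans hq1).trans hle) b3 (ho j a' _ _ hv b2 ha')
      exact mem_biUnion hj ⟨E', hE', hE'le.trans hE₁E, ha'⟩
    · exact (hno _ hv b2 ⟨a, b3⟩).elim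

end Pool.Agent.P.MP_a18ac8_lc
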