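import Pool.Agent.P.MP_a18ac8_lc.Basic

/-!
One step of the fusion construction.
-/

universe u

set_option linter.unusedSectionVars false

namespace Pool.Agent.P.MP_a18ac8_lc

open Cardinal Set Sum Filter

variable {Λ : Type u} [ConditionallyCompleteLinearOrderBot Λ] [WellFoundedLT Λ]

variable [Ctx Λ]

/-- The coordinates outside the nodes in `L`. -/
def Cm (L : Set (Set Λ)) : Set (Co Λ) := {c | ∀ x ζ, c = inr (x, ζ) → x ∉ L}

theorem Fn_subset_Cm (L : Set (Set Λ)) : Fn Λ ⊆ Cm L := by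
  rintro _ ⟨k, rfl⟩ x ζ h
  cases h

theorem valid_of_finite {A : Set (Cond Λ)} (hA : A.Finite) (hv : ∀ a ∈ A, Valid a) :
    ∀ q : Cond Λ, (∀ c ∈ q.D, ∃ a ∈ A, c ∈ a.D ∧ q.r c = a.r c) → Valid q := by
  induction A, hA using Set.Finite.induction_on with
  | empty =>
    intro q h
    have h0 : Valid (cyl (∅ : Set (Co Λ)) ⟨fun _ => ⊥, fun c => by
        rcases c with k | k
        exacts [(bot_le : ⊥ ≤ bd k.1), mem_insert _ _]⟩) :=
      valid_cyl finite_empty (empty_subset _) _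
    exact h0.of_pieces h0 fun c hc => (h c hc).elim fun a ha => ha.1.elim
  | @insert a A _ _ ih =>
    intro q h
    have h1 := ih (fun a ha => hv a (mem_insert_of_mem _ ha))
      (q.res {c | ∃ a ∈ A, c ∈ a.D ∧ q.r c = a.r c}) fun c hc => hc.2
    refine (hv a (mem_insert _ _)).of_pieces h1 fun c hc => ?_
    obtain ⟨b, hb, h2⟩ := h c hc
    rcases hb with rfl | hb
    · exact Or.inl h2
    · exact Or.inr ⟨⟨hc, b, hb, h2⟩, rfl⟩

/-- States of the construction: frozen groups and a tree of side conditions. -/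
structure FSt (Λ : Type u) [ConditionallyCompleteLinearOrderBot Λ] [Ctx Λ] where
  Y : Set (Set Λ)
  R : List Bool → Cond Λ

/-- Instructions. -/
structure Ins (Λ : Type u) [ConditionallyCompleteLinearOrderBot Λ] [Ctx Λ] where
  y : Option (Set Λ)
  s : Set (Co Λ)
  ω : Pt Λ
  σ₁ : Option (Set Λ) → List Bool
  σ₂ : Option (Set Λ) → List Bool
  n : ℕ

section
variable (L L₁ : Set (Set Λ)) (grp : Set Λ → Set Λ) (q₀ : Cond Λ)

open Classical in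
/-- The group of a coordinate. -/
noncomputable def oc : Co Λ → Option (Set Λ)
  | inl _ => none
  | inr k => if k.1 ∈ L₁ then some (grp k.1) else none

open Classical in
/-- Forget the groups that are not frozen. -/
noncomputable def flt (Y : Set (Set Λ)) : Option (Set Λ) → Option (Set Λ)
  | none => none
  | some y => if y ∈ Y then some y else none

def FInv (a : FSt Λ) : Prop :=
  a.Y.Finite ∧ (∀ s, Valid (a.R s) ∧ Disjoint (a.R s).D (Fn Λ) ∧ Ext (q₀.res (Fn Λ)ᶜ) (a.R s)) ∧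
    ∀ s s', Agr (Cm L) (a.R s) (a.R s')

/-- Glue conditions coordinatewise. -/
def glue (P : Co Λ → Cond Λ) : Cond Λ := ⟨{c | c ∈ (P c).D}, fun c => (P c).r c⟩

structure StepRel (a : FSt Λ) (ins : Ins Λ) (g : Cond Λ × Cond Λ) (F : Set (Set Λ))
    (o : FSt Λ × Set (Co Λ) × Pt Λ) : Prop where
  Y : o.1.Y = a.Y ∪ {y | ins.y = some y}
  ext : ∀ e s, Ext (a.R s) (o.1.R (e :: s))
  new : ∀ e s x ζ, inr (x, ζ) ∈ (o.1.R (e :: s)).D → inr (x, ζ) ∉ (a.R s).D →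
    (∃ x' ∈ F, Ini x x') → Dep ((o.1.R (e :: s)).r (inr (x, ζ))) (Un x)
  le : cyl o.2.1 o.2.2 ≤ (q₀.res (Fn Λ)).un (cyl ins.s ins.ω)
  sep₁ : ∀ ω ∈ (cyl o.2.1 o.2.2).set,
    ω ∈ (glue fun c => o.1.R (false :: ins.σ₁ (flt o.1.Y (oc L₁ grp c)))).set → ω ∈ g.1.set
  sep₂ : ∀ ω ∈ (cyl o.2.1 o.2.2).set,
    ω ∈ (glue fun c => o.1.R (true :: ins.σ₂ (flt o.1.Y (oc L₁ grp c)))).set → ω ∈ g.2.set

end

theorem flt_mem (Y : Set (Set Λ)) (o : Option (Set Λ)) : flt Y o ∈ insert none (some '' Y) := by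
  rcases o with _ | y
  · exact mem_insert _ _
  · simp only [flt]
    split_ifs with h
    exacts [Or.inr ⟨y, h, rfl⟩, Or.inl rfl]

open Classical in
/-- Unsteer the names of `b` that are new over `a` on the chains of `F`. -/
noncomputable def unst (F : Set (Set Λ)) (s : Set (Co Λ)) (ω : Pt Λ) (a b : Cond Λ) : Cond Λ :=
  ⟨b.D \ Fn Λ, fun c => match c with
    | inl _ => b.r c
    | inr k => if c ∉ a.D ∧ ∃ x' ∈ F, Ini k.1 x' then loc s ω k.1 (b.r c) else b.r c⟩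

section unst
variable {F : Set (Set Λ)} {s : Set (Co Λ)} {ω : Pt Λ} {a b a' b' : Cond Λ}

theorem unst_valid (hb : Valid b) (hs : s.Finite) (hs' : s ⊆ Fn Λ)
    (h : ∀ x ζ, inr (x, ζ) ∈ b.D → (∃ x' ∈ F, Ini x x') →
      DepIn s ω (b.r (inr (x, ζ))) (Un x)) : Valid (unst F s ω a b) := by
  refine hb.modify fun c hc => ⟨hc.1, ?_⟩
  rcases c with k | ⟨x, ζ⟩
  · exact Or.inl rfl
  · by_cases h1 : inr (x, ζ) ∉ a.D ∧ ∃ x' ∈ F, Ini x x'
    · refine Or.inr ⟨x, ζ, rfl, ?_⟩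
      simp only [unst, if_pos h1]
      exact ⟨loc_name hs hs' (h x ζ hc.1 h1.2) (hb.name hc.1), loc_dep⟩
    · left
      simp only [unst, if_neg h1]

theorem unst_ext (ha : Disjoint a.D (Fn Λ)) (h : Ext a b) : Ext a (unst F s ω a b) := by
  intro c hc
  refine ⟨⟨(h c hc).1, disjoint_left.1 ha hc⟩, ?_⟩
  rcases c with k | ⟨x, ζ⟩
  · exact (h _ hc).2
  · simp only [unst, hc, not_true, false_and, if_false]
    exact (h _ hc).2

theorem unst_new {x : Set Λ} {ζ : Λ} (h1 : inr (x, ζ) ∉ a.D) (h2 : ∃ x' ∈ F, Ini x x') :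
    Dep ((unst F s ω a b).r (inr (x, ζ))) (Un x) := by
  have : inr (x, ζ) ∉ a.D ∧ ∃ x' ∈ F, Ini x x' := ⟨h1, h2⟩
  simp only [unst, if_pos this]
  exact loc_dep

theorem unst_agr {S : Set (Co Λ)} (h : Agr S a a') (h' : Agr S b b') :
    Agr S (unst F s ω a b) (unst F s ω a' b') := by
  intro c hc
  refine ⟨and_congr_left fun _ => (h' c hc).1, fun hc' => ?_⟩
  have h1 := (h' c hc).2 hc'.1
  rcases c with k | ⟨x, ζ⟩
  · exact h1
  · simp only [unst, h1]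
    have h2 := (h _ hc).1
    split_ifs with h3 h4 h4
    · rfl
    · exact (h4 ⟨mt h2.2 h3.1, h3.2⟩).elim
    · exact (h3 ⟨mt h2.1 h4.1, h4.2⟩).elim
    · rfl

theorem unst_mem {ω' : Pt Λ} (hω : EqOn ω'.f ω.f s)
    (h : ∀ x ζ, inr (x, ζ) ∈ b.D → (∃ x' ∈ F, Ini x x') → DepIn s ω (b.r (inr (x, ζ))) (Un x))
    (h1 : ω' ∈ (unst F s ω a b).set) (h2 : ω' ∈ (b.res (Fn Λ)).set) : ω' ∈ b.set := by
  intro c hc
  rcases c with k | ⟨x, ζ⟩
  · exact h2 _ ⟨hc, mem_Fn_inl⟩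
  · have h3 := h1 _ ⟨hc, notMem_Fn_inr⟩
    by_cases h4 : inr (x, ζ) ∉ a.D ∧ ∃ x' ∈ F, Ini x x'
    · simp only [unst, if_pos h4] at h3
      rw [h3, loc_eq (h x ζ hc h4.2) hω]
    · simpa only [unst, if_neg h4] using h3

end unst

theorem fstep {L L₁ : Set (Set Λ)} {grp : Set Λ → Set Λ} {q₀ : Cond Λ} (hq₀ : Valid q₀)
    {Good : ℕ → Cond Λ → Cond Λ → Prop}
    (H : ∀ n q₁ q₂, Valid q₁ → Valid q₂ → q₁ ≤ q₀ → q₂ ≤ q₀ → Agr (Cm L) q₁ q₂ →
      ∃ q₁' q₂', Valid q₁' ∧ Valid q₂' ∧ q₁' ≤ q₁ ∧ q₂' ≤ q₂ ∧ Agr (Cm L) q₁' q₂' ∧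
        Good n q₁' q₂') (a : FSt Λ) (ins : Ins Λ) (ha : FInv L q₀ a) (hs : ins.s.Finite)
    (hs' : ins.s ⊆ Fn Λ) :
    ∃ g : Cond Λ × Cond Λ, (Valid g.1 ∧ Valid g.2 ∧ Good ins.n g.1 g.2) ∧
      ∃ O : Set (FSt Λ × Set (Co Λ) × Pt Λ), #O < crd (rho : Λ) ∧
        (∀ o ∈ O, FInv L q₀ o.1 ∧ o.2.1.Finite ∧ o.2.1 ⊆ Fn Λ) ∧
        ∀ F : Set (Set Λ), F.Finite → ∃ o ∈ O, StepRel L₁ grp q₀ a ins g F o := by
  classical
  obtain ⟨hY, hR, hA⟩ := ha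
  set Y' : Set (Set Λ) := a.Y ∪ {y | ins.y = some y} with hY'
  have hY'f : Y'.Finite := hY.union (Set.Subsingleton.finite fun y hy y' hy' =>
    Option.some_injective _ (hy.symm.trans hy'))
  let cl : Co Λ → Option (Set Λ) := fun c => flt Y' (oc L₁ grp c)
  let asm : (Option (Set Λ) → List Bool) → Cond Λ := fun σ => glue fun c => a.R (σ (cl c))
  have asm1 : ∀ σ, Valid (asm σ) := fun σ =>
    valid_of_finite (((hY'f.image some).insert none).image fun o => a.R (σ o))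
      (by rintro _ ⟨o, -, rfl⟩; exact (hR _).1) _
      fun c hc => ⟨_, ⟨cl c, flt_mem _ _, rfl⟩, hc, rfl⟩
  have asm2 : ∀ σ, Disjoint (asm σ).D (Fn Λ) := fun σ =>
    disjoint_left.2 fun c hc => disjoint_left.1 (hR _).2.1 hc
  have asm3 : ∀ σ, Ext (q₀.res (Fn Λ)ᶜ) (asm σ) := fun σ c hc => (hR _).2.2 c hc
  have asm4 : ∀ σ s, Agr (Cm L) (asm σ) (a.R s) := fun σ s c hc => hA _ _ c hc
  set p := (q₀.res (Fn Λ)).un (cyl ins.s ins.ω) with hp
  have hpv : Valid p := (hq₀.res _).un (valid_cyl hs hs' _)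
  have hpD : p.D ⊆ Fn Λ := union_subset inter_subset_right hs'
  have hdis : ∀ σ, Disjoint p.D (asm σ).D := fun σ => (asm2 σ).symm.mono_left hpD
  have hle : ∀ σ, p.un (asm σ) ≤ q₀ := by
    intro σ ω hω
    rw [set_un_of_disjoint (hdis σ)] at hω
    intro c hc
    by_cases h : c ∈ Fn Λ
    · exact un_le_left hω.1 c ⟨hc, h⟩
    · exact (asm3 σ).le hω.2 c ⟨hc, h⟩
  have hrefl : Agr (Cm L) p p := fun c _ => ⟨Iff.rfl, fun _ => rfl⟩
  obtain ⟨q₁, q₂, v₁, v₂, l₁, l₂, hag, hg⟩ := H ins.n _ _ (hpv.un (asm1 ins.σ₁))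
    (hpv.un (asm1 ins.σ₂)) (hle _) (hle _) (hrefl.un ((asm4 _ []).trans (asm4 _ []).symm))
  have hle' : ∀ σ, p.un (asm σ) ≤ asm σ := fun σ ω hω => by
    rw [set_un_of_disjoint (hdis σ)] at hω; exact hω.2
  set b₁ := (asm ins.σ₁).un q₁ with hb₁
  set b₂ := (asm ins.σ₂).un q₂ with hb₂
  have w₁ : Valid b₁ := (asm1 _).un v₁
  have w₂ : Valid b₂ := (asm1 _).un v₂
  have m₁ : b₁ ≤ q₁ := fix_le v₁ (asm1 _) (l₁.trans (hle' _))
  have m₂ : b₂ ≤ q₂ := fix_le v₂ (asm1 _) (l₂.trans (hle' _))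
  have hab : Agr (Cm L) b₁ b₂ := ((asm4 _ []).trans (asm4 _ []).symm).un hag
  obtain ⟨ω₁, hω₁⟩ := w₁.nonempty
  have hf₁ : (b₁.D ∩ Fn Λ).Finite := w₁.domOK.1
  obtain ⟨X, hX, hX'⟩ := (w₁.un w₂).domOK.2.1
  obtain ⟨C, hC, hC'⟩ := exists_cover hX
  have key : ∀ F' : Set (Set Λ), ∃ o : FSt Λ × Set (Co Λ) × Pt Λ, F'.Finite →
      (FInv L q₀ o.1 ∧ o.2.1.Finite ∧ o.2.1 ⊆ Fn Λ) ∧ ∀ F : Set (Set Λ),
        (∀ x ζ, inr (x, ζ) ∈ b₁.D ∪ b₂.D → (∃ x' ∈ F, Ini x x') → ∃ x' ∈ F', Ini x x') →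
        StepRel L₁ grp q₀ a ins (q₁, q₂) F o := by
    intro F'
    by_cases hF' : F'.Finite
    swap
    · exact ⟨(a, ∅, ω₁), fun h => (hF' h).elim⟩
    obtain ⟨s₂, ω₂, f₂, g₂, i₂, e₂, d₂⟩ := w₁.unif.finite hF' hf₁ inter_subset_right ω₁
    obtain ⟨s₃, ω₃, f₃, g₃, i₃, e₃, d₃⟩ := w₂.unif.finite hF' f₂ g₂ ω₂
    have d₂' : ∀ x ζ, inr (x, ζ) ∈ b₁.D → (∃ x' ∈ F', Ini x x') →
        DepIn s₃ ω₃ (b₁.r (inr (x, ζ))) (Un x) := fun x ζ h h' => (d₂ x ζ h h').mono i₃ e₃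
    set u₁ := unst F' s₃ ω₃ (asm ins.σ₁) b₁ with hu₁
    set u₂ := unst F' s₃ ω₃ (asm ins.σ₂) b₂ with hu₂
    have y₁ : Valid u₁ := unst_valid w₁ f₃ g₃ d₂'
    have y₂ : Valid u₂ := unst_valid w₂ f₃ g₃ d₃
    have x₁ : Ext (asm ins.σ₁) u₁ := unst_ext (asm2 _) ext_un
    have x₂ : Ext (asm ins.σ₂) u₂ := unst_ext (asm2 _) ext_un
    have hu : Agr (Cm L) u₁ u₂ := unst_agr ((asm4 _ []).trans (asm4 _ []).symm) hab
    have hcyl : ∀ ω ∈ (cyl s₃ ω₃).set, ω ∈ (b₁.res (Fn Λ)).set := by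
      intro ω hω
      rw [← w₁.set_res_Fn (le_res hω₁)]
      exact fun c hc => (hω c (i₃ (i₂ hc))).trans ((e₃ (i₂ hc)).trans (e₂ hc))
    let pick : Bool → List Bool → Co Λ → Cond Λ := fun e s c =>
      if c ∈ Cm L ∨ (e = false ∧ s = ins.σ₁ (cl c)) then u₁
      else if e = true ∧ s = ins.σ₂ (cl c) then u₂ else a.R s
    have pk : ∀ e s c, (pick e s c = u₁ ∧ Agr {c} (a.R s) (asm ins.σ₁)) ∨
        (pick e s c = u₂ ∧ Agr {c} (a.R s) (asm ins.σ₂)) ∨ pick e s c = a.R s := by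
      intro e s c
      simp only [pick]
      split_ifs with h1 h2
      · refine Or.inl ⟨rfl, ?_⟩
        rintro _ rfl
        rcases h1 with h1 | ⟨-, h1⟩
        · exact (asm4 _ s).symm _ h1
        · rw [h1]; exact ⟨Iff.rfl, fun _ => rfl⟩
      · refine Or.inr (Or.inl ⟨rfl, ?_⟩)
        rintro _ rfl
        rw [h2.2]; exact ⟨Iff.rfl, fun _ => rfl⟩
      · exact Or.inr (Or.inr rfl)
    have hext : ∀ e s, Ext (a.R s) (glue (pick e s)) := by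
      intro e s c hc
      change c ∈ (pick e s c).D ∧ (pick e s c).r c = (a.R s).r c
      rcases pk e s c with ⟨h1, h2⟩ | ⟨h1, h2⟩ | h1 <;> rw [h1]
      · have h3 := x₁ c ((h2 c rfl).1.1 hc)
        exact ⟨h3.1, h3.2.trans ((h2 c rfl).2 hc).symm⟩
      · have h3 := x₂ c ((h2 c rfl).1.1 hc)
        exact ⟨h3.1, h3.2.trans ((h2 c rfl).2 hc).symm⟩
      · exact ⟨hc, rfl⟩
    refine ⟨(⟨Y', fun l => glue (pick (l.headD false) l.tail)⟩, s₃, ω₃), fun _ =>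
      ⟨⟨⟨hY'f, fun l => ⟨?_, ?_, (hR _).2.2.trans (hext _ _)⟩, fun l l' c hc => ?_⟩, f₃, g₃⟩,
        fun F hF => ⟨rfl, hext, ?_, ?_, ?_, ?_⟩⟩⟩
    · refine valid_of_finite (A := {u₁, u₂, a.R l.tail}) (toFinite _) ?_ _ fun c hc =>
        ⟨pick _ _ c, ?_, hc, rfl⟩
      · rintro _ (rfl | rfl | rfl)
        exacts [y₁, y₂, (hR _).1]
      · rcases pk (l.headD false) l.tail c with ⟨h1, -⟩ | ⟨h1, -⟩ | h1 <;> rw [h1] <;> simp
    · refine disjoint_left.2 fun c hc => ?_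
      change c ∈ (pick _ _ c).D at hc
      rcases pk (l.headD false) l.tail c with ⟨h1, -⟩ | ⟨h1, -⟩ | h1 <;> rw [h1] at hc
      exacts [hc.2, hc.2, disjoint_left.1 (hR _).2.1 hc]
    · have h1 : ∀ e s, pick e s c = u₁ := fun e s => if_pos (Or.inl hc)
      simp only [glue, mem_ofPred_eq, h1, implies_true, and_self]
    · intro e s x ζ h1 h2 h3
      change inr (x, ζ) ∈ (pick e s _).D at h1
      change Dep ((pick e s _).r _) _
      rcases pk e s (inr (x, ζ)) with ⟨h4, h5⟩ | ⟨h4, h5⟩ | h4 <;> rw [h4] at h1 ⊢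
      · exact unst_new (fun h => h2 ((h5 _ rfl).1.2 h)) (hF x ζ (Or.inl h1.1) h3)
      · exact unst_new (fun h => h2 ((h5 _ rfl).1.2 h)) (hF x ζ (Or.inr h1.1) h3)
      · exact (h2 h1).elim
    · intro ω hω
      have h1 := res_le w₁ hpv closed_Fn hpD ((m₁.trans l₁).trans un_le_left)
      exact h1 (hcyl ω hω)
    · intro ω hω h1
      refine m₁ (unst_mem (a := asm ins.σ₁) hω d₂' (fun c hc => ?_) (hcyl ω hω))
      have h2 : pick false (ins.σ₁ (cl c)) c = u₁ := if_pos (Or.inr ⟨rfl, rfl⟩)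
      have h3 := h1 c
      simp only [glue, mem_ofPred_eq, List.headD_cons, List.tail_cons] at h3
      rw [h2] at h3
      exact h3 hc
    · intro ω hω h1
      refine m₂ (unst_mem (a := asm ins.σ₂) hω d₃ (fun c hc => ?_) ?_)
      · have h3 := h1 c
        simp only [glue, mem_ofPred_eq, List.headD_cons, List.tail_cons] at h3
        by_cases h4 : c ∈ Cm L
        · have h2 : pick true (ins.σ₂ (cl c)) c = u₁ := if_pos (Or.inl h4)
          rw [h2] at h3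
          have h5 := (hu c h4).1.2 hc
          exact (h3 h5).trans (congrFun ((hu c h4).2 h5) ω)
        · have h2 : pick true (ins.σ₂ (cl c)) c = u₂ := by simp [pick, h4]
          rw [h2] at h3
          exact h3 hc
      · rw [← (hab.mono (Fn_subset_Cm L)).set_res]
        exact hcyl ω hω
  choose out hout using key
  refine ⟨(q₁, q₂), ⟨v₁, v₂, hg⟩, out '' {F' | F' ⊆ C ∧ F'.Finite}, ?_, ?_, fun F hF => ?_⟩
  · refine (mk_image_le.trans (mk_le_mk_of_subset (t := 𝒫 C) fun F' h => h.1)).trans_lt ?_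
    rw [mk_powerset]
    exact Ctx.rho_inac.1.isStrongLimit.isStrongPrelimit hC
  · rintro _ ⟨F', h, rfl⟩
    exact (hout F' h.2).1
  · choose cov h1 h2 using hC'
    refine ⟨_, ⟨cov '' F, ⟨by rintro _ ⟨x', -, rfl⟩; exact h1 x', hF.image _⟩, rfl⟩,
      (hout _ (hF.image _)).2 F ?_⟩
    rintro x ζ h3 ⟨x', h4, h5⟩
    exact ⟨_, ⟨x', h4, rfl⟩, h2 x' x h5 (hX' x ζ h3)⟩

end Pool.Agent.P.MP_a18ac8_lc
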