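import Pool.Agent.P.MP_a18ac8_lc.Fusion1

/-!
Counting instructions, the closure, and the run of the fusion construction.
-/

universe u

set_option linter.unusedSectionVars false

namespace Pool.Agent.P.MP_a18ac8_lc

open Cardinal Set Sum Filter

variable {Λ : Type u} [ConditionallyCompleteLinearOrderBot Λ] [WellFoundedLT Λ]

variable [Ctx Λ]

theorem fu_countable {X : Type u} {s : Set X} (h : s.Countable) : #s < crd (rho : Λ) :=
  (le_aleph0_iff_set_countable.2 h).trans_lt aleph0_lt_rho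

theorem fu_pow {X : Type u} {s : Set X} (h : #s < crd (rho : Λ)) : #(𝒫 s) < crd (rho : Λ) := by
  rw [mk_powerset]
  exact Ctx.rho_inac.1.isStrongLimit.isStrongPrelimit h

theorem fu_prod {X Y : Type u} {s : Set X} {t : Set Y} (hs : #s < crd (rho : Λ))
    (ht : #t < crd (rho : Λ)) : #(s ×ˢ t) < crd (rho : Λ) := by
  rw [mk_setProd]
  exact mul_lt_of_lt aleph0_lt_rho.le hs ht

theorem fu_prod' {X : Type u} {Y : Type} [Countable Y] {s : Set X} (hs : #s < crd (rho : Λ)) :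
    #(s ×ˢ (univ : Set Y)) < crd (rho : Λ) := by
  have : s ×ˢ (univ : Set Y) = ⋃ a ∈ s, range fun y : Y => (a, y) := by
    ext ⟨a, y⟩; simp
  rw [this]
  exact card_iUnion_lt rho_reg.1 hs fun a _ => fu_countable (countable_range _)

theorem fu_image {X Y : Type u} {s : Set X} (f : X → Y) (hs : #s < crd (rho : Λ)) :
    #(f '' s) < crd (rho : Λ) := mk_image_le.trans_lt hs

theorem fu_inj {X Y : Type u} {s : Set X} {t : Set Y} (f : X → Y) (hf : InjOn f s)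
    (h : MapsTo f s t) (ht : #t < crd (rho : Λ)) : #s < crd (rho : Λ) := by
  rw [← mk_image_eq_of_injOn f s hf]
  exact (mk_le_mk_of_subset h.image_subset).trans_lt ht

/-- The point with all values `⊥`. -/
def ptBot : Pt Λ := ⟨fun _ => ⊥, fun c => by
  rcases c with k | k
  exacts [(bot_le : ⊥ ≤ bd k.1), mem_insert _ _]⟩

open Classical in
/-- The point with value `one` wherever possible on the columns. -/
noncomputable def ptOne : Pt Λ := ⟨fun c => match c with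
    | inl k => if k.1 = ⊥ then ⊥ else one
    | inr _ => ⊥, fun c => by
  rcases c with k | k
  · dsimp only
    split_ifs with h
    exacts [(bot_le : ⊥ ≤ bd k.1), one_le_bd h]
  · exact mem_insert _ _⟩

open Classical in
/-- A point with value `v` in the column `τ`. -/
noncomputable def ptAt {τ v : Λ} (hτ : τ < rho) (hv : v ≤ τ) : Pt Λ := ⟨fun c => match c with
    | inl k => if k.1 = τ then v else ⊥
    | inr _ => ⊥, fun c => by
  rcases c with k | k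
  · dsimp only
    split_ifs with h
    · change v ≤ bd k.1
      rwa [h, bd, if_pos hτ]
    · exact (bot_le : ⊥ ≤ bd k.1)
  · exact mem_insert _ _⟩

/-- Instructions that mention only the columns in `K` and the groups in `Y`. -/
structure InsIn (K : Set Λ) (Y : Set (Set Λ)) (ins : Ins Λ) : Prop where
  y : ∀ y, ins.y = some y → y ∈ Y
  fin : ins.s.Finite
  sub : ins.s ⊆ Sp K ∅
  nrm : ∀ c ∉ ins.s, ins.ω.f c = ⊥
  σ : ∃ Y₀ ⊆ Y, Y₀.Finite ∧ ∀ y ∉ Y₀, ins.σ₁ (some y) = [] ∧ ins.σ₂ (some y) = []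

theorem Sp_empty_subset {K : Set Λ} : Sp K ∅ ⊆ Fn Λ := by
  rintro (k | k) h
  · exact mem_Fn_inl
  · exact h.1.elim

theorem card_insIn {K : Set Λ} {Y : Set (Set Λ)} (hK : #K < crd (rho : Λ))
    (hY : #Y < crd (rho : Λ)) : #{ins | InsIn K Y ins} < crd (rho : Λ) := by
  have h1 : #↥(insert none (some '' Y)) < crd (rho : Λ) := by
    rw [insert_eq]
    exact card_union_lt aleph0_lt_rho.le (fu_countable (countable_singleton _)) (fu_image _ hY)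
  have h2 : #(Sp K ∅ : Set (Co Λ)) < crd (rho : Λ) := by
    refine (mk_le_mk_of_subset (t := inl '' (K ×ˢ (univ : Set ℕ))) ?_).trans_lt
      (fu_image _ (fu_prod' hK))
    rintro (k | k) h
    · exact ⟨k, ⟨h, trivial⟩, rfl⟩
    · exact h.1.elim
  have h3 : #↥(⋃ ξ ∈ K, Iic (bd ξ)) < crd (rho : Λ) :=
    card_iUnion_lt rho_reg.1 hK fun ξ _ => rho_reg.card_Iic (bd_lt_rho ξ)
  have h4 := fu_pow (fu_prod' (Y := List Bool) h1)
  refine fu_inj (fun ins : Ins Λ => ((ins.y, {a : Co Λ × Λ | a.1 ∈ ins.s ∧ ins.ω.f a.1 = a.2},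
    {a : Option (Set Λ) × List Bool | a.1 ∈ insert none (some '' Y) ∧ ins.σ₁ a.1 = a.2},
    {a : Option (Set Λ) × List Bool | a.1 ∈ insert none (some '' Y) ∧ ins.σ₂ a.1 = a.2}), ins.n))
    ?_ ?_ (fu_prod' (Y := ℕ) (fu_prod h1 (fu_prod (fu_pow (fu_prod h2 h3)) (fu_prod h4 h4))))
  · rintro ⟨y, s, ω, σ₁, σ₂, n⟩ ha ⟨y', s', ω', σ₁', σ₂', n'⟩ hb h
    simp only [Prod.mk.injEq] at h
    obtain ⟨⟨rfl, h5, h6, h7⟩, rfl⟩ := h
    have h8 : ∀ c ∈ s, c ∈ s' ∧ ω'.f c = ω.f c := fun c hc =>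
      (Set.ext_iff.1 h5 (c, ω.f c)).1 ⟨hc, rfl⟩
    have h9 : ∀ c ∈ s', c ∈ s := fun c hc => ((Set.ext_iff.1 h5 (c, ω'.f c)).2 ⟨hc, rfl⟩).1
    obtain rfl : s = s' := Subset.antisymm (fun c hc => (h8 c hc).1) h9
    obtain rfl : ω = ω' := by
      ext c
      by_cases hc : c ∈ s
      · exact (h8 c hc).2.symm
      · exact (ha.nrm c hc).trans (hb.nrm c hc).symm
    obtain ⟨Y₀, g1, -, g2⟩ := ha.σ
    obtain ⟨Y₁, g3, -, g4⟩ := hb.σ
    have h10 : ∀ o, σ₁ o = σ₁' o ∧ σ₂ o = σ₂' o := by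
      intro o
      by_cases ho : o ∈ insert none (some '' Y)
      · exact ⟨((Set.ext_iff.1 h6 (o, σ₁' o)).2 ⟨ho, rfl⟩).2,
          ((Set.ext_iff.1 h7 (o, σ₂' o)).2 ⟨ho, rfl⟩).2⟩
      · rcases o with _ | z
        · exact (ho (mem_insert _ _)).elim
        · have hz : z ∉ Y := fun h => ho (Or.inr ⟨z, h, rfl⟩)
          have g5 := g2 z fun h => hz (g1 h)
          have g6 := g4 z fun h => hz (g3 h)
          exact ⟨g5.1.trans g6.1.symm, g5.2.trans g6.2.symm⟩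
    obtain rfl : σ₁ = σ₁' := funext fun o => (h10 o).1
    obtain rfl : σ₂ = σ₂' := funext fun o => (h10 o).2
    rfl
  · intro ins h
    refine ⟨⟨?_, fun a ha => ⟨h.sub ha.1, ?_⟩, fun a ha => ⟨ha.1, trivial⟩,
      fun a ha => ⟨ha.1, trivial⟩⟩, trivial⟩
    · change ins.y ∈ _
      rcases hy : ins.y with _ | y
      · exact mem_insert _ _
      · exact Or.inr ⟨y, h.y y hy, rfl⟩
    · obtain ⟨c, v⟩ := a
      obtain ⟨h5, h6⟩ := ha
      rw [← h6]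
      rcases c with k | k
      · exact mem_biUnion (h.sub h5) (ins.ω.mem (inl k))
      · exact (h.sub h5).1.elim

/-- The columns met by a set of coordinates. -/
def cols (s : Set (Co Λ)) : Set Λ := {ξ | ∃ n, inl (ξ, n) ∈ s}

theorem cols_finite {s : Set (Co Λ)} (hs : s.Finite) : (cols s).Finite := by
  refine ((hs.preimage (f := inl) inl_injective.injOn).image Prod.fst).subset ?_
  rintro ξ ⟨n, h⟩
  exact ⟨(ξ, n), h, rfl⟩

theorem subset_Sp_cols {s : Set (Co Λ)} (hs : s ⊆ Fn Λ) {K : Set Λ} (h : cols s ⊆ K) :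
    s ⊆ Sp K ∅ := by
  intro c hc
  obtain ⟨k, rfl⟩ := hs hc
  exact h ⟨k.2, hc⟩

theorem InsIn.finitary {K : Set Λ} {Y : Set (Set Λ)} {ins : Ins Λ} (h : InsIn K Y ins) :
    ∃ K₀ ⊆ K, ∃ Y₀ ⊆ Y, K₀.Finite ∧ Y₀.Finite ∧ InsIn K₀ Y₀ ins := by
  obtain ⟨Y₀, h1, h2, h3⟩ := h.σ
  refine ⟨cols ins.s, fun ξ ⟨n, hn⟩ => h.sub hn, Y₀ ∪ {y | ins.y = some y},
    union_subset h1 h.y, cols_finite h.fin, h2.union (Set.Subsingleton.finite fun y hy y' hy' =>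
      Option.some_injective _ (hy.symm.trans hy')), fun y hy => Or.inr hy, h.fin,
    subset_Sp_cols (h.sub.trans Sp_empty_subset) Subset.rfl, h.nrm,
    Y₀, subset_union_left, h2, h3⟩

theorem InsIn.mono {K K' : Set Λ} {Y Y' : Set (Set Λ)} {ins : Ins Λ} (h : InsIn K Y ins)
    (hK : K ⊆ K') (hY : Y ⊆ Y') : InsIn K' Y' ins := by
  obtain ⟨Y₀, h1, h2, h3⟩ := h.σ
  exact ⟨fun y hy => hY (h.y y hy), h.fin, h.sub.trans (Sp_mono hK Subset.rfl), h.nrm,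
    Y₀, h1.trans hY, h2, h3⟩

theorem card_groups {L₁ : Set (Set Λ)} {grp : Set Λ → Set Λ}
    (hgrp : ∀ x ∈ L₁, ∀ x' ∈ L₁, ∀ x'', Ini x x'' → Ini x' x'' → grp x = grp x') {q : Cond Λ}
    (hq : Valid q) : #{y | ∃ x ∈ L₁, (∃ ζ, inr (x, ζ) ∈ q.D) ∧ y = grp x} < crd (rho : Λ) := by
  obtain ⟨X, hX, hX'⟩ := hq.domOK.2.1
  refine (mk_le_mk_of_subset (t := ⋃ x'' ∈ X, {y | ∃ x ∈ L₁, Ini x x'' ∧ y = grp x}) ?_).trans_lt
    (card_iUnion_lt rho_reg.1 hX fun x'' _ => fu_countable (Set.Subsingleton.countable ?_))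
  · rintro _ ⟨x, h1, ⟨ζ, h2⟩, rfl⟩
    obtain ⟨x'', h3, h4⟩ := hX' x ζ h2
    exact mem_biUnion h3 ⟨x, h1, h4, rfl⟩
  · rintro _ ⟨x, h1, h2, rfl⟩ _ ⟨x', h3, h4, rfl⟩
    exact hgrp x h1 x' h3 x'' h2 h4

/-- The closed family of states, columns and groups. -/
theorem fclosure {L L₁ : Set (Set Λ)} {grp : Set Λ → Set Λ}
    (hgrp : ∀ x ∈ L₁, ∀ x' ∈ L₁, ∀ x'', Ini x x'' → Ini x' x'' → grp x = grp x')
    {q₀ : Cond Λ} (hq₀ : Valid q₀) {Good : ℕ → Cond Λ → Cond Λ → Prop}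
    (H : ∀ n q₁ q₂, Valid q₁ → Valid q₂ → q₁ ≤ q₀ → q₂ ≤ q₀ → Agr (Cm L) q₁ q₂ →
      ∃ q₁' q₂', Valid q₁' ∧ Valid q₂' ∧ q₁' ≤ q₁ ∧ q₂' ≤ q₂ ∧ Agr (Cm L) q₁' q₂' ∧
        Good n q₁' q₂') :
    ∃ (𝒮 : Set (FSt Λ)) (K : Set Λ) (Y : Set (Set Λ)) (G : Set (Cond Λ × Cond Λ)),
      #𝒮 < crd (rho : Λ) ∧ #K < crd (rho : Λ) ∧ #Y < crd (rho : Λ) ∧ #G < crd (rho : Λ) ∧
      Y ⊆ grp '' L₁ ∧ (∀ g ∈ G, Valid g.1 ∧ Valid g.2) ∧ (∀ a ∈ 𝒮, FInv L q₀ a) ∧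
      (⟨∅, fun _ => q₀.res (Fn Λ)ᶜ⟩ : FSt Λ) ∈ 𝒮 ∧
      (∀ a ∈ 𝒮, ∀ s, ∀ x ∈ L₁, ∀ ζ, inr (x, ζ) ∈ (a.R s).D → grp x ∈ Y) ∧
      ∀ a ∈ 𝒮, ∀ ins, InsIn K Y ins → ∀ F : Set (Set Λ), F.Finite →
        ∃ o : FSt Λ × Set (Co Λ) × Pt Λ, o.1 ∈ 𝒮 ∧ o.2.1.Finite ∧ o.2.1 ⊆ Sp K ∅ ∧
          ∃ g ∈ G, Good ins.n g.1 g.2 ∧ StepRel L₁ grp q₀ a ins g F o := by
  have : Nonempty (Cond Λ × Cond Λ) := ⟨(q₀, q₀)⟩
  choose! g hg O hO1 hO2 hO3 using fstep (L₁ := L₁) (grp := grp) hq₀ H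
  let Sa : Set (FSt Λ ⊕ Λ ⊕ Set Λ) → Set (FSt Λ) := fun t => {a | inl a ∈ t ∧ FInv L q₀ a}
  let Ka : Set (FSt Λ ⊕ Λ ⊕ Set Λ) → Set Λ := fun t => {ξ | inr (inl ξ) ∈ t}
  let Ya : Set (FSt Λ ⊕ Λ ⊕ Set Λ) → Set (Set Λ) := fun t => {y | inr (inr y) ∈ t ∧ y ∈ grp '' L₁}
  have c1 : ∀ t : Set (FSt Λ ⊕ Λ ⊕ Set Λ), #t < crd (rho : Λ) → #(Sa t) < crd (rho : Λ) := fun t ht =>
    fu_inj inl inl_injective.injOn (fun _ h => h.1) ht
  have c2 : ∀ t : Set (FSt Λ ⊕ Λ ⊕ Set Λ), #t < crd (rho : Λ) → #(Ka t) < crd (rho : Λ) := fun t ht =>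
    fu_inj (fun ξ => inr (inl ξ)) (inr_injective.comp inl_injective).injOn (fun _ h => h) ht
  have c3 : ∀ t : Set (FSt Λ ⊕ Λ ⊕ Set Λ), #t < crd (rho : Λ) → #(Ya t) < crd (rho : Λ) := fun t ht =>
    fu_inj (fun ξ => inr (inr ξ)) (inr_injective.comp inr_injective).injOn (fun _ h => h.1) ht
  obtain ⟨T, hT0, hT, hTc⟩ := exists_closed Ctx.rho_inac.1
    (fun t : Set (FSt Λ ⊕ Λ ⊕ Set Λ) => ⋃ a ∈ Sa t,
      ((⋃ ins ∈ {ins | InsIn (Ka t) (Ya t) ins}, ⋃ o ∈ O a ins,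
        insert (inl o.1) ((fun ξ => inr (inl ξ)) '' cols o.2.1)) ∪
      ⋃ q ∈ range a.R, (fun y => inr (inr y)) ''
        {y | ∃ x ∈ L₁, (∃ ζ, inr (x, ζ) ∈ q.D) ∧ y = grp x}))
    (fun t ht => by
      have h0 : #t < crd (rho : Λ) := fu_countable ht.countable
      refine card_iUnion_lt rho_reg.1 (c1 t h0) fun a ha => card_union_lt aleph0_lt_rho.le
        (card_iUnion_lt rho_reg.1 (card_insIn (c2 t h0) (c3 t h0)) fun ins hi => ?_)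
        (card_iUnion_lt rho_reg.1 (fu_countable (countable_range _)) ?_)
      · have h1 := hi.sub.trans Sp_empty_subset
        exact card_iUnion_lt rho_reg.1 (hO1 a ins ha.2 hi.fin h1) fun o ho => fu_countable
          (((cols_finite (hO2 a ins ha.2 hi.fin h1 o ho).2.1).image _).insert _).countable
      · rintro _ ⟨s, rfl⟩
        exact fu_image _ (card_groups hgrp (ha.2.2.1 s).1))
    {inl ⟨∅, fun _ => q₀.res (Fn Λ)ᶜ⟩} (fu_countable (countable_singleton _))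
  refine ⟨Sa T, Ka T, Ya T, (fun a : FSt Λ × Ins Λ => g a.1 a.2) ''
    (Sa T ×ˢ {ins | InsIn (Ka T) (Ya T) ins}), c1 T hT, c2 T hT, c3 T hT,
    fu_image _ (fu_prod (c1 T hT) (card_insIn (c2 T hT) (c3 T hT))), fun _ h => h.2, ?_,
    fun _ h => h.2, ⟨hT0 rfl, finite_empty, fun _ => ⟨hq₀.res _, disjoint_left.2 fun _ h => h.2,
      Ext.refl _⟩, fun _ _ _ _ => ⟨Iff.rfl, fun _ => rfl⟩⟩, ?_, ?_⟩
  · rintro _ ⟨⟨a, ins⟩, ⟨h1, h2⟩, rfl⟩
    have := hg a ins h1.2 h2.fin (h2.sub.trans Sp_empty_subset)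
    exact ⟨this.1, this.2.1⟩
  · intro a ha s x hx ζ h
    refine ⟨hTc {inl a} (singleton_subset_iff.2 ha.1) (finite_singleton _) ?_, x, hx, rfl⟩
    exact mem_biUnion (show a ∈ Sa {inl a} from ⟨rfl, ha.2⟩)
      (Or.inr (mem_biUnion (mem_range_self s) ⟨_, ⟨x, hx, ⟨ζ, h⟩, rfl⟩, rfl⟩))
  · intro a ha ins hi F hF
    have h1 := hi.sub.trans Sp_empty_subset
    obtain ⟨o, ho, hr⟩ := hO3 a ins ha.2 hi.fin h1 F hF
    have h2 := hO2 a ins ha.2 hi.fin h1 o ho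
    obtain ⟨K₀, g1, Y₀, g2, g3, g4, g5⟩ := hi.finitary
    have h3 := hTc (insert (inl a) ((fun ξ => inr (inl ξ)) '' K₀ ∪ (fun y => inr (inr y)) '' Y₀))
      (insert_subset ha.1 (union_subset (image_subset_iff.2 g1)
        (image_subset_iff.2 fun y hy => (g2 hy).1)))
      (((g3.image _).union (g4.image _)).insert _)
    have h4 : insert (inl o.1) ((fun ξ => inr (inl ξ)) '' cols o.2.1) ⊆ T := by
      intro w hw
      refine h3 (mem_biUnion (x := a) ⟨mem_insert _ _, ha.2⟩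
        (Or.inl (mem_biUnion (x := ins) (g5.mono ?_ ?_) (mem_biUnion ho hw))))
      · exact fun ξ h => Or.inr (Or.inl ⟨ξ, h, rfl⟩)
      · exact fun y h => ⟨Or.inr (Or.inr ⟨y, h, rfl⟩), (g2 h).2⟩
    exact ⟨o, ⟨h4 (mem_insert _ _), h2.1⟩, h2.2.1,
      subset_Sp_cols h2.2.2 fun ξ h => h4 (Or.inr ⟨ξ, h, rfl⟩), _, ⟨(a, ins), ⟨ha, hi⟩, rfl⟩,
      (hg a ins ha.2 hi.fin h1).2.2, hr⟩

end Pool.Agent.P.MP_a18ac8_lc
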