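import Pool.Agent.P.MP_a18ac8_lc.Fusion2

/-!
The run of the fusion construction and the final names.
-/

universe u

set_option linter.unusedSectionVars false

namespace Pool.Agent.P.MP_a18ac8_lc

open Cardinal Set Sum Filter

variable {Λ : Type u} [ConditionallyCompleteLinearOrderBot Λ] [WellFoundedLT Λ]

variable [Ctx Λ]

/-- The data of the construction. -/
structure FD (L L₁ : Set (Set Λ)) (grp : Set Λ → Set Λ) (q₀ : Cond Λ)
    (Good : ℕ → Cond Λ → Cond Λ → Prop) where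
  S : Set (FSt Λ)
  K : Set Λ
  Y : Set (Set Λ)
  G : Set (Cond Λ × Cond Λ)
  τ : Λ
  dec : Λ → Set Λ × Ins Λ
  nx : FSt Λ → Ins Λ → Set (Set Λ) → FSt Λ × Set (Co Λ) × Pt Λ
  cS : #S < crd (rho : Λ)
  cK : #K < crd (rho : Λ)
  cY : #Y < crd (rho : Λ)
  cG : #G < crd (rho : Λ)
  sY : Y ⊆ grp '' L₁
  vG : ∀ g ∈ G, Valid g.1 ∧ Valid g.2
  inv : ∀ a ∈ S, FInv L q₀ a
  init : (⟨∅, fun _ => q₀.res (Fn Λ)ᶜ⟩ : FSt Λ) ∈ S
  grpY : ∀ a ∈ S, ∀ s, ∀ x ∈ L₁, ∀ ζ, inr (x, ζ) ∈ (a.R s).D → grp x ∈ Y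
  step : ∀ a ∈ S, ∀ ins, InsIn K Y ins → ∀ F : Set (Set Λ), F.Finite →
    (nx a ins F).1 ∈ S ∧ (nx a ins F).2.1.Finite ∧ (nx a ins F).2.1 ⊆ Sp K ∅ ∧
      ∃ g ∈ G, Good ins.n g.1 g.2 ∧ StepRel L₁ grp q₀ a ins g F (nx a ins F)
  τρ : τ < rho
  τK : τ ∉ K
  decIn : ∀ v, InsIn K Y (dec v).2
  decOn : ∀ x' ins, InsIn K Y ins → ∃ v ≤ τ, (dec v).2 = ins ∧
    ∀ a ∈ S, ∀ s x ζ, inr (x, ζ) ∈ (a.R s).D → Ini x x' → Ini x (dec v).1

variable {L L₁ : Set (Set Λ)} {grp : Set Λ → Set Λ} {q₀ : Cond Λ}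
  {Good : ℕ → Cond Λ → Cond Λ → Prop}

theorem domOK_states {S : Set (FSt Λ)} (hS : #S < crd (rho : Λ)) (h : ∀ a ∈ S, FInv L q₀ a) :
    #↥(⋃ a ∈ S, range a.R) < crd (rho : Λ) ∧ (∀ q ∈ ⋃ a ∈ S, range a.R, Valid q) ∧
      Disjoint (⋃ q ∈ ⋃ a ∈ S, range a.R, q.D) (Fn Λ) ∧ DomOK (⋃ q ∈ ⋃ a ∈ S, range a.R, q.D) := by
  have h1 : #↥(⋃ a ∈ S, range a.R) < crd (rho : Λ) :=
    card_iUnion_lt rho_reg.1 hS fun a _ => fu_countable (countable_range _)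
  have h2 : ∀ q ∈ ⋃ a ∈ S, range a.R, Valid q ∧ Disjoint q.D (Fn Λ) := by
    intro q hq
    obtain ⟨a, ha, s, rfl⟩ := mem_iUnion₂.1 hq
    exact ⟨((h a ha).2.1 s).1, ((h a ha).2.1 s).2.1⟩
  have h3 : Disjoint (⋃ q ∈ ⋃ a ∈ S, range a.R, q.D) (Fn Λ) :=
    disjoint_iUnion₂_left.2 fun q hq => (h2 q hq).2
  exact ⟨h1, fun q hq => (h2 q hq).1, h3, DomOK.iUnion h1 (fun q hq => (h2 q hq).1.domOK)
    (by rw [h3.inter_eq]; exact finite_empty)⟩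

theorem insIn_triv (K : Set Λ) {Y : Set (Set Λ)} {o : Option (Set Λ)}
    (ho : ∀ y, o = some y → y ∈ Y) : InsIn K Y ⟨o, ∅, ptBot, fun _ => [], fun _ => [], 0⟩ :=
  ⟨ho, finite_empty, empty_subset _, fun _ _ => rfl, ∅, empty_subset _, finite_empty,
    fun _ _ => ⟨rfl, rfl⟩⟩

theorem exists_FD
    (hgrp : ∀ x ∈ L₁, ∀ x' ∈ L₁, ∀ x'', Ini x x'' → Ini x' x'' → grp x = grp x')
    (hq₀ : Valid q₀)
    (H : ∀ n q₁ q₂, Valid q₁ → Valid q₂ → q₁ ≤ q₀ → q₂ ≤ q₀ → Agr (Cm L) q₁ q₂ →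
      ∃ q₁' q₂', Valid q₁' ∧ Valid q₂' ∧ q₁' ≤ q₁ ∧ q₂' ≤ q₂ ∧ Agr (Cm L) q₁' q₂' ∧
        Good n q₁' q₂') : Nonempty (FD L L₁ grp q₀ Good) := by
  obtain ⟨S, K, Y, G, c1, c2, c3, c4, h1, h2, h3, h4, h5, h6⟩ := fclosure hgrp hq₀ H
  have : Nonempty (FSt Λ × Set (Co Λ) × Pt Λ) := ⟨(⟨∅, fun _ => q₀⟩, ∅, ptBot)⟩
  choose! nx hnx using h6
  obtain ⟨X, hX, hX'⟩ := (domOK_states c1 h3).2.2.2.2.1
  obtain ⟨C, hC, hC'⟩ := exists_cover hX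
  have h7 := fu_prod hC (card_insIn c2 c3)
  obtain ⟨ξ, h8, h9⟩ := rho_reg.exists_crd h7
  obtain ⟨τ, h10, h11⟩ := rho_reg.bdd (s := K ∩ Iio rho ∪ {ξ})
    (by rintro a (ha | rfl); exacts [ha.2, h8])
    (card_union_lt aleph0_lt_rho.le ((mk_le_mk_of_subset inter_subset_left).trans_lt c2)
      (fu_countable (countable_singleton _)))
  have h12 : #(C ×ˢ {ins | InsIn K Y ins}) ≤ #(Iio τ) := h9 ▸ crd_mono (h11 ξ (Or.inr rfl)).le
  obtain ⟨e⟩ := h12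
  obtain ⟨x₀, hx₀, -⟩ := hC' ∅
  have : Nonempty (C ×ˢ {ins | InsIn K Y ins}) :=
    ⟨⟨(x₀, _), hx₀, insIn_triv K (o := none) fun _ h => by cases h⟩⟩
  have h13 : Function.Injective fun a => (e a : Λ) := Subtype.val_injective.comp e.injective
  refine ⟨⟨S, K, Y, G, τ, fun v => (Function.invFun (fun a => (e a : Λ)) v).1, nx, c1, c2, c3, c4,
    h1, h2, h3, h4, h5, hnx, h10, fun h => lt_irrefl _ (h11 τ (Or.inl ⟨h, h10⟩)),
    fun v => (Function.invFun (fun a => (e a : Λ)) v).2.2, fun x' ins hi => ?_⟩⟩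
  obtain ⟨x'', g1, g2⟩ := hC' x'
  refine ⟨e ⟨(x'', ins), g1, hi⟩, (e _).2.le, ?_⟩
  rw [Function.leftInverse_invFun h13 ⟨(x'', ins), g1, hi⟩]
  exact ⟨rfl, fun a ha s x ζ g3 g4 => g2 x g4
    (hX' x ζ (mem_biUnion (mem_biUnion ha (mem_range_self s)) g3))⟩

open Classical in
/-- The bit carried by a value. -/
noncomputable def bit (v : Λ) : Bool := decide (v ≠ ⊥)

namespace FD

variable (d : FD L L₁ grp q₀ Good)

/-- The state and the frozen chains after `k` steps along the column `τ` of `ω`. -/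
noncomputable def run (ω : Pt Λ) : ℕ → FSt Λ × Set (Set Λ)
  | 0 => (⟨∅, fun _ => q₀.res (Fn Λ)ᶜ⟩, ∅)
  | k + 1 => ((d.nx (run ω k).1 (d.dec (ω.f (inl (d.τ, k)))).2
      (insert (d.dec (ω.f (inl (d.τ, k)))).1 (run ω k).2)).1,
      insert (d.dec (ω.f (inl (d.τ, k)))).1 (run ω k).2)

theorem run_mem (ω : Pt Λ) (k : ℕ) : (d.run ω k).1 ∈ d.S ∧ (d.run ω k).2.Finite := by
  induction k with
  | zero => exact ⟨d.init, finite_empty⟩
  | succ k ih => exact ⟨(d.step _ ih.1 _ (d.decIn _) _ (ih.2.insert _)).1, ih.2.insert _⟩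

theorem run_rel (ω : Pt Λ) (k : ℕ) : ∃ g, StepRel L₁ grp q₀ (d.run ω k).1
    (d.dec (ω.f (inl (d.τ, k)))).2 g (d.run ω (k + 1)).2
    (d.nx (d.run ω k).1 (d.dec (ω.f (inl (d.τ, k)))).2 (d.run ω (k + 1)).2) := by
  obtain ⟨g, -, -, h⟩ := (d.step _ (d.run_mem ω k).1 _ (d.decIn (ω.f (inl (d.τ, k)))) _
    (d.run_mem ω (k + 1)).2).2.2.2
  exact ⟨g, h⟩

theorem run_Y (ω : Pt Λ) (k : ℕ) : (d.run ω (k + 1)).1.Y =
    (d.run ω k).1.Y ∪ {y | (d.dec (ω.f (inl (d.τ, k)))).2.y = some y} :=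
  (d.run_rel ω k).choose_spec.Y

theorem run_Y_subset (ω : Pt Λ) (k : ℕ) : (d.run ω k).1.Y ⊆ d.Y := by
  induction k with
  | zero => exact empty_subset _
  | succ k ih => rw [run_Y]; exact union_subset ih (d.decIn _).y

theorem run_Y_mono (ω : Pt Λ) : Monotone fun k => (d.run ω k).1.Y :=
  monotone_nat_of_le_succ fun k => by
    rw [run_Y]; exact subset_union_left

theorem run_F_mono (ω : Pt Λ) : Monotone fun k => (d.run ω k).2 :=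
  monotone_nat_of_le_succ fun _ => subset_insert _ _

theorem run_congr {ω ω' : Pt Λ} {k : ℕ}
    (h : ∀ m < k, ω.f (inl (d.τ, m)) = ω'.f (inl (d.τ, m))) : d.run ω k = d.run ω' k := by
  induction k with
  | zero => rfl
  | succ k ih =>
    simp only [run]
    rw [ih fun m hm => h m (by omega), h k (by omega)]

open Classical in
/-- The column followed by the group `o` when the groups in `Y` are frozen. -/
noncomputable def col (i : Λ) (ι : Set Λ → Λ) (Y : Set (Set Λ)) : Option (Set Λ) → Λ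
  | none => i
  | some y => if y ∈ Y then ι y else i

/-- The bits seen by the group `o`. -/
noncomputable def view (i : Λ) (ι : Set Λ → Λ) (ω : Pt Λ) (o : Option (Set Λ)) : ℕ → List Bool
  | 0 => []
  | k + 1 => bit (ω.f (inl (col i ι (d.run ω (k + 1)).1.Y o, k))) :: view i ι ω o k

variable (i : Λ) (ι : Set Λ → Λ)

theorem view_congr {ω ω' : Pt Λ} {o : Option (Set Λ)} {k : ℕ}
    (h : ∀ m < k, ω.f (inl (d.τ, m)) = ω'.f (inl (d.τ, m)))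
    (h' : ∀ m < k, ω.f (inl (col i ι (d.run ω (m + 1)).1.Y o, m)) =
      ω'.f (inl (col i ι (d.run ω (m + 1)).1.Y o, m))) : d.view i ι ω o k = d.view i ι ω' o k := by
  induction k with
  | zero => rfl
  | succ k ih =>
    simp only [view]
    rw [ih (fun m hm => h m (by omega)) fun m hm => h' m (by omega), ← d.run_congr h,
      h' k (by omega)]

theorem view_unfrozen {ω : Pt Λ} {y : Set Λ} {k : ℕ} (h : y ∉ (d.run ω k).1.Y) :
    d.view i ι ω (some y) k = d.view i ι ω none k := by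
  induction k with
  | zero => rfl
  | succ k ih =>
    simp only [view, col, if_neg h]
    rw [ih fun h' => h (d.run_Y_mono ω (Nat.le_succ k) h')]

/-- The side condition that the coordinate `c` sees after `k` steps. -/
noncomputable def RR (ω : Pt Λ) (c : Co Λ) (k : ℕ) : Cond Λ :=
  (d.run ω k).1.R (d.view i ι ω (oc L₁ grp c) k)

theorem RR_ext (ω : Pt Λ) (c : Co Λ) {k m : ℕ} (h : k ≤ m) :
    Ext (d.RR i ι ω c k) (d.RR i ι ω c m) := by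
  induction h with
  | refl => exact Ext.refl _
  | @step m _ ih => exact ih.trans ((d.run_rel ω m).choose_spec.ext _ _)

theorem RR_mem (ω : Pt Λ) (c : Co Λ) (k : ℕ) : d.RR i ι ω c k ∈ ⋃ a ∈ d.S, range a.R :=
  mem_biUnion (d.run_mem ω k).1 (mem_range_self _)

open Classical in
/-- The final name. -/
noncomputable def nm (c : Co Λ) (ω : Pt Λ) : Λ :=
  if h : ∃ k, c ∈ (d.RR i ι ω c k).D then (d.RR i ι ω c (Nat.find h)).r c ω else ⊥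

theorem nm_eq {c : Co Λ} {ω : Pt Λ} {k : ℕ} (h : c ∈ (d.RR i ι ω c k).D) :
    d.nm i ι c ω = (d.RR i ι ω c k).r c ω := by
  classical
  have h1 : ∃ k, c ∈ (d.RR i ι ω c k).D := ⟨k, h⟩
  rw [nm, dif_pos h1, (d.RR_ext i ι ω c (Nat.find_min' h1 h) c (Nat.find_spec h1)).2]

theorem nm_congr {i' : Λ} {ι' : Set Λ → Λ} {c : Co Λ} {ω ω' : Pt Λ}
    (h : ∀ k, Agr {c} (d.RR i ι ω c k) (d.RR i' ι' ω' c k))
    (h' : ∀ k, c ∈ (d.RR i ι ω c k).D → (∀ m < k, c ∉ (d.RR i ι ω c m).D) →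
      (d.RR i ι ω c k).r c ω = (d.RR i ι ω c k).r c ω') : d.nm i ι c ω = d.nm i' ι' c ω' := by
  classical
  by_cases h1 : ∃ k, c ∈ (d.RR i ι ω c k).D
  · have h2 := Nat.find_spec h1
    rw [d.nm_eq i ι h2, d.nm_eq i' ι' ((h _ c rfl).1.1 h2), ← (h _ c rfl).2 h2]
    exact h' _ h2 fun m hm => Nat.find_min h1 hm
  · have h2 : ¬ ∃ k, c ∈ (d.RR i' ι' ω' c k).D := fun ⟨k, hk⟩ => h1 ⟨k, (h k c rfl).1.2 hk⟩
    rw [nm, nm, dif_neg h1, dif_neg h2]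

theorem RR_agr_common {i' : Λ} {ι' : Set Λ → Λ} {c : Co Λ} (hc : c ∈ Cm L) {ω ω' : Pt Λ} {k : ℕ}
    (h : ∀ m < k, ω.f (inl (d.τ, m)) = ω'.f (inl (d.τ, m))) :
    Agr {c} (d.RR i ι ω c k) (d.RR i' ι' ω' c k) := by
  rw [RR, RR, ← d.run_congr h]
  exact ((d.inv _ (d.run_mem ω k).1).2.2 _ _).mono (singleton_subset_iff.2 hc)

theorem RR_congr {c : Co Λ} {ω ω' : Pt Λ} {k : ℕ}
    (h : ∀ m < k, ω.f (inl (d.τ, m)) = ω'.f (inl (d.τ, m)))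
    (h' : ∀ m < k, ω.f (inl (col i ι (d.run ω (m + 1)).1.Y (oc L₁ grp c), m)) =
      ω'.f (inl (col i ι (d.run ω (m + 1)).1.Y (oc L₁ grp c), m))) :
    d.RR i ι ω c k = d.RR i ι ω' c k := by
  rw [RR, RR, d.view_congr i ι h h', d.run_congr h]

open Classical in
/-- The final condition. -/
noncomputable def fin : Cond Λ :=
  ⟨q₀.D ∩ Fn Λ ∪ ⋃ q ∈ ⋃ a ∈ d.S, range a.R, q.D,
    fun c => if c ∈ Fn Λ then q₀.r c else d.nm i ι c⟩

theorem fin_r (k : Set Λ × Λ) : (d.fin i ι).r (inr k) = d.nm i ι (inr k) :=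
  if_neg notMem_Fn_inr

theorem fin_mem {ω : Pt Λ} (h : ω ∈ (d.fin i ι).set) {c : Co Λ} {k : ℕ}
    (hc : c ∈ (d.RR i ι ω c k).D) : ω.f c = (d.RR i ι ω c k).r c ω := by
  have h1 : c ∈ ⋃ q ∈ ⋃ a ∈ d.S, range a.R, q.D := mem_biUnion (d.RR_mem i ι ω c k) hc
  have h2 := disjoint_left.1 (domOK_states d.cS d.inv).2.2.1 h1
  rw [← d.nm_eq i ι hc, h c (Or.inr h1)]
  simp only [fin, if_neg h2]

theorem fin_le : d.fin i ι ≤ q₀ := by
  intro ω hω c hc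
  by_cases h : c ∈ Fn Λ
  · rw [hω c (Or.inl ⟨hc, h⟩)]
    simp only [fin, if_pos h]
  · exact d.fin_mem i ι hω (k := 0) ⟨hc, h⟩

theorem fin_agr (i' : Λ) (ι' : Set Λ → Λ) : Agr (Cm L) (d.fin i ι) (d.fin i' ι') := by
  intro c hc
  refine ⟨Iff.rfl, fun _ => ?_⟩
  simp only [fin]
  split_ifs
  · rfl
  · funext ω
    exact d.nm_congr i ι (fun k => d.RR_agr_common i ι hc fun _ _ => rfl) fun _ _ _ => rfl

end FD

end Pool.Agent.P.MP_a18ac8_lc
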