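import Pool.Agent.P.MP_a18ac8_lc.Core

universe u

namespace Pool.Agent.P.MP_a18ac8_lc

open Cardinal Set Sum Filter

variable {Λ : Type u} [ConditionallyCompleteLinearOrderBot Λ] [WellFoundedLT Λ]

theorem Gen_biUnion {I X : Type u} {c : Cardinal.{u}} (hc : c.IsRegular) {s : Set I}
    (hs : #s < c) {t : I → Set X} (ht : ∀ i ∈ s, #(t i) < c) : #(⋃ i ∈ s, t i) < c :=
  (card_biUnion_lt_iff_forall_of_isRegular (t := fun i _ => t i) hc hs).mpr ht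

theorem Gen_Iic {ξ : Λ} {c : Cardinal.{u}} (hc : ℵ₀ ≤ c) (h : crd ξ < c) : #(Iic ξ) < c := by
  rw [← Iio_insert]
  exact mk_insert_le.trans_lt (add_lt_of_lt hc h (one_lt_aleph0.trans_le hc))

theorem exists_seq {X : Type*} [Nonempty X] (P : Λ → X → Prop) (Rel : Λ → X → Λ → X → Prop)
    (h : ∀ (ξ : Λ) (f : Λ → X), (∀ η < ξ, P η (f η)) →
      (∀ η < ξ, ∀ η' < η, Rel η' (f η') η (f η)) → ∃ x, P ξ x ∧ ∀ η < ξ, Rel η (f η) ξ x) :
    ∃ f : Λ → X, (∀ ξ, P ξ (f ξ)) ∧ ∀ ξ, ∀ η < ξ, Rel η (f η) ξ (f ξ) := by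
  classical
  let F : (ξ : Λ) → ((η : Λ) → η < ξ → X) → X := fun ξ g =>
    Classical.epsilon fun x => P ξ x ∧ ∀ η (hη : η < ξ), Rel η (g η hη) ξ x
  let f : Λ → X := WellFounded.fix (wellFounded_lt (α := Λ)) F
  have hf : ∀ ξ, f ξ = Classical.epsilon fun x => P ξ x ∧ ∀ η < ξ, Rel η (f η) ξ x := fun ξ =>
    WellFounded.fix_eq (wellFounded_lt (α := Λ)) F ξ
  have key : ∀ ξ, P ξ (f ξ) ∧ ∀ η < ξ, Rel η (f η) ξ (f ξ) := by
    intro ξ
    induction ξ using WellFoundedLT.induction with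
    | ind ξ ih =>
      have h1 := h ξ f (fun η hη => (ih η hη).1) (fun η hη => (ih η hη).2)
      have h2 := Classical.epsilon_spec h1
      rw [← hf ξ] at h2
      exact h2
  exact ⟨f, fun ξ => (key ξ).1, fun ξ => (key ξ).2⟩

theorem exists_closed {X : Type u} {c : Cardinal.{u}} (hc : c.IsInaccessible) (φ : Set X → Set X)
    (hφ : ∀ t, t.Finite → #(φ t) < c) (s₀ : Set X) (hs : #s₀ < c) :
    ∃ s, s₀ ⊆ s ∧ #s < c ∧ ∀ t ⊆ s, t.Finite → φ t ⊆ s := by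
  let G : Set X → Set X := fun s => s ∪ ⋃ t ∈ {t : Set X | t ⊆ s ∧ t.Finite}, φ t
  have hG : ∀ s : Set X, #s < c → #(G s) < c := by
    intro s hs
    refine (mk_union_le _ _).trans_lt (add_lt_of_lt hc.isRegular.aleph0_le hs ?_)
    refine Gen_biUnion hc.isRegular ?_ fun t ht => hφ t ht.2
    refine lt_of_le_of_lt (mk_le_mk_of_subset (t := 𝒫 s) fun t ht => ht.1) ?_
    rw [mk_powerset]
    exact hc.isStrongLimit.two_power_lt hs
  let S : ℕ → Set X := fun n => G^[n] s₀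
  have hS : ∀ n, S (n + 1) = G (S n) := fun n => Function.iterate_succ_apply' G n s₀
  have hmono : Monotone S := monotone_nat_of_le_succ fun n => by
    rw [hS]
    exact subset_union_left
  have hcard : ∀ n, #(S n) < c := by
    intro n
    induction n with
    | zero => exact hs
    | succ n ih =>
      rw [hS]
      exact hG _ ih
  refine ⟨⋃ n, S n, subset_iUnion S 0, ?_, fun t ht hfin => ?_⟩
  · have h1 : (⋃ n, S n) = ⋃ n ∈ (univ : Set (ULift.{u} ℕ)), S n.down := by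
      ext a
      simp only [mem_iUnion, mem_univ, exists_true_left]
      exact ⟨fun ⟨n, hn⟩ => ⟨⟨n⟩, hn⟩, fun ⟨n, hn⟩ => ⟨n.down, hn⟩⟩
    rw [h1]
    refine Gen_biUnion hc.isRegular ?_ fun n _ => hcard n.down
    rw [mk_univ]
    exact mk_le_aleph0.trans_lt hc.aleph0_lt
  · have h2 : ∃ n, t ⊆ S n := by
      induction t, hfin using Set.Finite.induction_on with
      | empty => exact ⟨0, empty_subset _⟩
      | insert _ _ ih =>
        obtain ⟨n, hn⟩ := ih ((subset_insert _ _).trans ht)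
        obtain ⟨k, hk⟩ := mem_iUnion.mp (ht (mem_insert _ _))
        exact ⟨max n k, insert_subset (hmono (le_max_right n k) hk)
          (hn.trans (hmono (le_max_left n k)))⟩
    obtain ⟨n, hn⟩ := h2
    refine Subset.trans ?_ (subset_iUnion S (n + 1))
    rw [hS]
    exact fun a ha => Or.inr (mem_biUnion (x := t) ⟨hn, hfin⟩ ha)

theorem exists_maxAnti {R : Type*} (O : Set R) (cmp : R → R → Prop)
    (symm : ∀ a b, cmp a b → cmp b a) (refl : ∀ a ∈ O, cmp a a) :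
    ∃ A ⊆ O, (A.Pairwise fun a b => ¬ cmp a b) ∧ ∀ q ∈ O, ∃ a ∈ A, cmp q a := by
  obtain ⟨A, hA⟩ := zorn_subset {A : Set R | A ⊆ O ∧ A.Pairwise fun a b => ¬ cmp a b} (by
    intro c hc hch
    refine ⟨⋃₀ c, ⟨sUnion_subset fun A hA => (hc hA).1, ?_⟩, fun A hA => subset_sUnion_of_mem hA⟩
    rintro a ⟨A, hA, ha⟩ b ⟨B, hB, hb⟩ hab
    rcases hch.total hA hB with h | h
    · exact (hc hB).2 (h ha) hb hab
    · exact (hc hA).2 ha (h hb) hab)
  refine ⟨A, hA.prop.1, hA.prop.2, fun q hq => ?_⟩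
  by_contra hn
  push Not at hn
  have h1 : insert q A ⊆ A := hA.le_of_ge ⟨insert_subset hq hA.prop.1, by
    rintro a (rfl | ha) b (rfl | hb) hab
    · exact absurd rfl hab
    · exact hn b hb
    · exact fun h => hn a ha (symm _ _ h)
    · exact hA.prop.2 ha hb hab⟩ (subset_insert _ _)
  exact hn q (h1 (mem_insert _ _)) (refl q hq)

theorem exists_notMem_of_lt {X : Type u} {s t : Set X} (h : #s < #t) : ∃ a ∈ t, a ∉ s := by
  by_contra hn
  push Not at hn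
  exact h.not_ge (mk_le_mk_of_subset hn)

theorem card_iUnion_lt {I X : Type u} {c : Cardinal.{u}} (hc : c.IsRegular) {s : Set I}
    (hs : #s < c) {t : I → Set X} (ht : ∀ i ∈ s, #(t i) < c) : #(⋃ i ∈ s, t i) < c :=
  Gen_biUnion hc hs ht

theorem card_union_lt {X : Type u} {c : Cardinal.{u}} (hc : ℵ₀ ≤ c) {s t : Set X}
    (hs : #s < c) (ht : #t < c) : #↥(s ∪ t) < c :=
  (mk_union_le s t).trans_lt (add_lt_of_lt hc hs ht)

theorem crd_mono {η ξ : Λ} (h : η ≤ ξ) : crd η ≤ crd ξ := mk_le_mk_of_subset (Iio_subset_Iio h)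

theorem Inac.reg {μ : Λ} (h : Inac μ) : Reg μ := ⟨h.1.isRegular, h.2⟩

theorem Reg.crd_lt_iff {μ ξ : Λ} (h : Reg μ) : crd ξ < crd μ ↔ ξ < μ :=
  ⟨fun h1 => lt_of_not_ge fun h2 => h1.not_ge (crd_mono h2), h.2 ξ⟩

theorem Reg.card_Iic {μ ξ : Λ} (h : Reg μ) (hξ : ξ < μ) : #(Iic ξ) < crd μ :=
  Gen_Iic h.1.aleph0_le (h.2 ξ hξ)

theorem Reg.bdd {μ : Λ} (h : Reg μ) {s : Set Λ} (hs : ∀ a ∈ s, a < μ) (hc : #s < crd μ) :
    ∃ β < μ, ∀ a ∈ s, a < β := by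
  by_contra hn
  push Not at hn
  have h1 : Iio μ ⊆ ⋃ a ∈ s, Iic a := fun β hβ => by
    obtain ⟨a, ha, hle⟩ := hn β hβ
    exact mem_biUnion ha hle
  exact (card_iUnion_lt h.1 hc fun a ha => h.card_Iic (hs a ha)).not_ge (mk_le_mk_of_subset h1)

theorem Reg.exists_gt {μ ξ : Λ} (h : Reg μ) (hξ : ξ < μ) : ∃ β < μ, ξ < β := by
  obtain ⟨β, h1, h2⟩ := h.bdd (s := {ξ}) (fun a ha => ha ▸ hξ) (by
    rw [mk_singleton]
    exact one_lt_aleph0.trans_le h.1.aleph0_le)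
  exact ⟨β, h1, h2 ξ rfl⟩

theorem Reg.exists_crd {μ : Λ} (h : Reg μ) {c : Cardinal.{u}} (hc : c < crd μ) :
    ∃ ξ < μ, crd ξ = c := by
  have h0 : ∀ ξ : Λ, (Ordinal.typein (α := Λ) (· < ·) ξ).card = crd ξ := fun ξ =>
    Ordinal.card_typein ξ
  have h1 : c.ord < Ordinal.typein (α := Λ) (· < ·) μ := by
    refine lt_of_not_ge fun h1 => hc.not_ge ?_
    rw [← h0, ← card_ord c]
    exact Ordinal.card_le_card h1
  obtain ⟨ξ, hξ⟩ := Ordinal.typein_surj (α := Λ) (· < ·) (h1.trans (Ordinal.typein_lt_type _ μ))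
  have h2 : crd ξ = c := by rw [← h0, hξ, card_ord]
  exact ⟨ξ, h.crd_lt_iff.mp (h2 ▸ hc), h2⟩

theorem bdd_of_lt (hr : (#Λ).IsRegular) (hi : ∀ ξ : Λ, crd ξ < #Λ) {s : Set Λ} (hc : #s < #Λ) :
    ∃ β, ∀ a ∈ s, a < β := by
  by_contra hn
  push Not at hn
  have h1 : (univ : Set Λ) ⊆ ⋃ a ∈ s, Iic a := fun β _ => by
    obtain ⟨a, ha, hle⟩ := hn β
    exact mem_biUnion ha hle
  have h2 := mk_le_mk_of_subset h1
  rw [mk_univ] at h2
  exact (card_iUnion_lt hr hc fun a _ => Gen_Iic hr.aleph0_le (hi a)).not_ge h2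

variable [Ctx Λ]

theorem rho_reg : Reg (rho : Λ) := Ctx.rho_inac.reg

theorem kap_reg : Reg (kap : Λ) := Ctx.kap_inac.reg

theorem aleph0_lt_rho : ℵ₀ < crd (rho : Λ) := Ctx.rho_inac.1.aleph0_lt

theorem bot_lt_rho : (⊥ : Λ) < rho := by
  refine rho_reg.crd_lt_iff.mp ?_
  have h : crd (⊥ : Λ) = 0 := by simp [crd]
  rw [h]
  exact aleph0_pos.trans aleph0_lt_rho

theorem one_lt_rho : (one : Λ) < rho := by
  obtain ⟨β, h1, h2⟩ := rho_reg.exists_gt (bot_lt_rho (Λ := Λ))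
  exact (Ctx.one_le β h2).trans_lt h1

theorem bd_lt_rho (ξ : Λ) : bd ξ < rho := by
  unfold bd
  split_ifs with h
  exacts [h, one_lt_rho]

theorem one_le_bd {ξ : Λ} (h : ξ ≠ ⊥) : one ≤ bd ξ := by
  unfold bd
  split_ifs
  exacts [Ctx.one_le ξ (bot_lt_iff_ne_bot.mpr h), le_rfl]

theorem mem_of_lt_mu {x : Set Λ} {ξ : Λ} (h : ξ < mu x) : ξ ∈ x := by
  by_contra hn
  exact notMem_of_lt_csInf' h (Or.inl hn)

theorem mu_le_kap (x : Set Λ) : mu x ≤ kap := csInf_le' (Or.inr rfl)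

theorem mu_notMem {x : Set Λ} (h : mu x < kap) : mu x ∉ x :=
  (csInf_mem (s := {ξ | ξ ∉ x ∨ ξ = kap}) ⟨kap, Or.inr rfl⟩).resolve_right h.ne

theorem mu_eq {x : Set Λ} {μ : Λ} (h1 : Iio μ ⊆ x) (h2 : μ ≤ kap) (h3 : μ ∉ x ∨ μ = kap) :
    mu x = μ :=
  le_antisymm (csInf_le' h3) (le_of_not_gt fun h => mu_notMem (h.trans_le h2) (h1 h))

theorem crd_mu_le (x : Set Λ) : crd (mu x) ≤ #x := mk_le_mk_of_subset fun _ h => mem_of_lt_mu h

theorem mu_univ : mu (univ : Set Λ) = kap := mu_eq (subset_univ _) le_rfl (Or.inr rfl)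

theorem mu_Iio {σ : Λ} (h : kap ≤ σ) : mu (Iio σ) = kap :=
  mu_eq (Iio_subset_Iio h) le_rfl (Or.inr rfl)

theorem node_Iio {σ : Λ} (h : kap ≤ σ) : Node (Iio σ) ∧ Ini (Iio σ) univ := by
  refine ⟨⟨?_, ?_, Or.inr ⟨σ, rfl⟩⟩, ?_, subset_univ _, fun a _ b hb hab => hab.trans hb⟩
  · rw [mu_Iio h]
    exact kap_reg
  · rw [mu_Iio h]
    exact Ctx.rho_lt.le
  · rw [mu_Iio h, mu_univ]

theorem Node.small_or {x : Set Λ} (h : Node x) :
    (#x < crd (kap : Λ) ∧ mu x < kap) ∨ ∃ σ, kap ≤ σ ∧ x = Iio σ := by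
  have key : #x < crd (kap : Λ) → #x < crd (kap : Λ) ∧ mu x < kap := fun h1 =>
    ⟨h1, kap_reg.crd_lt_iff.mp ((crd_mu_le x).trans_lt h1)⟩
  rcases h.2.2 with h1 | ⟨σ, rfl⟩
  · exact Or.inl (key h1)
  · rcases le_or_gt kap σ with h2 | h2
    · exact Or.inr ⟨σ, h2, rfl⟩
    · exact Or.inl (key (kap_reg.2 σ h2))

theorem Ini.refl (x : Set Λ) : Ini x x := ⟨rfl, Subset.rfl, fun _ ha _ _ _ => ha⟩

theorem Ini.trans {x y z : Set Λ} (h : Ini x y) (h' : Ini y z) : Ini x z :=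
  ⟨h.1.trans h'.1, h.2.1.trans h'.2.1, fun a ha b hb hab =>
    h.2.2 a (h'.2.2 a ha b (h.2.1 hb) hab) b hb hab⟩

theorem Ini.total {x y z : Set Λ} (h : Ini x z) (h' : Ini y z) : Ini x y ∨ Ini y x := by
  by_cases h1 : x ⊆ y
  · exact Or.inl ⟨h.1.trans h'.1.symm, h1, fun a ha b hb hab => h.2.2 a (h'.2.1 ha) b hb hab⟩
  · obtain ⟨a, ha, hn⟩ := not_subset.mp h1
    refine Or.inr ⟨h'.1.trans h.1.symm, fun b hb => ?_, fun c hc b hb hcb =>
      h'.2.2 c (h.2.1 hc) b hb hcb⟩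
    rcases lt_trichotomy a b with h2 | h2 | h2
    · exact absurd (h'.2.2 a (h.2.1 ha) b hb h2) hn
    · exact h2 ▸ ha
    · exact h.2.2 b (h'.2.1 hb) a ha h2

theorem exists_cover {X : Set (Set Λ)} (hX : #X < crd (rho : Λ)) :
    ∃ C : Set (Set Λ), #C < crd (rho : Λ) ∧ ∀ x', ∃ x'' ∈ C,
      ∀ x, Ini x x' → (∃ y ∈ X, Ini x y) → Ini x x'' := by
  let ty : Set Λ → Set (X × X) := fun w => {p | ∀ x, Ini x p.1.1 → Ini x p.2.1 → Ini x w}
  let rep : Set (X × X) → Set Λ := fun T => Classical.epsilon fun w => ty w = T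
  have hrep : ∀ w, ty (rep (ty w)) = ty w := fun w =>
    Classical.epsilon_spec (p := fun v => ty v = ty w) ⟨w, rfl⟩
  refine ⟨X ∪ range rep, card_union_lt aleph0_lt_rho.le hX (mk_range_le.trans_lt ?_),
    fun x' => ?_⟩
  · rw [mk_set, mk_prod, lift_id]
    exact Ctx.rho_inac.1.isStrongLimit.two_power_lt (mul_lt_of_lt aleph0_lt_rho.le hX hX)
  · by_cases h1 : ∃ y ∈ X, ∀ x, Ini x x' → (∃ y ∈ X, Ini x y) → Ini x y
    · obtain ⟨y, hy, h2⟩ := h1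
      exact ⟨y, Or.inl hy, h2⟩
    · refine ⟨rep (ty x'), Or.inr ⟨_, rfl⟩, ?_⟩
      rintro x hx ⟨y, hy, hxy⟩
      push Not at h1
      obtain ⟨x2, h2, ⟨y', hy', h3⟩, h4⟩ := h1 y hy
      have h5 : Ini x x2 := (hx.total h2).resolve_right fun h => h4 (h.trans hxy)
      have h6 : ((⟨y, hy⟩, ⟨y', hy'⟩) : X × X) ∈ ty x' := fun w hw hw' =>
        ((Ini.total hw' h3).resolve_right fun h => h4 (h.trans hw)).trans h2
      rw [← hrep] at h6
      exact h6 x hxy (h5.trans h3)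

end Pool.Agent.P.MP_a18ac8_lc
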