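import Pool.Agent.P.MP_a18ac8_lc.Core
import Pool.Agent.P.MP_a18ac8_lc.Defs

/-!
From a huge cardinal to the data used by the forcing construction.
-/

universe u

namespace Pool.Agent.P.MP_a18ac8_lc

open Cardinal Set Filter

theorem h1_type_eq {α : Type u} [LinearOrder α] [WellFoundedLT α]
    (h : ∀ a : α, #(Iio a) < #α) : (#α).ord = Ordinal.type ((· < ·) : α → α → Prop) := by
  refine le_antisymm (ord_le_type _) (le_of_forall_lt fun o ho => ?_)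
  obtain ⟨a, rfl⟩ := Ordinal.typein_surj _ ho
  rw [lt_ord]
  exact h a

theorem h1_le_cof {α : Type u} [LinearOrder α] [WellFoundedLT α]
    (h : ∀ a : α, #(Iio a) < #α) (hb : ∀ s : Set α, #s < #α → ∃ b, ∀ a ∈ s, a < b) :
    #α ≤ (#α).ord.cof := by
  rw [h1_type_eq h, Ordinal.cof_type, Order.le_cof_iff]
  intro s hs
  by_contra hlt
  obtain ⟨b, hb⟩ := hb s (not_le.1 hlt)
  obtain ⟨a, ha, hba⟩ := hs b
  exact absurd (hb a ha) (not_lt.2 hba)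

theorem h1_exists_Iio {α : Type u} [LinearOrder α] [WellFoundedLT α] {c : Cardinal.{u}}
    (hc : c < #α) : ∃ a : α, #(Iio a) = c := by
  have : c.ord < Ordinal.type ((· < ·) : α → α → Prop) :=
    (ord_lt_ord.2 hc).trans_le (ord_le_type _)
  obtain ⟨a, ha⟩ := Ordinal.typein_surj _ this
  refine ⟨a, ?_⟩
  have := congrArg Ordinal.card ha
  rw [card_ord] at this
  exact this

variable {Λ : Type u} [ConditionallyCompleteLinearOrderBot Λ] [WellFoundedLT Λ]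

omit [WellFoundedLT Λ] in
theorem h1_crd_mono {a b : Λ} (h : a ≤ b) : crd a ≤ crd b :=
  mk_le_mk_of_subset (Iio_subset_Iio h)

omit [WellFoundedLT Λ] in
theorem h1_lt_of_crd {a b : Λ} (h : crd a < crd b) : a < b := by
  by_contra hh
  exact absurd (h1_crd_mono (not_lt.1 hh)) (not_le.2 h)

theorem h1_exists_crd {μ : Λ} {c : Cardinal.{u}} (hc : c < crd μ) : ∃ θ < μ, crd θ = c := by
  obtain ⟨θ, hθ⟩ := h1_exists_Iio (α := Λ) (hc.trans_le (mk_set_le _))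
  exact ⟨θ, h1_lt_of_crd (by rw [show crd θ = c from hθ]; exact hc), hθ⟩

omit [WellFoundedLT Λ] in
theorem h1_enum {s : Set Λ} {θ : Λ} (h : crd θ = #s) : ∃ e : Λ → Λ, e '' Iio θ = s := by
  classical
  obtain ⟨e⟩ := Cardinal.eq.1 h
  refine ⟨fun a => if ha : a ∈ Iio θ then (e ⟨a, ha⟩ : Λ) else a, ?_⟩
  ext b
  constructor
  · rintro ⟨a, ha, rfl⟩
    simp only [ha, dif_pos]
    exact (e ⟨a, ha⟩).2
  · intro hb
    refine ⟨(e.symm ⟨b, hb⟩ : Λ), (e.symm ⟨b, hb⟩).2, ?_⟩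
    simp only [(e.symm ⟨b, hb⟩).2, dif_pos, Subtype.coe_eta, Equiv.apply_symm_apply]

theorem h1_le_cof_crd {μ : Λ} (h : ∀ η < μ, crd η < crd μ)
    (hb : ∀ s ⊆ Iio μ, #s < crd μ → ∃ b < μ, ∀ a ∈ s, a < b) : crd μ ≤ (crd μ).ord.cof := by
  refine h1_le_cof (α := Iio μ) (fun a => ?_) (fun s hs => ?_)
  · refine lt_of_le_of_lt ?_ (h a a.2)
    exact mk_le_of_injective (f := fun x : Iio a => (⟨x.1.1, x.2⟩ : Iio (a : Λ)))
      fun x y hxy => Subtype.ext (Subtype.ext (congrArg (fun t : Iio (a : Λ) => t.1) hxy))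
  · obtain ⟨b, hb, hs'⟩ := hb (Subtype.val '' s) (by rintro _ ⟨a, _, rfl⟩; exact a.2)
      (mk_image_le.trans_lt hs)
    exact ⟨⟨b, hb⟩, fun a ha => hs' a ⟨a, ha, rfl⟩⟩

/-- The first gap of `z`, cut off at `k`. -/
noncomputable def h1m (k : Λ) (z : Set Λ) : Λ := sInf {ξ | ξ ∉ z ∨ ξ = k}

theorem h1m_mem (k : Λ) (z : Set Λ) : h1m k z ∉ z ∨ h1m k z = k :=
  csInf_mem (s := {ξ | ξ ∉ z ∨ ξ = k}) ⟨k, Or.inr rfl⟩

omit [WellFoundedLT Λ] in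
theorem h1m_le {k ξ : Λ} {z : Set Λ} (h : ξ ∉ z ∨ ξ = k) : h1m k z ≤ ξ :=
  csInf_le' (s := {ξ | ξ ∉ z ∨ ξ = k}) h

omit [WellFoundedLT Λ] in
theorem h1_mem_of_lt {k ξ : Λ} {z : Set Λ} (h : ξ < h1m k z) : ξ ∈ z := by
  by_contra hh
  exact absurd (h1m_le (k := k) (Or.inl hh)) (not_le.2 h)

omit [WellFoundedLT Λ] in
theorem h1_lt_k {k ξ : Λ} {z : Set Λ} (h : ξ < h1m k z) : ξ < k :=
  h.trans_le (h1m_le (Or.inr rfl))

/-- The raw data of a huge cardinal on a well order. -/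
structure H1 (U : Ultrafilter (Set Λ)) (k : Λ) : Prop where
  unc : ℵ₀ < crd k
  kinit : ∀ η < k, crd η < crd k
  init : ∀ ξ : Λ, crd ξ < #Λ
  compl : CardinalInterFilter (U : Filter (Set Λ)) (crd k)
  fine : ∀ ξ : Λ, ∀ᶠ z in (U : Filter (Set Λ)), ξ ∈ z
  normal : ∀ f : Set Λ → Λ, (∀ᶠ z in (U : Filter (Set Λ)), f z ∈ z) →
    ∃ ξ, ∀ᶠ z in (U : Filter (Set Λ)), f z = ξ
  card : ∀ᶠ z : Set Λ in (U : Filter (Set Λ)), #z = crd k
  seg : ∀ᶠ z : Set Λ in (U : Filter (Set Λ)), ∀ ξ ∈ z, #↥(z ∩ Iio ξ) < crd k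

namespace H1

variable {U : Ultrafilter (Set Λ)} {k : Λ}

omit [WellFoundedLT Λ] in
theorem diag (H : H1 U k) {P : Λ → Set Λ → Prop}
    (h : ∀ ξ, ∀ᶠ z in (U : Filter (Set Λ)), P ξ z) :
    ∀ᶠ z in (U : Filter (Set Λ)), ∀ ξ ∈ z, P ξ z := by
  classical
  by_contra hn
  rw [← Ultrafilter.eventually_not] at hn
  have h1 : ∀ z : Set Λ, ∃ ξ : Λ, (¬ ∀ ξ ∈ z, P ξ z) → ξ ∈ z ∧ ¬ P ξ z := by
    intro z
    by_cases hz : ∀ ξ ∈ z, P ξ z
    · exact ⟨⊥, fun h => absurd hz h⟩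
    · push Not at hz
      obtain ⟨ξ, h1, h2⟩ := hz
      exact ⟨ξ, fun _ => ⟨h1, h2⟩⟩
  choose f hf using h1
  obtain ⟨ξ, hξ⟩ := H.normal f (hn.mono fun z hz => (hf z hz).1)
  obtain ⟨z, h1, h2, h3⟩ := (hn.and (hξ.and (h ξ))).exists
  exact (hf z h1).2 (h2 ▸ h3)

omit [WellFoundedLT Λ] in
theorem ball (H : H1 U k) {s : Set Λ} (hs : #s < crd k) {P : Λ → Set Λ → Prop}
    (h : ∀ ξ ∈ s, ∀ᶠ z in (U : Filter (Set Λ)), P ξ z) :
    ∀ᶠ z in (U : Filter (Set Λ)), ∀ ξ ∈ s, P ξ z := by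
  have := H.compl
  exact (eventually_cardinal_ball hs (p := fun z ξ _ => P ξ z)).2 h

omit [WellFoundedLT Λ] in
theorem closed (H : H1 U k) (g : Λ → Λ) :
    ∀ᶠ z : Set Λ in (U : Filter (Set Λ)), ∀ ξ ∈ z, g ξ ∈ z :=
  H.diag (P := fun ξ z => g ξ ∈ z) fun _ => H.fine _

omit [WellFoundedLT Λ] in
theorem closed₂ (H : H1 U k) (g : Λ → Λ → Λ) :
    ∀ᶠ z : Set Λ in (U : Filter (Set Λ)), ∀ ξ ∈ z, ∀ η ∈ z, g ξ η ∈ z :=
  H.diag (P := fun ξ z => ∀ η ∈ z, g ξ η ∈ z) fun _ => H.closed _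

omit [WellFoundedLT Λ] in
theorem m_lt (H : H1 U k) : ∀ᶠ z in (U : Filter (Set Λ)), h1m k z < k := by
  filter_upwards [H.seg, H.fine k] with z h1 h2
  by_contra hn
  have : z ∩ Iio k = Iio k :=
    inter_eq_right.2 fun ξ hξ => h1_mem_of_lt (k := k) (lt_of_lt_of_le hξ (not_lt.1 hn))
  have h3 := h1 k h2
  rw [this] at h3
  exact lt_irrefl _ h3

theorem lt_m (H : H1 U k) {ξ : Λ} (h : ξ < k) : ∀ᶠ z in (U : Filter (Set Λ)), ξ < h1m k z := by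
  filter_upwards [H.ball (H.kinit ξ h) (P := fun η z => η ∈ z) fun η _ => H.fine η,
    H.fine ξ] with z h1 h2
  by_contra hn
  rcases h1m_mem k z with h3 | h3
  · rcases (not_lt.1 hn).lt_or_eq with h4 | h4
    · exact h3 (h1 _ h4)
    · exact h3 (h4 ▸ h2)
  · exact hn (h.trans_eq h3.symm)

omit [WellFoundedLT Λ] in
theorem below (H : H1 U k) {P : Λ → Set Λ → Prop}
    (h : ∀ ξ < k, ∀ᶠ z in (U : Filter (Set Λ)), P ξ z) :
    ∀ᶠ z in (U : Filter (Set Λ)), ∀ ξ < h1m k z, P ξ z := by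
  have := H.diag (P := fun ξ z => ξ < k → P ξ z) fun ξ => by
    by_cases hξ : ξ < k
    · exact (h ξ hξ).mono fun z hz _ => hz
    · exact Eventually.of_forall fun z hz => absurd hz hξ
  exact this.mono fun z hz ξ hξ => hz ξ (h1_mem_of_lt hξ) (h1_lt_k hξ)

theorem inter (H : H1 U k) :
    ∀ᶠ z : Set Λ in (U : Filter (Set Λ)), ∀ ξ ∈ z, ξ < k → ξ < h1m k z :=
  H.diag (P := fun ξ z => ξ < k → ξ < h1m k z) fun ξ => by
    by_cases hξ : ξ < k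
    · exact (H.lt_m hξ).mono fun z hz _ => hz
    · exact Eventually.of_forall fun z hz => absurd hz hξ

omit [WellFoundedLT Λ] in
theorem const (H : H1 U k) {g : Set Λ → Λ}
    (h : ∀ᶠ z in (U : Filter (Set Λ)), g z < h1m k z) :
    ∃ γ < k, ∀ᶠ z in (U : Filter (Set Λ)), g z = γ := by
  obtain ⟨γ, hγ⟩ := H.normal g (h.mono fun z hz => h1_mem_of_lt hz)
  obtain ⟨z, h1, h2⟩ := (h.and hγ).exists
  exact ⟨γ, h2 ▸ h1_lt_k h1, hγ⟩

theorem bdd (H : H1 U k) {s : Set Λ} (hs : s ⊆ Iio k) (hc : #s < crd k) :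
    ∃ b < k, ∀ a ∈ s, a < b := by
  obtain ⟨z, h1, h2⟩ := (H.m_lt.and
    (H.ball hc (P := fun ξ z => ξ < h1m k z) fun ξ hξ => H.lt_m (hs hξ))).exists
  exact ⟨_, h1, h2⟩

theorem reg (H : H1 U k) : (crd k).IsRegular :=
  ⟨H.unc.le, h1_le_cof_crd H.kinit fun _ hs hc => H.bdd hs hc⟩

theorem pow_lt (H : H1 U k) {c : Cardinal.{u}} (hc : c < crd k) : 2 ^ c < crd k := by
  classical
  obtain ⟨θ, hθ, rfl⟩ := h1_exists_crd hc
  by_contra hn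
  have h1 : #(Iio k) ≤ #(Set (Iio θ)) := by
    rw [mk_set]
    exact not_lt.1 hn
  obtain ⟨e⟩ := (le_def _ _).1 h1
  let E : Λ → Λ → Prop := fun ξ γ => ∃ (hξ : ξ < k) (hγ : γ < θ), (⟨γ, hγ⟩ : Iio θ) ∈ e ⟨ξ, hξ⟩
  have hE : ∀ ξ < k, ∀ η < k, (∀ γ < θ, E ξ γ ↔ E η γ) → ξ = η := by
    intro ξ hξ η hη h
    have : e ⟨ξ, hξ⟩ = e ⟨η, hη⟩ := by
      ext ⟨γ, hγ⟩
      constructor
      · intro h1
        obtain ⟨_, _, h2⟩ := (h γ hγ).1 ⟨hξ, hγ, h1⟩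
        exact h2
      · intro h1
        obtain ⟨_, _, h2⟩ := (h γ hγ).2 ⟨hη, hγ, h1⟩
        exact h2
    exact congrArg Subtype.val (e.injective this)
  have h2 := H.ball hc
    (P := fun γ z => E (h1m k z) γ ↔ ∀ᶠ z' in (U : Filter (Set Λ)), E (h1m k z') γ) fun γ _ => by
      by_cases h : ∀ᶠ z' in (U : Filter (Set Λ)), E (h1m k z') γ
      · exact h.mono fun z hz => iff_of_true hz h
      · exact (Ultrafilter.eventually_not.2 h).mono fun z hz => iff_of_false hz h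
  obtain ⟨z, h3, h4⟩ := (H.m_lt.and h2).exists
  obtain ⟨z', h5, h6, h7⟩ := (H.m_lt.and (h2.and (H.lt_m h3))).exists
  exact h7.ne (hE _ h3 _ h5 fun γ hγ => (h4 γ hγ).trans (h6 γ hγ).symm)

theorem inac (H : H1 U k) : Inac k :=
  ⟨⟨H.unc, H.reg.2, fun _ hc => H.pow_lt hc⟩, H.kinit⟩

theorem set_const (H : H1 U k) {s : Set Λ → Set Λ}
    (h : ∀ᶠ z in (U : Filter (Set Λ)), s z ⊆ z ∧ #(s z) < crd (h1m k z)) :
    ∃ S : Set Λ, ∀ᶠ z in (U : Filter (Set Λ)), s z = S := by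
  have h1 : ∀ z : Set Λ, ∃ (θ : Λ) (e : Λ → Λ), #(s z) < crd (h1m k z) →
      θ < h1m k z ∧ e '' Iio θ = s z := by
    intro z
    by_cases hz : #(s z) < crd (h1m k z)
    · obtain ⟨θ, h1, h2⟩ := h1_exists_crd hz
      obtain ⟨e, he⟩ := h1_enum h2
      exact ⟨θ, e, fun _ => ⟨h1, he⟩⟩
    · exact ⟨⊥, id, fun h => absurd h hz⟩
  choose θ e he using h1
  obtain ⟨θ₀, hk, hθ⟩ := H.const (g := θ) (h.mono fun z hz => (he z hz.2).1)
  have h2 : ∀ γ : Λ, ∃ c, γ < θ₀ → ∀ᶠ z in (U : Filter (Set Λ)), e z γ = c := by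
    intro γ
    by_cases hγ : γ < θ₀
    · obtain ⟨c, hc⟩ := H.normal (fun z => e z γ) (by
        filter_upwards [h, hθ] with z h1 h2
        apply h1.1
        rw [← (he z h1.2).2, h2]
        exact ⟨γ, hγ, rfl⟩)
      exact ⟨c, fun _ => hc⟩
    · exact ⟨⊥, fun h => absurd h hγ⟩
  choose c hc using h2
  refine ⟨c '' Iio θ₀, ?_⟩
  filter_upwards [h, hθ, H.ball (H.kinit θ₀ hk) (P := fun γ z => e z γ = c γ) hc] with z h1 h2 h3
  rw [← (he z h1.2).2, h2]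
  exact image_congr h3

theorem pow_lt_m (H : H1 U k) {c : Cardinal.{u}} (hc : c < crd k) :
    ∀ᶠ z in (U : Filter (Set Λ)), c < crd (h1m k z) := by
  obtain ⟨θ, hθ, h⟩ := h1_exists_crd (H.pow_lt hc)
  filter_upwards [H.lt_m hθ] with z hz
  exact (cantor c).trans_le (h ▸ h1_crd_mono hz.le)

theorem m_bdd (H : H1 U k) : ∀ᶠ z in (U : Filter (Set Λ)),
    ∀ s ⊆ Iio (h1m k z), #s < crd (h1m k z) → ∃ b < h1m k z, ∀ a ∈ s, a < b := by
  by_contra hn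
  rw [← Ultrafilter.eventually_not] at hn
  have h1 : ∀ z : Set Λ, ∃ s : Set Λ,
      (¬ ∀ s ⊆ Iio (h1m k z), #s < crd (h1m k z) → ∃ b < h1m k z, ∀ a ∈ s, a < b) →
      s ⊆ Iio (h1m k z) ∧ #s < crd (h1m k z) ∧ ¬ ∃ b < h1m k z, ∀ a ∈ s, a < b := by
    intro z
    by_cases hz : ∀ s ⊆ Iio (h1m k z), #s < crd (h1m k z) → ∃ b < h1m k z, ∀ a ∈ s, a < b
    · exact ⟨∅, fun h => absurd hz h⟩
    · simp only [not_forall] at hz
      obtain ⟨s, h1, h2, h3⟩ := hz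
      exact ⟨s, fun _ => ⟨h1, h2, h3⟩⟩
  choose s hs using h1
  obtain ⟨S, hS⟩ := H.set_const (s := s) (hn.mono fun z hz =>
    ⟨fun a ha => h1_mem_of_lt ((hs z hz).1 ha), (hs z hz).2.1⟩)
  obtain ⟨z, h1, h2, h3⟩ := (hn.and (hS.and H.m_lt)).exists
  obtain ⟨z', h4, h5, h6⟩ := (hn.and (hS.and (H.lt_m h3))).exists
  refine (hs z' h4).2.2 ⟨_, h6, fun a ha => (hs z h1).1 ?_⟩
  rw [h2, ← h5]
  exact ha

theorem m_inac (H : H1 U k) : ∀ᶠ z in (U : Filter (Set Λ)), Inac (h1m k z) := by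
  filter_upwards [H.m_bdd, H.pow_lt_m H.unc,
    H.below (P := fun ξ z => 2 ^ crd ξ < crd (h1m k z))
      fun ξ hξ => H.pow_lt_m (H.pow_lt (H.kinit ξ hξ))] with z h1 h2 h3
  have h4 : ∀ η < h1m k z, crd η < crd (h1m k z) := fun η hη => (cantor _).trans (h3 η hη)
  refine ⟨⟨h2, h1_le_cof_crd h4 h1, fun c hc => ?_⟩, h4⟩
  obtain ⟨θ, hθ, rfl⟩ := h1_exists_crd hc
  exact h3 θ hθ

theorem lam_bdd (H : H1 U k) {s : Set Λ} (hc : #s < #Λ) : ∃ b, ∀ a ∈ s, a < b := by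
  by_contra hn
  push Not at hn
  obtain ⟨δ, hδ⟩ := h1_exists_Iio hc
  obtain ⟨e, he⟩ := h1_enum (θ := δ) hδ
  have h1 : ∀ ξ : Λ, ∃ γ < δ, ξ ≤ e γ := by
    intro ξ
    obtain ⟨a, ha, h⟩ := hn ξ
    rw [← he] at ha
    obtain ⟨γ, hγ, rfl⟩ := ha
    exact ⟨γ, hγ, h⟩
  choose g hg hg' using h1
  obtain ⟨z, h1, h2, h3, h4, h5⟩ :=
    (H.card.and (H.seg.and ((H.closed g).and ((H.closed e).and (H.fine δ))))).exists
  have h6 : z ⊆ ⋃ γ : ↥(z ∩ Iio δ), insert (e γ) (z ∩ Iio (e γ)) := by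
    intro ξ hξ
    refine mem_iUnion.2 ⟨⟨g ξ, h3 ξ hξ, hg ξ⟩, ?_⟩
    rcases (hg' ξ).lt_or_eq with h | h
    · exact Or.inr ⟨hξ, h⟩
    · exact Or.inl h
  have h7 : #↥(⋃ γ : ↥(z ∩ Iio δ), insert (e γ) (z ∩ Iio (e γ))) < crd k := by
    refine (mk_iUnion_le_sum_mk).trans_lt (sum_lt_of_isRegular H.reg (h2 δ h5) fun γ => ?_)
    exact mk_insert_le.trans_lt (add_one_lt_of_lt H.unc.le (h2 _ (h4 _ γ.2.1)))
  exact absurd ((mk_le_mk_of_subset h6).trans_lt h7) (by rw [h1]; exact lt_irrefl _)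

theorem lam_pow (H : H1 U k) {c : Cardinal.{u}} (hc : c < #Λ) : 2 ^ c < #Λ := by
  classical
  obtain ⟨δ, rfl⟩ := h1_exists_Iio hc
  by_contra hn
  have h1 : #Λ ≤ #(Set (Iio δ)) := by
    rw [mk_set]
    exact not_lt.1 hn
  obtain ⟨e⟩ := (le_def _ _).1 h1
  have h2 : ∀ ξ η : Λ, ∃ d : Λ, ξ ≠ η →
      ∃ hd : d < δ, ¬ ((⟨d, hd⟩ : Iio δ) ∈ e ξ ↔ (⟨d, hd⟩ : Iio δ) ∈ e η) := by
    intro ξ η
    by_cases h : ξ = η
    · exact ⟨⊥, fun h' => absurd h h'⟩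
    · have : e ξ ≠ e η := fun h' => h (e.injective h')
      obtain ⟨d, hd⟩ := not_forall.1 (mt Set.ext this)
      exact ⟨d, fun _ => ⟨d.2, hd⟩⟩
  choose d hd using h2
  obtain ⟨z, h1, h2, h3, h4⟩ := (H.card.and (H.seg.and ((H.closed₂ d).and (H.fine δ)))).exists
  have h5 : #z ≤ #(Set ↥(z ∩ Iio δ)) := by
    refine mk_le_of_injective
      (f := fun ξ : z => {γ : ↥(z ∩ Iio δ) | (⟨γ.1, γ.2.2⟩ : Iio δ) ∈ e ξ}) fun ξ η h => ?_
    by_contra hne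
    obtain ⟨h6, h7⟩ := hd ξ η fun h' => hne (Subtype.ext h')
    exact h7 (Set.ext_iff.1 h ⟨d ξ η, h3 _ ξ.2 _ η.2, h6⟩)
  rw [mk_set, h1] at h5
  exact absurd (H.pow_lt (h2 δ h4)) (not_lt.2 h5)

theorem lam_inac (H : H1 U k) : (#Λ).IsInaccessible :=
  ⟨H.unc.trans (H.init k), h1_le_cof H.init fun _ hs => H.lam_bdd hs, fun _ hc => H.lam_pow hc⟩

theorem kp [Ctx Λ] (H : H1 U (kap : Λ)) : KP (kap : Λ) := by
  intro f g hf hg
  have h1 : ∀ᶠ z in (U : Filter (Set Λ)), h1m kap z < kap ∧ Reg (h1m kap z) ∧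
      rho < h1m kap z ∧ ∀ β < h1m kap z, f β < h1m kap z := by
    filter_upwards [H.m_lt, H.m_inac, H.lt_m Ctx.rho_lt,
      H.below (P := fun β z => f β < h1m kap z) fun β hβ => H.lt_m (hf β hβ)] with z h1 h2 h3 h4
    exact ⟨h1, ⟨h2.1.isRegular, h2.2⟩, h3, h4⟩
  obtain ⟨γ, -, hγ⟩ := H.const (g := fun z => g (h1m kap z))
    (h1.mono fun z hz => hg _ hz.1 hz.2.1 hz.2.2.1 hz.2.2.2)
  obtain ⟨z, h2, h3⟩ := (h1.and hγ).exists
  obtain ⟨z', h4, h5, h6⟩ := (h1.and (hγ.and (H.lt_m h2.1))).exists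
  exact ⟨_, _, h6, h4.1, h2.2, h4.2, h3.trans h5.symm⟩

theorem m_kp [Ctx Λ] (H : H1 U (kap : Λ)) :
    ∀ᶠ z in (U : Filter (Set Λ)), KP (h1m (kap : Λ) z) := by
  by_contra hn
  rw [← Ultrafilter.eventually_not] at hn
  have h1 : ∀ z : Set Λ, ∃ f g : Λ → Λ, ¬ KP (h1m (kap : Λ) z) →
      (∀ β < h1m kap z, f β < h1m kap z) ∧
      (∀ α < h1m kap z, Reg α → rho < α → (∀ β < α, f β < α) → g α < α) ∧
      ¬ ∃ α α', α < α' ∧ α' < h1m kap z ∧ (Reg α ∧ rho < α ∧ ∀ β < α, f β < α) ∧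
        (Reg α' ∧ rho < α' ∧ ∀ β < α', f β < α') ∧ g α = g α' := by
    intro z
    by_cases hz : KP (h1m (kap : Λ) z)
    · exact ⟨id, id, fun h => absurd hz h⟩
    · unfold KP at hz
      simp only [not_forall] at hz
      obtain ⟨f, g, h1, h2, h3⟩ := hz
      exact ⟨f, g, fun _ => ⟨h1, h2, h3⟩⟩
  choose F G hFG using h1
  have h2 : ∀ γ : Λ, ∃ a b : Λ, γ < kap → a < kap ∧
      ∀ᶠ z in (U : Filter (Set Λ)), F z γ = a ∧ min (G z γ) γ = b := by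
    intro γ
    by_cases hγ : γ < kap
    · obtain ⟨a, ha, ha'⟩ := H.const (g := fun z => F z γ)
        ((hn.and (H.lt_m hγ)).mono fun z hz => (hFG z hz.1).1 γ hz.2)
      obtain ⟨b, -, hb⟩ := H.const (g := fun z => min (G z γ) γ)
        ((H.lt_m hγ).mono fun z hz => (min_le_right _ _).trans_lt hz)
      exact ⟨a, b, fun _ => ⟨ha, ha'.and hb⟩⟩
    · exact ⟨⊥, ⊥, fun h => absurd h hγ⟩
  choose f g hfg using h2
  have h3 := hn.and (H.below (P := fun γ z => F z γ = f γ ∧ min (G z γ) γ = g γ)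
    fun γ hγ => (hfg γ hγ).2)
  have h4 : ∀ z : Set Λ, (¬ KP (h1m (kap : Λ) z) ∧
      ∀ γ < h1m kap z, F z γ = f γ ∧ min (G z γ) γ = g γ) → ∀ α < h1m kap z,
      (Reg α ∧ rho < α ∧ ∀ β < α, f β < α) →
      (Reg α ∧ rho < α ∧ ∀ β < α, F z β < α) ∧ G z α = g α ∧ g α < α := by
    intro z hz α hα h
    have h5 : ∀ β < α, F z β < α := fun β hβ => by
      rw [(hz.2 β (hβ.trans hα)).1]
      exact h.2.2 β hβ
    have h6 := (hFG z hz.1).2.1 α hα h.1 h.2.1 h5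
    have h7 : G z α = g α := by rw [← (hz.2 α hα).2, min_eq_left h6.le]
    exact ⟨⟨h.1, h.2.1, h5⟩, h7, h7 ▸ h6⟩
  obtain ⟨α, α', h5, h6, h7, h8, h9⟩ := H.kp f g (fun β hβ => (hfg β hβ).1) (by
    intro α hα h5 h6 h7
    obtain ⟨z, h8, h9⟩ := (h3.and (H.lt_m hα)).exists
    exact (h4 z h8 α h9 ⟨h5, h6, h7⟩).2.2)
  obtain ⟨z, h10, h11⟩ := (h3.and (H.lt_m h6)).exists
  have ha := h4 z h10 α (h5.trans h11) h7
  have hb := h4 z h10 α' h11 h8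
  exact (hFG z h10.1).2.2 ⟨α, α', h5, h11, ha.1, hb.1, by rw [ha.2.1, hb.2.1, h9]⟩

theorem hugeData [Ctx Λ] (H : H1 U (kap : Λ)) : HugeData U := by
  refine ⟨H.compl, H.fine, H.normal, ?_, H.lam_inac, H.init, H.kp⟩
  filter_upwards [H.m_lt, H.inter, H.card, H.seg, H.fine kap, H.m_inac, H.lt_m Ctx.rho_lt,
    H.m_kp] with z h1 h2 h3 h4 h5 h6 h7 h8
  exact ⟨h1, h2, h3, h4, h5, h6, h7, h8⟩

theorem exists_ctx (H : H1 U k) : ∃ _ : Ctx Λ, HugeData U := by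
  obtain ⟨z, h1, h2⟩ := (H.m_lt.and H.m_inac).exists
  have hk : (⊥ : Λ) < k := bot_le.trans_lt h1
  let _ : Ctx Λ :=
    { rho := h1m k z, kap := k, one := sInf (Ioi ⊥)
      bot_lt_one := csInf_mem (s := Ioi (⊥ : Λ)) ⟨k, hk⟩
      one_le := fun ξ hξ => csInf_le' (s := Ioi (⊥ : Λ)) hξ
      rho_inac := h2, kap_inac := H.inac, rho_lt := h1 }
  exact ⟨inferInstance, H1.hugeData (U := U) H⟩

end H1

theorem exists_hugeData {κ : Cardinal.{u}} (h : IsHuge κ) :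
    ∃ (Λ : Type u) (_ : ConditionallyCompleteLinearOrderBot Λ) (_ : WellFoundedLT Λ) (_ : Ctx Λ)
      (U : Ultrafilter (Set Λ)), HugeData U := by
  obtain ⟨hκ, lam, hl, U, hc, hf, hn, ht⟩ := h
  have hlt : κ.ord < Ordinal.type ((· < ·) : lam.ord.ToType → lam.ord.ToType → Prop) := by
    rw [Ordinal.type_toType]
    exact ord_lt_ord.2 hl
  obtain ⟨k, hk⟩ := Ordinal.typein_surj _ hlt
  have : Nonempty lam.ord.ToType := ⟨k⟩
  let _ : OrderBot lam.ord.ToType := WellFoundedLT.toOrderBot _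
  let _ : ConditionallyCompleteLinearOrderBot lam.ord.ToType :=
    WellFoundedLT.conditionallyCompleteLinearOrderBot _
  have hck : crd k = κ := by
    have := congrArg Ordinal.card hk
    rw [card_ord] at this
    exact this
  have H : H1 U k := by
    refine ⟨hck ▸ hκ, fun η hη => ?_, fun ξ => ?_, hck ▸ hc, hf, hn, ?_, ?_⟩
    · rw [hck]
      have := (Ordinal.typein_lt_typein (· < ·)).2 hη
      rw [hk, lt_ord] at this
      exact this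
    · exact mk_Iio_lt ξ (by simp)
    · filter_upwards [ht] with z hz
      have := congrArg Ordinal.card hz
      rw [card_ord] at this
      rw [hck]
      exact this
    · filter_upwards [ht] with z hz ξ hξ
      have h1 := Ordinal.typein_lt_type ((· < ·) : z → z → Prop) ⟨ξ, hξ⟩
      rw [hz, lt_ord, Ordinal.card_typein] at h1
      rw [hck]
      refine lt_of_le_of_lt ?_ h1
      exact mk_le_of_injective
        (f := fun x : ↥(z ∩ Iio ξ) => (⟨⟨x.1, x.2.1⟩, x.2.2⟩ : {y : z // y < ⟨ξ, hξ⟩}))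
        fun x y hxy => Subtype.ext (congrArg (fun t => t.1.1) hxy)
  obtain ⟨C, hC⟩ := H.exists_ctx
  exact ⟨lam.ord.ToType, inferInstance, inferInstance, C, U, hC⟩

end Pool.Agent.P.MP_a18ac8_lc
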