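import Pool.Agent.P.MP_a18ac8_lc.Magidor
import Pool.Agent.P.MP_a18ac8_lc.Iface

universe u

namespace Pool.Agent.P.MP_a18ac8_lc

open Cardinal Set Sum Filter

variable {Λ : Type u} [ConditionallyCompleteLinearOrderBot Λ] [WellFoundedLT Λ]

variable [Ctx Λ] {U : Ultrafilter (Set Λ)}

/-- `X` is positive below `p`. -/
def IdealPos (U : Ultrafilter (Set Λ)) (t : Λ → Set Λ → Cond Λ) (p : Cond Λ)
    (X : Λ → Cond Λ → Prop) : Prop :=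
  ∃ (ps : Set Λ → Cond Λ) (ξ : Λ), ∀ᶠ z in (U : Filter (Set Λ)),
    VL kap (ps z) ∧ (ps z).set ⊆ phi z ⁻¹' p.set ∧ Frc (X (mu z)) ((ps z).un (t ξ z))

omit [WellFoundedLT Λ] in
theorem ideal_frc_mono {O : Cond Λ → Prop} {q q' : Cond Λ} (h : Frc O q) (hq : q' ≤ q) :
    Frc O q' := fun r hr hr' => h r hr (hr'.trans hq)

theorem ideal_set_un {E t : Cond Λ} (ht : Term univ t) (hE : VL kap E) :
    (E.un t).set = E.set ∩ t.set := ht.set_un (by rwa [mu_univ])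

theorem ideal_un_mono {E E' t t' : Cond Λ} (ht : Term univ t) (ht' : Term univ t')
    (hE : VL kap E) (hE' : VL kap E') (h1 : E' ≤ E) (h2 : t' ≤ t) : E'.un t' ≤ E.un t := by
  rw [Cond.le_def, ideal_set_un ht hE, ideal_set_un ht' hE']
  exact inter_subset_inter h1 h2

omit [WellFoundedLT Λ] in
theorem ideal_pos_of {t : Λ → Set Λ → Cond Λ} {p : Cond Λ} {X : Λ → Cond Λ → Prop} {ξ : Λ}
    (h : ∀ᶠ z in (U : Filter (Set Λ)), ∃ e, VL kap e ∧ e.set ⊆ phi z ⁻¹' p.set ∧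
      Frc (X (mu z)) (e.un (t ξ z))) : IdealPos U t p X := by
  classical
  refine ⟨fun z => if hz : ∃ e, VL kap e ∧ e.set ⊆ phi z ⁻¹' p.set ∧
      Frc (X (mu z)) (e.un (t ξ z)) then hz.choose else p, ξ, ?_⟩
  filter_upwards [h] with z hz
  rw [dif_pos hz]
  exact hz.choose_spec

theorem ideal_regular (h : HugeData U) {t : Λ → Set Λ → Cond Λ}
    (T1 : ∀ ξ, ∀ᶠ z in (U : Filter (Set Λ)), Term univ (t ξ z)) {p : Cond Λ}
    {X : Λ → Cond Λ → Prop} (hp : Valid p) (hX : IdealPos U t p X) :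
    ∃ q, Valid q ∧ q ≤ p ∧ ∀ r, Valid r → r ≤ q → IdealPos U t r X := by
  classical
  obtain ⟨ps, ξ, hps⟩ := hX
  have key : ∀ᶠ z in (U : Filter (Set Λ)), ∃ q, Capt z q ∧ q ≤ p ∧
      ∀ q', Capt z q' → q' ≤ q → ∃ p', VL kap p' ∧ p' ≤ ps z ∧ p'.set ⊆ phi z ⁻¹' q'.set := by
    filter_upwards [hps, h.good, h.capt hp] with z hz hg hc
    obtain ⟨q, hq, h1, h2⟩ := red_VL hg hz.1
    exact ⟨q, hq, h2 p hc hz.2.1, h1⟩
  let F : Set Λ → Cond Λ := fun z => if hz : ∃ q, Capt z q ∧ q ≤ p ∧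
      ∀ q', Capt z q' → q' ≤ q → ∃ p', VL kap p' ∧ p' ≤ ps z ∧ p'.set ⊆ phi z ⁻¹' q'.set
    then hz.choose else p
  have hF : ∀ᶠ z in (U : Filter (Set Λ)), Capt z (F z) ∧ F z ≤ p ∧
      ∀ q', Capt z q' → q' ≤ F z →
        ∃ p', VL kap p' ∧ p' ≤ ps z ∧ p'.set ⊆ phi z ⁻¹' q'.set := by
    filter_upwards [key] with z hz
    simp only [F, dif_pos hz]
    exact hz.choose_spec
  obtain ⟨q, hq, hq'⟩ := h.capt_const (hF.mono fun z hz => hz.1)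
  refine ⟨q, hq, ?_, fun r hr hrq => ?_⟩
  · obtain ⟨z, hz, hz'⟩ := (hF.and hq').exists
    rw [Cond.le_def, ← hz']
    exact hz.2.1
  · refine ideal_pos_of (ξ := ξ) ?_
    filter_upwards [hF, hq', h.capt hr, hps, T1 ξ] with z hz hz' hc hz2 ht
    obtain ⟨e, he, h1, h2⟩ := hz.2.2 r hc (by rw [Cond.le_def, hz']; exact hrq)
    exact ⟨e, he, h2, ideal_frc_mono hz2.2.2 (ideal_un_mono ht ht hz2.1 he h1 le_rfl)⟩

theorem ideal_sub (h : HugeData U) {t : Λ → Set Λ → Cond Λ}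
    (T1 : ∀ ξ, ∀ᶠ z in (U : Filter (Set Λ)), Term univ (t ξ z))
    (T2 : ∀ ξ η, η ≤ ξ → ∀ᶠ z in (U : Filter (Set Λ)), Ext (t η z) (t ξ z))
    (T3 : ∀ q, Valid q → ∃ ξ, ∀ᶠ z in (U : Filter (Set Λ)),
      phi z ⁻¹' q.set ∩ (t ξ z).set ⊆ q.set) {p : Cond Λ} {X X' : Λ → Cond Λ → Prop}
    (hp : Valid p)
    (hXX : ∀ γ < kap, ∀ q, Valid q → q ≤ p → X γ q → ∃ r, Valid r ∧ r ≤ q ∧ X' γ r)
    (hX : IdealPos U t p X) : IdealPos U t p X' := by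
  obtain ⟨ps, ξ, hps⟩ := hX
  obtain ⟨η, hη⟩ := T3 p hp
  refine ⟨ps, max ξ η, ?_⟩
  filter_upwards [hps, hη, T1 ξ, T1 (max ξ η), T2 _ _ (le_max_left ξ η),
    T2 _ _ (le_max_right ξ η), h.good] with z hz hz' h1 h2 h3 h4 hg
  refine ⟨hz.1, hz.2.1, fun q hq hle => ?_⟩
  have hle1 : (ps z).un (t (max ξ η) z) ≤ (ps z).un (t ξ z) :=
    ideal_un_mono h1 h2 hz.1 hz.1 le_rfl h3.le
  have hle2 : (ps z).un (t (max ξ η) z) ≤ p := by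
    rw [Cond.le_def, ideal_set_un h2 hz.1]
    exact fun ω hω => hz' ⟨hz.2.1 hω.1, h4.le hω.2⟩
  obtain ⟨q', hq', h5, h6⟩ := hz.2.2 q hq (hle.trans hle1)
  obtain ⟨r, hr, h7, h8⟩ := hXX _ hg.lt q' hq' (h5.trans (hle.trans hle2)) h6
  exact ⟨r, hr, h7.trans h5, h8⟩

theorem ideal_union (h : HugeData U) {t : Λ → Set Λ → Cond Λ}
    (T1 : ∀ ξ, ∀ᶠ z in (U : Filter (Set Λ)), Term univ (t ξ z))
    (T2 : ∀ ξ η, η ≤ ξ → ∀ᶠ z in (U : Filter (Set Λ)), Ext (t η z) (t ξ z))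
    (T4 : ∀ X : Λ → Cond Λ → Prop, (∀ γ, Opn (X γ)) → ∃ ξ, ∀ᶠ z in (U : Filter (Set Λ)),
      ∀ p, VL kap p → ∃ p', VL kap p' ∧ p' ≤ p ∧ (Frc (X (mu z)) (p'.un (t ξ z)) ∨
        ∀ q, Valid q → q ≤ p'.un (t ξ z) → ¬ X (mu z) q))
    {p : Cond Λ} {τ : Λ} (hτ : τ < kap) {X : Λ → Λ → Cond Λ → Prop}
    (ho : ∀ i γ, Opn (X i γ)) (hX : IdealPos U t p fun γ q => ∃ i < τ, X i γ q) :
    ∃ i < τ, IdealPos U t p (X i) := by
  classical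
  obtain ⟨ps, ξ, hps⟩ := hX
  choose d hd using fun i => T4 (X i) (ho i)
  have hcard : #(d '' Iio τ) < #Λ := lt_of_le_of_lt Cardinal.mk_image_le (h.init τ)
  obtain ⟨β, hβ⟩ := bdd_of_lt h.lam.isRegular h.init hcard
  have hs : #(Iio τ) < crd (kap : Λ) := kap_reg.crd_lt_iff.2 hτ
  have hall := h.all_small hs (P := fun i z => Term univ (t (d i) z) ∧
      Ext (t (d i) z) (t (max ξ β) z) ∧
      ∀ p, VL kap p → ∃ p', VL kap p' ∧ p' ≤ p ∧ (Frc (X i (mu z)) (p'.un (t (d i) z)) ∨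
        ∀ q, Valid q → q ≤ p'.un (t (d i) z) → ¬ X i (mu z) q)) fun i hi =>
    (T1 _).and ((T2 _ _ ((hβ _ (mem_image_of_mem d hi)).le.trans (le_max_right ξ β))).and (hd i))
  have key : ∀ᶠ z in (U : Filter (Set Λ)), ∃ i ∈ Iio τ, ∃ e, VL kap e ∧
      e.set ⊆ phi z ⁻¹' p.set ∧ Frc (X i (mu z)) (e.un (t (d i) z)) := by
    filter_upwards [hps, hall, T1 ξ, T1 (max ξ β), T2 _ _ (le_max_left ξ β)]
      with z hz ha h1 h2 h3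
    have hv : Valid ((ps z).un (t (max ξ β) z)) := hz.1.1.un h2.1
    obtain ⟨q, hq, hle, i, hi, hXi⟩ :=
      hz.2.2 _ hv (ideal_un_mono h1 h2 hz.1 hz.1 le_rfl h3.le)
    have hqt : q ≤ t (max ξ β) z := by
      refine hle.trans ?_
      rw [Cond.le_def, ideal_set_un h2 hz.1]
      exact inter_subset_right
    obtain ⟨E, t', hE, ht', hext, hEq⟩ := decomp hq hq.subset_S1_univ h2 hqt
    have hE' : E ≤ ps z :=
      le_of_un_le hE ht' (by rw [mu_univ]; exact hz.1) (hEq.trans hle)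
    rw [mu_univ] at hE
    obtain ⟨h4, h5, h6⟩ := ha i hi
    obtain ⟨e, he, h7, h8⟩ := h6 E hE
    refine ⟨i, hi, e, he, fun ω hω => hz.2.1 (hE' (h7 hω)), h8.resolve_right fun h9 => ?_⟩
    have hv' : Valid (e.un t') := he.1.un ht'.1
    refine h9 _ hv' (ideal_un_mono h4 ht' he he le_rfl (hext.le.trans h5.le)) ?_
    exact ho i _ q _ hv' ((ideal_un_mono ht' ht' hE he h7 le_rfl).trans hEq) hXi
  let F : Set Λ → Λ := fun z => if hz : ∃ i ∈ Iio τ, ∃ e, VL kap e ∧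
      e.set ⊆ phi z ⁻¹' p.set ∧ Frc (X i (mu z)) (e.un (t (d i) z)) then hz.choose else τ
  have hF : ∀ᶠ z in (U : Filter (Set Λ)), F z ∈ Iio τ ∧ ∃ e, VL kap e ∧
      e.set ⊆ phi z ⁻¹' p.set ∧ Frc (X (F z) (mu z)) (e.un (t (d (F z)) z)) := by
    filter_upwards [key] with z hz
    simp only [F, dif_pos hz]
    exact hz.choose_spec
  obtain ⟨i, hi⟩ := h.few_const hs (hF.mono fun z hz => hz.1)
  obtain ⟨z₀, hz₀, hz₀'⟩ := (hF.and hi).exists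
  refine ⟨i, hz₀' ▸ hz₀.1, ideal_pos_of (ξ := d i) ?_⟩
  filter_upwards [hF, hi] with z hz hz'
  rw [hz'] at hz
  exact hz.2

theorem ideal_sing (h : HugeData U) {t : Λ → Set Λ → Cond Λ}
    (T1 : ∀ ξ, ∀ᶠ z in (U : Filter (Set Λ)), Term univ (t ξ z)) {p : Cond Λ} {γ : Λ} :
    ¬ IdealPos U t p fun γ' _ => γ' = γ := by
  rintro ⟨ps, ξ, hps⟩
  have key : ∀ᶠ z in (U : Filter (Set Λ)), mu z = γ := by
    filter_upwards [hps, T1 ξ] with z hz h1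
    obtain ⟨q, -, -, hq⟩ := hz.2.2 _ (hz.1.1.un h1.1) le_rfl
    exact hq
  obtain ⟨z, hz, hg⟩ := (key.and h.good).exists
  obtain ⟨z', hz', hz''⟩ := (key.and (h.lt_mu (hz ▸ hg.lt))).exists
  exact hz''.ne' hz'

theorem ideal_proper (h : HugeData U) {t : Λ → Set Λ → Cond Λ} {p : Cond Λ} (hp : Valid p) :
    IdealPos U t p fun _ _ => True := by
  refine ideal_pos_of (ξ := ⊥) ?_
  filter_upwards [h.good, h.capt hp] with z hg hc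
  obtain ⟨e, he, hD, -, hs⟩ := push hg hc
  exact ⟨e, VL_of_S0 hg he hD, hs.subset, fun q hq _ => ⟨q, hq, le_rfl, trivial⟩⟩

theorem ideal_sat (h : HugeData U) {t : Λ → Set Λ → Cond Λ}
    (T1 : ∀ ξ, ∀ᶠ z in (U : Filter (Set Λ)), Term univ (t ξ z))
    (T2 : ∀ ξ η, η ≤ ξ → ∀ᶠ z in (U : Filter (Set Λ)), Ext (t η z) (t ξ z))
    {p : Cond Λ} {X : Λ → Λ → Cond Λ → Prop} (ho : ∀ i γ, Opn (X i γ))
    (hX : ∀ ξ, IdealPos U t p (X ξ)) :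
    ∃ ξ η, ξ ≠ η ∧ IdealPos U t p fun γ q => X ξ γ q ∧ X η γ q := by
  choose ps d hps using hX
  obtain ⟨ξ, η, hne, hr⟩ := h.star_cc ps fun ξ => (hps ξ).mono fun z hz => hz.1
  refine ⟨ξ, η, hne, ideal_pos_of (ξ := max (d ξ) (d η)) ?_⟩
  filter_upwards [hr, hps ξ, hps η, T1 (d ξ), T1 (d η), T1 (max (d ξ) (d η)),
    T2 _ _ (le_max_left (d ξ) (d η)), T2 _ _ (le_max_right (d ξ) (d η))]
    with z hz h1 h2 h3 h4 h5 h6 h7
  obtain ⟨r, hr, hr1, hr2⟩ := hz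
  refine ⟨r, hr, fun ω hω => h1.2.1 (hr1 hω), fun q hq hle => ?_⟩
  obtain ⟨q₁, hq₁, hl₁, hx₁⟩ :=
    h1.2.2 q hq (hle.trans (ideal_un_mono h3 h5 h1.1 hr hr1 h6.le))
  obtain ⟨q₂, hq₂, hl₂, hx₂⟩ :=
    h2.2.2 q₁ hq₁ (hl₁.trans (hle.trans (ideal_un_mono h4 h5 h2.1 hr hr2 h7.le)))
  exact ⟨q₂, hq₂, hl₂.trans hl₁, ho _ _ _ _ hq₂ hl₂ hx₁, hx₂⟩

theorem ideal_main (h : HugeData U) : ∃ J : Cond Λ → (Λ → Cond Λ → Prop) → Prop,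
    (∀ X, AOpen Valid (· ≤ ·) fun p => J p X) ∧
    (∀ p X, Valid p → (∀ γ, AOpen Valid (· ≤ ·) (X γ)) →
      (ABelow Valid (· ≤ ·) p fun r => J r X) → J p X) ∧
    (∀ p X X', Valid p → (∀ γ, AOpen Valid (· ≤ ·) (X γ)) → (∀ γ, AOpen Valid (· ≤ ·) (X' γ)) →
      (∀ γ < kap, ∀ q, Valid q → q ≤ p → X γ q → ∃ r, Valid r ∧ r ≤ q ∧ X' γ r) →
      J p X' → J p X) ∧
    (∀ p, ∀ τ < (kap : Λ), ∀ X : Λ → Λ → Cond Λ → Prop, Valid p →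
      (∀ i γ, AOpen Valid (· ≤ ·) (X i γ)) →
      (∀ i < τ, J p (X i)) → J p fun γ q => ∃ i < τ, X i γ q) ∧
    (∀ p γ, Valid p → J p fun γ' _ => γ' = γ) ∧
    (∀ p, Valid p → ¬ J p fun _ _ => True) ∧
    ∀ p (X : Λ → Λ → Cond Λ → Prop), Valid p → (∀ ξ γ, AOpen Valid (· ≤ ·) (X ξ γ)) →
      (∀ ξ η, ξ ≠ η → J p fun γ q => X ξ γ q ∧ X η γ q) → ∃ ξ, J p (X ξ) := by
  obtain ⟨t, T1, T2, T3, T4⟩ := magidor h
  refine ⟨fun p X => ¬ IdealPos U t p X, ?_, ?_, ?_, ?_, ?_, ?_, ?_⟩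
  · rintro X p q - hle hp ⟨ps, ξ, hps⟩
    refine hp ⟨ps, ξ, hps.mono fun z hz => ⟨hz.1, fun ω hω => hle (hz.2.1 hω), hz.2.2⟩⟩
  · intro p X hp _ hb hX
    obtain ⟨q, hq, hle, hr⟩ := ideal_regular h T1 hp hX
    obtain ⟨r, hr1, hr2, hr3⟩ := hb q hq hle
    exact hr3 (hr r hr1 hr2)
  · intro p X X' hp _ _ hXX hJ hX
    exact hJ (ideal_sub h T1 T2 T3 hp hXX hX)
  · intro p τ hτ X _ ho hJ hX
    obtain ⟨i, hi, hXi⟩ := ideal_union h T1 T2 T4 hτ ho hX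
    exact hJ i hi hXi
  · intro p γ _
    exact ideal_sing h T1
  · intro p hp hJ
    exact hJ (ideal_proper h hp)
  · intro p X _ ho hJ
    by_contra hne
    obtain ⟨ξ, η, h1, h2⟩ := ideal_sat h T1 T2 ho fun ξ => not_not.1 fun hξ => hne ⟨ξ, hξ⟩
    exact hJ ξ η h1 h2

end Pool.Agent.P.MP_a18ac8_lc
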