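import Pool.Agent.P.MP_a18ac8_lc.Thr
import Pool.Agent.P.MP_a18ac8_lc.Fusion

universe u

namespace Pool.Agent.P.MP_a18ac8_lc

open Cardinal Set Sum Filter

variable {Λ : Type u} [ConditionallyCompleteLinearOrderBot Λ] [WellFoundedLT Λ]

variable [Ctx Λ]

set_option linter.unusedSectionVars false

theorem Step2_res {z : Set Λ} {a p : Cond Λ} (ha : Valid a) (hp : Valid p)
    (h : a ≤ p.res (S1 z)) : a.res (S1 z) ≤ p.res (S1 z) :=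
  res_le ha (hp.res _) (closed_S1 z) inter_subset_right h

theorem Step2_am {z : Set Λ} {a p : Cond Λ} (ha : Valid a) (hp : Valid p)
    (h : a ≤ p.res (S1 z)) : (a.res (S1 z)).un p ≤ p :=
  un_le_of_res (Step2_res ha hp h) fun _ hc => hc.1.2

/-- The thread splits below `q` over a common part in `S1 z`. -/
def Step2Spl (z : Set Λ) (b : Λ → Λ → Cond Λ → Prop) (q : Cond Λ) : Prop :=
  ∃ qa qb e β ja jb, Valid qa ∧ Valid qb ∧ Valid e ∧ qa ≤ q ∧ qb ≤ q ∧ e ≤ qa.res (S1 z) ∧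
    e ≤ qb.res (S1 z) ∧ β < mu z ∧ b β ja qa ∧ b β jb qb ∧ ja ≠ jb

theorem Step2_ns {z : Set Λ} {w : Λ → Λ → Λ → Λ → Cond Λ → Prop}
    {b : Λ → Λ → Cond Λ → Prop} {p₀ : Cond Λ} (hp₀ : Valid p₀) (hD : p₀.D ⊆ S1 z)
    (wo : ∀ β i α j, Opn (w β i α j))
    (ws : ∀ β i α j p, Valid p → w β i α j p → w β i α j (p.res (S1 z)))
    (hb : Thr (mu z) w b p₀) {q : Cond Λ} (hq : Valid q) (hqp : q ≤ p₀)
    (ns : ¬ Step2Spl z b q) :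
    ∃ e₀, Valid e₀ ∧ e₀ ≤ p₀ ∧ e₀.D ⊆ S1 z ∧ ∃ b₁, Thr (mu z) w b₁ e₀ ∧
      ∀ β j p, Valid p → b₁ β j p → b₁ β j (p.res (S1 z)) := by
  refine ⟨q.res (S1 z), hq.res _, res_le hq hp₀ (closed_S1 z) hD hqp, inter_subset_right,
    fun β j e => β < mu z ∧ ∃ qa, Valid qa ∧ qa ≤ q ∧ e ≤ qa.res (S1 z) ∧ b β j qa,
    ⟨?_, ?_, ?_, ?_⟩, ?_⟩
  · rintro β j p p' - h ⟨h1, qa, h2, h3, h4, h5⟩
    exact ⟨h1, qa, h2, h3, h.trans h4, h5⟩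
  · intro β hβ p hp hpq
    have h1 := Step2_am hp hq hpq
    obtain ⟨qa, ha, h2, j, hj, h3⟩ := hb.dns β hβ _ ((hp.res _).un hq) (h1.trans hqp)
    exact ⟨(qa.res (S1 z)).un p, (ha.res _).un hp, Step2_am ha hp (h2.trans un_le_left), j, hj,
      hβ, qa, ha, h2.trans h1, un_le_left, h3⟩
  · rintro β j j' p hp - ⟨h1, qa, h2, h3, h4, h5⟩ ⟨-, qb, k2, k3, k4, k5⟩
    by_contra hne
    exact ns ⟨qa, qb, p, β, j, j', h2, k2, hp, h3, k3, h4, k4, h1, h5, k5, hne⟩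
  · rintro β j α k k' p hαβ hp - ⟨h1, qa, h2, h3, h4, h5⟩ ⟨k1, qb, k2, k3, k4, k5⟩ hw
    have e1 := Step2_am hp h2 h4
    obtain ⟨qc, hc, e2, k'', -, e3⟩ := hb.dns α k1 _ ((hp.res _).un h2) (e1.trans (h3.trans hqp))
    have e4 : qc ≤ qa := e2.trans e1
    have e5 : qc ≤ p.res (S1 z) := e2.trans un_le_left
    have e6 : k'' = k' := hb.thr β j α k'' k' qc hαβ hc (e4.trans (h3.trans hqp))
      (hb.opn β j _ _ hc e4 h5) e3 (wo _ _ _ _ _ _ hc e5 (ws _ _ _ _ _ hp hw))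
    rw [← e6]
    by_contra hne
    exact ns ⟨qb, qc, qc, α, k, k'', k2, hc, hc, k3, e4.trans h3,
      e5.trans (Step2_res hp k2 k4), le_res, k1, k5, e3, hne⟩
  · rintro β j p hp ⟨h1, qa, h2, h3, h4, h5⟩
    exact ⟨h1, qa, h2, h3, Step2_res hp h2 h4, h5⟩

/-- The large nodes off the chain of `z`. -/
def Step2L (z : Set Λ) : Set (Set Λ) := {x | ¬ #(x) < crd (mu z) ∧ ¬ Ini x z}

/-- Those with small first gap. -/
def Step2L₁ (z : Set Λ) : Set (Set Λ) := {x | x ∈ Step2L z ∧ mu x < mu z}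

/-- The first elements of a node. -/
def Step2grp (z x : Set Λ) : Set Λ := {ξ | ξ ∈ x ∧ #↥(x ∩ Iio ξ) < crd (mu z)}

theorem Step2_S_Cm (z : Set Λ) : S1 z ⊆ Cm (Step2L z) := by
  rintro c hc x ζ rfl hx
  rcases hc with hc | ⟨x', ζ', he, h, -⟩
  · exact hx.1 hc.1
  · cases he
    exact hx.2 h

theorem Step2_Cm_S {z : Set Λ} {q : Cond Λ} (hq : Valid q) {c : Co Λ} (hc : c ∈ q.D)
    (h : c ∈ Cm (Step2L z)) : c ∈ S1 z := by
  rcases c with k | ⟨x, ζ⟩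
  · exact Or.inl mem_Lev_inl
  · have h1 := (hq.node hc).2.2
    by_cases h2 : #(x) < crd (mu z)
    · exact Or.inl ⟨h2, h1⟩
    · refine Or.inr ⟨x, ζ, rfl, ?_, h1⟩
      by_contra h3
      exact h x ζ rfl ⟨h2, h3⟩

theorem Step2_grp_ini {z x x' : Set Λ} (hx : ¬ #(x) < crd (mu z)) (h : Ini x x') :
    Step2grp z x = Step2grp z x' := by
  have key : ∀ ξ ∈ x, x ∩ Iio ξ = x' ∩ Iio ξ := fun ξ hξ =>
    Subset.antisymm (inter_subset_inter_left _ h.2.1) fun a ha => ⟨h.2.2 a ha.1 ξ hξ ha.2, ha.2⟩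
  ext ξ
  constructor
  · rintro ⟨h1, h2⟩
    exact ⟨h.2.1 h1, key ξ h1 ▸ h2⟩
  · rintro ⟨h1, h2⟩
    have h3 : ξ ∈ x := by
      by_contra h3
      refine hx (lt_of_le_of_lt (mk_le_mk_of_subset fun a ha => mem_inter (h.2.1 ha) ?_) h2)
      rcases lt_trichotomy a ξ with h4 | rfl | h4
      · exact h4
      · exact absurd ha h3
      · exact absurd (h.2.2 ξ h1 a ha h4) h3
    exact ⟨h3, (key ξ h3).symm ▸ h2⟩

theorem Step2_grp_card {z x : Set Λ} (hx : ¬ #(x) < crd (mu z)) :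
    crd (mu z) ≤ #(Step2grp z x) := by
  by_contra h
  rw [not_le] at h
  obtain ⟨a, ha, ha'⟩ := exists_notMem_of_lt (h.trans_le (not_lt.1 hx))
  obtain ⟨ξ, ⟨h1, h2⟩, h3⟩ := (wellFounded_lt (α := Λ)).has_min {ξ | ξ ∈ x ∧ ξ ∉ Step2grp z x}
    ⟨a, ha, ha'⟩
  refine h2 ⟨h1, lt_of_le_of_lt (mk_le_mk_of_subset fun η hη => ?_) h⟩
  by_contra h4
  exact h3 η ⟨hη.1, h4⟩ hη.2

theorem Step2_H {z : Set Λ} {w : Λ → Λ → Λ → Λ → Cond Λ → Prop} {b : Λ → Λ → Cond Λ → Prop}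
    {p₀ : Cond Λ} (hb : Thr (mu z) w b p₀) (hs : ∀ q, Valid q → q ≤ p₀ → Step2Spl z b q)
    {q₁ q₂ : Cond Λ} (h₁ : Valid q₁) (h₂ : Valid q₂) (l₁ : q₁ ≤ p₀) (l₂ : q₂ ≤ p₀)
    (hA : Agr (Cm (Step2L z)) q₁ q₂) :
    ∃ q₁' q₂', Valid q₁' ∧ Valid q₂' ∧ q₁' ≤ q₁ ∧ q₂' ≤ q₂ ∧ Agr (Cm (Step2L z)) q₁' q₂' ∧
      ∃ β, β < mu z ∧ ∃ j j', j ≠ j' ∧ b β j q₁' ∧ b β j' q₂' := by
  obtain ⟨qa, qb, e, β, ja, jb, ha, hb', he, la, lb, ea, eb, hβ, ba, bb, hne⟩ := hs q₁ h₁ l₁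
  have e1 : e ≤ q₂.res (S1 z) := by
    rw [Cond.le_def, ← (hA.mono (Step2_S_Cm z)).set_res]
    exact ea.trans (res_mono ha h₁ (closed_S1 z) la)
  have e2 := Step2_am he h₂ e1
  obtain ⟨qc, hc, e3, jc, -, bc⟩ := hb.dns β hβ _ ((he.res _).un h₂) (e2.trans l₂)
  obtain ⟨qd, jd, hd, ld, ed, bd', hcd⟩ : ∃ qd jd, Valid qd ∧ qd ≤ q₁ ∧ e ≤ qd.res (S1 z) ∧
      b β jd qd ∧ jd ≠ jc := by
    by_cases h : ja = jc
    · exact ⟨qb, jb, hb', lb, eb, bb, fun h' => hne (h.trans h'.symm)⟩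
    · exact ⟨qa, ja, ha, la, ea, ba, h⟩
  have e4 : qc.res (S1 z) ≤ qd.res (S1 z) :=
    Step2_res hc hd ((e3.trans un_le_left).trans (Step2_res he hd ed))
  have v : Valid ((qc.res (S1 z)).un (qd.res (S1 z)ᶜ)) := (hc.res _).un (hd.res _)
  have e5 : (qc.res (S1 z)).un (qd.res (S1 z)ᶜ) ≤ qd := by
    intro ω hω c hcD
    obtain ⟨k1, k2⟩ := mem_un.1 hω
    by_cases h : c ∈ S1 z
    · exact e4 k1 c ⟨hcD, h⟩
    · exact k2 c ⟨hcD, h⟩ fun h' => h h'.2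
  refine ⟨_, qc, v, hc, e5.trans ld, e3.trans e2, fun c hcm => ?_, β, hβ, jd, jc, hcd,
    hb.opn β jd _ _ v e5 bd', bc⟩
  have k : c ∈ ((qc.res (S1 z)).un (qd.res (S1 z)ᶜ)).D → c ∈ (qc.res (S1 z)).D := by
    rintro (h | h)
    · exact h
    · exact absurd (Step2_Cm_S hd h.1 hcm) h.2
  exact ⟨⟨fun h => (k h).1, fun h => Or.inl ⟨h, Step2_Cm_S hc h hcm⟩⟩, fun h => un_r_left (k h)⟩

theorem Step2_seq {z : Set Λ} (hz : GoodZ z) {Y : Set (Set Λ)} {K : Set Λ}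
    (hY : #(Y) < crd (rho : Λ)) (hK : #(K) < crd (rho : Λ)) (hYL : Y ⊆ Step2grp z '' Step2L₁ z) :
    ∃ (i : Λ → Λ) (ι : Λ → Set Λ → Λ),
      (∀ a < mu z, Adm (Step2L z) (Step2L₁ z) (Step2grp z) Y K (i a) (ι a)) ∧
      ∀ a < mu z, ∀ a' < mu z, a ≠ a' →
        Disjoint (insert (i a) (ι a '' Y)) (insert (i a') (ι a' '' Y)) := by
  have hr : Reg (mu z) := hz.inac.reg
  have hρ : crd (rho : Λ) < crd (mu z) := hr.2 _ hz.rho_lt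
  have h0 : ℵ₀ ≤ crd (mu z) := hr.1.aleph0_le
  have h1 : ∀ v : Λ, #↥({v} : Set Λ) < crd (mu z) := fun v => by
    rw [mk_singleton]
    exact one_lt_aleph0.trans_le h0
  have : Nonempty (Λ × (Set Λ → Λ)) := ⟨(⊥, fun _ => ⊥)⟩
  obtain ⟨f, hP, hR⟩ := exists_seq (X := Λ × (Set Λ → Λ))
    (fun a x => a < mu z → Adm (Step2L z) (Step2L₁ z) (Step2grp z) Y K x.1 x.2)
    (fun _ x a x' => a < mu z → Disjoint (insert x.1 (x.2 '' Y)) (insert x'.1 (x'.2 '' Y))) (by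
      intro ξ f _ _
      by_cases hξ : ξ < mu z
      swap
      · exact ⟨(⊥, fun _ => ⊥), fun h => absurd h hξ, fun _ _ h => absurd h hξ⟩
      obtain ⟨U, hU, u1, u2, u3⟩ : ∃ U : Set Λ, #(U) < crd (mu z) ∧ K ⊆ U ∧ ⊥ ∈ U ∧
          ∀ η < ξ, insert (f η).1 ((f η).2 '' Y) ⊆ U := by
        refine ⟨(K ∪ {⊥}) ∪ ⋃ η ∈ Iio ξ, ({(f η).1} ∪ (f η).2 '' Y),
          card_union_lt h0 (card_union_lt h0 (hK.trans hρ) (h1 _))
            (card_iUnion_lt hr.1 (hr.2 ξ hξ) fun η _ =>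
              card_union_lt h0 (h1 _) (mk_image_le.trans_lt (hY.trans hρ))),
          fun v hv => Or.inl (Or.inl hv), Or.inl (Or.inr rfl), fun η hη v hv => Or.inr ?_⟩
        exact mem_biUnion (mem_Iio.2 hη) hv
      obtain ⟨i, hi, hiU⟩ := exists_notMem_of_lt (t := Iio (mu z)) hU
      have hι : ∀ y : Set Λ, ∃ v, y ∈ Y → v ∈ y ∧ v ∉ U := fun y => by
        by_cases hy : y ∈ Y
        · obtain ⟨x, hx, rfl⟩ := hYL hy
          obtain ⟨v, hv⟩ := exists_notMem_of_lt (hU.trans_le (Step2_grp_card hx.1.1))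
          exact ⟨v, fun _ => hv⟩
        · exact ⟨⊥, fun h => absurd h hy⟩
      choose ι hι using hι
      refine ⟨(i, ι), fun _ => ⟨fun h => hiU (u1 h), fun h => hiU ((show i = ⊥ from h) ▸ u2),
        fun y hy => ⟨fun h => (hι y hy).2 (u1 h),
          fun h => (hι y hy).2 ((show ι y = ⊥ from h) ▸ u2)⟩,
        fun x hx _ => ⟨Or.inr ((hr.2 i hi).trans_le (not_lt.1 hx.1)), fun h => ?_⟩,
        fun x _ hy => (hι _ hy).1.1⟩, fun η hη _ => ?_⟩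
      · exact mem_of_lt_mu (lt_of_lt_of_le hi (not_lt.1 fun h' => h ⟨hx, h'⟩))
      · refine disjoint_left.2 fun v hv hv' => ?_
        rcases hv' with rfl | ⟨y, hy, rfl⟩
        · exact hiU (u3 η hη hv)
        · exact (hι y hy).2 (u3 η hη hv))
  refine ⟨fun a => (f a).1, fun a => (f a).2, fun a ha => hP a ha, fun a ha a' ha' hne => ?_⟩
  rcases lt_or_gt_of_ne hne with h | h
  · exact hR a' a h ha'
  · exact (hR a a' h ha).symm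

theorem Step2_cyl {q : Cond Λ} (hq : Valid q) {ω ω' : Pt Λ} (hω : ω ∈ q.set) {s' : Set (Co Λ)}
    (h1 : s' ⊆ Fn Λ) (h2 : q.D ∩ Fn Λ ⊆ s') (h3 : EqOn ω'.f ω.f (q.D ∩ Fn Λ)) :
    (cyl s' ω').un q ≤ q := by
  refine un_le_of_res (S := Fn Λ) ?_ fun c hc => h1 hc.1
  rw [Cond.le_def, ← hq.set_res_Fn (le_res (S := Fn Λ) hω)]
  intro ω'' h
  exact mem_cyl.2 fun c hc => (mem_cyl.1 h (h2 hc)).trans (h3 hc)

theorem step2 {z : Set Λ} (hz : GoodZ z) {w : Λ → Λ → Λ → Λ → Cond Λ → Prop}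
    {b : Λ → Λ → Cond Λ → Prop} {p₀ : Cond Λ} (hp₀ : Valid p₀) (hD : p₀.D ⊆ S1 z)
    (wo : ∀ β i α j, Opn (w β i α j))
    (ws : ∀ β i α j p, Valid p → w β i α j p → w β i α j (p.res (S1 z)))
    (wd : ∀ β < mu z, ∀ i < rho, ∀ α < β, Dns fun p => ∃ j, w β i α j p)
    (hb : Thr (mu z) w b p₀) :
    ∃ e₀, Valid e₀ ∧ e₀ ≤ p₀ ∧ e₀.D ⊆ S1 z ∧ ∃ b₁, Thr (mu z) w b₁ e₀ ∧
      ∀ β j p, Valid p → b₁ β j p → b₁ β j (p.res (S1 z)) := by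
  by_cases hs : ∀ q, Valid q → q ≤ p₀ → Step2Spl z b q
  swap
  · obtain ⟨q, hq⟩ := not_forall.1 hs
    obtain ⟨h1, hq⟩ := Classical.not_imp.1 hq
    obtain ⟨h2, hq⟩ := Classical.not_imp.1 hq
    exact Step2_ns hp₀ hD wo ws hb h1 h2 hq
  exfalso
  have hr : Reg (mu z) := hz.inac.reg
  have hρ : crd (rho : Λ) < crd (mu z) := hr.2 _ hz.rho_lt
  obtain ⟨G, Y, K, hG, hY, hK, hYL, -, F, hF1, hF2, hF3⟩ := fusion (Step2L z) (Step2L₁ z)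
    (fun _ h => h.1) (Step2grp z)
    (fun x hx x' hx' _ h h' => (h.total h').elim (Step2_grp_ini hx.1.1)
      fun k => (Step2_grp_ini hx'.1.1 k).symm) hp₀
    (fun _ q₁ q₂ => ∃ β, β < mu z ∧ ∃ j j', j ≠ j' ∧ b β j q₁ ∧ b β j' q₂)
    fun _ _ _ h₁ h₂ l₁ l₂ hA => Step2_H hb hs h₁ h₂ l₁ l₂ hA
  have hlev : ∀ g : Cond Λ × Cond Λ, ∃ γ, γ < mu z ∧
      ((∃ β, β < mu z ∧ ∃ j j', j ≠ j' ∧ b β j g.1 ∧ b β j' g.2) →
        ∃ j j', j ≠ j' ∧ b γ j g.1 ∧ b γ j' g.2) := fun g => by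
    by_cases h : ∃ β, β < mu z ∧ ∃ j j', j ≠ j' ∧ b β j g.1 ∧ b β j' g.2
    · obtain ⟨β, h1, h2⟩ := h
      exact ⟨β, h1, fun _ => h2⟩
    · exact ⟨rho, hz.rho_lt, fun h' => absurd h' h⟩
  choose lev hlev1 hlev2 using hlev
  obtain ⟨β, hβ, hβl⟩ := hr.bdd (s := lev '' G) (forall_mem_image.2 fun g _ => hlev1 g)
    (mk_image_le.trans_lt (hG.trans hρ))
  obtain ⟨i, ι, hadm, hdis⟩ := Step2_seq hz hY hK hYL
  have hv : ∀ a < mu z, Valid (F (i a) (ι a)) := fun a ha => (hF1 _ _ (hadm a ha)).1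
  have hl : ∀ a < mu z, F (i a) (ι a) ≤ p₀ := fun a ha => (hF1 _ _ (hadm a ha)).2
  have h0 := hz.rho_lt
  obtain ⟨q, hq, lq, dq, I, hI, hIO⟩ := pres hz.inac hz.rho_lt hz.kp
    (fun j a q => a < mu z ∧ j < rho ∧ ∃ r, Valid r ∧ r ≤ F (i a) (ι a) ∧ q ≤ r.res (S1 z) ∧
      b β j r)
    (fun j a p q _ h ⟨h1, h2, r, h3, h4, h5, h6⟩ => ⟨h1, h2, r, h3, h4, h.trans h5, h6⟩)
    (fun j a q hq ⟨h1, h2, r, h3, h4, h5, h6⟩ => ⟨h1, h2, r, h3, h4, Step2_res hq h3 h5, h6⟩)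
    ((hv rho h0).res (S1 z)) inter_subset_right (by
      rintro j a a' q hq lq ⟨ha, hj, r, h3, h4, h5, h6⟩ ⟨ha', -, r', k3, k4, k5, k6⟩
      by_contra hne
      obtain ⟨ω, hω⟩ := hq.nonempty
      have lq' : q ≤ p₀ := lq.trans (res_le (hv rho h0) hp₀ (closed_S1 z) hD (hl rho h0))
      obtain ⟨s', ω', f1, f2, f3, f4, g, hg, hgood, c1, c2⟩ := hF3 _ _ _ _ (hadm a ha)
        (hadm a' ha') (hdis a ha a' ha' hne) 0 (q.D ∩ Fn Λ) ω hq.domOK.1 inter_subset_right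
        (le_res (S := Fn Λ) (lq' hω))
      obtain ⟨j₁, j₂, hjj, b₁, b₂⟩ := hlev2 g hgood
      have hγ : lev g < β := hβl _ (mem_image_of_mem _ hg)
      have vc := valid_cyl f1 f2 ω'
      obtain ⟨t, ht, lt, k, hw⟩ := wd β hβ j hj _ hγ _ (vc.un hq)
      have t1 : t ≤ q := lt.trans (Step2_cyl hq hω f2 f3 f4)
      have t2 : t.res (S1 z) ≤ cyl s' ω' := res_le ht vc (closed_S1 z)
        (fun c hc => Or.inl (Fn_subset_Lev (f2 hc))) (lt.trans un_le_left)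
      have key : ∀ (a : Λ) (r g' : Cond Λ) (j' : Λ), a < mu z → Valid r → r ≤ F (i a) (ι a) →
          q ≤ r.res (S1 z) → b β j r → (cyl s' ω').set ∩ (F (i a) (ι a)).set ⊆ g'.set →
          b (lev g) j' g' → j' = k := fun a r g' j' ha h3 h4 h5 h6 c b' => by
        have v : Valid ((t.res (S1 z)).un r) := (ht.res _).un h3
        have l1 : (t.res (S1 z)).un r ≤ r := Step2_am ht h3 (t1.trans h5)
        have l2 : (t.res (S1 z)).un r ≤ g' := fun ω'' h =>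
          c ⟨(un_le_left.trans t2) h, (l1.trans h4) h⟩
        exact hb.thr β j (lev g) j' k _ hγ v (l1.trans (h4.trans (hl a ha)))
          (hb.opn β j _ _ v l1 h6) (hb.opn _ j' _ _ v l2 b')
          (wo _ _ _ _ _ _ v un_le_left (ws _ _ _ _ _ ht hw))
      exact hjj ((key a r g.1 j₁ ha h3 h4 h5 h6 c1 b₁).trans
        (key a' r' g.2 j₂ ha' k3 k4 k5 k6 c2 b₂).symm))
  obtain ⟨a, ha, haI⟩ := exists_notMem_of_lt (t := Iio (mu z)) hI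
  have l1 : q ≤ (F (i a) (ι a)).res (S1 z) := by
    rw [Cond.le_def, ((hF2 (i a) (ι a) (i rho) (ι rho)).mono (Step2_S_Cm z)).set_res]
    exact lq
  have l2 : q.un (F (i a) (ι a)) ≤ F (i a) (ι a) := un_le_of_res l1 fun c hc => dq hc.1
  obtain ⟨r, vr, lr, j, hj, br⟩ := hb.dns β hβ _ (hq.un (hv a ha)) (l2.trans (hl a ha))
  exact haI (hIO j hj a r vr (lr.trans un_le_left) ⟨ha, hj, r, vr, lr.trans l2, le_res, br⟩)

end Pool.Agent.P.MP_a18ac8_lc
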