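import Pool.Agent.P.MP_a18ac8_lc.Step1
import Pool.Agent.P.MP_a18ac8_lc.Step2

universe u

namespace Pool.Agent.P.MP_a18ac8_lc

open Cardinal Set Sum Filter

variable {Λ : Type u} [ConditionallyCompleteLinearOrderBot Λ] [WellFoundedLT Λ]

variable [Ctx Λ]

theorem local_red_mono {z : Set Λ} {p p' e : Cond Λ} (h : Red z p e) (h' : p' ≤ p) : Red z p' e :=
  fun q hq hq' => h q hq (hq'.trans h')

theorem local_term {z : Set Λ} (hz : GoodZ z) (hK : KP (kap : Λ))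
    {W : Λ → Λ → Λ → Λ → Cond Λ → Prop} (hW : Sys W) {α₀ : Λ} (hα : α₀ ∈ z) :
    ∃ t, Term univ t ∧ t ≤ mast z α₀ ∧ ∀ β < mu z, ∀ E, VL kap E → ∃ E', VL kap E' ∧ E' ≤ E ∧
      ∃ j < rho, W (mu z) ⊥ β j (E'.un t) := by
  obtain ⟨t, ht, he, h⟩ := easton (x' := (univ : Set Λ)) (by rw [mu_univ]; exact Ctx.kap_inac)
    (by rw [mu_univ]; exact Ctx.rho_lt) (by rw [mu_univ]; exact hK) (s := Iio (mu z))
    (by rw [mu_univ]; exact kap_reg.crd_lt_iff.2 hz.lt)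
    (fun β q => ∃ j < rho, W (mu z) ⊥ β j q)
    (fun β p q hq hp ⟨j, hj, hw⟩ => ⟨j, hj, hW.opn _ _ _ _ p q hq hp hw⟩)
    (fun β q hq ⟨j, hj, hw⟩ => ⟨j, hj, hW.opn _ _ _ _ q _ (hq.res _)
      (res_le hq hq (closed_S1 _) hq.subset_S1_univ le_rfl) hw⟩) (mast_term hz hα).1
  rw [mu_univ] at h
  refine ⟨t, ht, he.le, fun β hβ E hE => ?_⟩
  obtain ⟨E', h1, h2, h3 | h3⟩ := h β hβ E hE
  · exact ⟨E', h1, h2, h3⟩
  · obtain ⟨q, hq, hq', hw⟩ := hW.dns _ hz.lt ⊥ bot_lt_rho β hβ _ (h1.1.un ht.1)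
    exact (h3 q hq hq' hw).elim

theorem local_thread {z : Set Λ} (hz : GoodZ z) (hK : KP (kap : Λ))
    {W : Λ → Λ → Λ → Λ → Cond Λ → Prop} (hW : Sys W) {α₀ : Λ} (hα : α₀ ∈ z)
    (star : ∀ q, Capt z q → ∀ β < mu z, ∀ i < rho, ∀ α < β, ∃ a q', Capt z a ∧ a.D ⊆ Bd α₀ ∧
      Capt z q' ∧ q' ≤ q ∧ q' ≤ a ∧ ∃ j < rho, W β i α j a)
    {q₀ : Cond Λ} (hq₀ : Capt z q₀) (hD : q₀.D ⊆ Bd α₀) :
    ∃ q, Capt z q ∧ q ≤ q₀ ∧ ∃ B : Λ → Λ → Cond Λ → Prop,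
      (∀ β j p p', Capt z p' → p' ≤ p → B β j p → B β j p') ∧
      (∀ β < mu z, ∀ p, Capt z p → p ≤ q → ∃ p', Capt z p' ∧ p' ≤ p ∧ ∃ j < rho, B β j p') ∧
      (∀ β j j' p, Capt z p → B β j p → B β j' p → j = j') ∧
      ∀ β j α k k' p, α < β → Capt z p → B β j p → B α k p → W β j α k' p → k = k' := by
  obtain ⟨t, ht, htm, hA⟩ := local_term hz hK hW hα
  have su : ∀ {E : Cond Λ}, VL kap E → (E.un t).set = E.set ∩ t.set := fun hE =>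
    ht.set_un (by rw [mu_univ]; exact hE)
  have vl : ∀ {p : Cond Λ}, Valid p → VL kap (p.res (Lev (crd (kap : Λ)))) := fun hp =>
    ⟨hp.res _, inter_subset_right⟩
  let b : Λ → Λ → Cond Λ → Prop := fun β j p =>
    β < mu z ∧ ∃ p', VL kap p' ∧ p ≤ p' ∧ W (mu z) ⊥ β j (p'.un t)
  let w : Λ → Λ → Λ → Λ → Cond Λ → Prop := fun β i α j p =>
    ∃ a, Capt z a ∧ a.D ⊆ Bd α₀ ∧ W β i α j a ∧ p.set ⊆ phi z ⁻¹' a.set
  have hB : ∀ β j p, Valid p → b β j p → W (mu z) ⊥ β j ((p.res (Lev (crd (kap : Λ)))).un t) := by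
    rintro β j p hp ⟨-, p', h1, h2, h3⟩
    refine hW.opn _ _ _ _ _ _ ((hp.res _).un ht.1) ?_ h3
    rw [Cond.le_def, su h1, su (vl hp)]
    exact inter_subset_inter_left _ (res_le hp h1.1 (closed_Lev _) h1.2 h2)
  obtain ⟨p₀, hp₀, hp₀D, -, hp₀s⟩ := push hz hq₀
  have wo : ∀ β i α j, Opn (w β i α j) := fun β i α j p q _ hq ⟨a, h1, h2, h3, h4⟩ =>
    ⟨a, h1, h2, h3, Subset.trans hq h4⟩
  have hb : Thr (mu z) w b p₀ := by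
    refine ⟨fun β j p q _ hq ⟨h0, p', h1, h2, h3⟩ => ⟨h0, p', h1, hq.trans h2, h3⟩,
      fun β hβ p hp _ => ?_, fun β j j' p hp _ h h' => ?_, ?_⟩
    · obtain ⟨E, h1, h2, j, hj, h3⟩ := hA β hβ _ (vl hp)
      exact ⟨E.un p, h1.1.un hp, un_le_of_res h2 (inter_subset_left.trans h1.2), j, hj, hβ, E, h1,
        un_le_left, h3⟩
    · exact hW.fn _ _ _ _ _ _ ((hp.res _).un ht.1) (hB _ _ _ hp h) (hB _ _ _ hp h')
    · rintro β j α k k' p hαβ hp - h h' ⟨a, h1, h2, h3, h4⟩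
      have hv := (hp.res (Lev (crd (kap : Λ)))).un ht.1
      refine (hW.coh _ _ _ _ _ _ _ _ hαβ h.1 hv (hB _ _ _ hp h)
        (hW.opn _ _ _ _ a _ hv ?_ h3) (hB _ _ _ hp h')).symm
      obtain ⟨pa, g1, g2, -, g3⟩ := push hz h1
      have g4 := res_le hp g1 (closed_Lev _) (VL_of_S0 hz g1 g2).2 (Cond.le_def.2 (g3 ▸ h4))
      rw [Cond.le_def, su (vl hp)]
      exact (inter_subset_inter (g3 ▸ Cond.le_def.1 g4) htm).trans (mast_le hz h1 h2)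
  obtain ⟨e₀, he₀, he₀p, he₀D, b₁, hb₁, bs⟩ := step2 hz hp₀ (hp₀D.trans (S0_subset_S1 z)) wo
    (fun β i α j p hp ⟨a, h1, h2, h3, h4⟩ => ⟨a, h1, h2, h3, by
      obtain ⟨pa, g1, g2, -, g3⟩ := push hz h1
      exact g3 ▸ Cond.le_def.1 (res_le hp g1 (closed_S1 z) (g2.trans (S0_subset_S1 z))
        (Cond.le_def.2 (g3 ▸ h4)))⟩)
    (fun β hβ i hi α hαβ p hp => by
      obtain ⟨q, -, h1, -, -, -, -, -, h2, -⟩ := red hz hp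
      obtain ⟨a, q', g1, g2, g3, g4, g5, j, -, g6⟩ := star q h1 β hβ i hi α hαβ
      obtain ⟨p', k1, k2, k3⟩ := h2 q' g3 g4
      exact ⟨p', k1, k2, j, a, g1, g2, g6, k3.trans (preimage_mono g5)⟩) hb
  obtain ⟨e₁, he₁, he₁e, hC⟩ := step1 hz he₀ he₀D (fun β hβ i hi α hαβ q hq => by
    obtain ⟨a, q', g1, g2, g3, g4, g5, j, -, g6⟩ := star q hq β hβ i hi α hαβ
    exact ⟨q', g3, g4, j, fun p _ hp => ⟨a, g1, g2, g6, hp.trans (preimage_mono g5)⟩⟩) hb₁ bs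
  obtain ⟨q, -, hq, -, -, -, -, -, hqr, hqm⟩ := red hz he₁
  refine ⟨q, hq, hqm q₀ hq₀ (hp₀s ▸ Cond.le_def.1 (he₁e.trans he₀p)),
    fun β j p => β < mu z ∧ j < rho ∧ ∃ e, Valid e ∧ e ≤ e₁ ∧ Red z p e ∧ b₁ β j e,
    fun β j p p' _ hp ⟨h1, h2, e, h3, h4, h5, h6⟩ => ⟨h1, h2, e, h3, h4, local_red_mono h5 hp, h6⟩,
    fun β hβ p hp hpq => ?_,
    fun β j j' p hp ⟨h1, _, e, h3, h4, h5, h6⟩ ⟨_, _, e', g3, g4, g5, g6⟩ =>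
      hC β h1 j j' e e' p h3 g3 h4 g4 hp h5 g5 h6 g6, ?_⟩
  · obtain ⟨e, h1, h2, h3⟩ := hqr p hp hpq
    obtain ⟨e', g1, g2, j, hj, g3⟩ := hb₁.dns β hβ e h1 (h2.trans he₁e)
    obtain ⟨p', -, k1, -, -, -, -, -, k2, k3⟩ := red hz g1
    exact ⟨p', k1, k3 p hp (Subset.trans g2 h3), j, hj, hβ, hj, e', g1, g2.trans h2, k2, g3⟩
  · rintro β j α k k' p hαβ hp ⟨h1, h2, e, h3, h4, h5, h6⟩ ⟨g1, -, e', g3, g4, g5, g6⟩ hw
    obtain ⟨a, q', a1, a2, a3, a4, a5, j0, -, a6⟩ := star p hp β h1 j h2 α hαβ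
    obtain rfl : j0 = k' := hW.fn _ _ _ _ _ _ a3.1 (hW.opn _ _ _ _ _ _ a3.1 a5 a6)
      (hW.opn _ _ _ _ _ _ a3.1 a4 hw)
    obtain ⟨e2, c1, c2, c3⟩ := h5 q' a3 a4
    obtain ⟨e3, d1, d2, k3, -, d3⟩ := hb₁.dns α g1 e2 c1 ((c2.trans h4).trans he₁e)
    have d4 : e3 ≤ e₁ := (d2.trans c2).trans h4
    have d5 : e3.set ⊆ phi z ⁻¹' q'.set := Subset.trans d2 c3
    obtain ⟨p3, -, f1, -, -, -, -, -, f2, f3⟩ := red hz d1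
    rw [← hb₁.thr β j α k3 j0 e3 hαβ d1 (d4.trans he₁e) (hb₁.opn _ _ _ _ d1 (d2.trans c2) h6) d3
      ⟨a, a1, a2, a6, d5.trans (preimage_mono a5)⟩]
    exact hC α g1 k k3 e' e3 p3 g3 d1 g4 d4 f1
      (local_red_mono g5 ((f3 q' a3 d5).trans a4)) f2 g6 d3

end Pool.Agent.P.MP_a18ac8_lc
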