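import Pool.Agent.P.MP_a18ac8_lc.Meas

universe u

namespace Pool.Agent.P.MP_a18ac8_lc

open Cardinal Set Sum Filter

variable {Λ : Type u} [ConditionallyCompleteLinearOrderBot Λ] [WellFoundedLT Λ]

variable [Ctx Λ] {U : Ultrafilter (Set Λ)}

/-- `O` is dense below `q`. -/
def Frc (O : Cond Λ → Prop) (q : Cond Λ) : Prop :=
  ∀ q', Valid q' → q' ≤ q → ∃ q'', Valid q'' ∧ q'' ≤ q' ∧ O q''

theorem magidor_rep (h : HugeData U) : ∃ rep : Λ → Cond Λ, (∀ i, Valid (rep i)) ∧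
    ∀ q, Valid q → ∃ i, (rep i).set = q.set := by
  obtain ⟨g⟩ := (Cardinal.le_def _ _).1 h.card_sets
  have h1 : ∀ i : Λ, ∃ q : Cond Λ, Valid q ∧ ∀ q' (hq' : Valid q'),
      g ⟨q'.set, q', hq', rfl⟩ = i → q.set = q'.set := fun i => by
    by_cases h2 : ∃ q', ∃ hq' : Valid q', g ⟨q'.set, q', hq', rfl⟩ = i
    · obtain ⟨q, hq, e⟩ := h2
      exact ⟨q, hq, fun q' hq' e' => congrArg Subtype.val (g.injective (e.trans e'.symm))⟩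
    · exact ⟨_, (term_empty univ).1, fun q' hq' e' => (h2 ⟨q', hq', e'⟩).elim⟩
  choose rep h2 h3 using h1
  exact ⟨rep, h2, fun q hq => ⟨_, h3 _ q hq rfl⟩⟩

omit [WellFoundedLT Λ] in
theorem magidor_enum (h : HugeData U) : ∃ En : Λ → Set (Λ × Λ), (∀ ξ, #(En ξ) < #Λ) ∧
    ∀ E : Set (Λ × Λ), #E < #Λ → ∃ ξ, En ξ = E := by
  have h1 : #(Λ × Λ) = #Λ := by
    rw [mk_prod, lift_id, mul_eq_self h.lam.aleph0_lt.le]
  have h2 := mk_subset_mk_lt_cof (α := Λ × Λ) (h1 ▸ h.lam.isStrongPrelimit)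
  rw [h1, h.lam.isRegular.cof_ord] at h2
  obtain ⟨g⟩ := Cardinal.eq.1 h2
  exact ⟨fun ξ => (g.symm ξ).1, fun ξ => (g.symm ξ).2,
    fun E hE => ⟨g ⟨E, hE⟩, by simp⟩⟩

/-- The term `t` decides `O` over the small part of the forcing. -/
def magidor_Dcd (O : Cond Λ → Prop) (t : Cond Λ) : Prop :=
  ∀ p, VL kap p → ∃ p', VL kap p' ∧ p' ≤ p ∧
    (O (p'.un t) ∨ ∀ q, Valid q → q ≤ p'.un t → ¬ O q)

theorem magidor_decide (hK : KP (kap : Λ)) {A : Set (Cond Λ)} {α : Λ}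
    (hA : ∀ a ∈ A, Valid a ∧ a.D ⊆ Bd α) {t₀ : Cond Λ} (ht₀ : Term univ t₀)
    (hD : t₀.D ⊆ Bd α) : ∃ t, Term univ t ∧ t.D ⊆ Bd α ∧ Ext t₀ t ∧
      magidor_Dcd (fun q => ∃ a ∈ A, q ≤ a) t := by
  obtain ⟨t, h1, h2, h3⟩ := easton (x' := (univ : Set Λ)) (mu_univ (Λ := Λ) ▸ Ctx.kap_inac)
    (mu_univ (Λ := Λ) ▸ Ctx.rho_lt) (mu_univ (Λ := Λ) ▸ hK) (s := ({⊥} : Set Λ))
    (by
      rw [mk_singleton, mu_univ]
      exact one_lt_aleph0.trans_le kap_reg.1.aleph0_le)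
    (fun _ q => ∃ a ∈ A, q ≤ a) (fun _ p q _ hq ⟨a, ha, hp⟩ => ⟨a, ha, hq.trans hp⟩)
    (fun _ q hq ⟨a, ha, hp⟩ =>
      ⟨a, ha, res_le hq (hA a ha).1 (closed_S1 _) (hA a ha).1.subset_S1_univ hp⟩) ht₀
  rw [mu_univ] at h3
  refine ⟨t.res (Bd α), h1.res _, inter_subset_right,
    fun c hc => ⟨⟨(h2 c hc).1, hD hc⟩, (h2 c hc).2⟩, fun p hp => ?_⟩
  obtain ⟨E, hE, h4, h5⟩ := h3 ⊥ rfl p hp
  have hv : Valid (E.un t) := hE.1.un h1.1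
  have h6 : E.un (t.res (Bd α)) ≤ (E.un t).res (Bd α) := fun ω hω c hc => by
    obtain ⟨a1, a2⟩ := mem_un.1 hω
    show ω.f c = (E.un t).r c ω
    by_cases a3 : c ∈ E.D
    · rw [un_r_left a3]
      exact a1 c a3
    · rw [un_r_right a3]
      exact a2 c ⟨hc.1.resolve_left a3, hc.2⟩ a3
  refine ⟨E, hE, h4, h5.imp ?_ ?_⟩
  · rintro ⟨a, ha, h7⟩
    exact ⟨a, ha, h6.trans (res_le hv (hA a ha).1 (closed_Bd α) (hA a ha).2 h7)⟩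
  · rintro h7 q hq h8 ⟨a, ha, h9⟩
    have a1 : q.res (Bd α) ≤ E.un (t.res (Bd α)) :=
      res_le hq (hE.1.un (h1.1.res _)) (closed_Bd α)
        (union_subset (hE.2.trans subset_union_left) inter_subset_right) h8
    exact h7 ((q.res (Bd α)).un (E.un t)) ((hq.res _).un hv)
      (un_le_of_res (a1.trans h6) fun c hc => hc.1.2)
      ⟨a, ha, un_le_left.trans (res_le hq (hA a ha).1 (closed_Bd α) (hA a ha).2 h9)⟩

omit [WellFoundedLT Λ] in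
theorem magidor_mast {z : Set Λ} {α β : Λ} {c : Co Λ} (hc : c ∈ (mast z α).D) (hb : c ∈ Bd β) :
    c ∈ (mast z β).D := by
  obtain ⟨σ, h1, h2, -, ζ, h4, rfl⟩ := hc
  rcases hb with hb | ⟨σ', h5, ζ', -, h6⟩
  · exact absurd hb.1 (not_lt.2 (mk_le_mk_of_subset (Iio_subset_Iio h2)))
  · obtain rfl : σ = σ' := Iio_injective (Prod.mk.inj (inr.inj h6)).1
    exact ⟨σ, h1, h2, h5, ζ, h4, rfl⟩

theorem magidor_join {z : Set Λ} (hz : GoodZ z) {ξ α : Λ} (hξ : ξ ∈ z) (hα : α ∈ z)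
    {a : Λ → Λ} {t : Λ → Cond Λ} (ha : ∀ η < ξ, a η ≤ α)
    (h1 : ∀ η ∈ z, η < ξ → Term univ (t η) ∧ (t η).D ⊆ Bd (a η) ∧ Ext (mast z (a η)) (t η))
    (h2 : ∀ η ∈ z, ∀ η' ∈ z, η < ξ → η' < η → Ext (t η') (t η)) :
    ∃ u, Term univ u ∧ u.D ⊆ Bd α ∧ Ext (mast z α) u ∧ ∀ η ∈ z, η < ξ → Ext (t η) u := by
  obtain ⟨u, h3, h4, h5⟩ := term_union (x' := (univ : Set Λ)) (mu_univ (Λ := Λ) ▸ kap_reg)
    (s := z ∩ Iio ξ) (mu_univ (Λ := Λ) ▸ hz.seg ξ hξ) t (fun η hη => (h1 η hη.1 hη.2).1)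
    (fun i hi j hj c hc hc' => by
      rcases lt_trichotomy i j with h | rfl | h
      exacts [(h2 j hj.1 i hi.1 hj.2 h c hc).2.symm, rfl, (h2 i hi.1 j hj.1 hi.2 h c hc').2])
  obtain ⟨h6, h7⟩ := mast_term hz hα
  refine ⟨u.un (mast z α), ⟨h3.1.un h6.1, fun c hc => ?_⟩, union_subset ?_ h7, fun c hc => ?_,
    fun η a1 a2 => (h5 η ⟨a1, a2⟩).trans ext_un⟩
  · by_cases a1 : c ∈ u.D
    · rw [un_r_left a1]
      exact h3.2 c a1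
    · rw [un_r_right a1]
      exact h6.2 c (hc.resolve_left a1)
  · rw [h4]
    exact iUnion₂_subset fun η hη => (h1 η hη.1 hη.2).2.1.trans (Bd_mono (ha η hη.2))
  · refine ⟨Or.inr hc, ?_⟩
    by_cases a1 : c ∈ u.D
    · rw [un_r_left a1]
      rw [h4] at a1
      obtain ⟨η, hη, a2⟩ := mem_iUnion₂.1 a1
      obtain ⟨-, a3, a4⟩ := h1 η hη.1 hη.2
      exact (h5 η hη c a2).2.trans (a4 c (magidor_mast hc (a3 a2))).2
    · exact un_r_right a1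

theorem magidor_seq (h : HugeData U) (A : Λ → Λ → Set (Cond Λ))
    (hA : ∀ ξ, ∃ α, ∀ γ, ∀ a ∈ A ξ γ, Valid a ∧ a.D ⊆ Bd α) :
    ∃ f : Λ → Λ × (Set Λ → Cond Λ), (∀ ξ, ξ ≤ (f ξ).1 ∧ ∀ᶠ z in (U : Filter (Set Λ)),
      (Term univ ((f ξ).2 z) ∧ ((f ξ).2 z).D ⊆ Bd (f ξ).1 ∧ Ext (mast z (f ξ).1) ((f ξ).2 z)) ∧
        magidor_Dcd (fun q => ∃ a ∈ A ξ (mu z), q ≤ a) ((f ξ).2 z)) ∧
      ∀ ξ, ∀ η < ξ, ∀ᶠ z in (U : Filter (Set Λ)), Ext ((f η).2 z) ((f ξ).2 z) := by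
  have : Nonempty (Cond Λ) := ⟨⟨∅, fun _ _ => ⊥⟩⟩
  refine exists_seq (X := Λ × (Set Λ → Cond Λ)) (fun ξ x => ξ ≤ x.1 ∧
    ∀ᶠ z in (U : Filter (Set Λ)), (Term univ (x.2 z) ∧ (x.2 z).D ⊆ Bd x.1 ∧
      Ext (mast z x.1) (x.2 z)) ∧ magidor_Dcd (fun q => ∃ a ∈ A ξ (mu z), q ≤ a) (x.2 z))
    (fun _ x _ y => ∀ᶠ z in (U : Filter (Set Λ)), Ext (x.2 z) (y.2 z)) fun ξ f h1 h2 => ?_
  obtain ⟨α₀, h3⟩ := hA ξ
  obtain ⟨α₁, h4⟩ := bdd_of_lt h.lam.isRegular h.init (s := (fun η => (f η).1) '' Iio ξ)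
    (mk_image_le.trans_lt (h.init ξ))
  set α := max ξ (max α₀ α₁)
  have h5 : ∀ η < ξ, (f η).1 ≤ α := fun η hη =>
    (h4 _ ⟨η, hη, rfl⟩).le.trans ((le_max_right _ _).trans (le_max_right _ _))
  have h6 : ∀ᶠ z in (U : Filter (Set Λ)), ∀ η ∈ z, η < ξ → Term univ ((f η).2 z) ∧
      ((f η).2 z).D ⊆ Bd (f η).1 ∧ Ext (mast z (f η).1) ((f η).2 z) :=
    h.diag fun η => by
      by_cases hη : η < ξ
      · exact (h1 η hη).2.mono fun z hz _ => hz.1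
      · exact Eventually.of_forall fun z a => absurd a hη
  have h7 : ∀ᶠ z in (U : Filter (Set Λ)), ∀ η ∈ z, ∀ η' ∈ z, η < ξ → η' < η →
      Ext ((f η').2 z) ((f η).2 z) :=
    h.diag fun η => h.diag fun η' => by
      by_cases hη : η < ξ ∧ η' < η
      · exact (h2 η hη.1 η' hη.2).mono fun z hz _ _ => hz
      · exact Eventually.of_forall fun z a b => absurd ⟨a, b⟩ hη
  have h8 : ∀ᶠ z in (U : Filter (Set Λ)), ∃ t, ((Term univ t ∧ t.D ⊆ Bd α ∧ Ext (mast z α) t) ∧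
      magidor_Dcd (fun q => ∃ a ∈ A ξ (mu z), q ≤ a) t) ∧
      ∀ η ∈ z, η < ξ → Ext ((f η).2 z) t := by
    filter_upwards [h.good, h.fine ξ, h.fine α, h6, h7] with z a1 a2 a3 a4 a5
    obtain ⟨u, b1, b2, b3, b4⟩ := magidor_join a1 a2 a3 h5 a4 a5
    obtain ⟨t, c1, c2, c3, c4⟩ := magidor_decide h.kp (A := A ξ (mu z)) (α := α)
      (fun a ha => ⟨(h3 _ a ha).1, (h3 _ a ha).2.trans
        (Bd_mono ((le_max_left _ _).trans (le_max_right _ _)))⟩) b1 b2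
    exact ⟨t, ⟨⟨c1, c2, b3.trans c3⟩, c4⟩, fun η d1 d2 => (b4 η d1 d2).trans c3⟩
  obtain ⟨t, ht⟩ := h8.choice
  refine ⟨(α, t), ⟨le_max_left _ _, ht.mono fun z hz => hz.1⟩, fun η hη => ?_⟩
  filter_upwards [ht, h.fine η] with z a1 a2 using a1.2 η a2 hη

theorem magidor (h : HugeData U) : ∃ t : Λ → Set Λ → Cond Λ,
    (∀ ξ, ∀ᶠ z in (U : Filter (Set Λ)), Term univ (t ξ z)) ∧
    (∀ ξ η, η ≤ ξ → ∀ᶠ z in (U : Filter (Set Λ)), Ext (t η z) (t ξ z)) ∧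
    (∀ q, Valid q → ∃ ξ, ∀ᶠ z in (U : Filter (Set Λ)),
      phi z ⁻¹' q.set ∩ (t ξ z).set ⊆ q.set) ∧
    ∀ X : Λ → Cond Λ → Prop, (∀ γ, Opn (X γ)) → ∃ ξ, ∀ᶠ z in (U : Filter (Set Λ)),
      ∀ p, VL kap p → ∃ p', VL kap p' ∧ p' ≤ p ∧ (Frc (X (mu z)) (p'.un (t ξ z)) ∨
        ∀ q, Valid q → q ≤ p'.un (t ξ z) → ¬ X (mu z) q) := by
  obtain ⟨rep, hr, hr'⟩ := magidor_rep h
  obtain ⟨En, hE, hE'⟩ := magidor_enum h
  obtain ⟨f, h1, h2⟩ := magidor_seq h (fun ξ γ => {a | ∃ i, (γ, i) ∈ En ξ ∧ a = rep i}) fun ξ => by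
    obtain ⟨α, hα⟩ := h.exists_Bd (A := (fun x : Λ × Λ => rep x.2) '' En ξ)
      (mk_image_le.trans_lt (hE ξ)) (by
        rintro _ ⟨x, -, rfl⟩
        exact hr _)
    refine ⟨α, ?_⟩
    rintro γ _ ⟨i, hi, rfl⟩
    exact ⟨hr i, hα _ ⟨(γ, i), hi, rfl⟩⟩
  refine ⟨fun ξ => (f ξ).2, fun ξ => (h1 ξ).2.mono fun z hz => hz.1.1, fun ξ η hη => ?_,
    fun q hq => ?_, fun X hX => ?_⟩
  · rcases hη.eq_or_lt with rfl | hη
    · exact Eventually.of_forall fun z => Ext.refl _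
    · exact h2 ξ η hη
  · obtain ⟨α, hα⟩ := h.exists_Bd (A := {q})
      (by
        rw [mk_singleton]
        exact one_lt_aleph0.trans h.lam.aleph0_lt)
      (fun a ha => ha ▸ hq)
    refine ⟨α, ?_⟩
    filter_upwards [h.good, h.capt hq, (h1 α).2] with z a1 a2 a3
    exact (inter_subset_inter_right _ a3.1.2.2.le).trans
      (mast_le a1 a2 ((hα q rfl).trans (Bd_mono (h1 α).1)))
  · choose A a1 a2 a3 using fun γ => h.anti (X γ)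
    have a4 : ∀ a : Cond Λ, ∃ i, Valid a → (rep i).set = a.set := fun a => by
      by_cases ha : Valid a
      · exact (hr' a ha).imp fun _ e _ => e
      · exact ⟨⊥, fun e => absurd e ha⟩
    choose idx hi using a4
    obtain ⟨ξ, hξ⟩ := hE' (⋃ γ ∈ Iio (kap : Λ), (fun a => (γ, idx a)) '' A γ)
      (card_iUnion_lt h.lam.isRegular (h.init kap) fun γ _ => mk_image_le.trans_lt (a1 γ))
    refine ⟨ξ, ?_⟩
    filter_upwards [h.good, (h1 ξ).2] with z b1 b2 p hp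
    obtain ⟨p', c1, c2, c3⟩ := b2.2 p hp
    refine ⟨p', c1, c2, c3.imp ?_ fun c4 q hq c5 c6 => ?_⟩
    · rintro ⟨_, ⟨i, c4, rfl⟩, c5⟩ q hq c6
      rw [hξ] at c4
      obtain ⟨γ, -, a, ha, e⟩ := mem_iUnion₂.1 c4
      obtain ⟨rfl, rfl⟩ := Prod.mk.inj e
      refine ⟨q, hq, le_rfl, hX _ a q hq ?_ (a2 _ a ha).2⟩
      rw [Cond.le_def, ← hi a (a2 _ a ha).1]
      exact c6.trans c5
    · obtain ⟨a, ha, r, d1, d2, d3⟩ := a3 _ q hq c6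
      refine c4 r d1 (d2.trans c5) ⟨_, ⟨idx a, ?_, rfl⟩, ?_⟩
      · rw [hξ]
        exact mem_iUnion₂.2 ⟨mu z, b1.lt, a, ha, rfl⟩
      · rw [Cond.le_def, hi a (a2 _ a ha).1]
        exact d3

end Pool.Agent.P.MP_a18ac8_lc
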