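import Pool.Agent.P.MP_a18ac8_lc.TGood

/-!
The cardinal structure of the generic extension.
-/

universe u

set_option synthInstance.maxSize 65536

namespace Pool.Agent.P.MP_a18ac8_lc

open ZFSet Pool.Agent.Lib.Forcing Pool.Agent.P.MP_af0a18_lc

variable {M N : Set ZFSet.{u}} {P le H ν κ lam J : ZFSet.{u}}

theorem t2_col (E : Ext' M N P le H) {a b : ZFSet.{u}} (ha : a ∈ M) (hb : b ∈ M)
    (c : ColZ M a b P le) : ∀ τ ∈ b, Surj N a τ := by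
  have := E.hM.zfm
  have := E.hN.zfm
  intro τ hτ
  obtain ⟨W, hW, h1, h2, h3⟩ := c τ hτ
  have hτM : τ ∈ M := mem_of_mem hb hτ
  have := InM.mk hW
  have := InM.mk (E.MN hW)
  have := InM.mk E.HN
  have := InM.mk ha
  obtain ⟨p0, hp0⟩ := E.gen.nonempty E.hP E.PM
  obtain ⟨r, hr, -, Hr⟩ := exists_pairSep (M := N)
    (fun i γ => ∃ p ∈ H, pair (pair i γ) p ∈ W) (E.MN ha) (E.MN hτM)
  refine ⟨r, hr, fun i γ h γ' h' => ?_, fun γ hγ => ?_⟩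
  · obtain ⟨hi, hγ, p, hp, h4⟩ := (Hr _ _).1 h
    obtain ⟨-, hγ', p', hp', h5⟩ := (Hr _ _).1 h'
    obtain ⟨s, hs, h6, h7⟩ := E.gen.directed p hp p' hp'
    exact h2 i hi γ hγ γ' hγ' s (E.gen.subset hs) (h1 _ _ h4 _ h6) (h1 _ _ h5 _ h7)
  · have := InM.mk (mem_of_mem hτM hγ)
    obtain ⟨q, hq, i, hi, h4⟩ := IsGeneric.below E.hP E.PM E.leM E.gen
      (fun q => ∃ i ∈ a, pair (pair i γ) q ∈ W) hp0 (fun q hq => h3 γ hγ q (E.hP.left hq))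
    exact ⟨i, hi, (Hr _ _).2 ⟨hi, hγ, q, hq, h4⟩⟩

theorem t2_pres (E : Ext' M N P le H) {a b : ZFSet.{u}} (ha : a ∈ M) (hb : b ∈ M)
    (c : PresZ M a b P le) {f : ZFSet.{u}} (hf : f ∈ N) (hfn : Fn f) :
    ∃ β ∈ b, ∀ i ∈ a, ∀ γ ∈ b, pair i γ ∈ f → γ ∈ β := by
  have := E.hM.zfm
  obtain ⟨S, hS, -, h2, h3⟩ := E.nice f hf _ (prod_mem ha hb)
  have := InM.mk hS
  have := InM.mk ha
  have := InM.mk hb
  have := InM.mk E.leM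
  obtain ⟨p0, hp0⟩ := E.gen.nonempty E.hP E.PM
  obtain ⟨W, hW, -, HW⟩ := exists_pairSep (M := M)
    (fun x r => pair x r ∈ S ∧ ∃ n γ, x = pair n γ ∧
      ∀ s, pair s r ∈ le → ∀ γ' ∈ b, pair (pair n γ') s ∈ S → γ' = γ)
    (prod_mem ha hb) E.PM
  have := InM.mk hW
  have hO : OpenZ le W := fun x p h q hq => by
    obtain ⟨h4, -, h5, n, γ, h6, h7⟩ := (HW _ _).1 h
    exact (HW _ _).2 ⟨h4, E.hP.left hq, h2 _ _ h5 _ hq, n, γ, h6,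
      fun s hs => h7 s (E.hP.trans _ _ _ hs hq)⟩
  have hF : FunZ a b P W := fun i _ γ _ γ' hγ' p hp h4 h5 => by
    obtain ⟨-, -, -, n1, γ1, h8, h9⟩ := (HW _ _).1 h4
    obtain ⟨rfl, rfl⟩ := pair_inj.1 h8
    exact (h9 p (E.hP.refl p hp) γ' hγ' ((HW _ _).1 h5).2.2.1).symm
  obtain ⟨q, hq, β, hβ, h4⟩ := IsGeneric.below E.hP E.PM E.leM E.gen
    (fun q => ∃ β ∈ b, ∀ i ∈ a, ∀ γ ∈ b, ∀ r, pair r q ∈ le → pair (pair i γ) r ∈ W → γ ∈ β)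
    hp0 (fun q hq => c W hW hO hF q (E.hP.left hq))
  refine ⟨β, hβ, fun n hn δ h5 h8 => ?_⟩
  obtain ⟨p, hp, h9⟩ := (h3 _ (pair_mem_prod.2 ⟨hn, h5⟩)).1 h8
  have := InM.mk (mem_of_mem ha hn)
  have := InM.mk (mem_of_mem hb h5)
  obtain ⟨q', hq', h10⟩ := IsGeneric.below E.hP E.PM E.leM E.gen
    (fun q => pair (pair n δ) q ∈ W ∨ ∃ γ' ∈ b, γ' ≠ δ ∧ pair (pair n γ') q ∈ S) hp (by
      intro q hq
      by_cases h10 : ∀ s, pair s q ∈ le → ∀ γ' ∈ b, pair (pair n γ') s ∈ S → γ' = δ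
      · exact ⟨q, E.hP.rfl' hq, Or.inl ((HW _ _).2 ⟨pair_mem_prod.2 ⟨hn, h5⟩, E.hP.left hq,
          h2 _ _ h9 _ hq, n, δ, rfl, h10⟩)⟩
      · push Not at h10
        obtain ⟨s, h10, γ', h11, h12, h13⟩ := h10
        exact ⟨s, h10, Or.inr ⟨γ', h11, h13, h12⟩⟩)
  rcases h10 with h10 | ⟨γ', h10, h11, h12⟩
  · obtain ⟨s, -, h13, h14⟩ := E.gen.directed q hq q' hq'
    exact h4 n hn δ h5 s h13 (hO _ _ h10 _ h14)
  · exact (h11 (hfn n γ' ((h3 _ (pair_mem_prod.2 ⟨hn, h10⟩)).2 ⟨q', hq', h12⟩) δ h8)).elim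

theorem t2_succ (E : Ext' M N P le H) {a b : ZFSet.{u}} (hb : b ∈ M) (ho : b.IsOrdinal)
    (hab : a ∈ b) (c : ColZ M a b P le) (p : PresZ M a b P le) : IsSuccCard N a b := by
  have := E.hM.zfm
  have := E.hN.zfm
  have ha : a ∈ M := mem_of_mem hb hab
  have h1 := t2_col E ha hb c
  refine ⟨⟨ho, ?_⟩, hab, fun μ hμ hc => ?_⟩
  · rintro ⟨μ, hμ, h⟩
    obtain ⟨r, hr, h2, h3⟩ := (h1 μ hμ).trans (E.MN ha) (E.MN hb) h.surj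
    obtain ⟨β, hβ, h4⟩ := t2_pres E ha hb p hr h2
    obtain ⟨i, hi, h5⟩ := h3 β hβ
    exact mem_irrefl β (h4 i hi β hβ h5)
  · obtain ⟨μ', -, ho', h2, h3⟩ :=
      (h1 μ hμ).hasCard (E.MN ha) (ho.mem hab) (mem_of_mem (E.MN hb) hμ)
    by_contra h4
    exact hc.2 ⟨μ', ho'.mem_of_subset_of_mem hc.1 h2
      ((hc.1.not_subset_iff_mem (ho.mem hab)).1 h4), h3⟩

theorem card_part (E : Ext' M N P le H) (hlam : lam ∈ M) (ho : lam.IsOrdinal) (h1 : omega ∈ ν)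
    (h2 : ν ∈ κ) (h3 : κ ∈ lam) (c1 : ColZ M omega ν P le) (c2 : ColZ M ν κ P le)
    (c3 : ColZ M κ lam P le) (p1 : PresZ M omega ν P le) (p2 : PresZ M ν κ P le) :
    IsSuccCard N omega ν ∧ IsSuccCard N ν κ ∧ (∀ τ ∈ κ, Surj N ν τ) ∧
      ∀ τ ∈ lam, Surj N κ τ := by
  have := E.hM.zfm
  have hκ : κ ∈ M := mem_of_mem hlam h3
  have hν : ν ∈ M := mem_of_mem hκ h2
  exact ⟨t2_succ E hν ((ho.mem h3).mem h2) h1 c1 p1, t2_succ E hκ (ho.mem h3) h2 c2 p2,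
    t2_col E hν hκ c2, t2_col E hκ hlam c3⟩

end Pool.Agent.P.MP_a18ac8_lc
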