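import Pool.Agent.P.MP_a18ac8_lc.TGood

/-!
The saturated ideal of the generic extension.
-/

universe u

set_option synthInstance.maxSize 65536

namespace Pool.Agent.P.MP_a18ac8_lc

open ZFSet Pool.Agent.Lib.Forcing Pool.Agent.P.MP_af0a18_lc

variable {M N : Set ZFSet.{u}} {P le H ν κ lam J : ZFSet.{u}}

theorem t4_df_name [ZFm M] [InM M κ] [InM M P] [InM M le] (s : Env.{u} → ZFSet.{u}) [Tm M s] :
    Df M (fun e => NameZ κ P le (s e)) :=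
  Df.subst1 (R := fun a => NameZ κ P le a) (by unfold NameZ OpenZ; infer_instance) s

theorem t4_df_sec [ZFm M] [InM M κ] [InM M P] {Y : ZFSet.{u}} [InM M Y]
    (s t : Env.{u} → ZFSet.{u}) [Tm M s] [Tm M t] : Df M (fun e => SecZ κ P Y (s e) (t e)) :=
  Df.subst2 (R := fun a b => SecZ κ P Y a b) (by unfold SecZ; infer_instance) s t

/-- The set `A` is covered by the value of a name that the filter puts into the ideal. -/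
def t4_Small (κ P le J H A : ZFSet.{u}) : Prop :=
  ∃ p X, pair p X ∈ J ∧ p ∈ H ∧ NameZ κ P le X ∧ ∀ γ ∈ A, ∃ q ∈ H, pair γ q ∈ X

theorem t4_name_prod (hP : IsForcing P le) {a : ZFSet.{u}} (ha : a ⊆ κ) :
    NameZ κ P le (a.prod P) := by
  refine ⟨fun z hz => ?_, fun x p h q hq => ?_⟩
  · obtain ⟨γ, hγ, q, hq, rfl⟩ := mem_prod.1 hz
    exact ⟨γ, ha hγ, q, hq, rfl⟩
  · exact pair_mem_prod.2 ⟨(pair_mem_prod.1 h).1, hP.left hq⟩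

/-- If the value of a name is small then the filter puts the name into the ideal. -/
theorem t4_key (E : Ext' M N P le H) (hκ : κ ∈ M) (hJ : J ∈ M) (ia : IdA M κ P le J)
    {X A : ZFSet.{u}} (hX : X ∈ M) (hn : NameZ κ P le X) (hA : t4_Small κ P le J H A)
    (h : ∀ γ ∈ κ, ∀ q ∈ H, pair γ q ∈ X → γ ∈ A) : ∃ p ∈ H, pair p X ∈ J := by
  have := E.hM.zfm
  obtain ⟨p', X', h1, h2, h3, h4⟩ := hA
  have hX' : X' ∈ M := snd_mem hJ h1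
  have := InM.mk hκ
  have := InM.mk hJ
  have := InM.mk hX
  have := InM.mk hX'
  have := InM.mk E.leM
  obtain ⟨q, hq, h5⟩ := IsGeneric.below E.hP E.PM E.leM E.gen
    (fun p => pair p X ∈ J ∨ ∃ γ ∈ κ, pair γ p ∈ X ∧ ∀ r, pair r p ∈ le → ¬ pair γ r ∈ X') h2 (by
      intro q hq
      by_cases h5 : ∀ γ ∈ κ, ∀ s, pair s q ∈ le → pair γ s ∈ X →
          ∃ r, pair r s ∈ le ∧ pair γ r ∈ X'
      · exact ⟨q, E.hP.rfl' hq, Or.inl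
          (ia.2.2.1 q (E.hP.left hq) X hX X' hX' hn h3 h5 (ia.1 p' X' h1 q hq))⟩
      · push Not at h5
        obtain ⟨γ, hγ, s, h5, h6, h7⟩ := h5
        exact ⟨s, h5, Or.inr ⟨γ, hγ, h6, h7⟩⟩)
  rcases h5 with h5 | ⟨γ, hγ, h5, h6⟩
  · exact ⟨q, hq, h5⟩
  · obtain ⟨s, hs, h7⟩ := h4 γ (h γ hγ q hq h5)
    obtain ⟨r, -, h8, h9⟩ := E.gen.directed q hq s hs
    exact (h6 r h8 (h3.2 γ s h7 r h9)).elim

theorem t4_no (E : Ext' M N P le H) (hκ : κ ∈ M) (hJ : J ∈ M) (ia : IdA M κ P le J)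
    {X A p : ZFSet.{u}} (hX : X ∈ M) (hn : NameZ κ P le X) (hA : t4_Small κ P le J H A)
    (h : ∀ γ ∈ κ, ∀ q ∈ H, pair γ q ∈ X → γ ∈ A) (hp : p ∈ H)
    (hno : ∀ q, pair q p ∈ le → ¬ pair q X ∈ J) : False := by
  obtain ⟨s, hs, h1⟩ := t4_key E hκ hJ ia hX hn hA h
  obtain ⟨r, -, h2, h3⟩ := E.gen.directed p hp s hs
  exact hno r h2 (ia.1 s X h1 r h3)

theorem t4_avoid (ia : IdA M κ P le J) {X p : ZFSet.{u}} (hp : p ∈ P) (hX : X ∈ M)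
    (hn : NameZ κ P le X) (h : ¬ pair p X ∈ J) :
    ∃ q, pair q p ∈ le ∧ ∀ r, pair r q ∈ le → ¬ pair r X ∈ J := by
  by_contra h1
  push Not at h1
  exact h (ia.2.1 p hp X hX hn h1)

/-- A name for a family of subsets of `κ` indexed by a set of the ground model. -/
theorem t4_family (E : Ext' M N P le H) (hκ : κ ∈ M) {a f : ZFSet.{u}} (ha : a ∈ M) (hf : f ∈ N)
    (hfn : Fn f) : ∃ Y ∈ M, OpenZ le Y ∧ ∀ i ∈ a, ∀ A, pair i A ∈ f → ∀ γ ∈ κ,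
      (γ ∈ A ↔ ∃ q ∈ H, pair (pair i γ) q ∈ Y) := by
  have := E.hM.zfm
  have := E.hN.zfm
  have := InM.mk hf
  obtain ⟨Z, hZ, -, HZ⟩ := exists_pairSep (M := N)
    (fun i γ => ∃ A, pair i A ∈ f ∧ γ ∈ A) (E.MN ha) (E.MN hκ)
  obtain ⟨Y, hY, -, h1, h2⟩ := E.nice Z hZ _ (prod_mem ha hκ)
  refine ⟨Y, hY, h1, fun i hi A hA γ hγ => ?_⟩
  rw [← h2 _ (pair_mem_prod.2 ⟨hi, hγ⟩), HZ]
  constructor
  · exact fun h => ⟨hi, hγ, A, hA, h⟩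
  · rintro ⟨-, -, B, hB, h⟩
    rwa [hfn i A hA B hB]

theorem t4_compl (E : Ext' M N P le H) (hκ : κ ∈ M) (hJ : J ∈ M) (ia : IdA M κ P le J)
    (ib : IdB M κ P le J) {F μ : ZFSet.{u}} (hμ : μ ∈ κ) (hc : HasCard N F μ)
    (hF : ∀ A ∈ F, A ⊆ κ ∧ t4_Small κ P le J H A) : t4_Small κ P le J H (⋃₀ F) := by
  have := E.hM.zfm
  obtain ⟨f, hf, h1, h2⟩ := hc
  have hμM : μ ∈ M := mem_of_mem hκ hμ
  obtain ⟨Y, hY, hYo, HY⟩ := t4_family E hκ hμM hf (fn_of_isFunc h1)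
  obtain ⟨p0, hp0⟩ := E.gen.nonempty E.hP E.PM
  have := InM.mk hκ
  have := InM.mk hJ
  have := InM.mk hY
  have := InM.mk hμM
  have := InM.mk E.leM
  have := InM.mk E.PM
  have i1 := fun (s : Env.{u} → ZFSet.{u}) [Tm M s] =>
    t4_df_name (M := M) (κ := κ) (P := P) (le := le) s
  have i2 := fun (s t : Env.{u} → ZFSet.{u}) [Tm M s] [Tm M t] =>
    t4_df_sec (M := M) (κ := κ) (P := P) (Y := Y) s t
  obtain ⟨p, hp, h3⟩ := IsGeneric.below E.hP E.PM E.leM E.gen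
    (fun p => (∀ i ∈ μ, ∀ X ∈ M, NameZ κ P le X → SecZ κ P Y i X → pair p X ∈ J) ∨
      ∃ i ∈ μ, ∃ X ∈ M, NameZ κ P le X ∧ SecZ κ P Y i X ∧
        ∀ q, pair q p ∈ le → ¬ pair q X ∈ J) hp0 (by
      intro q hq
      by_cases h3 : ∀ i ∈ μ, ∀ X ∈ M, NameZ κ P le X → SecZ κ P Y i X → pair q X ∈ J
      · exact ⟨q, E.hP.rfl' hq, Or.inl h3⟩
      · push Not at h3
        obtain ⟨i, hi, X, hX, h4, h5, h6⟩ := h3
        obtain ⟨s, h7, h8⟩ := t4_avoid ia (E.hP.left hq) hX h4 h6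
        exact ⟨s, h7, Or.inr ⟨i, hi, X, hX, h4, h5, h8⟩⟩)
  rcases h3 with h3 | ⟨i, hi, X, hX, h4, h5, h6⟩
  · obtain ⟨Z, hZ, hZs, HZ⟩ := exists_pairSep (M := M)
      (fun γ q => ∃ i ∈ μ, pair (pair i γ) q ∈ Y) hκ E.PM
    have hn : NameZ κ P le Z := by
      refine ⟨fun z hz => mem_prod.1 (hZs hz), fun x q h r hr => ?_⟩
      obtain ⟨h4, -, i, hi, h5⟩ := (HZ _ _).1 h
      exact (HZ _ _).2 ⟨h4, E.hP.left hr, i, hi, hYo _ _ h5 r hr⟩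
    refine ⟨p, Z, ib p (E.gen.subset hp) μ hμ Y hY hYo Z hZ hn
      (fun γ _ q _ h => ((HZ _ _).1 h).2.2) h3, hp, hn, fun γ hγ => ?_⟩
    obtain ⟨A, hA, h4⟩ := mem_sUnion.1 hγ
    obtain ⟨i, hi, -⟩ := h2 A hA
    have h5 : i ∈ μ := (pair_mem_prod.1 (h1.1 hi)).1
    have h6 : γ ∈ κ := (hF A hA).1 h4
    obtain ⟨q, hq, h7⟩ := (HY i h5 A hi γ h6).1 h4
    exact ⟨q, hq, (HZ _ _).2 ⟨h6, E.gen.subset hq, i, h5, h7⟩⟩
  · obtain ⟨A, hA, -⟩ := h1.2 i hi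
    exact (t4_no E hκ hJ ia hX h4 (hF A (pair_mem_prod.1 (h1.1 hA)).2).2
      (fun γ hγ q hq h => (HY i hi A hA γ hγ).2
        ⟨q, hq, (h5 γ hγ q (E.gen.subset hq)).1 h⟩) hp h6).elim

theorem t4_sat (E : Ext' M N P le H) (hκ : κ ∈ M) (hlam : lam ∈ M) (hJ : J ∈ M)
    (ia : IdA M κ P le J) (ic : IdC M κ lam P le J) {𝒜 μ : ZFSet.{u}} (hμ : lam ⊆ μ)
    (hc : HasCard N 𝒜 μ) (hA : ∀ A ∈ 𝒜, A ⊆ κ ∧ ¬ t4_Small κ P le J H A)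
    (hB : ∀ A ∈ 𝒜, ∀ B ∈ 𝒜, A ≠ B → t4_Small κ P le J H (A ∩ B)) : False := by
  have := E.hM.zfm
  obtain ⟨f, hf, h1, h2⟩ := hc
  obtain ⟨Y, hY, hYo, HY⟩ := t4_family E hκ hlam hf (fn_of_isFunc h1)
  obtain ⟨p0, hp0⟩ := E.gen.nonempty E.hP E.PM
  have := InM.mk hκ
  have := InM.mk hJ
  have := InM.mk hY
  have := InM.mk hlam
  have := InM.mk E.leM
  have := InM.mk E.PM
  have i1 := fun (s : Env.{u} → ZFSet.{u}) [Tm M s] =>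
    t4_df_name (M := M) (κ := κ) (P := P) (le := le) s
  have i2 := fun (s t : Env.{u} → ZFSet.{u}) [Tm M s] [Tm M t] =>
    t4_df_sec (M := M) (κ := κ) (P := P) (Y := Y) s t
  obtain ⟨p, hp, h3⟩ := IsGeneric.below E.hP E.PM E.leM E.gen
    (fun p => (∃ ξ ∈ lam, ∃ X ∈ M, NameZ κ P le X ∧ SecZ κ P Y ξ X ∧ pair p X ∈ J) ∨
      ∃ ξ ∈ lam, ∃ η ∈ lam, ξ ≠ η ∧ ∃ X ∈ M, NameZ κ P le X ∧
        (∀ γ ∈ κ, ∀ q ∈ P, pair γ q ∈ X → pair (pair ξ γ) q ∈ Y ∧ pair (pair η γ) q ∈ Y) ∧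
        ∀ q, pair q p ∈ le → ¬ pair q X ∈ J) hp0 (by
      intro q hq
      by_cases h3 : ∀ ξ ∈ lam, ∀ η ∈ lam, ξ ≠ η → ∀ X ∈ M, NameZ κ P le X →
          (∀ γ ∈ κ, ∀ q ∈ P, pair γ q ∈ X → pair (pair ξ γ) q ∈ Y ∧ pair (pair η γ) q ∈ Y) →
          pair q X ∈ J
      · exact ⟨q, E.hP.rfl' hq, Or.inl (ic q (E.hP.left hq) Y hY hYo h3)⟩
      · push Not at h3
        obtain ⟨ξ, hξ, η, hη, hne, X, hX, h4, h5, h6⟩ := h3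
        obtain ⟨s, h7, h8⟩ := t4_avoid ia (E.hP.left hq) hX h4 h6
        exact ⟨s, h7, Or.inr ⟨ξ, hξ, η, hη, hne, X, hX, h4, h5, h8⟩⟩)
  rcases h3 with ⟨ξ, hξ, X, hX, h4, h5, h6⟩ | ⟨ξ, hξ, η, hη, hne, X, hX, h4, h5, h6⟩
  · obtain ⟨A, h7, -⟩ := h1.2 ξ (hμ hξ)
    obtain ⟨h8, h9⟩ := hA A (pair_mem_prod.1 (h1.1 h7)).2
    refine h9 ⟨p, X, h6, hp, h4, fun γ hγ => ?_⟩
    obtain ⟨q, hq, h10⟩ := (HY ξ hξ A h7 γ (h8 hγ)).1 hγ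
    exact ⟨q, hq, (h5 γ (h8 hγ) q (E.gen.subset hq)).2 h10⟩
  · obtain ⟨A, h7, -⟩ := h1.2 ξ (hμ hξ)
    obtain ⟨B, h8, -⟩ := h1.2 η (hμ hη)
    have h9 := (pair_mem_prod.1 (h1.1 h7)).2
    have h10 := (pair_mem_prod.1 (h1.1 h8)).2
    have h11 : A ≠ B := by
      rintro rfl
      exact hne ((h2 A h9).unique h7 h8)
    refine t4_no E hκ hJ ia hX h4 (hB A h9 B h10 h11) (fun γ hγ q hq h => ?_) hp h6
    obtain ⟨h12, h13⟩ := h5 γ hγ q (E.gen.subset hq) h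
    exact mem_inter.2 ⟨(HY ξ hξ A h7 γ hγ).2 ⟨q, hq, h12⟩, (HY η hη B h8 γ hγ).2 ⟨q, hq, h13⟩⟩

theorem ideal_part (E : Ext' M N P le H) (hlam : lam ∈ M) (ho : lam.IsOrdinal) (h3 : κ ∈ lam)
    (hJ : J ∈ M) (hs : ∀ τ ∈ lam, Surj N κ τ) (ia : IdA M κ P le J) (ib : IdB M κ P le J)
    (ic : IdC M κ lam P le J) : ∃ I ∈ N, IsSaturatedIdeal N κ I := by
  have := E.hM.zfm
  have := E.hN.zfm
  have hκ : κ ∈ M := mem_of_mem hlam h3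
  have hκN : κ ∈ N := E.MN hκ
  have hκo : κ.IsOrdinal := ho.mem h3
  obtain ⟨p0, hp0⟩ := E.gen.nonempty E.hP E.PM
  obtain ⟨y, hy, Hy⟩ := E.hN.powerSet κ hκN
  have := InM.mk hκN
  have := InM.mk (E.MN hJ)
  have := InM.mk (E.MN E.leM)
  have := InM.mk (E.MN E.PM)
  have := InM.mk E.HN
  have i1 := fun (s : Env.{u} → ZFSet.{u}) [Tm N s] =>
    t4_df_name (M := N) (κ := κ) (P := P) (le := le) s
  have i2 : Df N (fun e => e 0 ⊆ κ ∧ t4_Small κ P le J H (e 0)) := by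
    unfold t4_Small
    infer_instance
  have hI := sep_mem (fun A => A ⊆ κ ∧ t4_Small κ P le J H A) hy
  set I := y.sep (fun A => A ⊆ κ ∧ t4_Small κ P le J H A)
  have out : ∀ A ∈ I, A ⊆ κ ∧ t4_Small κ P le J H A := fun A hA => (mem_sep.1 hA).2
  have inn : ∀ A ∈ N, A ⊆ κ → t4_Small κ P le J H A → A ∈ I := fun A hA h1 h2 =>
    mem_sep.2 ⟨Hy A hA h1, h1, h2⟩
  refine ⟨I, hI, fun A hA => (out A hA).1, fun h => ?_, fun A hA B hB h => ?_, fun γ hγ => ?_,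
    fun F hF h1 h2 => ?_, fun 𝒜 h𝒜 h1 h2 => ?_⟩
  · have hn : NameZ κ P le (κ.prod P) := t4_name_prod E.hP subset_rfl
    obtain ⟨p, hp, h1⟩ := t4_key E hκ hJ ia (prod_mem hκ E.PM) hn (out κ h).2
      (fun γ hγ _ _ _ => hγ)
    exact ia.2.2.2.2 p (E.gen.subset hp) _ (prod_mem hκ E.PM) hn
      (fun γ hγ q hq => pair_mem_prod.2 ⟨hγ, hq⟩) h1
  · obtain ⟨h1, p, X, h2, h4, h5, h6⟩ := out A hA
    exact inn B hB (fun z hz => h1 (h hz)) ⟨p, X, h2, h4, h5, fun γ hγ => h6 γ (h hγ)⟩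
  · have h1 : ({γ} : ZFSet.{u}) ⊆ κ := fun z hz => mem_singleton.1 hz ▸ hγ
    have h2 : ({γ} : ZFSet.{u}) ∈ M := singleton_mem (mem_of_mem hκ hγ)
    have hn := t4_name_prod (κ := κ) E.hP h1
    refine inn _ (E.MN h2) h1 ⟨p0, _, ia.2.2.2.1 p0 (E.gen.subset hp0) γ hγ _ (prod_mem h2 E.PM) hn
      (fun γ' _ q _ h => mem_singleton.1 (pair_mem_prod.1 h).1), hp0, hn, fun z hz => ?_⟩
    exact ⟨p0, hp0, pair_mem_prod.2 ⟨hz, E.gen.subset hp0⟩⟩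
  · obtain ⟨μ, hμ, h2⟩ := h2
    refine inn _ (sUnion_mem hF) (fun z hz => ?_)
      (t4_compl E hκ hJ ia ib hμ h2 fun A hA => out A (h1 hA))
    obtain ⟨A, hA, h4⟩ := mem_sUnion.1 hz
    exact (out A (h1 hA)).1 h4
  · obtain ⟨α, hα, hαo, h4⟩ := E.enum 𝒜 h𝒜
    obtain ⟨μ, hμ, hμo, -, h5⟩ := h4.hasCard hα hαo h𝒜
    by_cases h6 : μ ∈ lam
    · obtain ⟨μ', -, h7, h8, h9⟩ := ((hs μ h6).trans hκN h𝒜 h5.surj).hasCard hκN hκo h𝒜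
      rcases (h7.subset_iff_eq_or_mem hκo).1 h8 with rfl | h10
      · exact Or.inr h9
      · exact Or.inl ⟨μ', h10, h9⟩
    · exact (t4_sat E hκ hlam hJ ia ic ((hμo.notMem_iff_subset ho).1 h6) h5
        (fun A hA => ⟨(h1 A hA).1, fun h => (h1 A hA).2
          (inn A (mem_of_mem h𝒜 hA) (h1 A hA).1 h)⟩)
        (fun A hA B hB h => (out _ (h2 A hA B hB h)).2)).elim

end Pool.Agent.P.MP_a18ac8_lc
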