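import Pool.Agent.P.MP_a18ac8_lc.TGood

/-!
The tree property in the extension.
-/

universe u

set_option synthInstance.maxSize 65536

namespace Pool.Agent.P.MP_a18ac8_lc

open ZFSet Pool.Agent.Lib.Forcing Pool.Agent.P.MP_af0a18_lc

variable {M N : Set ZFSet.{u}} {P le H ν κ lam J : ZFSet.{u}}

/-- Heights are unique. -/
theorem t3_ht_unique {lt t α β : ZFSet.{u}} (hα : α.IsOrdinal) (hβ : β.IsOrdinal)
    (h : HeightIs N lt t α) (h' : HeightIs N lt t β) : α = β := by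
  obtain ⟨f, -, f1, f2, f3, f4⟩ := h
  obtain ⟨g, -, g1, g2, g3, g4⟩ := h'
  have key : ∀ a : ZFSet.{u}, ∀ s, pair a s ∈ f → ∀ b, pair b s ∈ g → a = b := by
    intro a
    induction a using ZFSet.inductionOn with
    | h a ih =>
      intro s hs b hb
      ext x
      constructor
      · intro hx
        obtain ⟨s', h1⟩ := f1 x (hα.mem_trans hx (f2 a s hs).1)
        obtain ⟨b', h2⟩ := g3 s' (f2 x s' h1).2
        rw [ih x hx s' h1 b' h2]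
        exact (g4 b' s' h2 b s hb).2.2 ((f4 x s' h1 a s hs).2.1 hx)
      · intro hx
        obtain ⟨s', h1⟩ := g1 x (hβ.mem_trans hx (g2 b s hb).1)
        obtain ⟨a', h2⟩ := f3 s' (g2 x s' h1).2
        have h3 : a' ∈ a := (f4 a' s' h2 a s hs).2.2 ((g4 x s' h1 b s hb).2.1 hx)
        rw [← ih a' h3 s' h2 x h1]
        exact h3
  ext x
  constructor
  · intro hx
    obtain ⟨s, h1⟩ := f1 x hx
    obtain ⟨b, h2⟩ := g3 s (f2 x s h1).2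
    rw [key x s h1 b h2]
    exact (g2 b s h2).1
  · intro hx
    obtain ⟨s, h1⟩ := g1 x hx
    obtain ⟨a, h2⟩ := f3 s (g2 x s h1).2
    rw [← key a s h2 x h1]
    exact (f2 a s h2).1

/-- Every node has exactly one predecessor of each smaller height. -/
theorem t3_pred [ZFm N] {lt t β : ZFSet.{u}} (hβ : β.IsOrdinal)
    (htr : ∀ r s t, pair r s ∈ lt → pair s t ∈ lt → pair r t ∈ lt) (h : HeightIs N lt t β) :
    (∀ α ∈ β, ∃ s, pair s t ∈ lt ∧ HeightIs N lt s α) ∧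
    ∀ α : ZFSet.{u}, α.IsOrdinal → ∀ s s', pair s t ∈ lt → pair s' t ∈ lt → HeightIs N lt s α →
      HeightIs N lt s' α → s = s' := by
  obtain ⟨f, hf, f1, f2, f3, f4⟩ := h
  have key : ∀ a s, pair a s ∈ f → HeightIs N lt s a := by
    intro a s hs
    have := InM.mk (fst_mem hf hs)
    have h1 : ∀ x y, pair x y ∈ f.sep (fun z => ∃ x y, z = pair x y ∧ x ∈ a) ↔
        pair x y ∈ f ∧ x ∈ a := by
      intro x y
      rw [mem_sep]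
      refine and_congr_right fun _ => ⟨?_, fun h => ⟨x, y, rfl, h⟩⟩
      rintro ⟨x', y', h, h'⟩
      rw [(pair_inj.1 h).1]
      exact h'
    refine ⟨_, sep_mem (fun z => ∃ x y, z = pair x y ∧ x ∈ a) hf, fun x hx => ?_,
      fun x y h => ?_, fun y h => ?_, fun x y h x' y' h' => f4 x y ((h1 _ _).1 h).1 x' y'
        ((h1 _ _).1 h').1⟩
    · obtain ⟨y, hy⟩ := f1 x (hβ.mem_trans hx (f2 a s hs).1)
      exact ⟨y, (h1 _ _).2 ⟨hy, hx⟩⟩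
    · obtain ⟨h2, h3⟩ := (h1 _ _).1 h
      exact ⟨h3, (f4 x y h2 a s hs).2.1 h3⟩
    · obtain ⟨x, hx⟩ := f3 y (htr _ _ _ h (f2 a s hs).2)
      exact ⟨x, (h1 _ _).2 ⟨hx, (f4 x y hx a s hs).2.2 h⟩⟩
  refine ⟨fun α hα => ?_, fun α hα s s' hs hs' h1 h2 => ?_⟩
  · obtain ⟨s, hs⟩ := f1 α hα
    exact ⟨s, (f2 α s hs).2, key α s hs⟩
  · obtain ⟨a, ha⟩ := f3 s hs
    obtain ⟨a', ha'⟩ := f3 s' hs'
    have e1 := t3_ht_unique (hβ.mem (f2 a s ha).1) hα (key a s ha) h1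
    have e2 := t3_ht_unique (hβ.mem (f2 a' s' ha').1) hα (key a' s' ha') h2
    exact (f4 a s ha a' s' ha').1.1 (e1.trans e2.symm)

/-- Uniformisation in `N`. -/
theorem t3_unif [ZFm N] (enum : ∀ x ∈ N, ∃ α ∈ N, α.IsOrdinal ∧ Surj N α x) {R a b : ZFSet.{u}}
    (hR : R ∈ N) (ha : a ∈ N) (hb : b ∈ N) (h : ∀ x ∈ a, ∃ y ∈ b, pair x y ∈ R) :
    ∃ f ∈ N, Fn f ∧ (∀ x ∈ a, ∃ y, pair x y ∈ f) ∧ ∀ x y, pair x y ∈ f → pair x y ∈ R := by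
  obtain ⟨θ, hθ, ho, s, hs, h1, h2⟩ := enum b hb
  have := InM.mk hs
  have := InM.mk hθ
  have := InM.mk hR
  have := InM.mk hb
  obtain ⟨f, hf, -, Hf⟩ := exists_pairSep (M := N)
    (fun x y => pair x y ∈ R ∧ ∃ ξ ∈ θ, pair ξ y ∈ s ∧
      ∀ ξ' ∈ ξ, ∀ y', pair ξ' y' ∈ s → y' ∈ b → ¬ pair x y' ∈ R) ha hb
  refine ⟨f, hf, fun x y h3 y' h4 => ?_, fun x hx => ?_, fun x y h3 => ((Hf _ _).1 h3).2.2.1⟩
  · obtain ⟨-, hy, h5, ξ, h6, h7, h8⟩ := (Hf _ _).1 h3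
    obtain ⟨-, hy', h5', ξ', h6', h7', h8'⟩ := (Hf _ _).1 h4
    rcases (ho.mem h6).mem_trichotomous (ho.mem h6') with h' | rfl | h'
    exacts [(h8' ξ h' y h7 hy h5).elim, h1 ξ y h7 y' h7', (h8 ξ' h' y' h7' hy' h5').elim]
  · obtain ⟨y0, hy0, h3⟩ := h x hx
    obtain ⟨ξ0, h4, h5⟩ := h2 y0 hy0
    obtain ⟨ξ, ⟨h6, y, h7, h8, h9⟩, h10⟩ := mem_wf.has_min
      {ξ | ξ ∈ θ ∧ ∃ y, pair ξ y ∈ s ∧ y ∈ b ∧ pair x y ∈ R} ⟨ξ0, h4, y0, h5, hy0, h3⟩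
    exact ⟨y, (Hf _ _).2 ⟨hx, h8, h9, ξ, h6, h7, fun ξ' h y' h' h'' h''' =>
      h10 ξ' ⟨ho.mem_trans h h6, y', h', h'', h'''⟩ h⟩⟩

/-- An enumeration of the levels by `κ × ν`. -/
theorem t3_enum (hN : IsZFModel N) (enum : ∀ x ∈ N, ∃ α ∈ N, α.IsOrdinal ∧ Surj N α x)
    (hκ : κ ∈ N) (hν : ν ∈ N) (hs : ∀ τ ∈ κ, Surj N ν τ) {T lt : ZFSet.{u}} (hT : T ∈ N)
    (hlt : lt ∈ N) (h : IsTree N κ T lt) :
    ∃ e ∈ N, Fn e ∧ (∀ α ∈ κ, ∀ j ∈ ν, ∃ t, pair (pair α j) t ∈ e) ∧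
      (∀ α j t, pair (pair α j) t ∈ e → t ∈ T ∧ HeightIs N lt t α) ∧
      ∀ α ∈ κ, ∀ t ∈ T, HeightIs N lt t α → ∃ j ∈ ν, pair (pair α j) t ∈ e := by
  have := hN.zfm
  have := InM.mk hlt
  have := InM.mk hT
  have := InM.mk hν
  have : Df N (fun e => HeightIs N lt (e 1) (e 0)) :=
    (inferInstance : Df N (fun e => ∃ f ∈ N, (∀ a ∈ e 0, ∃ s, pair a s ∈ f ∧ s = s) ∧
      (∀ a s, pair a s ∈ f → a ∈ e 0 ∧ pair s (e 1) ∈ lt) ∧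
      (∀ s, pair s (e 1) ∈ lt → ∃ a, pair a s ∈ f ∧ a = a) ∧
      ∀ a s, pair a s ∈ f → ∀ a' s', pair a' s' ∈ f →
        (a = a' ↔ s = s') ∧ (a ∈ a' ↔ pair s s' ∈ lt))).congr fun e _ => by
      simp only [HeightIs, and_true]
  obtain ⟨Ht, hHt, -, HHt⟩ := exists_pairSep (M := N) (fun t α => HeightIs N lt t α) hT hκ
  have := InM.mk hHt
  obtain ⟨y, hy, Hy⟩ := hN.powerSet _ (prod_mem hν hT)
  obtain ⟨R, hR, -, HR⟩ := exists_pairSep (M := N)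
    (fun α r => (∀ j t, pair j t ∈ r → pair t α ∈ Ht ∧ ∀ t', pair j t' ∈ r → t = t') ∧
      (∀ j ∈ ν, ∃ t, pair j t ∈ r ∧ t = t) ∧
      ∀ t, pair t α ∈ Ht → ∃ j ∈ ν, pair j t ∈ r) hκ hy
  obtain ⟨f, hf, f1, f2, f3⟩ := t3_unif enum hR hκ hy (by
    intro α hα
    have := InM.mk (mem_of_mem hκ hα)
    have hL := sep_mem (fun t => pair t α ∈ Ht) hT
    obtain ⟨μ, hμ, h1⟩ := h.small α hα _ hL fun t ht =>
      ⟨(mem_sep.1 ht).1, ((HHt _ _).1 (mem_sep.1 ht).2).2.2⟩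
    obtain ⟨r, hr, h2, h3⟩ := (hs μ hμ).trans hν hL h1.surj
    obtain ⟨t0, ht0, h4⟩ := h.level α hα
    have := InM.mk hr
    have := InM.mk (mem_of_mem hT ht0)
    obtain ⟨r', hr', h5, Hr'⟩ := exists_pairSep (M := N)
      (fun j t => pair t α ∈ Ht ∧ (pair j t ∈ r ∨
        (t = t0 ∧ ∀ t', pair j t' ∈ r → ¬ pair t' α ∈ Ht))) hν hT
    refine ⟨r', Hy r' hr' h5, (HR _ _).2 ⟨hα, Hy r' hr' h5, fun j t h6 => ?_, fun j hj => ?_,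
      fun t h6 => ?_⟩⟩
    · obtain ⟨-, -, h7, h8⟩ := (Hr' _ _).1 h6
      refine ⟨h7, fun t' h9 => ?_⟩
      obtain ⟨-, -, h10, h11⟩ := (Hr' _ _).1 h9
      rcases h8 with h8 | ⟨rfl, h8⟩ <;> rcases h11 with h11 | ⟨rfl, h11⟩
      exacts [h2 j t h8 t' h11, (h11 t h8 h7).elim, (h8 t' h11 h10).elim, rfl]
    · by_cases h6 : ∀ t', pair j t' ∈ r → ¬ pair t' α ∈ Ht
      · exact ⟨t0, (Hr' _ _).2 ⟨hj, ht0, (HHt _ _).2 ⟨ht0, hα, h4⟩, Or.inr ⟨rfl, h6⟩⟩, rfl⟩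
      · push Not at h6
        obtain ⟨t, h6, h7⟩ := h6
        exact ⟨t, (Hr' _ _).2 ⟨hj, ((HHt _ _).1 h7).1, h7, Or.inl h6⟩, rfl⟩
    · obtain ⟨j, hj, h7⟩ := h3 t (mem_sep.2 ⟨((HHt _ _).1 h6).1, h6⟩)
      exact ⟨j, hj, (Hr' _ _).2 ⟨hj, ((HHt _ _).1 h6).1, h6, Or.inl h7⟩⟩)
  have := InM.mk hf
  obtain ⟨e, he, he', He⟩ := exists_pairSep (M := N)
    (fun x t => ∃ α j, x = pair α j ∧ ∃ r, pair α r ∈ f ∧ pair j t ∈ r) (prod_mem hκ hν) hT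
  have He' : ∀ α j t, pair (pair α j) t ∈ e → ∃ r, pair α r ∈ f ∧ pair j t ∈ r := by
    intro α j t h1
    obtain ⟨-, -, α', j', h2, h3⟩ := (He _ _).1 h1
    obtain ⟨rfl, rfl⟩ := pair_inj.1 h2
    exact h3
  refine ⟨e, he, fun x t h1 t' h2 => ?_, fun α hα j hj => ?_, fun α j t h1 => ?_,
    fun α hα t ht h1 => ?_⟩
  · obtain ⟨-, -, α, j, rfl, -⟩ := (He _ _).1 h1
    obtain ⟨r, h3, h4⟩ := He' α j t h1
    obtain ⟨r', h5, h6⟩ := He' α j t' h2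
    obtain rfl := f1 α r h3 r' h5
    exact (((HR _ _).1 (f3 _ _ h3)).2.2.1 j t h4).2 t' h6
  · obtain ⟨r, h1⟩ := f2 α hα
    obtain ⟨-, -, h2, h3, -⟩ := (HR _ _).1 (f3 _ _ h1)
    obtain ⟨t, h4, -⟩ := h3 j hj
    exact ⟨t, (He _ _).2 ⟨pair_mem_prod.2 ⟨hα, hj⟩, ((HHt _ _).1 (h2 j t h4).1).1, α, j, rfl,
      r, h1, h4⟩⟩
  · obtain ⟨r, h2, h3⟩ := He' α j t h1
    have h4 := (HHt _ _).1 (((HR _ _).1 (f3 _ _ h2)).2.2.1 j t h3).1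
    exact ⟨h4.1, h4.2.2⟩
  · obtain ⟨r, h2⟩ := f2 α hα
    obtain ⟨j, hj, h3⟩ := ((HR _ _).1 (f3 _ _ h2)).2.2.2.2 t ((HHt _ _).2 ⟨ht, hα, h1⟩)
    exact ⟨j, hj, (He _ _).2 ⟨pair_mem_prod.2 ⟨hα, hj⟩, ht, α, j, rfl, r, h2, h3⟩⟩

/-- A definable set of conditions that misses `H` is avoided below some member of `H`. -/
theorem t3_avoid (E : Ext' M N P le H) (A : ZFSet.{u} → Prop) (hA : Df M (fun e => A (e 0)))
    (h : ∀ q ∈ H, ¬ A q) : ∃ q ∈ H, ∀ p, pair p q ∈ le → ¬ A p := by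
  have := E.hM.zfm
  have := InM.mk E.leM
  obtain ⟨p0, hp0⟩ := E.gen.nonempty E.hP E.PM
  obtain ⟨q, hq, h1⟩ := E.gen.below E.hP E.PM E.leM
    (fun q => (∀ p, pair p q ∈ le → ¬ A p) ∨ A q) hp0 (by
      intro q hq
      by_cases h1 : ∀ p, pair p q ∈ le → ¬ A p
      · exact ⟨q, E.hP.rfl' hq, Or.inl h1⟩
      · push Not at h1
        obtain ⟨p, h1, h2⟩ := h1
        exact ⟨p, h1, Or.inr h2⟩)
  exact ⟨q, hq, h1.resolve_right (h q hq)⟩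

theorem t3_sys_mono (hP : IsForcing P le) {W p q : ZFSet.{u}} (h : SysZ ν κ le W p)
    (hq : pair q p ∈ le) : SysZ ν κ le W q :=
  ⟨fun β hβ i hi α hα j hj j' hj' r hr => h.1 β hβ i hi α hα j hj j' hj' r (hP.trans _ _ _ hr hq),
    fun β hβ i hi α hα r hr => h.2.1 β hβ i hi α hα r (hP.trans _ _ _ hr hq),
    fun γ hγ i hi β hβ j hj α hα k hk k' hk' r hr =>
      h.2.2 γ hγ i hi β hβ j hj α hα k hk k' hk' r (hP.trans _ _ _ hr hq)⟩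

/-- A coherent system in `N` has a thread in `N`. -/
theorem t3_thread (E : Ext' M N P le H) (hκ : κ ∈ M) (ho : κ.IsOrdinal) (h2 : ν ∈ κ)
    (ht : TreeZ M ν κ P le) {Z : ZFSet.{u}} (hZ : Z ∈ N)
    (z1 : ∀ x j j', pair x j ∈ Z → pair x j' ∈ Z → j = j')
    (z2 : ∀ β ∈ κ, ∀ i ∈ ν, ∀ α ∈ β, ∃ j ∈ ν, pair (pair (pair β i) α) j ∈ Z)
    (z3 : ∀ γ i β j α k k', pair (pair (pair γ i) β) j ∈ Z → pair (pair (pair β j) α) k ∈ Z →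
      pair (pair (pair γ i) α) k' ∈ Z → k = k') :
    ∃ B ∈ N, (∀ β j, pair β j ∈ B → β ∈ κ) ∧ (∀ β ∈ κ, ∃ j ∈ ν, pair β j ∈ B) ∧ Fn B ∧
      ∀ β j α k, pair β j ∈ B → pair α k ∈ B → α ∈ β → pair (pair (pair β j) α) k ∈ Z := by
  have := E.hM.zfm
  have := E.hN.zfm
  have hν : ν ∈ M := mem_of_mem hκ h2
  have hP := E.hP
  have hH := E.gen
  obtain ⟨S, hS, -, hSo, HS⟩ := E.nice Z hZ _ (prod_mem (prod_mem (prod_mem hκ hν) hκ) hν)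
  have HS' : ∀ {β i α j}, β ∈ κ → i ∈ ν → α ∈ κ → j ∈ ν → (pair (pair (pair β i) α) j ∈ Z ↔
      ∃ p ∈ H, pair (pair (pair (pair β i) α) j) p ∈ S) := fun h1 h2 h3 h4 =>
    HS _ (pair_mem_prod.2 ⟨pair_mem_prod.2 ⟨pair_mem_prod.2 ⟨h1, h2⟩, h3⟩, h4⟩)
  have := InM.mk hκ
  have := InM.mk hν
  have := InM.mk hS
  have := InM.mk E.leM
  obtain ⟨q1, hq1, H1⟩ := t3_avoid E (fun p => ∃ β ∈ κ, ∃ i ∈ ν, ∃ α ∈ κ, ∃ j ∈ ν, ∃ j' ∈ ν,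
      pair (pair (pair (pair β i) α) j) p ∈ S ∧ pair (pair (pair (pair β i) α) j') p ∈ S ∧
      j ≠ j') inferInstance (by
    rintro q hq ⟨β, hβ, i, hi, α, hα, j, hj, j', hj', h3, h4, h5⟩
    exact h5 (z1 _ j j' ((HS' hβ hi hα hj).2 ⟨q, hq, h3⟩) ((HS' hβ hi hα hj').2 ⟨q, hq, h4⟩)))
  obtain ⟨q2, hq2, H2⟩ := t3_avoid E (fun p => ∃ β ∈ κ, ∃ i ∈ ν, ∃ α ∈ β, ∀ s, pair s p ∈ le →
      ∀ j ∈ ν, ¬ pair (pair (pair (pair β i) α) j) s ∈ S) inferInstance (by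
    rintro q hq ⟨β, hβ, i, hi, α, hα, h3⟩
    obtain ⟨j, hj, h4⟩ := z2 β hβ i hi α hα
    obtain ⟨p, hp, h5⟩ := (HS' hβ hi (ho.mem_trans hα hβ) hj).1 h4
    obtain ⟨s, -, h6, h7⟩ := hH.directed p hp q hq
    exact h3 s h7 j hj (hSo _ _ h5 s h6))
  obtain ⟨q3, hq3, H3⟩ := t3_avoid E (fun p => ∃ γ ∈ κ, ∃ i ∈ ν, ∃ β ∈ γ, ∃ j ∈ ν, ∃ α ∈ β,
      ∃ k ∈ ν, ∃ k' ∈ ν, pair (pair (pair (pair γ i) β) j) p ∈ S ∧
      pair (pair (pair (pair β j) α) k) p ∈ S ∧ pair (pair (pair (pair γ i) α) k') p ∈ S ∧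
      k ≠ k') inferInstance (by
    rintro q hq ⟨γ, hγ, i, hi, β, hβ, j, hj, α, hα, k, hk, k', hk', h3, h4, h5, h6⟩
    have hβ' := ho.mem_trans hβ hγ
    have hα' := ho.mem_trans hα hβ'
    exact h6 (z3 γ i β j α k k' ((HS' hγ hi hβ' hj).2 ⟨q, hq, h3⟩)
      ((HS' hβ' hj hα' hk).2 ⟨q, hq, h4⟩) ((HS' hγ hi hα' hk').2 ⟨q, hq, h5⟩)))
  obtain ⟨q4, hq4, h41, h42⟩ := hH.directed q1 hq1 q2 hq2
  obtain ⟨p0, hp0, h04, h03⟩ := hH.directed q4 hq4 q3 hq3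
  have hsys : SysZ ν κ le S p0 := by
    refine ⟨fun β hβ i hi α hα j hj j' hj' p hp h3 h4 => ?_, fun β hβ i hi α hα p hp => ?_,
      fun γ hγ i hi β hβ j hj α hα k hk k' hk' p hp h3 h4 h5 => ?_⟩
    · by_contra h5
      exact H1 p (hP.trans _ _ _ (hP.trans _ _ _ hp h04) h41)
        ⟨β, hβ, i, hi, α, hα, j, hj, j', hj', h3, h4, h5⟩
    · by_contra h3
      exact H2 p (hP.trans _ _ _ (hP.trans _ _ _ hp h04) h42)
        ⟨β, hβ, i, hi, α, hα, fun s h4 j hj h5 => h3 ⟨s, h4, j, hj, h5⟩⟩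
    · by_contra h6
      exact H3 p (hP.trans _ _ _ hp h03)
        ⟨γ, hγ, i, hi, β, hβ, j, hj, α, hα, k, hk, k', hk', h3, h4, h5, h6⟩
  have : Df M (fun e => ∃ B ∈ M, ThreadZ ν κ le S B (e 0)) := by
    unfold ThreadZ OpenZ; infer_instance
  obtain ⟨q, hq, B, hB, b1, b2, b3, b4⟩ := hH.below hP E.PM E.leM
    (fun q => ∃ B ∈ M, ThreadZ ν κ le S B q) hp0
    (fun q hq => ht S hS q (hP.left hq) hSo (t3_sys_mono hP hsys hq))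
  have := InM.mk hB
  have := InM.mk (E.MN hB)
  have := InM.mk E.HN
  obtain ⟨B', hB', -, HB'⟩ := exists_pairSep (M := N)
    (fun β j => ∃ p ∈ H, pair (pair β j) p ∈ B) (E.MN hκ) (E.MN hν)
  refine ⟨B', hB', fun β j h => ((HB' _ _).1 h).1, fun β hβ => ?_, fun β j h3 j' h4 => ?_,
    fun β j α k h3 h4 hα => ?_⟩
  · have := InM.mk (mem_of_mem hκ hβ)
    obtain ⟨r, hr, j, hj, h3⟩ := hH.below hP E.PM E.leM
      (fun r => ∃ j ∈ ν, pair (pair β j) r ∈ B) hq (b2 β hβ)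
    exact ⟨j, hj, (HB' _ _).2 ⟨hβ, hj, r, hr, h3⟩⟩
  · obtain ⟨hβ, hj, p, hp, h5⟩ := (HB' _ _).1 h3
    obtain ⟨-, hj', p', hp', h6⟩ := (HB' _ _).1 h4
    obtain ⟨s, hs, h7, h8⟩ := hH.directed p hp p' hp'
    obtain ⟨r, -, h9, h10⟩ := hH.directed s hs q hq
    exact b3 β hβ j hj j' hj' r h10 (b1 _ _ h5 r (hP.trans _ _ _ h9 h7))
      (b1 _ _ h6 r (hP.trans _ _ _ h9 h8))
  · obtain ⟨hβ, hj, p, hp, h5⟩ := (HB' _ _).1 h3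
    obtain ⟨hα', hk, p', hp', h6⟩ := (HB' _ _).1 h4
    obtain ⟨k', hk', h7⟩ := z2 β hβ j hj α hα
    obtain ⟨p'', hp'', h8⟩ := (HS' hβ hj hα' hk').1 h7
    obtain ⟨s, hs, h9, h10⟩ := hH.directed p hp p' hp'
    obtain ⟨s', hs', h11, h12⟩ := hH.directed p'' hp'' q hq
    obtain ⟨r, -, h13, h14⟩ := hH.directed s hs s' hs'
    rw [b4 β hβ j hj α hα k hk k' hk' r (hP.trans _ _ _ h14 h12)
      (b1 _ _ h5 r (hP.trans _ _ _ h13 h9)) (b1 _ _ h6 r (hP.trans _ _ _ h13 h10))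
      (hSo _ _ h8 r (hP.trans _ _ _ h14 h11))]
    exact h7

theorem tree_part (E : Ext' M N P le H) (hκ : κ ∈ M) (ho : κ.IsOrdinal) (h1 : omega ∈ ν)
    (h2 : ν ∈ κ)
    (hs : ∀ τ ∈ κ, Surj N ν τ) (ht : TreeZ M ν κ P le) : TreeProperty N κ := by
  intro T hT lt hlt h
  have := E.hN.zfm
  have hκN : κ ∈ N := E.MN hκ
  have hνN : ν ∈ N := mem_of_mem hκN h2
  have hνo : ν.IsOrdinal := ho.mem h2
  obtain ⟨e, he, e2, e1, e3, e4⟩ := t3_enum E.hN E.enum hκN hνN hs hT hlt h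
  have := InM.mk he
  have := InM.mk hlt
  obtain ⟨Z, hZ, -, HZ⟩ := exists_pairSep (M := N)
    (fun x j => ∃ y α, x = pair y α ∧ ∃ t, pair y t ∈ e ∧ ∃ s, pair (pair α j) s ∈ e ∧
      pair s t ∈ lt ∧ ∀ j' ∈ j, ¬ pair (pair α j') s ∈ e)
    (prod_mem (prod_mem hκN hνN) hκN) hνN
  have HZ' : ∀ {β i α j}, pair (pair (pair β i) α) j ∈ Z → β ∈ κ ∧ α ∈ κ ∧ j ∈ ν ∧
      ∃ t, pair (pair β i) t ∈ e ∧ ∃ s, pair (pair α j) s ∈ e ∧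
        pair s t ∈ lt ∧ ∀ j' ∈ j, ¬ pair (pair α j') s ∈ e := by
    intro β i α j h3
    obtain ⟨h4, hj, y, α', h5, h6⟩ := (HZ _ _).1 h3
    obtain ⟨rfl, rfl⟩ := pair_inj.1 h5
    exact ⟨(pair_mem_prod.1 (pair_mem_prod.1 h4).1).1, (pair_mem_prod.1 h4).2, hj, h6⟩
  have least : ∀ {β i α t s s' k k'}, β ∈ κ → α ∈ κ → k ∈ ν → k' ∈ ν → pair (pair β i) t ∈ e →
      pair (pair α k) s ∈ e → pair (pair α k') s' ∈ e → pair s t ∈ lt → pair s' t ∈ lt →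
      (∀ j ∈ k, ¬ pair (pair α j) s ∈ e) → (∀ j ∈ k', ¬ pair (pair α j) s' ∈ e) → k = k' := by
    intro β i α t s s' k k' hβ hα hk hk' h3 h4 h5 h6 h7 h8 h9
    obtain rfl := (t3_pred (ho.mem hβ) h.trans (e3 _ _ _ h3).2).2 α (ho.mem hα) s s' h6 h7
      (e3 _ _ _ h4).2 (e3 _ _ _ h5).2
    rcases (hνo.mem hk).mem_trichotomous (hνo.mem hk') with h' | h' | h'
    exacts [(h9 k h' h4).elim, h', (h8 k' h' h5).elim]
  obtain ⟨B, hB, b0, b1, b2, b3⟩ := t3_thread E hκ ho h2 ht hZ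
    (by
      intro x j j' h3 h4
      obtain ⟨y, hy, α, -, rfl⟩ := mem_prod.1 ((HZ _ _).1 h3).1
      obtain ⟨β, -, i, -, rfl⟩ := mem_prod.1 hy
      obtain ⟨hβ, hα, hj, t, h5, s, h6, h7, h8⟩ := HZ' h3
      obtain ⟨-, -, hj', t', h5', s', h6', h7', h8'⟩ := HZ' h4
      obtain rfl := e2 _ t h5 t' h5'
      exact least hβ hα hj hj' h5 h6 h6' h7 h7' h8 h8')
    (by
      intro β hβ i hi α hα
      have hα' := ho.mem_trans hα hβ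
      obtain ⟨t, h3⟩ := e1 β hβ i hi
      obtain ⟨s, h4, h5⟩ := (t3_pred (ho.mem hβ) h.trans (e3 _ _ _ h3).2).1 α hα
      obtain ⟨j, ⟨hj, h6⟩, h7⟩ := mem_wf.has_min {j | j ∈ ν ∧ pair (pair α j) s ∈ e}
        (e4 α hα' s (pair_mem_prod.1 (h.sub h4)).1 h5)
      exact ⟨j, hj, (HZ _ _).2 ⟨pair_mem_prod.2 ⟨pair_mem_prod.2 ⟨hβ, hi⟩, hα'⟩, hj, _, α, rfl,
        t, h3, s, h6, h4, fun j' h8 h9 => h7 j' ⟨hνo.mem_trans h8 hj, h9⟩ h8⟩⟩)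
    (by
      intro γ i β j α k k' h3 h4 h5
      obtain ⟨hγ, -, -, t, h6, s, h7, h8, -⟩ := HZ' h3
      obtain ⟨-, hα, hk, s', h9, r, h10, h11, h12⟩ := HZ' h4
      obtain ⟨-, -, hk', t', h13, r', h14, h15, h16⟩ := HZ' h5
      obtain rfl := e2 _ t h6 t' h13
      obtain rfl := e2 _ s h7 s' h9
      exact least hγ hα hk hk' h6 h10 h14 (h.trans _ _ _ h11 h8) h15 h12 h16)
  have := InM.mk hB
  have below : ∀ {β j α k s t}, pair β j ∈ B → pair α k ∈ B → α ∈ β → pair (pair α k) s ∈ e →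
      pair (pair β j) t ∈ e → pair s t ∈ lt := by
    intro β j α k s t h3 h4 h5 h6 h7
    obtain ⟨-, -, -, t', h8, s', h9, h10, -⟩ := HZ' (b3 β j α k h3 h4 h5)
    rw [e2 _ t h7 t' h8, e2 _ s h6 s' h9]
    exact h10
  refine ⟨_, sep_mem (fun t => ∃ β j, pair β j ∈ B ∧ pair (pair β j) t ∈ e) hT, sep_subset,
    fun s hs t ht => ?_, fun α hα => ?_⟩
  · obtain ⟨α, k, h3, h4⟩ := (mem_sep.1 hs).2
    obtain ⟨β, j, h5, h6⟩ := (mem_sep.1 ht).2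
    rcases (ho.mem (b0 _ _ h3)).mem_trichotomous (ho.mem (b0 _ _ h5)) with h' | rfl | h'
    · exact Or.inr (Or.inl (below h5 h3 h' h4 h6))
    · obtain rfl := b2 α k h3 j h5
      exact Or.inl (e2 _ s h4 t h6)
    · exact Or.inr (Or.inr (below h3 h5 h' h6 h4))
  · obtain ⟨j, hj, h3⟩ := b1 α hα
    obtain ⟨t, h4⟩ := e1 α hα j hj
    exact ⟨t, mem_sep.2 ⟨(e3 _ _ _ h4).1, α, j, h3, h4⟩, (e3 _ _ _ h4).2⟩

end Pool.Agent.P.MP_a18ac8_lc
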