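import Pool.Agent.P.MP_a18ac8_lc.TGood

/-!
The interface holds for sets in the universe.
-/

universe u

set_option synthInstance.maxSize 65536

namespace Pool.Agent.P.MP_a18ac8_lc

open ZFSet Pool.Agent.Lib.Forcing Pool.Agent.P.MP_af0a18_lc

section
variable {Λ R : Type u} [LinearOrder Λ] [WellFoundedLT Λ] {ρ κ : Λ} {V : R → Prop}
  {le : R → R → Prop}

/-- The von Neumann ordinal of an index. -/
noncomputable def t1_o (ξ : Λ) : ZFSet.{u} :=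
  Ordinal.toZFSet (Ordinal.typein ((· < ·) : Λ → Λ → Prop) ξ)

/-- A code for a condition. -/
noncomputable def t1_e (p : R) : ZFSet.{u} := Ordinal.toZFSet (Ordinal.typein WellOrderingRel p)

theorem t1_o_inj : Function.Injective (t1_o : Λ → ZFSet.{u}) := fun _ _ h =>
  (Ordinal.typein _).injective (Ordinal.toZFSet_injective h)

theorem t1_e_inj : Function.Injective (t1_e : R → ZFSet.{u}) := fun _ _ h =>
  (Ordinal.typein _).injective (Ordinal.toZFSet_injective h)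

theorem t1_oo {η ξ : Λ} : t1_o η ∈ t1_o ξ ↔ η < ξ :=
  Ordinal.toZFSet_mem_toZFSet_iff.trans (Ordinal.typein_lt_typein _)

theorem t1_lam {x : ZFSet.{u}} :
    x ∈ Ordinal.toZFSet (Ordinal.type ((· < ·) : Λ → Λ → Prop)) ↔ ∃ η : Λ, t1_o η = x := by
  rw [Ordinal.mem_toZFSet_iff]
  constructor
  · rintro ⟨a, ha, rfl⟩
    obtain ⟨η, rfl⟩ := Ordinal.typein_surj _ ha
    exact ⟨η, rfl⟩
  · rintro ⟨η, rfl⟩
    exact ⟨_, Ordinal.typein_lt_type _ η, rfl⟩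

theorem t1_mem {x : ZFSet.{u}} {ξ : Λ} : x ∈ t1_o ξ ↔ ∃ η, η < ξ ∧ t1_o η = x := by
  constructor
  · intro h
    obtain ⟨η, rfl⟩ := (t1_lam (Λ := Λ)).1
      ((isOrdinal_toZFSet _).mem_trans h (t1_lam.2 ⟨ξ, rfl⟩))
    exact ⟨η, t1_oo.1 h, rfl⟩
  · rintro ⟨η, h, rfl⟩
    exact t1_oo.2 h

/-- The set of conditions. -/
noncomputable def t1_P (V : R → Prop) : ZFSet.{u} := range fun p : {p // V p} => t1_e p.1

/-- A predicate as a set. -/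
noncomputable def t1_S {A : Type*} [Small.{u} A] (V : R → Prop) (c : A → ZFSet.{u})
    (W : A → R → Prop) : ZFSet.{u} :=
  range fun t : {t : A × R // V t.2 ∧ W t.1 t.2} => pair (c t.1.1) (t1_e t.1.2)

/-- The order. -/
noncomputable def t1_L (V : R → Prop) (le : R → R → Prop) : ZFSet.{u} :=
  t1_S V t1_e fun q p => V q ∧ le q p

theorem t1_memP {x : ZFSet.{u}} : x ∈ t1_P V ↔ ∃ p, V p ∧ t1_e p = x := by
  simp [t1_P]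

theorem t1_eP {p : R} : t1_e p ∈ t1_P V ↔ V p := by
  simp [t1_memP, t1_e_inj.eq_iff]

theorem t1_memS {A : Type*} [Small.{u} A] {c : A → ZFSet.{u}} {W : A → R → Prop}
    {z : ZFSet.{u}} : z ∈ t1_S V c W ↔ ∃ a p, V p ∧ W a p ∧ pair (c a) (t1_e p) = z := by
  simp [t1_S, and_assoc]

theorem t1_S_iff {A : Type*} [Small.{u} A] {c : A → ZFSet.{u}} (hc : Function.Injective c)
    {W : A → R → Prop} {a : A} {p : R} : pair (c a) (t1_e p) ∈ t1_S V c W ↔ V p ∧ W a p := by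
  simp [t1_memS, hc.eq_iff, t1_e_inj.eq_iff]

theorem t1_eL {q p : R} (hq : V q) (hp : V p) (h : le q p) : pair (t1_e q) (t1_e p) ∈ t1_L V le :=
  (t1_S_iff t1_e_inj).2 ⟨hp, hq, h⟩

theorem t1_L_ex {x : ZFSet.{u}} {p : R} (h : pair x (t1_e p) ∈ t1_L V le) :
    ∃ q, V q ∧ le q p ∧ t1_e q = x := by
  obtain ⟨q, p', -, h1, h2⟩ := t1_memS.1 h
  obtain ⟨rfl, h3⟩ := pair_inj.1 h2
  obtain rfl := t1_e_inj h3
  exact ⟨q, h1.1, h1.2, rfl⟩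

theorem t1_open {A : Type*} [Small.{u} A] {c : A → ZFSet.{u}} {W : A → R → Prop}
    (h : ∀ a, AOpen V le (W a)) : OpenZ (t1_L V le) (t1_S V c W) := by
  intro x y hxy z hz
  obtain ⟨a, p, -, h1, h2⟩ := t1_memS.1 hxy
  obtain ⟨rfl, rfl⟩ := pair_inj.1 h2
  obtain ⟨q, hq, hl, rfl⟩ := t1_L_ex hz
  exact t1_memS.2 ⟨a, q, hq, h a p q hq hl h1, rfl⟩

theorem t1_aopen {W : ZFSet.{u}} (h : OpenZ (t1_L V le) W) (x : ZFSet.{u}) :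
    AOpen V le fun p => V p ∧ pair x (t1_e p) ∈ W :=
  fun _ _ hq hl hp => ⟨hq, h _ _ hp.2 _ (t1_eL hq hp.1 hl)⟩

theorem t1_and {O : R → Prop} (h : AOpen V le O) (Q : Prop) : AOpen V le fun p => Q ∧ O p :=
  fun p q hq hl hp => ⟨hp.1, h p q hq hl hp.2⟩

theorem t1_c2 {I : Type*} {c : I → ZFSet.{u}} (hc : Function.Injective c) :
    Function.Injective fun t : I × Λ => pair (c t.1) (t1_o t.2) := fun _ _ h =>
  Prod.ext (hc (pair_inj.1 h).1) (t1_o_inj (pair_inj.1 h).2)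

theorem t1_col {I : Type*} [Small.{u} I] {c : I → ZFSet.{u}} (hc : Function.Injective c)
    {Q : I → Prop} {a b : ZFSet.{u}} (ha : ∀ x, x ∈ a ↔ ∃ i, Q i ∧ c i = x) {Q' : Λ → Prop}
    (hb : ∀ x ∈ b, ∃ τ, Q' τ ∧ t1_o τ = x)
    (h : ∀ τ, Q' τ → ∃ W : I → Λ → R → Prop, AFun V le W ∧
      ∀ γ < τ, ∀ p, V p → ∃ q, V q ∧ le q p ∧ ∃ i, Q i ∧ W i γ q) :
    ColZ Set.univ a b (t1_P V) (t1_L V le) := by
  intro x hx
  obtain ⟨τ, hτ, rfl⟩ := hb x hx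
  obtain ⟨W, hW, hd⟩ := h τ hτ
  refine ⟨t1_S V (fun t : I × Λ => pair (c t.1) (t1_o t.2)) fun t p => W t.1 t.2 p, trivial,
    t1_open fun t => hW.1 t.1 t.2, ?_, ?_⟩
  · intro i hi γ hγ γ' hγ' p hp h1 h2
    obtain ⟨i, -, rfl⟩ := (ha _).1 hi
    obtain ⟨γ, -, rfl⟩ := t1_mem.1 hγ
    obtain ⟨γ', -, rfl⟩ := t1_mem.1 hγ'
    replace hp := t1_memP.1 hp
    obtain ⟨p, hp, rfl⟩ := hp
    rw [hW.2 i γ γ' p hp ((t1_S_iff (a := (i, γ)) (t1_c2 hc)).1 h1).2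
      ((t1_S_iff (a := (i, γ')) (t1_c2 hc)).1 h2).2]
  · intro γ hγ p hp
    replace hγ := t1_mem.1 hγ
    obtain ⟨γ, hγ, rfl⟩ := hγ
    replace hp := t1_memP.1 hp
    obtain ⟨p, hp, rfl⟩ := hp
    obtain ⟨q, hq, hl, i, hi, h1⟩ := hd γ hγ p hp
    exact ⟨_, t1_eL hq hp hl, _, (ha _).2 ⟨i, hi, rfl⟩, t1_memS.2 ⟨(i, γ), q, hq, h1, rfl⟩⟩

theorem t1_pres {I : Type*} {c : I → ZFSet.{u}} {Q : I → Prop} {a : ZFSet.{u}}
    (ha : ∀ x, x ∈ a ↔ ∃ i, Q i ∧ c i = x) {b : Λ}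
    (h : ∀ W : I → Λ → R → Prop, AFun V le W → ∀ p, V p → ∃ q, V q ∧ le q p ∧
      ∃ β < b, ∀ i, Q i → ∀ γ < b, ∀ r, V r → le r q → W i γ r → γ < β) :
    PresZ Set.univ a (t1_o b) (t1_P V) (t1_L V le) := by
  intro W _ ho hf p hp
  replace hp := t1_memP.1 hp
  obtain ⟨p, hp, rfl⟩ := hp
  obtain ⟨q, hq, hl, β, hβ, H⟩ := h
    (fun i γ p => (Q i ∧ γ < b) ∧ V p ∧ pair (pair (c i) (t1_o γ)) (t1_e p) ∈ W)
    ⟨fun i γ => t1_and (t1_aopen ho _) _, fun i γ γ' p hp h1 h2 =>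
      t1_o_inj (hf _ ((ha _).2 ⟨i, h1.1.1, rfl⟩) _ (t1_oo.2 h1.1.2) _ (t1_oo.2 h2.1.2) _
        (t1_eP.2 hp) h1.2.2 h2.2.2)⟩ p hp
  refine ⟨_, t1_eL hq hp hl, _, t1_oo.2 hβ, fun i hi γ hγ r hr h1 => ?_⟩
  replace hi := (ha _).1 hi
  obtain ⟨i, hi, rfl⟩ := hi
  replace hγ := t1_mem.1 hγ
  obtain ⟨γ, hγ, rfl⟩ := hγ
  replace hr := t1_L_ex hr
  obtain ⟨r, hr, hl', rfl⟩ := hr
  exact t1_oo.2 (H i hi γ hγ r hr hl' ⟨⟨hi, hγ⟩, hr, h1⟩)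

theorem t1_tree (h : Iface ρ κ V le) :
    TreeZ Set.univ (t1_o ρ) (t1_o κ) (t1_P V) (t1_L V le) := by
  intro W _ p₀ hp₀ ho hs
  replace hp₀ := t1_memP.1 hp₀
  obtain ⟨p₀, hp₀, rfl⟩ := hp₀
  obtain ⟨q, hq, hl, B, b1, b2, b3, b4⟩ := h.tp (fun β i α j p =>
    (β < κ ∧ i < ρ ∧ α < κ ∧ j < ρ) ∧ V p ∧
      pair (pair (pair (pair (t1_o β) (t1_o i)) (t1_o α)) (t1_o j)) (t1_e p) ∈ W) p₀ hp₀
    (fun β i α j => t1_and (t1_aopen ho _) _)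
    (fun β i α j j' p hp hl h1 h2 => t1_o_inj (hs.1 _ (t1_oo.2 h1.1.1) _ (t1_oo.2 h1.1.2.1) _
      (t1_oo.2 h1.1.2.2.1) _ (t1_oo.2 h1.1.2.2.2) _ (t1_oo.2 h2.1.2.2.2) _ (t1_eL hp hp₀ hl)
      h1.2.2 h2.2.2))
    (fun β hβ i hi α hα p hp hl => by
      obtain ⟨q, h1, j, hj, h2⟩ := hs.2.1 _ (t1_oo.2 hβ) _ (t1_oo.2 hi) _ (t1_oo.2 hα) _
        (t1_eL hp hp₀ hl)
      obtain ⟨q, hq, hl', rfl⟩ := t1_L_ex h1
      replace hj := t1_mem.1 hj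
      obtain ⟨j, hj, rfl⟩ := hj
      exact ⟨q, hq, hl', j, hj, ⟨hβ, hi, hα.trans hβ, hj⟩, hq, h2⟩)
    (fun γ i β j α k k' p hα hβ hp hl h1 h2 h3 => t1_o_inj (hs.2.2 _ (t1_oo.2 h1.1.1) _
      (t1_oo.2 h1.1.2.1) _ (t1_oo.2 hβ) _ (t1_oo.2 h1.1.2.2.2) _ (t1_oo.2 hα) _
      (t1_oo.2 h2.1.2.2.2) _ (t1_oo.2 h3.1.2.2.2) _ (t1_eL hp hp₀ hl) h1.2.2 h2.2.2 h3.2.2))
  have hB : ∀ {β j : Λ} {p : R}, pair (pair (t1_o β) (t1_o j)) (t1_e p) ∈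
      t1_S V (fun t : Λ × Λ => pair (t1_o t.1) (t1_o t.2)) (fun t p => B t.1 t.2 p) → B β j p :=
    fun {β j p} h1 => ((t1_S_iff (a := (β, j)) (t1_c2 t1_o_inj)).1 h1).2
  refine ⟨_, t1_eL hq hp₀ hl, t1_S V (fun t : Λ × Λ => pair (t1_o t.1) (t1_o t.2))
    fun t p => B t.1 t.2 p, trivial, t1_open fun t => b1 t.1 t.2, ?_, ?_, ?_⟩
  · intro β hβ p hp
    replace hβ := t1_mem.1 hβ
    obtain ⟨β, hβ, rfl⟩ := hβ
    replace hp := t1_L_ex hp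
    obtain ⟨p, hp, hl', rfl⟩ := hp
    obtain ⟨r, hr, hl'', j, hj, h1⟩ := b2 β hβ p hp hl'
    exact ⟨_, t1_eL hr hp hl'', _, t1_oo.2 hj, t1_memS.2 ⟨(β, j), r, hr, h1, rfl⟩⟩
  · intro β hβ j hj j' hj' p hp h1 h2
    obtain ⟨β, -, rfl⟩ := t1_mem.1 hβ
    obtain ⟨j, -, rfl⟩ := t1_mem.1 hj
    obtain ⟨j', -, rfl⟩ := t1_mem.1 hj'
    replace hp := t1_L_ex hp
    obtain ⟨p, hp, hl', rfl⟩ := hp
    rw [b3 β j j' p hp hl' (hB h1) (hB h2)]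
  · intro β hβ j hj α hα k hk k' hk' p hp h1 h2 h3
    replace hβ := t1_mem.1 hβ
    obtain ⟨β, hβ, rfl⟩ := hβ
    replace hj := t1_mem.1 hj
    obtain ⟨j, hj, rfl⟩ := hj
    replace hα := t1_mem.1 hα
    obtain ⟨α, hα, rfl⟩ := hα
    obtain ⟨k, -, rfl⟩ := t1_mem.1 hk
    replace hk' := t1_mem.1 hk'
    obtain ⟨k', hk', rfl⟩ := hk'
    replace hp := t1_L_ex hp
    obtain ⟨p, hp, hl', rfl⟩ := hp
    rw [b4 β j α k k' p hα hp hl' (hB h1) (hB h2) ⟨⟨hβ, hj, hα.trans hβ, hk'⟩, hp, h3⟩]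

/-- A set as a predicate. -/
def t1_N (V : R → Prop) (X : ZFSet.{u}) (γ : Λ) (q : R) : Prop :=
  V q ∧ pair (t1_o γ) (t1_e q) ∈ X

/-- The section of a set as a predicate. -/
def t1_X (κ : Λ) (V : R → Prop) (Y : ZFSet.{u}) (i γ : Λ) (q : R) : Prop :=
  γ < κ ∧ V q ∧ pair (pair (t1_o i) (t1_o γ)) (t1_e q) ∈ Y

/-- The ideal as a set. -/
noncomputable def t1_J (κ : Λ) (V : R → Prop) (J : R → (Λ → R → Prop) → Prop) : ZFSet.{u} :=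
  ((t1_P V).prod (powerset ((t1_o κ).prod (t1_P V)))).sep
    fun z => ∃ p X, z = pair (t1_e p) X ∧ J p (t1_N V X)

theorem t1_memJ {J : R → (Λ → R → Prop) → Prop} {x X : ZFSet.{u}} : pair x X ∈ t1_J κ V J ↔
    X ⊆ (t1_o κ).prod (t1_P V) ∧ ∃ p, V p ∧ J p (t1_N V X) ∧ t1_e p = x := by
  rw [t1_J, mem_sep, pair_mem_prod, mem_powerset]
  constructor
  · rintro ⟨⟨h1, h2⟩, p, X', h3, h4⟩
    obtain ⟨rfl, rfl⟩ := pair_inj.1 h3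
    exact ⟨h2, p, t1_eP.1 h1, h4, rfl⟩
  · rintro ⟨h1, p, h2, h3, rfl⟩
    exact ⟨⟨t1_eP.2 h2, h1⟩, p, X, rfl, h3⟩

theorem t1_eJ {J : R → (Λ → R → Prop) → Prop} {p : R} {X : ZFSet.{u}} (hp : V p)
    (hX : NameZ (t1_o κ) (t1_P V) (t1_L V le) X) :
    pair (t1_e p) X ∈ t1_J κ V J ↔ J p (t1_N V X) := by
  rw [t1_memJ]
  refine ⟨?_, fun h => ⟨fun z hz => mem_prod.2 (hX.1 z hz), p, hp, h, rfl⟩⟩
  rintro ⟨-, q, -, h1, h2⟩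
  rwa [← t1_e_inj h2]

theorem t1_name {X : Λ → R → Prop} (ho : ∀ γ, AOpen V le (X γ)) (hκ : ∀ γ q, X γ q → γ < κ) :
    NameZ (t1_o κ) (t1_P V) (t1_L V le) (t1_S V t1_o X) := by
  refine ⟨fun z hz => ?_, t1_open ho⟩
  obtain ⟨γ, q, hq, h1, rfl⟩ := t1_memS.1 hz
  exact ⟨_, t1_oo.2 (hκ γ q h1), _, t1_eP.2 hq, rfl⟩

theorem t1_NS {X : Λ → R → Prop} (hV : ∀ γ q, X γ q → V q) : t1_N V (t1_S V t1_o X) = X := by
  funext γ q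
  rw [t1_N, t1_S_iff t1_o_inj]
  exact propext ⟨fun h => h.2.2, fun h => ⟨hV _ _ h, hV _ _ h, h⟩⟩

theorem t1_sec (Y : ZFSet.{u}) (i : Λ) :
    SecZ (t1_o κ) (t1_P V) Y (t1_o i) (t1_S V t1_o (t1_X κ V Y i)) := by
  intro γ hγ q hq
  replace hγ := t1_mem.1 hγ
  obtain ⟨γ, hγ, rfl⟩ := hγ
  replace hq := t1_memP.1 hq
  obtain ⟨q, hq, rfl⟩ := hq
  rw [t1_S_iff t1_o_inj]
  exact ⟨fun h => h.2.2.2, fun h => ⟨hq, hγ, hq, h⟩⟩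

theorem t1_ideal (h : Iface ρ κ V le) : ∃ J : ZFSet.{u},
    IdA Set.univ (t1_o κ) (t1_P V) (t1_L V le) J ∧ IdB Set.univ (t1_o κ) (t1_P V) (t1_L V le) J ∧
    IdC Set.univ (t1_o κ) (Ordinal.toZFSet (Ordinal.type ((· < ·) : Λ → Λ → Prop))) (t1_P V)
      (t1_L V le) J := by
  obtain ⟨J, j1, j2, j3, j4, j5, j6, j7⟩ := h.ideal
  have hN : ∀ {X}, NameZ (t1_o κ) (t1_P V) (t1_L V le) X → ∀ γ : Λ, AOpen V le (t1_N V X γ) :=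
    fun hX γ => t1_aopen hX.2 _
  have hX : ∀ {Y}, OpenZ (t1_L V le) Y → ∀ i γ, AOpen V le (t1_X κ V Y i γ) :=
    fun hY i γ => t1_and (t1_aopen hY _) _
  refine ⟨t1_J κ V J, ⟨?_, ?_, ?_, ?_, ?_⟩, ?_, ?_⟩
  · intro p X h1 q hq
    obtain ⟨h2, p, -, h3, rfl⟩ := t1_memJ.1 h1
    replace hq := t1_L_ex hq
    obtain ⟨q, hq, hl, rfl⟩ := hq
    exact t1_memJ.2 ⟨h2, q, hq, j1 _ p q hq hl h3, rfl⟩
  · intro p hp X _ hn h1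
    replace hp := t1_memP.1 hp
    obtain ⟨p, hp, rfl⟩ := hp
    refine (t1_eJ hp hn).2 (j2 p _ hp (hN hn) fun q hq hl => ?_)
    obtain ⟨r, h2, h3⟩ := h1 _ (t1_eL hq hp hl)
    obtain ⟨r, hr, hl', rfl⟩ := t1_L_ex h2
    exact ⟨r, hr, hl', (t1_eJ hr hn).1 h3⟩
  · intro p hp X _ X' _ hn hn' h1 h2
    replace hp := t1_memP.1 hp
    obtain ⟨p, hp, rfl⟩ := hp
    refine (t1_eJ hp hn).2 (j3 p _ _ hp (hN hn) (hN hn') (fun γ hγ q hq hl h3 => ?_)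
      ((t1_eJ hp hn').1 h2))
    obtain ⟨r, h4, h5⟩ := h1 _ (t1_oo.2 hγ) _ (t1_eL hq hp hl) h3.2
    obtain ⟨r, hr, hl', rfl⟩ := t1_L_ex h4
    exact ⟨r, hr, hl', hr, h5⟩
  · intro p hp γ hγ X _ hn h1
    replace hp := t1_memP.1 hp
    obtain ⟨p, hp, rfl⟩ := hp
    obtain ⟨γ, -, rfl⟩ := t1_mem.1 hγ
    exact (t1_eJ hp hn).2 (j3 p _ _ hp (hN hn) (fun _ _ _ _ _ h => h)
      (fun γ' hγ' q hq _ h3 => ⟨q, hq, h.refl q,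
        t1_o_inj (h1 _ (t1_oo.2 hγ') _ (t1_eP.2 hq) h3.2)⟩) (j5 p γ hp))
  · intro p hp X _ hn h1 h2
    replace hp := t1_memP.1 hp
    obtain ⟨p, hp, rfl⟩ := hp
    exact j6 p hp (j3 p _ _ hp (fun _ _ _ _ _ h => h) (hN hn)
      (fun γ hγ q hq _ _ => ⟨q, hq, h.refl q, hq, h1 _ (t1_oo.2 hγ) _ (t1_eP.2 hq)⟩)
      ((t1_eJ hp hn).1 h2))
  · intro p hp τ hτ Y _ hY Z _ hn h1 h2
    replace hp := t1_memP.1 hp
    obtain ⟨p, hp, rfl⟩ := hp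
    replace hτ := t1_mem.1 hτ
    obtain ⟨τ, hτ, rfl⟩ := hτ
    refine (t1_eJ hp hn).2 (j3 p _ _ hp (hN hn) (fun γ a b hb hl ⟨i, hi, h3⟩ =>
      ⟨i, hi, hX hY i γ a b hb hl h3⟩) (fun γ hγ q hq _ h3 => ?_)
      (j4 p τ hτ (t1_X κ V Y) hp (hX hY) fun i hi => ?_))
    · obtain ⟨i, hi, h4⟩ := h1 _ (t1_oo.2 hγ) _ (t1_eP.2 hq) h3.2
      replace hi := t1_mem.1 hi
      obtain ⟨i, hi, rfl⟩ := hi
      exact ⟨q, hq, h.refl q, i, hi, hγ, hq, h4⟩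
    · have hn' := t1_name (hX hY i) fun _ _ h => h.1
      have := (t1_eJ hp hn').1 (h2 _ (t1_oo.2 hi) _ trivial hn' (t1_sec Y i))
      rwa [t1_NS fun _ _ h => h.2.1] at this
  · intro p hp Y _ hY h1
    replace hp := t1_memP.1 hp
    obtain ⟨p, hp, rfl⟩ := hp
    obtain ⟨ξ, hξ⟩ := j7 p (t1_X κ V Y) hp (hX hY) fun ξ η hne => by
      have hn := t1_name (κ := κ) (X := fun γ q => t1_X κ V Y ξ γ q ∧ t1_X κ V Y η γ q)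
        (fun γ a b hb hl h3 => ⟨hX hY ξ γ a b hb hl h3.1, hX hY η γ a b hb hl h3.2⟩)
        fun _ _ h => h.1.1
      have := (t1_eJ hp hn).1 (h1 _ (t1_lam.2 ⟨ξ, rfl⟩) _ (t1_lam.2 ⟨η, rfl⟩) (t1_o_inj.ne hne) _
        trivial hn fun γ hγ q hq h3 => by
          obtain ⟨γ, -, rfl⟩ := t1_mem.1 hγ
          obtain ⟨q, -, rfl⟩ := t1_memP.1 hq
          have h4 := ((t1_S_iff t1_o_inj).1 h3).2
          exact ⟨h4.1.2.2, h4.2.2.2⟩)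
      rwa [t1_NS fun _ _ h => h.1.2.1] at this
    have hn := t1_name (hX hY ξ) fun _ _ h => h.1
    refine ⟨_, t1_lam.2 ⟨ξ, rfl⟩, _, trivial, hn, t1_sec Y ξ, (t1_eJ hp hn).2 ?_⟩
    rwa [t1_NS fun _ _ h => h.2.1]

end

theorem tgood_univ {Λ R : Type u} [LinearOrder Λ] [WellFoundedLT Λ] {ρ κ : Λ} {V : R → Prop}
    {le : R → R → Prop} (h : Iface ρ κ V le) : TGood (Set.univ : Set ZFSet.{u}) := by
  obtain ⟨J, ja, jb, jc⟩ := t1_ideal h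
  have hω : ∀ x : ZFSet.{u}, x ∈ omega ↔ ∃ n : ℕ, True ∧ Ordinal.toZFSet n = x := fun x => by
    simp only [true_and, mem_omega]
  have hc : Function.Injective fun n : ℕ => Ordinal.toZFSet.{u} n := fun a b e => by
    exact_mod_cast Ordinal.toZFSet_injective e
  refine ⟨omega, trivial, t1_o ρ, trivial, t1_o κ, trivial, _, trivial, t1_P V, trivial,
    t1_L V le, trivial, J, trivial, isOmega_iff.2 rfl, isOrdinal_toZFSet _, ?_,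
    t1_oo.2 h.lt, t1_lam.2 ⟨κ, rfl⟩, g4, ⟨?_, ?_, ?_, ?_⟩,
    t1_col hc hω (fun _ => t1_mem.1) fun τ hτ => by simpa only [true_and] using h.col_rho τ hτ,
    t1_col t1_o_inj (fun _ => t1_mem) (fun _ => t1_mem.1) h.col_kap,
    t1_col t1_o_inj (fun _ => t1_mem) (Q' := fun _ => True)
      (fun _ hx => by simpa only [true_and] using t1_lam.1 hx) fun τ _ => h.col_lam τ,
    t1_pres hω fun W hW p hp => by simpa only [true_imp_iff] using h.pres_rho W hW p hp,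
    t1_pres (fun _ => t1_mem) h.pres_kap, t1_tree h, ja, jb, jc⟩
  · rw [omega_eq, t1_o, Ordinal.toZFSet_mem_toZFSet_iff]
    by_contra hcon
    have := Ordinal.card_le_card (not_lt.1 hcon)
    rw [Ordinal.card_typein, Ordinal.card_omega0] at this
    exact h.unc.not_ge this
  · obtain ⟨p, hp⟩ := h.ne
    exact ⟨_, t1_eP.2 hp, rfl⟩
  · intro z hz
    obtain ⟨q, p, hp, h1, rfl⟩ := t1_memS.1 hz
    exact ⟨_, t1_eP.2 h1.1, _, t1_eP.2 hp, rfl⟩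
  · intro p hp
    replace hp := t1_memP.1 hp
    obtain ⟨p, hp, rfl⟩ := hp
    exact t1_eL hp hp (h.refl p)
  · intro r q h1 p h2
    obtain ⟨q, p, hp, h3, h4⟩ := t1_memS.1 h2
    obtain ⟨rfl, rfl⟩ := pair_inj.1 h4
    obtain ⟨r, hr, hl, rfl⟩ := t1_L_ex h1
    exact t1_eL hr hp (h.trans _ _ _ hl h3.2)

end Pool.Agent.P.MP_a18ac8_lc
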