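import Pool.Agent.P.MP_a18ac8_lc.Pi

universe u

namespace Pool.Agent.P.MP_a18ac8_lc

open Cardinal Set Sum Filter

variable {Λ : Type u} [ConditionallyCompleteLinearOrderBot Λ] [WellFoundedLT Λ]

variable [Ctx Λ] {U : Ultrafilter (Set Λ)}

theorem HugeData.diag (h : HugeData U) {P : Λ → Set Λ → Prop}
    (hP : ∀ ξ, ∀ᶠ z in (U : Filter (Set Λ)), P ξ z) :
    ∀ᶠ z in (U : Filter (Set Λ)), ∀ ξ ∈ z, P ξ z := by
  by_contra hc
  have h1 : ∀ᶠ z in (U : Filter (Set Λ)), ∃ ξ ∈ z, ¬ P ξ z :=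
    (Ultrafilter.eventually_not.2 hc).mono fun z hz => by simpa using hz
  obtain ⟨f, hf⟩ := h1.choice
  obtain ⟨ξ, hξ⟩ := h.normal f (hf.mono fun z hz => hz.1)
  obtain ⟨z, h2, h3, h4⟩ := (hf.and (hξ.and (hP ξ))).exists
  exact h2.2 (h3 ▸ h4)

theorem HugeData.all_small (h : HugeData U) {I : Type u} {s : Set I} (hs : #s < crd (kap : Λ))
    {P : I → Set Λ → Prop} (hP : ∀ i ∈ s, ∀ᶠ z in (U : Filter (Set Λ)), P i z) :
    ∀ᶠ z in (U : Filter (Set Λ)), ∀ i ∈ s, P i z := by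
  have := h.compl
  exact (eventually_cardinal_ball hs).2 hP

theorem HugeData.lt_mu (h : HugeData U) {ξ : Λ} (hξ : ξ < kap) :
    ∀ᶠ z in (U : Filter (Set Λ)), ξ < mu z := by
  filter_upwards [h.fine ξ, h.good] with z h1 h2 using h2.inter ξ h1 hξ

theorem HugeData.lt_const (h : HugeData U) {f : Set Λ → Λ}
    (hf : ∀ᶠ z in (U : Filter (Set Λ)), f z < mu z) :
    ∃ ξ < kap, ∀ᶠ z in (U : Filter (Set Λ)), f z = ξ := by
  obtain ⟨ξ, hξ⟩ := h.normal f (hf.mono fun z hz => mem_of_lt_mu hz)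
  obtain ⟨z, h1, h2⟩ := (hf.and hξ).exists
  exact ⟨ξ, h2 ▸ h1.trans_le (mu_le_kap z), hξ⟩

theorem HugeData.small_capt (h : HugeData U) {y : Set Λ} (hy : #y < crd (kap : Λ)) :
    ∀ᶠ z in (U : Filter (Set Λ)), y ⊆ z ∧ #y < crd (mu z) := by
  obtain ⟨ξ, hξ, hc⟩ := kap_reg.exists_crd hy
  filter_upwards [h.all_small hy (P := fun i z => i ∈ z) fun i _ => h.fine i, h.lt_mu hξ, h.good]
    with z h1 h2 h3
  exact ⟨h1, hc ▸ h3.inac.reg.crd_lt_iff.2 h2⟩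

theorem HugeData.few_const (h : HugeData U) {T : Type u} {S : Set T} (hS : #S < crd (kap : Λ))
    {F : Set Λ → T} (hF : ∀ᶠ z in (U : Filter (Set Λ)), F z ∈ S) :
    ∃ x, ∀ᶠ z in (U : Filter (Set Λ)), F z = x := by
  by_contra hc
  have h1 : ∀ x ∈ S, ∀ᶠ z in (U : Filter (Set Λ)), ¬ F z = x := fun x _ =>
    Ultrafilter.eventually_not.2 fun hx => hc ⟨x, hx⟩
  obtain ⟨z, h2, h3⟩ := (hF.and (h.all_small hS h1)).exists
  exact h3 _ h2 rfl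

theorem HugeData.small_const (h : HugeData U) {s : Set Λ → Set Λ}
    (hs : ∀ᶠ z in (U : Filter (Set Λ)), s z ⊆ z ∧ #(s z) < crd (mu z)) :
    ∃ y : Set Λ, #y < crd (kap : Λ) ∧ ∀ᶠ z in (U : Filter (Set Λ)), s z = y := by
  classical
  have h1 : ∀ᶠ z in (U : Filter (Set Λ)), ∃ ξ, ξ < mu z ∧ crd ξ = #(s z) := by
    filter_upwards [hs, h.good] with z h1 h2 using h2.inac.reg.exists_crd h1.2
  obtain ⟨f, hf⟩ := h1.choice
  obtain ⟨ξ, hξ, h2⟩ := h.lt_const (hf.mono fun z hz => hz.1)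
  have h3 : ∀ᶠ z in (U : Filter (Set Λ)), ∃ g : Λ → Λ, g '' Iio ξ = s z := by
    filter_upwards [hf, h2] with z h3 h4
    rw [h4] at h3
    obtain ⟨e⟩ := Cardinal.eq.1 h3.2
    refine ⟨fun η => if hη : η < ξ then e ⟨η, hη⟩ else ⊥, Subset.antisymm ?_ fun a ha => ?_⟩
    · rintro _ ⟨η, hη, rfl⟩
      simp only [dif_pos (show η < ξ from hη)]
      exact (e _).2
    · refine ⟨e.symm ⟨a, ha⟩, (e.symm ⟨a, ha⟩).2, ?_⟩
      simp only [dif_pos (show (e.symm ⟨a, ha⟩ : Λ) < ξ from (e.symm ⟨a, ha⟩).2)]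
      exact congrArg Subtype.val (e.apply_symm_apply ⟨a, ha⟩)
  obtain ⟨g, hg⟩ := h3.choice
  have h4 : ∀ η, ∃ a, η < ξ → ∀ᶠ z in (U : Filter (Set Λ)), g z η = a := fun η => by
    by_cases hη : η < ξ
    · obtain ⟨a, ha⟩ := h.normal (fun z => g z η) (by
        filter_upwards [hg, hs] with z h5 h6 using h6.1 (h5 ▸ mem_image_of_mem _ hη))
      exact ⟨a, fun _ => ha⟩
    · exact ⟨⊥, fun h' => absurd h' hη⟩
  choose a ha using h4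
  have h5 : crd ξ < crd (kap : Λ) := kap_reg.crd_lt_iff.2 hξ
  refine ⟨a '' Iio ξ, mk_image_le.trans_lt h5, ?_⟩
  filter_upwards [hg, h.all_small (s := Iio ξ) h5 ha] with z h6 h7
  rw [← h6]
  exact image_congr h7

theorem HugeData.capt (h : HugeData U) {q : Cond Λ} (hq : Valid q) :
    ∀ᶠ z in (U : Filter (Set Λ)), Capt z q := by
  obtain ⟨y, hy, hl⟩ := exists_lives hq
  filter_upwards [h.small_capt hy] with z hz using ⟨hq, y, hz.1, hz.2, hl⟩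

theorem HugeData.capt_const (h : HugeData U) {F : Set Λ → Cond Λ}
    (hF : ∀ᶠ z in (U : Filter (Set Λ)), Capt z (F z)) :
    ∃ q, Valid q ∧ ∀ᶠ z in (U : Filter (Set Λ)), (F z).set = q.set := by
  obtain ⟨s, hs⟩ := (hF.mono fun z hz => hz.2).choice
  obtain ⟨y, hy, h1⟩ := h.small_const (hs.mono fun z hz => ⟨hz.1, hz.2.1⟩)
  obtain ⟨A, hA⟩ := h.few_const (F := fun z => (F z).set) (card_satu Ctx.kap_inac.1 hy) (by
    filter_upwards [hs, h1] with z h2 h3 using (h3 ▸ h2.2.2 : Lives (F z) y).satu)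
  obtain ⟨z, h2, h3⟩ := (hF.and hA).exists
  exact ⟨F z, h2.1, hA.mono fun z' hz' => hz'.trans h3.symm⟩

theorem HugeData.exists_Bd (h : HugeData U) {A : Set (Cond Λ)} (hA : #A < #Λ)
    (hv : ∀ a ∈ A, Valid a) : ∃ α, ∀ a ∈ A, a.D ⊆ Bd α := by
  choose! y hy hl using fun a ha => exists_lives (hv a ha)
  obtain ⟨α, hα⟩ := bdd_of_lt h.lam.isRegular h.init
    (card_iUnion_lt h.lam.isRegular hA fun a ha => (hy a ha).trans (h.init kap))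
  refine ⟨α, fun a ha c hc => ?_⟩
  rcases c with k | ⟨x, ζ⟩
  · exact Or.inl mem_Lev_inl
  have h1 := ((hv a ha).node hc).2.2
  rcases (mem_CY_inr.1 ((hl a ha).2 _ hc).1).2 with h2 | ⟨σ, hσ, -, h2⟩
  · exact Or.inl (mem_Lev_inr.2 ⟨(mk_le_mk_of_subset h2).trans_lt (hy a ha), h1⟩)
  · obtain rfl : x = Iio σ := h2
    exact Or.inr ⟨σ, hα σ (mem_biUnion ha hσ), ζ, h1, rfl⟩

theorem HugeData.lam_cc (h : HugeData U) (q : Λ → Cond Λ) (hq : ∀ ξ, Valid (q ξ)) :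
    ∃ ξ η, ξ ≠ η ∧ Cmp (q ξ) (q η) := by
  obtain ⟨z, hz, hc⟩ := (h.good.and (h.diag fun ξ => h.capt (hq ξ))).exists
  have : Nonempty (Cond Λ) := ⟨q ⊥⟩
  choose! p hp hD _ hs using fun ξ hξ => push hz (hc ξ hξ)
  obtain ⟨i, hi, j, hj, hij, r, hr, h1, h2⟩ := cc Ctx.kap_inac Ctx.rho_lt h.kp hz.card.ge p
    fun i hi => VL_of_S0 hz (hp i hi) (hD i hi)
  obtain ⟨q', -, h3, -, -, -, -, -, -, h4⟩ := red hz hr.1
  exact ⟨i, j, hij, q', h3.1, h4 _ (hc i hi) (hs i hi ▸ h1), h4 _ (hc j hj) (hs j hj ▸ h2)⟩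

theorem HugeData.anti (h : HugeData U) (O : Cond Λ → Prop) : ∃ A : Set (Cond Λ), #A < #Λ ∧
    (∀ a ∈ A, Valid a ∧ O a) ∧ ∀ q, Valid q → O q → ∃ a ∈ A, Cmp q a := by
  obtain ⟨A, hA, h1, h2⟩ := exists_maxAnti {q : Cond Λ | Valid q ∧ O q} Cmp
    (fun _ _ => Cmp.symm) fun a ha => ha.1.cmp_self
  refine ⟨A, ?_, hA, fun q hq hO => h2 q ⟨hq, hO⟩⟩
  by_contra hc
  obtain ⟨e⟩ := (Cardinal.le_def _ _).1 (not_lt.1 hc)
  obtain ⟨ξ, η, h3, h4⟩ := h.lam_cc (fun ξ => e ξ) fun ξ => (hA (e ξ).2).1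
  exact h1 (e ξ).2 (e η).2 (fun h5 => h3 (e.injective (Subtype.ext h5))) h4

theorem HugeData.star_cc (h : HugeData U) (p : Λ → Set Λ → Cond Λ)
    (hp : ∀ ξ, ∀ᶠ z in (U : Filter (Set Λ)), VL kap (p ξ z)) :
    ∃ ξ η, ξ ≠ η ∧ ∀ᶠ z in (U : Filter (Set Λ)), ∃ r, VL kap r ∧ r ≤ p ξ z ∧ r ≤ p η z := by
  have h1 : ∀ᶠ z in (U : Filter (Set Λ)), ∃ k : Λ × Λ, k.1 ∈ z ∧ k.2 ∈ z ∧ k.1 ≠ k.2 ∧
      ∃ r, VL kap r ∧ r ≤ p k.1 z ∧ r ≤ p k.2 z := by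
    filter_upwards [h.good, h.diag hp] with z hz h1
    obtain ⟨i, hi, j, hj, h2⟩ := cc Ctx.kap_inac Ctx.rho_lt h.kp hz.card.ge (fun ξ => p ξ z) h1
    exact ⟨(i, j), hi, hj, h2⟩
  obtain ⟨f, hf⟩ := h1.choice
  obtain ⟨ξ, hξ⟩ := h.normal (fun z => (f z).1) (hf.mono fun z hz => hz.1)
  obtain ⟨η, hη⟩ := h.normal (fun z => (f z).2) (hf.mono fun z hz => hz.2.1)
  have h2 : ∀ᶠ z in (U : Filter (Set Λ)), ξ ≠ η ∧ ∃ r, VL kap r ∧ r ≤ p ξ z ∧ r ≤ p η z := by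
    filter_upwards [hf, hξ, hη] with z h2 h3 h4
    rw [h3, h4] at h2
    exact h2.2.2
  obtain ⟨_, h3, -⟩ := h2.exists
  exact ⟨ξ, η, h3, h2.mono fun z hz => hz.2⟩

theorem HugeData.card_sets (h : HugeData U) :
    #{A : Set (Pt Λ) | ∃ q, Valid q ∧ A = q.set} ≤ #Λ := by
  have h1 : {A : Set (Pt Λ) | ∃ q, Valid q ∧ A = q.set} ⊆
      ⋃ y ∈ {y : Set Λ | #y < (#Λ).ord.cof}, {A | Satu y A} := by
    rintro _ ⟨q, hq, rfl⟩
    obtain ⟨y, hy, hl⟩ := exists_lives hq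
    refine mem_biUnion (show #y < (#Λ).ord.cof from ?_) hl.satu
    rw [h.lam.isRegular.cof_ord]
    exact hy.trans (h.init kap)
  refine (mk_le_mk_of_subset h1).trans ((mk_biUnion_le _ _).trans ?_)
  refine (mul_le_mul' (mk_subset_mk_lt_cof h.lam.isStrongLimit.isStrongPrelimit).le
    (ciSup_le' fun y => (card_satu h.lam ?_).le)).trans (mul_eq_self h.lam.isRegular.aleph0_le).le
  exact y.2.trans_eq h.lam.isRegular.cof_ord

end Pool.Agent.P.MP_a18ac8_lc
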