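import Pool.Agent.P.MP_a18ac8_lc.Local
import Pool.Agent.P.MP_a18ac8_lc.Meas
import Pool.Agent.P.MP_a18ac8_lc.Iface

universe u

namespace Pool.Agent.P.MP_a18ac8_lc

open Cardinal Set Sum Filter

variable {Λ : Type u} [ConditionallyCompleteLinearOrderBot Λ] [WellFoundedLT Λ]

variable [Ctx Λ] {U : Ultrafilter (Set Λ)}

/-- One bound for maximal antichains of all the dense sets of the system. -/
theorem tree_alpha (h : HugeData U) (W : Λ → Λ → Λ → Λ → Cond Λ → Prop) {p₀ : Cond Λ}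
    (hp₀ : Valid p₀) : ∃ α₀ : Λ, p₀.D ⊆ Bd α₀ ∧ ∀ β < kap, ∀ i < rho, ∀ α < β, ∀ q, Valid q →
      (∃ j < rho, W β i α j q) →
      ∃ a, Valid a ∧ a.D ⊆ Bd α₀ ∧ (∃ j < rho, W β i α j a) ∧ Cmp q a := by
  choose A hA1 hA2 hA3 using fun β i α : Λ => h.anti fun p => ∃ j < rho, W β i α j p
  have hr : (Cardinal.mk Λ).IsRegular := h.lam.isRegular
  have hS : Cardinal.mk ↥(({p₀} : Set (Cond Λ)) ∪
      ⋃ β ∈ Iio (kap : Λ), ⋃ i ∈ Iio (rho : Λ), ⋃ α ∈ Iio β, A β i α) < Cardinal.mk Λ := by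
    refine card_union_lt hr.aleph0_le ?_ ?_
    · rw [Cardinal.mk_singleton]
      exact Cardinal.one_lt_aleph0.trans_le hr.aleph0_le
    · exact card_iUnion_lt hr (h.init kap) fun β _ => card_iUnion_lt hr (h.init rho) fun i _ =>
        card_iUnion_lt hr (h.init β) fun α _ => hA1 β i α
  obtain ⟨α₀, hα₀⟩ := h.exists_Bd hS (by
    rintro a (ha | ha)
    · rw [mem_singleton_iff.1 ha]
      exact hp₀
    · simp only [mem_iUnion] at ha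
      obtain ⟨β, -, i, -, α, -, ha⟩ := ha
      exact (hA2 β i α a ha).1)
  refine ⟨α₀, hα₀ p₀ (Or.inl rfl), fun β hβ i hi α hα q hq hWq => ?_⟩
  obtain ⟨a, ha, hc⟩ := hA3 β i α q hq hWq
  refine ⟨a, (hA2 β i α a ha).1, hα₀ a (Or.inr ?_), (hA2 β i α a ha).2, hc⟩
  simp only [mem_iUnion]
  exact ⟨β, hβ, i, hi, α, hα, ha⟩

/-- The reflection hypothesis of `local_thread` holds almost everywhere. -/
theorem tree_star (h : HugeData U) {W : Λ → Λ → Λ → Λ → Cond Λ → Prop} (hW : Sys W) {α₀ : Λ}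
    (hα₀ : ∀ β < kap, ∀ i < rho, ∀ α < β, ∀ q, Valid q → (∃ j < rho, W β i α j q) →
      ∃ a, Valid a ∧ a.D ⊆ Bd α₀ ∧ (∃ j < rho, W β i α j a) ∧ Cmp q a) :
    ∀ᶠ z in (U : Filter (Set Λ)), ∀ q, Capt z q → ∀ β < mu z, ∀ i < rho, ∀ α < β,
      ∃ a q', Capt z a ∧ a.D ⊆ Bd α₀ ∧ Capt z q' ∧ q' ≤ q ∧ q' ≤ a ∧ ∃ j < rho, W β i α j a := by
  by_contra hcon
  have h0 := Ultrafilter.eventually_not.2 hcon
  have h1 : ∀ᶠ z in (U : Filter (Set Λ)), ∃ x : Cond Λ × Λ × Λ × Λ, Capt z x.1 ∧ x.2.1 < mu z ∧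
      x.2.2.1 < rho ∧ x.2.2.2 < x.2.1 ∧ ¬ ∃ a q', Capt z a ∧ a.D ⊆ Bd α₀ ∧ Capt z q' ∧
        q' ≤ x.1 ∧ q' ≤ a ∧ ∃ j < rho, W x.2.1 x.2.2.1 x.2.2.2 j a := by
    filter_upwards [h0] with z hz
    by_contra hn
    refine hz fun q hq β hβ i hi α hα => ?_
    by_contra hn'
    exact hn ⟨(q, β, i, α), hq, hβ, hi, hα, hn'⟩
  obtain ⟨F, hF⟩ := h1.choice
  obtain ⟨β, hβ, hβe⟩ := h.lt_const (f := fun z => (F z).2.1) (hF.mono fun z hz => hz.2.1)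
  obtain ⟨α, -, hαe⟩ := h.lt_const (f := fun z => (F z).2.2.2)
    (hF.mono fun z hz => hz.2.2.2.1.trans hz.2.1)
  obtain ⟨i, -, hie⟩ := h.lt_const (f := fun z => (F z).2.2.1)
    ((hF.and h.good).mono fun z hz => hz.1.2.2.1.trans hz.2.rho_lt)
  obtain ⟨q, hq, hqe⟩ := h.capt_const (F := fun z => (F z).1) (hF.mono fun z hz => hz.1)
  obtain ⟨z₀, hz₀, e1, e2, e3⟩ := (hF.and (hβe.and (hαe.and hie))).exists
  have hi : i < rho := e3 ▸ hz₀.2.2.1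
  have hα : α < β := e1 ▸ e2 ▸ hz₀.2.2.2.1
  obtain ⟨q₁, hq₁, hle, hWq⟩ := hW.dns β hβ i hi α hα q hq
  obtain ⟨a, ha, haD, hWa, r, hr, hr1, hr2⟩ := hα₀ β hβ i hi α hα q₁ hq₁ hWq
  obtain ⟨z, hz, f1, f2, f3, f4, f5, f6⟩ :=
    (hF.and (hβe.and (hαe.and (hie.and (hqe.and ((h.capt ha).and (h.capt hr))))))).exists
  refine hz.2.2.2.2 ⟨a, r, f5, haD, f6, ?_, hr2, ?_⟩
  · rw [Cond.le_def, f4]
    exact hr1.trans hle
  · rw [f1, f2, f3]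
    exact hWa

theorem tp_sys (h : HugeData U) {W : Λ → Λ → Λ → Λ → Cond Λ → Prop} (hW : Sys W) {p₀ : Cond Λ}
    (hp₀ : Valid p₀) : ∃ q, Valid q ∧ q ≤ p₀ ∧ ∃ B, Thr kap W B q := by
  obtain ⟨α₀, hD, hα₀⟩ := tree_alpha h W hp₀
  have h1 : ∀ᶠ z in (U : Filter (Set Λ)), ∃ x : Cond Λ × (Λ → Λ → Cond Λ → Prop),
      Capt z x.1 ∧ x.1 ≤ p₀ ∧
      (∀ β j p p', Capt z p' → p' ≤ p → x.2 β j p → x.2 β j p') ∧
      (∀ β < mu z, ∀ p, Capt z p → p ≤ x.1 →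
        ∃ p', Capt z p' ∧ p' ≤ p ∧ ∃ j < rho, x.2 β j p') ∧
      (∀ β j j' p, Capt z p → x.2 β j p → x.2 β j' p → j = j') ∧
      ∀ β j α k k' p, α < β → Capt z p → x.2 β j p → x.2 α k p → W β j α k' p → k = k' := by
    filter_upwards [h.good, h.fine α₀, tree_star h hW hα₀, h.capt hp₀] with z hz hz1 hz2 hz3
    obtain ⟨q, hq, hle, B, hB⟩ := local_thread hz h.kp hW hz1 hz2 hz3 hD
    exact ⟨(q, B), hq, hle, hB⟩
  obtain ⟨F, hF⟩ := h1.choice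
  obtain ⟨q, hq, hqe⟩ := h.capt_const (F := fun z => (F z).1) (hF.mono fun z hz => hz.1)
  refine ⟨q, hq, ?_, fun β j p => ∃ r, Valid r ∧ p ≤ r ∧
    ∀ᶠ z in (U : Filter (Set Λ)), (F z).2 β j r, ?_, ?_, ?_, ?_⟩
  · obtain ⟨z, hz, e⟩ := (hF.and hqe).exists
    rw [Cond.le_def, ← e]
    exact hz.2.1
  · rintro β j p p' - hle ⟨r, hr, hpr, hB⟩
    exact ⟨r, hr, hle.trans hpr, hB⟩
  · intro β hβ p hp hle
    have h2 : ∀ᶠ z in (U : Filter (Set Λ)), ∃ y : Cond Λ × Λ, Capt z y.1 ∧ y.1 ≤ p ∧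
        y.2 < rho ∧ (F z).2 β y.2 y.1 := by
      filter_upwards [hF, hqe, h.lt_mu hβ, h.capt hp] with z hz e hz1 hz2
      obtain ⟨p', hp', hle', j, hj, hB⟩ := hz.2.2.2.1 β hz1 p hz2 (by
        rw [Cond.le_def, e]
        exact hle)
      exact ⟨(p', j), hp', hle', hj, hB⟩
    obtain ⟨G, hG⟩ := h2.choice
    obtain ⟨r, hr, hre⟩ := h.capt_const (F := fun z => (G z).1) (hG.mono fun z hz => hz.1)
    obtain ⟨j, -, hje⟩ := h.lt_const (f := fun z => (G z).2)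
      ((hG.and h.good).mono fun z hz => hz.1.2.2.1.trans hz.2.rho_lt)
    obtain ⟨z₀, hz₀, e1, e2⟩ := (hG.and (hre.and hje)).exists
    refine ⟨r, hr, ?_, j, e2 ▸ hz₀.2.2.1, r, hr, le_rfl, ?_⟩
    · rw [Cond.le_def, ← e1]
      exact hz₀.2.1
    · filter_upwards [hF, hG, hre, hje, h.capt hr] with z hz hz' f1 f2 f3
      refine hz.2.2.1 β j (G z).1 r f3 ?_ (f2 ▸ hz'.2.2.2)
      rw [Cond.le_def, f1]
  · rintro β j j' p hp - ⟨r, -, hpr, hB⟩ ⟨r', -, hpr', hB'⟩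
    obtain ⟨z, hz, f1, f2, f3⟩ := (hF.and (hB.and (hB'.and (h.capt hp)))).exists
    exact hz.2.2.2.2.1 β j j' p f3 (hz.2.2.1 β j r p f3 hpr f1) (hz.2.2.1 β j' r' p f3 hpr' f2)
  · rintro β j α k k' p hα hp - ⟨r, -, hpr, hB⟩ ⟨r', -, hpr', hB'⟩ hw
    obtain ⟨z, hz, f1, f2, f3⟩ := (hF.and (hB.and (hB'.and (h.capt hp)))).exists
    exact hz.2.2.2.2.2 β j α k k' p hα f3 (hz.2.2.1 β j r p f3 hpr f1)
      (hz.2.2.1 α k r' p f3 hpr' f2) hw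

/-- A system below `p₀` is made total by a trivial value off `p₀`. -/
theorem tree_sys (W : Λ → Λ → Λ → Λ → Cond Λ → Prop) (p₀ : Cond Λ)
    (h1 : ∀ β i α j, AOpen Valid (· ≤ ·) (W β i α j))
    (h2 : ∀ β i α j j' p, Valid p → p ≤ p₀ → W β i α j p → W β i α j' p → j = j')
    (h3 : ∀ β < kap, ∀ i < rho, ∀ α < β,
      ABelow Valid (· ≤ ·) p₀ fun p => ∃ j < rho, W β i α j p)
    (h4 : ∀ γ i β j α k k' p, α < β → β < γ → Valid p → p ≤ p₀ →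
      W γ i β j p → W β j α k p → W γ i α k' p → k = k') :
    Sys fun β i α j p => (p ≤ p₀ ∧ W β i α j p) ∨ (¬ Cmp p p₀ ∧ j = ⊥) := by
  have key : ∀ p : Cond Λ, Valid p → p ≤ p₀ → Cmp p p₀ := fun p hp hle => ⟨p, hp, le_rfl, hle⟩
  refine ⟨?_, ?_, ?_, ?_⟩
  · rintro β i α j p q hq hle (⟨a, b⟩ | ⟨a, b⟩)
    · exact Or.inl ⟨hle.trans a, h1 β i α j p q hq hle b⟩
    · exact Or.inr ⟨fun ⟨r, hr, hr1, hr2⟩ => a ⟨r, hr, hr1.trans hle, hr2⟩, b⟩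
  · rintro β i α j j' p hp (⟨a, b⟩ | ⟨a, b⟩) (⟨a', b'⟩ | ⟨a', b'⟩)
    · exact h2 β i α j j' p hp a b b'
    · exact absurd (key p hp a) a'
    · exact absurd (key p hp a') a
    · rw [b, b']
  · intro β hβ i hi α hα p hp
    by_cases hc : Cmp p p₀
    · obtain ⟨r, hr, hr1, hr2⟩ := hc
      obtain ⟨q, hq, hle, j, hj, hw⟩ := h3 β hβ i hi α hα r hr hr2
      exact ⟨q, hq, le_trans hle hr1, j, hj, Or.inl ⟨le_trans hle hr2, hw⟩⟩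
    · exact ⟨p, hp, le_rfl, ⊥, bot_lt_rho, Or.inr ⟨hc, rfl⟩⟩
  · rintro γ i β j α k k' p hα hβ hp hw (⟨a, b⟩ | ⟨a, b⟩) (⟨a', b'⟩ | ⟨a', b'⟩)
    · rcases hw with ⟨-, c⟩ | ⟨c, -⟩
      · exact h4 γ i β j α k k' p hα hβ hp a c b b'
      · exact absurd (key p hp a) c
    · exact absurd (key p hp a) a'
    · exact absurd (key p hp a') a
    · rw [b, b']

theorem tp_main (h : HugeData U) (W : Λ → Λ → Λ → Λ → Cond Λ → Prop) (p₀ : Cond Λ)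
    (hp₀ : Valid p₀) (h1 : ∀ β i α j, AOpen Valid (· ≤ ·) (W β i α j))
    (h2 : ∀ β i α j j' p, Valid p → p ≤ p₀ → W β i α j p → W β i α j' p → j = j')
    (h3 : ∀ β < kap, ∀ i < rho, ∀ α < β,
      ABelow Valid (· ≤ ·) p₀ fun p => ∃ j < rho, W β i α j p)
    (h4 : ∀ γ i β j α k k' p, α < β → β < γ → Valid p → p ≤ p₀ →
      W γ i β j p → W β j α k p → W γ i α k' p → k = k') :
    ∃ q, Valid q ∧ q ≤ p₀ ∧ ∃ B : Λ → Λ → Cond Λ → Prop,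
      (∀ β j, AOpen Valid (· ≤ ·) (B β j)) ∧
      (∀ β < kap, ABelow Valid (· ≤ ·) q fun p => ∃ j < rho, B β j p) ∧
      (∀ β j j' p, Valid p → p ≤ q → B β j p → B β j' p → j = j') ∧
      ∀ β j α k k' p, α < β → Valid p → p ≤ q → B β j p → B α k p → W β j α k' p → k = k' := by
  obtain ⟨q, hq, hle, B, hB⟩ := tp_sys h (tree_sys W p₀ h1 h2 h3 h4) hp₀
  exact ⟨q, hq, hle, B, hB.opn, hB.dns, hB.fn, fun β j α k k' p hα hp hpq b1 b2 hw =>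
    hB.thr β j α k k' p hα hp hpq b1 b2 (Or.inl ⟨hpq.trans hle, hw⟩)⟩

end Pool.Agent.P.MP_a18ac8_lc
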