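import Pool.Agent.P.MP_a18ac8_lc.Huge
import Pool.Agent.P.MP_a18ac8_lc.Tree
import Pool.Agent.P.MP_a18ac8_lc.Ideal
import Pool.Agent.P.MP_a18ac8_lc.Collapse
import Pool.Agent.P.MP_a18ac8_lc.TUniv
import Pool.Agent.P.MP_a18ac8_lc.TCard
import Pool.Agent.P.MP_a18ac8_lc.TTree
import Pool.Agent.P.MP_a18ac8_lc.TIdeal

/-!
Assembly: from a huge cardinal to a model with the tree property and a saturated ideal on the
second uncountable cardinal.
-/

universe u

namespace Pool.Agent.P.MP_a18ac8_lc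

open ZFSet Pool.Agent.Lib.Forcing Pool.Agent.P.MP_af0a18_lc

theorem iface_of_hugeData {Λ : Type u} [ConditionallyCompleteLinearOrderBot Λ] [WellFoundedLT Λ]
    [Ctx Λ] {U : Ultrafilter (Set Λ)} (h : HugeData U) :
    Iface (rho : Λ) kap (Valid : Cond Λ → Prop) (· ≤ ·) where
  ne := ⟨_, (term_empty Set.univ).1⟩
  refl := le_refl
  trans := fun _ _ _ => le_trans
  unc := aleph0_lt_rho
  lt := Ctx.rho_lt
  col_rho := col_rho
  col_kap := col_kap
  col_lam := col_lam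
  pres_rho := pres_rho
  pres_kap := pres_kap h.kp
  tp := tp_main h
  ideal := ideal_main h

theorem exists_model {κ : Cardinal.{u}} (h : IsHuge κ) :
    ∃ N : Set ZFSet.{u}, IsZFModel N ∧ Choice N ∧ ∃ ν ∈ N, ∃ κ ∈ N,
      IsSuccCard N omega ν ∧ IsSuccCard N ν κ ∧ TreeProperty N κ ∧
      ∃ I ∈ N, IsSaturatedIdeal N κ I := by
  obtain ⟨Λ, _, _, _, U, hU⟩ := exists_hugeData h
  obtain ⟨M, j, hMc, hj⟩ := exists_countable_isElem.{u}
  have hM := hj.isZFModel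
  have := hM.zfm
  obtain ⟨w, -, ν, hν, k, hk, lam, hlam, P, hPM, le, hle, J, hJ, h1, ho, h2, h3, h4, g4,
    ⟨⟨p0, hp0, -⟩, g5a, g5b, g5c⟩, c1, c2, c3, p1, p2, ht, ia, ib, ic⟩ :=
    hj.sentence TGood (tgood_univ (iface_of_hugeData hU))
  obtain rfl := isOmega_iff.1 h1
  have hP : IsForcing P le := ⟨fun z hz => mem_prod.2 (g5a z hz), g5b,
    fun p q r h h' => g5c r q h p h'⟩
  obtain ⟨H, -, hH⟩ := exists_generic hMc hP hp0
  have hN := hM.genericExt hP hPM hle hH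
  have := hN.zfm
  have hMN := subset_genericExt hP hPM hH
  have enum : ∀ x ∈ genericExt M H, ∃ α ∈ genericExt M H, α.IsOrdinal ∧
      Surj (genericExt M H) α x := by
    intro x hx
    obtain ⟨T, hT, v, hv, h5, h6⟩ := Pool.Agent.Lib.Forcing.exists_cover hP hPM hH hx
    obtain ⟨α, hα, ho, r, hr, h7, h8⟩ := g4 T hT
    exact ⟨α, hMN hα, ho, Surj.trans (hMN hα) hx ⟨r, hMN hr, h7, h8⟩
      ⟨v, hv, fun a b h c h' => h5 a b c h h', h6⟩⟩
  have E : Ext' M (genericExt M H) P le H := ⟨hM, hN, hP, hPM, hle, hH, hMN,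
    generic_mem hP hPM hH, fun Z hZ a ha => by
      obtain ⟨S, g1, g2, g3, g4⟩ := exists_nice hP hPM hle hH hZ ha
      exact ⟨S, g1, g2, fun x p h q h' => g3 x p q h h', g4⟩, enum⟩
  obtain ⟨k1, k2, k3, k4⟩ := card_part E hlam ho h2 h3 h4 c1 c2 c3 p1 p2
  exact ⟨_, hN, choice_of_enum enum, ν, hMN hν, k, hMN hk, k1, k2,
    tree_part E hk (ho.mem h4) h2 h3 k3 ht, ideal_part E hlam ho h4 hJ k4 ia ib ic⟩

end Pool.Agent.P.MP_a18ac8_lc
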