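import Pool.Agent.P.MP_a18ac8_lc.Easton

set_option linter.unusedSectionVars false

universe u

namespace Pool.Agent.P.MP_a18ac8_lc

open Cardinal Set Sum Filter

variable {Λ : Type u} [ConditionallyCompleteLinearOrderBot Λ] [WellFoundedLT Λ]

variable [Ctx Λ] {z : Set Λ} {p q q' : Cond Λ} {α : Λ}

/-- The coordinates inside `z`: its columns, its small subsets and its chain. -/
def S0 (z : Set Λ) : Set (Co Λ) := Sp z {x | x ⊆ z ∧ #x < crd (mu z)} ∪ Ch z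

theorem S0_subset_S1 (z : Set Λ) : S0 z ⊆ S1 z :=
  union_subset_union_left _ (Sp_mono (subset_univ _) fun _ h => h.2)

/-- The columns and the small subsets of `z`. -/
abbrev piT (z : Set Λ) : Set (Co Λ) := Sp z {x | x ⊆ z ∧ #x < crd (mu z)}

theorem pi_not_ini {x x' : Set Λ} (h : #x < crd (mu x')) : ¬ Ini x x' := fun hi =>
  absurd (hi.1 ▸ crd_mu_le x) (not_le.2 h)

theorem pi_not_univ {x : Set Λ} (h : #x < crd (kap : Λ)) : ¬ Ini x univ :=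
  pi_not_ini (by rwa [mu_univ])

theorem pi_T_Lev (z : Set Λ) : piT z ⊆ Lev (crd (kap : Λ)) :=
  Sp_mono (subset_univ _) fun _ h => h.2.trans_le (crd_mono (mu_le_kap z))

theorem pi_Sp_T {y : Set Λ} (hy : y ⊆ z) (hc : #y < crd (mu z)) : Sp y (𝒫 y) ⊆ piT z :=
  Sp_mono hy fun _ h => ⟨Subset.trans h hy, (mk_le_mk_of_subset h).trans_lt hc⟩

theorem pi_mu (hz : GoodZ z) {σ : Λ} (hσ : kap ≤ σ) : mu (z ∩ Iio σ) = mu z :=
  mu_eq (fun _ h => ⟨mem_of_lt_mu h, (lt_trans h hz.lt).trans_le hσ⟩) (mu_le_kap z)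
    (Or.inl fun h => mu_notMem hz.lt h.1)

theorem pi_ini (hz : GoodZ z) {σ : Λ} (hσ : kap ≤ σ) : Ini (z ∩ Iio σ) z :=
  ⟨pi_mu hz hσ, inter_subset_left, fun _ ha _ hb h => ⟨ha, lt_trans h hb.2⟩⟩

theorem pi_node (hz : GoodZ z) {σ : Λ} (h : σ ∈ z) (hσ : kap ≤ σ) : Node (z ∩ Iio σ) := by
  refine ⟨?_, ?_, Or.inl (hz.seg σ h)⟩ <;> rw [pi_mu hz hσ]
  exacts [hz.inac.reg, hz.rho_lt.le]

theorem pi_sInf {σ : Λ} (h : σ ∈ z) : sInf (z \ (z ∩ Iio σ)) = σ :=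
  IsLeast.csInf_eq ⟨⟨h, fun h' => lt_irrefl σ h'.2⟩, fun _ ha => not_lt.1 fun h' => ha.2 ⟨ha.1, h'⟩⟩

theorem pi_small (hz : GoodZ z) {x : Set Λ} (hx : Node x) (hi : Ini x z) :
    #x < crd (kap : Λ) := by
  rcases hx.small_or with h | ⟨σ, hσ, rfl⟩
  · exact h.1
  · exact absurd (hi.1.symm.trans (mu_Iio hσ)) hz.lt.ne

theorem pi_chain (hz : GoodZ z) {x : Set Λ} (hx : Node x) (hi : Ini x z) :
    ∃ σ ∈ z, kap ≤ σ ∧ x = z ∩ Iio σ := by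
  obtain ⟨a, ha, ha'⟩ := exists_notMem_of_lt (s := x) (t := z) (hz.card ▸ pi_small hz hx hi)
  have hm : sInf (z \ x) ∈ z \ x := csInf_mem ⟨a, ha, ha'⟩
  refine ⟨_, hm.1, not_lt.1 fun h => hm.2 (mem_of_lt_mu (hi.1 ▸ hz.inter _ hm.1 h)), ?_⟩
  ext b
  constructor
  · intro hb
    refine ⟨hi.2.1 hb, lt_of_not_ge fun h => hm.2 ?_⟩
    rcases h.eq_or_lt with h | h
    · rwa [h]
    · exact hi.2.2 _ hm.1 b hb h
  · rintro ⟨hb, hb'⟩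
    by_contra hx'
    exact absurd (csInf_le' (s := z \ x) ⟨hb, hx'⟩) (not_le.2 hb')

theorem pi_st (σ : Λ) : st (Iio σ) ⊆ Iio σ :=
  union_subset Subset.rfl fun _ h => lt_of_not_ge fun h' => absurd (crd_mono h') (not_le.2 h)

theorem pi_st_z (hz : GoodZ z) {x : Set Λ} (hx : x ⊆ z) (hc : #x < crd (mu z)) : st x ⊆ z :=
  union_subset hx fun _ h => mem_of_lt_mu (hz.inac.reg.crd_lt_iff.1 (lt_trans h hc))

theorem pi_Sp_inter {Y Y' W : Set Λ} {N N' M : Set (Set Λ)} (h : ∀ a ∈ Y, a ∈ Y' → a ∈ W)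
    (h' : ∀ a ∈ N, a ∈ N' → a ∈ M) : Sp Y N ∩ Sp Y' N' ⊆ Sp W M := by
  rintro (k | k) ⟨h1, h2⟩
  exacts [h _ h1 h2, ⟨h' _ h1.1 h2.1, h1.2⟩]

open Classical in
/-- Moving the big nodes down to the chain of `z`. -/
noncomputable def piDn (z : Set Λ) : Co Λ → Co Λ
  | inl k => inl k
  | inr k => if Ini k.1 univ then inr (z ∩ k.1, k.2) else inr k

open Classical in
/-- Moving the chain of `z` up to the big nodes. -/
noncomputable def piUp (z : Set Λ) : Co Λ → Co Λ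
  | inl k => inl k
  | inr k => if Ini k.1 z then inr (Iio (sInf (z \ k.1)), k.2) else inr k

theorem pi_phi (z : Set Λ) (ω : Pt Λ) (c : Co Λ) : (phi z ω).f c = ω.f (piDn z c) := by
  rcases c with k | k
  · rfl
  · simp only [phi, piDn]
    split_ifs <;> rfl

theorem pi_dn_small {c : Co Λ} (h : c ∈ Lev (crd (kap : Λ))) : piDn z c = c := by
  rcases c with k | k
  · rfl
  · exact if_neg (pi_not_univ h.1)

theorem pi_up_small {c : Co Λ} (h : c ∈ piT z) : piUp z c = c := by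
  rcases c with k | k
  · rfl
  · exact if_neg (pi_not_ini h.1.2)

theorem pi_dn_big {σ : Λ} (hσ : kap ≤ σ) (ζ : Λ) :
    piDn z (inr (Iio σ, ζ)) = inr (z ∩ Iio σ, ζ) := if_pos (node_Iio hσ).2

theorem pi_up_big (hz : GoodZ z) {σ : Λ} (h : σ ∈ z) (hσ : kap ≤ σ) (ζ : Λ) :
    piUp z (inr (z ∩ Iio σ, ζ)) = inr (Iio σ, ζ) := by
  rw [piUp, if_pos (pi_ini hz hσ), pi_sInf h]

theorem pi_dep_phi {t : Pt Λ → Λ} (h : Dep t (piT z)) (ω : Pt Λ) : t (phi z ω) = t ω :=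
  h _ _ fun c hc => by rw [pi_phi, pi_dn_small (pi_T_Lev z hc)]

/-- The coordinates of a captured condition. -/
theorem pi_capt (hz : GoodZ z) (hq : Valid q) {y : Set Λ} (hy : y ⊆ z) (hc : #y < crd (mu z))
    (hl : Lives q y) {c : Co Λ} (h : c ∈ q.D) : c ∈ piT z ∨
      ∃ σ ∈ y, kap ≤ σ ∧ ∃ ζ ∈ y, ζ < mu z ∧ c = inr (Iio σ, ζ) := by
  rcases c with k | ⟨x, ζ⟩
  · exact Or.inl (hy (hl.2 _ h).1)
  · obtain ⟨h1, h2 | ⟨σ, h2, h3, rfl⟩⟩ := (hl.2 _ h).1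
    · exact Or.inl ⟨⟨h2.trans hy, (mk_le_mk_of_subset h2).trans_lt hc⟩, (hq.node h).2.2⟩
    · exact Or.inr ⟨σ, h2, h3, ζ, h1, hz.inter _ (hy h1) (mu_Iio h3 ▸ (hq.node h).2.1), rfl⟩

/-- The coordinates of a condition inside `z`. -/
theorem pi_S0 (hz : GoodZ z) (hp : Valid p) {c : Co Λ} (h : c ∈ p.D) (h' : c ∈ S0 z) :
    c ∈ piT z ∨ ∃ σ ∈ z, kap ≤ σ ∧ ∃ ζ < mu z, c = inr (z ∩ Iio σ, ζ) := by
  rcases h' with h' | ⟨x, ζ, rfl, hi, -⟩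
  · exact Or.inl h'
  · obtain ⟨σ, h1, h2, rfl⟩ := pi_chain hz (hp.node h).1 hi
    exact Or.inr ⟨σ, h1, h2, ζ, hi.1 ▸ (hp.node h).2.1, rfl⟩

theorem VL_of_S0 (hz : GoodZ z) (hp : Valid p) (hD : p.D ⊆ S0 z) : VL kap p := by
  refine ⟨hp, fun c hc => ?_⟩
  rcases pi_S0 hz hp hc (hD hc) with h | ⟨σ, h1, -, ζ, -, rfl⟩
  · exact pi_T_Lev z h
  · exact ⟨hz.seg σ h1, (hp.node hc).2.2⟩

theorem pi_dep_T (hz : GoodZ z) (hp : Valid p) (hu : Ust z p) {c : Co Λ} (h : c ∈ p.D)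
    (h' : c ∈ S0 z) : Dep (p.r c) (piT z) := by
  rcases c with k | ⟨x, ζ⟩
  · obtain ⟨v, -, hv⟩ := hp.name h
    exact fun ω ω' _ => (hv ω).trans (hv ω').symm
  · rcases h' with h' | ⟨x, ζ, e, hi, -⟩
    · exact (hp.name h).2.2.1.dep.mono (Sp_mono (pi_st_z hz h'.1.1 h'.1.2) fun x' hx' =>
        ⟨hx'.1.trans h'.1.1, (mk_le_mk_of_subset hx'.1).trans_lt h'.1.2⟩)
    · cases e
      exact (hu _ _ h hi).mono (Sp_mono hi.2.1 fun x' hx' =>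
        ⟨hx'.1.trans hi.2.1, hi.1 ▸ hx'.2⟩)

theorem dep_S0 (hz : GoodZ z) (hp : Valid p) (hu : Ust z p) :
    ∀ c ∈ p.D ∩ S0 z, Dep (p.r c) (S0 z) := fun _ hc =>
  (pi_dep_T hz hp hu hc.1 hc.2).mono subset_union_left

/-- Few unsteered names on one chain form a term. -/
theorem pi_term {x' : Set Λ} {t : Cond Λ} (hc : #(t.D) < crd (mu x'))
    (h : ∀ c ∈ t.D, Name c (t.r c) ∧ ∃ x ζ, c = inr (x, ζ) ∧ Ini x x' ∧ Dep (t.r c) (Un x)) :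
    Term x' t := by
  refine ⟨valid_iff.2 ⟨⟨?_, ⟨{x'}, ?_, ?_⟩, ?_⟩, ?_, fun c hc => (h c hc).1⟩,
    fun c hc => (h c hc).2⟩
  · refine finite_empty.subset ?_
    rintro c ⟨h1, h2⟩
    obtain ⟨-, x, ζ, rfl, -⟩ := h c h1
    exact absurd h2 notMem_Fn_inr
  · rw [mk_singleton]
    exact one_lt_aleph0.trans aleph0_lt_rho
  · intro x ζ hx
    obtain ⟨-, x, ζ, e, hi, -⟩ := h _ hx
    cases e
    exact ⟨x', rfl, hi⟩
  · intro ν hν _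
    by_cases e : ν = mu x'
    · exact (mk_le_mk_of_subset (sep_subset _ _)).trans_lt (e ▸ hc)
    · refine lt_of_eq_of_lt (mk_set_eq_zero_iff.2 (eq_empty_of_forall_notMem ?_)) hν.1.pos
      rintro c ⟨h1, x, ζ, rfl, h2⟩
      obtain ⟨-, x, ζ, e', hi, -⟩ := h _ h1
      cases e'
      exact e (h2.symm.trans hi.1)
  · intro x'' s ω h1 h2
    refine ⟨s, ω, h1, h2, Subset.rfl, fun _ _ => rfl, fun x ζ hx _ => ?_⟩
    obtain ⟨-, x, ζ, e, -, hd⟩ := h _ hx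
    cases e
    exact hd.depIn

theorem pi_card_prod {c : Cardinal.{u}} (hc : ℵ₀ ≤ c) {s t : Set Λ} (hs : #s < c) (ht : #t < c)
    (f : Λ × Λ → Co Λ) {D : Set (Co Λ)} (h : D ⊆ f '' s ×ˢ t) : #D < c :=
  ((mk_le_mk_of_subset h).trans mk_image_le).trans_lt (by
    rw [mk_setProd]
    exact mul_lt_of_lt hc hs ht)

theorem push (hz : GoodZ z) (hq : Capt z q) :
    ∃ p, Valid p ∧ p.D ⊆ S0 z ∧ Ust z p ∧ p.set = phi z ⁻¹' q.set := by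
  obtain ⟨hq, y, hy, hc, hl⟩ := hq
  have hud : ∀ c ∈ q.D, piUp z (piDn z c) = c := by
    intro c h
    rcases pi_capt hz hq hy hc hl h with h' | ⟨σ, h1, h2, ζ, -, -, rfl⟩
    · rw [pi_dn_small (pi_T_Lev z h'), pi_up_small h']
    · rw [pi_dn_big h2, pi_up_big hz (hy h1) h2]
  set p : Cond Λ := ⟨piDn z '' q.D, fun c => q.r (piUp z c)⟩ with hp
  have key : ∀ c ∈ p.D, (c ∈ piT z ∧ c ∈ q.D ∧ p.r c = q.r c) ∨
      ∃ σ ∈ y, kap ≤ σ ∧ ∃ ζ ∈ y, c = inr (z ∩ Iio σ, ζ) ∧ ζ ∈ z ∩ Iio σ ∧ Name c (p.r c) ∧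
        Dep (p.r c) (Un (z ∩ Iio σ)) := by
    rintro _ ⟨c, h, rfl⟩
    have e : p.r (piDn z c) = q.r c := congrArg q.r (hud c h)
    rw [e]
    rcases pi_capt hz hq hy hc hl h with h' | ⟨σ, h1, h2, ζ, h3, h4, rfl⟩
    · rw [pi_dn_small (pi_T_Lev z h')]
      exact Or.inl ⟨h', h, rfl⟩
    · rw [pi_dn_big h2]
      obtain ⟨-, -, ⟨y', hy', -, hd, hv⟩, hdec⟩ := hq.name h
      have hd' : Dep (q.r (inr (Iio σ, ζ))) (Sp (y ∩ Iio σ) (𝒫 (y ∩ Iio σ))) :=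
        ((hl.2 _ h).2.1.inter hd).mono (pi_Sp_inter (fun a h5 h6 => ⟨h5, pi_st σ (hy' h6)⟩)
          fun a h5 h6 => subset_inter h5 (Subset.trans h6 inter_subset_right))
      have hs : y ∩ Iio σ ⊆ z ∩ Iio σ := inter_subset_inter_left _ hy
      have hs' : #↥(y ∩ Iio σ) < crd (mu (z ∩ Iio σ)) := by
        rw [pi_mu hz h2]
        exact (mk_le_mk_of_subset inter_subset_left).trans_lt hc
      refine Or.inr ⟨σ, h1, h2, ζ, h3, rfl, ⟨hy h3, (hq.node h).2.2⟩, ⟨pi_node hz (hy h1) h2,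
        (pi_mu hz h2).symm ▸ h4, ⟨y ∩ Iio σ, hs.trans subset_union_left, hs', ?_, fun ω => ?_⟩,
        hdec⟩, hd'.mono (Sp_mono hs fun a ha => ⟨Subset.trans ha hs,
          (mk_le_mk_of_subset ha).trans_lt hs'⟩)⟩
      · rwa [inter_eq_self_of_subset_left hs]
      · rw [inter_eq_self_of_subset_left hs]
        exact ⟨(hl.2 _ h).2.2 ω, (hv ω).2⟩
  have key2 : ∀ c ∈ p.D, c ∉ piT z →
      ∃ σ ∈ y, kap ≤ σ ∧ ∃ ζ ∈ y, c = inr (z ∩ Iio σ, ζ) ∧ ζ ∈ z ∩ Iio σ ∧ Name c (p.r c) ∧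
        Dep (p.r c) (Un (z ∩ Iio σ)) := fun c h h' => (key c h).resolve_left fun h'' => h' h''.1
  have ht : Term z (p.res (piT z)ᶜ) := by
    refine pi_term (pi_card_prod hz.inac.reg.1.aleph0_le hc hc
      (fun k => inr (z ∩ Iio k.1, k.2)) ?_) ?_
    · rintro c ⟨h, h'⟩
      obtain ⟨σ, h1, -, ζ, h3, rfl, -⟩ := key2 c h h'
      exact ⟨(σ, ζ), ⟨h1, h3⟩, rfl⟩
    · rintro c ⟨h, h'⟩
      obtain ⟨σ, -, h2, ζ, -, rfl, -, h4, h5⟩ := key2 c h h'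
      exact ⟨h4, _, _, rfl, pi_ini hz h2, h5⟩
  refine ⟨p, hq.of_pieces ht.1 fun c h => ?_, fun c h => ?_, fun x ζ h hi => ?_, ?_⟩
  · by_cases h' : c ∈ piT z
    · rcases key c h with h1 | ⟨σ, -, h2, ζ, -, rfl, -⟩
      · exact Or.inl h1.2
      · exact absurd (pi_ini hz h2) (pi_not_ini h'.1.2)
    · exact Or.inr ⟨⟨h, h'⟩, rfl⟩
  · rcases key c h with h1 | ⟨σ, -, h2, ζ, -, rfl, h3, -⟩
    · exact Or.inl h1.1
    · exact Or.inr ⟨_, _, rfl, pi_ini hz h2, h3⟩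
  · obtain ⟨σ, -, -, ζ, -, e, -, -, h5⟩ := key2 _ h fun h' => pi_not_ini h'.1.2 hi
    cases e
    exact h5
  · ext ω
    simp only [Cond.set, hp, mem_preimage, mem_ofPred_eq, forall_mem_image]
    refine forall₂_congr fun c h => ?_
    rw [hud c h, pi_phi, pi_dep_phi ((hl.2 c h).2.1.mono (pi_Sp_T hy hc))]

theorem pi_CY_mono {y y' : Set Λ} (h : y ⊆ y') : CY y ⊆ CY y' := by
  rintro (k | k) hk
  · exact h hk
  · exact ⟨h hk.1, hk.2.imp (fun h' => h'.trans h) fun ⟨σ, h1, h2⟩ => ⟨σ, h h1, h2⟩⟩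

theorem pull (hz : GoodZ z) (hp : Valid p) (hD : p.D ⊆ S0 z) (hu : Ust z p) :
    ∃ q, Capt z q ∧ p.set = phi z ⁻¹' q.set := by
  have hr := hz.inac.reg
  have hkr : crd (mu z) ≤ crd (kap : Λ) := crd_mono hz.lt.le
  have hdu : ∀ c ∈ p.D, piDn z (piUp z c) = c := by
    intro c h
    rcases pi_S0 hz hp h (hD h) with h' | ⟨σ, h1, h2, ζ, -, rfl⟩
    · rw [pi_up_small h', pi_dn_small (pi_T_Lev z h')]
    · rw [pi_up_big hz h1 h2, pi_dn_big h2]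
  have hcard : #(p.D) < crd (mu z) := by
    refine (mk_le_mk_of_subset ?_).trans_lt (card_union_lt hr.1.aleph0_le
      (hp.card_dom hr.1 (crd_mono hz.rho_lt.le)) (hp.domOK.2.2 _ hr hz.rho_lt.le))
    intro c h
    rcases S0_subset_S1 z (hD h) with h' | ⟨x, ζ, rfl, hi, -⟩
    exacts [Or.inl ⟨h, h'⟩, Or.inr ⟨h, x, ζ, rfl, hi.1⟩]
  have big : ∀ σ ζ, inr (z ∩ Iio σ, ζ) ∈ p.D → kap ≤ σ → ∃ y ⊆ z ∩ Iio σ, #y < crd (mu z) ∧
      Dep (p.r (inr (z ∩ Iio σ, ζ))) (Sp y (𝒫 y)) ∧ ∀ ω, p.r (inr (z ∩ Iio σ, ζ)) ω ∈ y := by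
    intro σ ζ h h2
    obtain ⟨-, -, ⟨y, -, hy, hd, hv⟩, -⟩ := hp.name h
    refine ⟨y ∩ (z ∩ Iio σ), inter_subset_right,
      (mk_le_mk_of_subset inter_subset_left).trans_lt (pi_mu hz h2 ▸ hy), ?_, hv⟩
    exact (hd.inter (hu _ _ h (pi_ini hz h2))).mono
      (pi_Sp_inter (fun a h5 h6 => ⟨h5, h6⟩) fun a h5 _ => h5)
  set q : Cond Λ := ⟨piUp z '' p.D, fun c => p.r (piDn z c)⟩ with hq
  have ht : Term univ (q.res (piT z)ᶜ) := by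
    refine pi_term ?_ ?_
    · rw [mu_univ]
      exact ((mk_le_mk_of_subset inter_subset_left).trans mk_image_le).trans_lt
        (hcard.trans_le hkr)
    · rintro _ ⟨⟨c, h, rfl⟩, h'⟩
      have e : (q.res (piT z)ᶜ).r (piUp z c) = p.r c := congrArg p.r (hdu c h)
      rw [e]
      rcases pi_S0 hz hp h (hD h) with h1 | ⟨σ, h1, h2, ζ, h3, rfl⟩
      · rw [pi_up_small h1] at h'
        exact absurd h1 h'
      · rw [pi_up_big hz h1 h2]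
        obtain ⟨y, hy, hc, hd, hv⟩ := big σ ζ h h2
        have hs : y ⊆ Iio σ := hy.trans inter_subset_right
        have hs' : #y < crd (mu (Iio σ)) := by
          rw [mu_Iio h2]
          exact hc.trans_le hkr
        refine ⟨⟨(node_Iio h2).1, (mu_Iio h2).symm ▸ h3.trans hz.lt,
          ⟨y, hs.trans subset_union_left, hs', ?_, ?_⟩, (hp.name h).2.2.2⟩, _, _, rfl,
          (node_Iio h2).2, hd.mono (Sp_mono hs fun a ha => ⟨Subset.trans ha hs,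
            (mk_le_mk_of_subset ha).trans_lt hs'⟩)⟩ <;>
        rwa [inter_eq_self_of_subset_left hs]
  have hrz : Iio rho ⊆ z := fun a ha => mem_of_lt_mu (lt_trans ha hz.rho_lt)
  have hrc : #(Iio (rho : Λ)) < crd (mu z) := hr.2 _ hz.rho_lt
  have hY : ∀ c : Co Λ, ∃ Y : Set Λ, c ∈ p.D → Y ⊆ z ∧ #Y < crd (mu z) ∧ piUp z c ∈ CY Y ∧
      Dep (p.r c) (Sp Y (𝒫 Y)) ∧ ∀ ω, p.r c ω ∈ Y := by
    intro c
    by_cases h : c ∈ p.D
    swap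
    · exact ⟨∅, fun h' => absurd h' h⟩
    rcases pi_S0 hz hp h (hD h) with h1 | ⟨σ, h1, h2, ζ, h3, rfl⟩
    · rw [pi_up_small h1]
      rcases c with k | ⟨x, ζ⟩
      · obtain ⟨v, hv, hv'⟩ := hp.name h
        exact ⟨insert k.1 (Iio rho), fun _ => ⟨insert_subset h1 hrz,
          mk_insert_le.trans_lt (add_lt_of_lt hr.1.aleph0_le hrc
            (one_lt_aleph0.trans_le hr.1.aleph0_le)), mem_insert _ _,
          fun ω ω' _ => (hv' ω).trans (hv' ω').symm,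
          fun ω => Or.inr (hv' ω ▸ lt_of_le_of_lt hv (bd_lt_rho _))⟩⟩
      · obtain ⟨-, -, ⟨y, hy, hc, hd, hv⟩, -⟩ := hp.name h
        exact ⟨y ∪ x, fun _ => ⟨union_subset (hy.trans (pi_st_z hz h1.1.1 h1.1.2)) h1.1.1,
          card_union_lt hr.1.aleph0_le ((hc.trans_le (crd_mu_le x)).trans h1.1.2) h1.1.2,
          ⟨Or.inr h1.2, Or.inl subset_union_right⟩,
          hd.mono (Sp_mono subset_union_left fun a ha =>
            Subset.trans ha (inter_subset_left.trans subset_union_left)),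
          fun ω => Or.inl (hv ω).1⟩⟩
    · rw [pi_up_big hz h1 h2]
      obtain ⟨y, hy, hc, hd, hv⟩ := big σ ζ h h2
      have hs : y ⊆ y ∪ {σ, ζ} := subset_union_left
      exact ⟨y ∪ {σ, ζ}, fun _ => ⟨union_subset (hy.trans inter_subset_left)
        (insert_subset h1 (singleton_subset_iff.2 (mem_of_lt_mu h3))),
        card_union_lt hr.1.aleph0_le hc ((toFinite _).lt_aleph0.trans_le hr.1.aleph0_le),
        ⟨Or.inr (Or.inr rfl), Or.inr ⟨σ, Or.inr (Or.inl rfl), h2, rfl⟩⟩,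
        hd.mono (Sp_mono hs fun a ha => Subset.trans ha hs), fun ω => hs (hv ω)⟩⟩
  choose Y hY using hY
  refine ⟨q, ⟨hp.of_pieces ht.1 ?_, Iio rho ∪ ⋃ c ∈ p.D, Y c,
    union_subset hrz (iUnion₂_subset fun c h => (hY c h).1),
    card_union_lt hr.1.aleph0_le hrc (card_iUnion_lt hr.1 hcard fun c h => (hY c h).2.1),
    subset_union_left, ?_⟩, ?_⟩
  · rintro _ ⟨c, h, rfl⟩
    by_cases h' : piUp z c ∈ piT z
    · have e : piUp z c = c := by rw [← pi_dn_small (z := z) (pi_T_Lev z h'), hdu c h]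
      rw [e]
      exact Or.inl ⟨h, congrArg p.r (pi_dn_small (pi_T_Lev z (e ▸ h')))⟩
    · exact Or.inr ⟨⟨⟨c, h, rfl⟩, h'⟩, rfl⟩
  · rintro _ ⟨c, h, rfl⟩
    have e : q.r (piUp z c) = p.r c := congrArg p.r (hdu c h)
    have hs : Y c ⊆ Iio rho ∪ ⋃ c ∈ p.D, Y c :=
      (subset_biUnion_of_mem (u := Y) h).trans subset_union_right
    rw [e]
    exact ⟨pi_CY_mono hs (hY c h).2.2.1, (hY c h).2.2.2.1.mono
      (Sp_mono hs fun a ha => Subset.trans ha hs), fun ω => hs ((hY c h).2.2.2.2 ω)⟩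
  · ext ω
    simp only [Cond.set, hq, mem_preimage, mem_ofPred_eq, forall_mem_image]
    refine forall₂_congr fun c h => ?_
    rw [pi_phi, hdu c h, pi_dep_phi (pi_dep_T hz hp hu h (hD h))]

open Classical in
/-- A point whose image is `ω`, as far as `z` can see. -/
theorem pi_lift (hz : GoodZ z) (ω : Pt Λ) {d : Λ} (hd : d < rho) : ∃ ω' : Pt Λ,
    EqOn (phi z ω').f ω.f (piT z) ∧ ∀ σ ∈ z, kap ≤ σ → ∀ ζ, (phi z ω').f (inr (Iio σ, ζ)) =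
      if ω.f (inr (Iio σ, ζ)) ∈ z ∩ Iio σ then ω.f (inr (Iio σ, ζ)) else d := by
  refine ⟨⟨fun c => match c with
    | inl k => ω.f (inl k)
    | inr k => if Ini k.1 z then (if ω.f (piUp z (inr k)) ∈ k.1 then ω.f (piUp z (inr k)) else d)
      else ω.f (inr k), ?_⟩, ?_, ?_⟩
  · rintro (k | k)
    · exact ω.mem _
    · dsimp only
      split_ifs with h1 h2
      · exact Or.inr h2
      · exact Or.inr (mem_of_lt_mu (h1.1 ▸ hd.trans hz.rho_lt))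
      · exact ω.mem _
  · intro c hc
    rw [pi_phi, pi_dn_small (pi_T_Lev z hc)]
    rcases c with k | k
    · rfl
    · exact if_neg (pi_not_ini hc.1.2)
  · intro σ h1 h2 ζ
    rw [pi_phi, pi_dn_big h2]
    dsimp only
    rw [if_pos (pi_ini hz h2), pi_up_big hz h1 h2]
    congr

theorem reflect (hz : GoodZ z) (hq : Capt z q) (hq' : Capt z q')
    (h : phi z ⁻¹' q.set ⊆ phi z ⁻¹' q'.set) : q ≤ q' := by
  classical
  obtain ⟨hq, y, hy, hc, hl⟩ := hq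
  obtain ⟨hq', y', hy', hc', hl'⟩ := hq'
  intro ω hω c hcD
  have key : ∀ d < rho, ∃ ω' : Pt Λ, (phi z ω').f c = q'.r c ω ∧
      EqOn (phi z ω').f ω.f (piT z) ∧ ∀ σ ∈ z, kap ≤ σ → ∀ ζ, (phi z ω').f (inr (Iio σ, ζ)) =
        if ω.f (inr (Iio σ, ζ)) ∈ z ∩ Iio σ then ω.f (inr (Iio σ, ζ)) else d := by
    intro d hd
    obtain ⟨ω', h1, h2⟩ := pi_lift hz ω hd
    refine ⟨ω', (h (a := ω') (fun c hcD => ?_) c hcD).trans
      ((hl'.2 c hcD).2.1.mono (pi_Sp_T hy' hc') _ _ h1), h1, h2⟩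
    rw [(hl.2 c hcD).2.1.mono (pi_Sp_T hy hc) _ _ h1, ← hω c hcD]
    rcases pi_capt hz hq hy hc hl hcD with h' | ⟨σ, h3, h4, ζ, -, -, rfl⟩
    · exact h1 h'
    · rw [h2 σ (hy h3) h4, if_pos]
      obtain ⟨-, -, ⟨_, -, -, -, hv⟩, -⟩ := hq.name hcD
      rw [hω _ hcD]
      exact ⟨hy ((hl.2 _ hcD).2.2 ω), (hv ω).2⟩
  obtain ⟨ω₀, a1, a2, a3⟩ := key ⊥ bot_lt_rho
  obtain ⟨ω₁, b1, -, b3⟩ := key one one_lt_rho
  rcases pi_capt hz hq' hy' hc' hl' hcD with h' | ⟨σ, h3, h4, ζ, -, -, rfl⟩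
  · rw [← a2 h', a1]
  · rw [a3 σ (hy' h3) h4] at a1
    rw [b3 σ (hy' h3) h4] at b1
    split_ifs at a1 b1
    · exact a1
    · exact absurd (a1.trans b1.symm) Ctx.bot_lt_one.ne

/-- `q` is a reduction of `e`. -/
def Red (z : Set Λ) (q e : Cond Λ) : Prop :=
  ∀ q', Capt z q' → q' ≤ q → ∃ p, Valid p ∧ p ≤ e ∧ p.set ⊆ phi z ⁻¹' q'.set

theorem pi_red (hz : GoodZ z) {p' : Cond Λ} (hp' : Valid p')
    (he : (p'.res (S0 z)).set = phi z ⁻¹' q.set) (hq' : Capt z q') (h : q' ≤ q) :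
    ∃ e, Valid e ∧ e ≤ p' ∧ e.set ⊆ phi z ⁻¹' q'.set ∧ e.D ⊆ Lev (crd (kap : Λ)) ∪ p'.D := by
  obtain ⟨e, h1, h2, -, h4⟩ := push hz hq'
  refine ⟨e.un p', h1.un hp', un_le_of_res (S := S0 z) ?_ fun c hc => h2 hc.1, h4 ▸ un_le_left,
    union_subset_union_left _ (VL_of_S0 hz h1 h2).2⟩
  rw [Cond.le_def, he, h4]
  exact preimage_mono h

theorem red (hz : GoodZ z) (hp : Valid p) : ∃ q p', Capt z q ∧ Valid p' ∧ p' ≤ p ∧ Ust z p' ∧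
    p'.D ⊆ p.D ∪ Fn Λ ∧ (p'.res (S0 z)).set = phi z ⁻¹' q.set ∧ Red z q p ∧
    ∀ q₀, Capt z q₀ → p.set ⊆ phi z ⁻¹' q₀.set → q ≤ q₀ := by
  obtain ⟨p', h1, h2, h3, h4⟩ := exists_ust hp z
  obtain ⟨q, hq, he⟩ := pull hz (h1.res (S0 z)) inter_subset_right fun x ζ h hi => h3 x ζ h.1 hi
  refine ⟨q, p', hq, h1, h2, h3, h4, he, fun q' hq' h => ?_, fun q₀ hq₀ h => ?_⟩
  · obtain ⟨e, a1, a2, a3, -⟩ := pi_red hz h1 he hq' h
    exact ⟨e, a1, a2.trans h2, a3⟩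
  · obtain ⟨e, a1, a2, a3, a4⟩ := push hz hq₀
    refine reflect hz hq hq₀ ?_
    rw [← he, ← a4]
    refine res_le' h1 (dep_S0 hz h1 h3) (fun c hc => ⟨a2 hc, dep_S0 hz a1 a3 c ⟨hc, a2 hc⟩⟩)
      (h2.trans ?_)
    rwa [Cond.le_def, a4]

theorem red_VL (hz : GoodZ z) (hp : VL kap p) : ∃ q, Capt z q ∧
    (∀ q', Capt z q' → q' ≤ q → ∃ p', VL kap p' ∧ p' ≤ p ∧ p'.set ⊆ phi z ⁻¹' q'.set) ∧
    ∀ q₀, Capt z q₀ → p.set ⊆ phi z ⁻¹' q₀.set → q ≤ q₀ := by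
  obtain ⟨q, p', hq, h1, h2, -, h4, he, -, h5⟩ := red hz hp.1
  refine ⟨q, hq, fun q' hq' h => ?_, h5⟩
  obtain ⟨e, a1, a2, a3, a4⟩ := pi_red hz h1 he hq' h
  exact ⟨e, ⟨a1, a4.trans (union_subset Subset.rfl (h4.trans (union_subset hp.2 Fn_subset_Lev)))⟩,
    a2.trans h2, a3⟩

theorem Bd_mono {α β : Λ} (h : α ≤ β) : Bd α ⊆ Bd β :=
  union_subset_union_right _ fun _ ⟨σ, h1, h2⟩ => ⟨σ, h1.trans_le h, h2⟩

theorem mast_term (hz : GoodZ z) (hα : α ∈ z) :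
    Term univ (mast z α) ∧ (mast z α).D ⊆ Bd α := by
  refine ⟨pi_term ?_ ?_, ?_⟩
  · rw [mu_univ]
    refine pi_card_prod kap_reg.1.aleph0_le (hz.seg α hα) (kap_reg.2 _ hz.lt)
      (fun k => inr (Iio k.1, k.2)) ?_
    rintro _ ⟨σ, h1, -, h3, ζ, h4, rfl⟩
    exact ⟨(σ, ζ), ⟨⟨h1, h3⟩, h4⟩, rfl⟩
  · rintro _ ⟨σ, h1, h2, -, ζ, h4, rfl⟩
    have e : (mast z α).r (inr (Iio σ, ζ)) = fun ω => ω.f (inr (z ∩ Iio σ, ζ)) :=
      funext fun ω => (pi_phi z ω (inr (Iio σ, ζ))).trans (by rw [pi_dn_big h2])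
    have hm : ∀ a < mu z, a ∈ z ∩ Iio σ := fun a ha =>
      ⟨mem_of_lt_mu ha, (ha.trans hz.lt).trans_le h2⟩
    have hc : #↥(z ∩ Iio σ) < crd (mu (Iio σ)) := (mu_Iio h2).symm ▸ hz.seg σ h1
    rw [e]
    refine ⟨⟨(node_Iio h2).1, (mu_Iio h2).symm ▸ h4.trans hz.lt, ⟨z ∩ Iio σ,
      inter_subset_right.trans subset_union_left, hc, fun ω ω' h => h ⟨?_, hm ζ h4⟩, fun ω => ?_⟩,
      dec_eval (pi_node hz h1 h2) ((pi_mu hz h2).symm ▸ h4)⟩, _, _, rfl, (node_Iio h2).2,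
      fun ω ω' h => h ⟨⟨inter_subset_right, hc⟩, hm ζ h4⟩⟩
    · exact subset_inter Subset.rfl inter_subset_right
    · rw [inter_eq_self_of_subset_left inter_subset_right]
      rcases ω.mem (inr (z ∩ Iio σ, ζ)) with h | h
      · exact mem_of_eq_of_mem h (hm _ (bot_lt_rho.trans hz.rho_lt))
      · exact h
  · rintro _ ⟨σ, -, h2, h3, ζ, h4, rfl⟩
    exact Or.inr ⟨σ, h3, ζ, (h4.trans hz.lt).trans_le h2, rfl⟩

theorem mast_le (hz : GoodZ z) (hq : Capt z q) (hD : q.D ⊆ Bd α) :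
    phi z ⁻¹' q.set ∩ (mast z α).set ⊆ q.set := by
  obtain ⟨hq, y, hy, hc, hl⟩ := hq
  rintro ω ⟨h1, h2⟩ c h
  rw [← pi_dep_phi ((hl.2 c h).2.1.mono (pi_Sp_T hy hc)), ← h1 c h]
  rcases pi_capt hz hq hy hc hl h with h' | ⟨σ, h3, h4, ζ, -, h5, rfl⟩
  · rw [pi_phi, pi_dn_small (pi_T_Lev z h')]
  · refine h2 _ ⟨σ, hy h3, h4, ?_, ζ, h5, rfl⟩
    rcases hD h with h6 | ⟨σ', h6, ζ', -, e⟩
    · exact absurd (crd_mono h4) (not_le.2 h6.1)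
    · rwa [Iio_injective (Prod.mk.inj (inr_injective e)).1]

end Pool.Agent.P.MP_a18ac8_lc
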