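import Pool.Agent.P.MP_a18ac8_lc.Thr

universe u

namespace Pool.Agent.P.MP_a18ac8_lc

open Cardinal Set Sum Filter

variable {Λ : Type u} [ConditionallyCompleteLinearOrderBot Λ] [WellFoundedLT Λ]

variable [Ctx Λ]

theorem step1_notLev {z x : Set Λ} {ζ : Λ} (h : Ini x z) :
    (inr (x, ζ) : Co Λ) ∉ Lev (crd (mu z)) := by
  intro hl
  have h1 : #x < crd (mu z) := hl.1
  rw [← h.1] at h1
  exact absurd (crd_mu_le x) (not_le.2 h1)

theorem step1_Ch_notLev {z : Set Λ} {c : Co Λ} (h : c ∈ Ch z) : c ∉ Lev (crd (mu z)) := by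
  obtain ⟨x, ζ, rfl, hx, -⟩ := h
  exact step1_notLev hx

theorem step1_term_un {z : Set Λ} {t t' : Cond Λ} (h : Term z t) (h' : Term z t') :
    Term z (t.un t') := by
  refine ⟨h.1.un h'.1, fun c hc => ?_⟩
  by_cases h1 : c ∈ t.D
  · rw [un_r_left h1]
    exact h.2 c h1
  · rw [un_r_right h1]
    exact h'.2 c (hc.resolve_left h1)

theorem step1_term_res {z : Set Λ} {F : Cond Λ} (h : Valid F) (hu : Ust z F) :
    Term z (F.res (Ch z)) := by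
  refine ⟨h.res _, fun c hc => ?_⟩
  obtain ⟨hc1, x, ζ, rfl, hx, -⟩ := hc
  exact ⟨x, ζ, rfl, hx, hu x ζ hc1 hx⟩

theorem step1_un_mono {z : Set Λ} {E E' t t' : Cond Λ} (hE : VL (mu z) E) (hE' : VL (mu z) E')
    (ht : Term z t) (ht' : Term z t') (h : E ≤ E') (h' : t ≤ t') : E.un t ≤ E'.un t' := by
  rw [Cond.le_def, ht.set_un hE, ht'.set_un hE']
  exact inter_subset_inter h h'

theorem step1_VL_un {μ : Λ} {E E' : Cond Λ} (h : VL μ E) (h' : VL μ E') : VL μ (E.un E') :=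
  ⟨h.1.un h'.1, union_subset h.2 h'.2⟩

theorem step1_ust {z : Set Λ} {E t : Cond Λ} (hE : VL (mu z) E) (ht : Term z t) :
    Ust z (E.un t) := by
  intro x ζ hc hx
  have h1 : inr (x, ζ) ∉ E.D := fun h => step1_notLev hx (hE.2 h)
  rw [un_r_right h1]
  obtain ⟨x', ζ', he, -, hd⟩ := ht.2 _ (hc.resolve_left h1)
  obtain ⟨rfl, rfl⟩ : x = x' ∧ ζ = ζ' := by simpa using he
  exact hd

theorem step1_agr {z : Set Λ} {E E' t : Cond Λ} (hE : VL (mu z) E) (hE' : VL (mu z) E')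
    (h : Agr (Sp z {x | x ⊆ z ∧ #x < crd (mu z)}) E E') : Agr (S0 z) (E.un t) (E'.un t) := by
  intro c hc
  rcases hc with hc | hc
  · exact h.un (fun c _ => ⟨Iff.rfl, fun _ => rfl⟩) c hc
  · have h1 : c ∉ E.D := fun h => step1_Ch_notLev hc (hE.2 h)
    have h2 : c ∉ E'.D := fun h => step1_Ch_notLev hc (hE'.2 h)
    refine ⟨⟨fun h => Or.inr (h.resolve_left h1), fun h => Or.inr (h.resolve_left h2)⟩,
      fun _ => ?_⟩
    rw [un_r_right h1, un_r_right h2]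

/-- Gluing a condition inside `z` to the part of `p` outside `z`. -/
theorem step1_glue {z : Set Λ} {F p T : Cond Λ} (hF : Valid F) (hFD : F.D ⊆ S0 z)
    (hu : Ust z F) (hp : Valid p) (hle : F ≤ p.res (S0 z)) (hT : Term z T) (hpT : p ≤ T) :
    VL (mu z) ((F.un (p.res (S1 z \ S0 z))).res (Lev (crd (mu z)))) ∧
    ((F.un (p.res (S1 z \ S0 z))).res (Lev (crd (mu z)))).un (T.un (F.res (Ch z))) ≤
      p.res (S1 z) := by
  set G := F.un (p.res (S1 z \ S0 z)) with hG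
  have hGv : Valid G := hF.un (hp.res _)
  have hVL : VL (mu z) (G.res (Lev (crd (mu z)))) := ⟨hGv.res _, inter_subset_right⟩
  have hG1 : G ≤ p.res (S1 z) := by
    intro ω hω c hc
    have hω' := mem_un.1 hω
    by_cases h0 : c ∈ S0 z
    · exact hle hω'.1 c ⟨hc.1, h0⟩
    · exact hω'.2 c ⟨hc.1, hc.2, h0⟩ fun h => h0 (hFD h)
  have hGT : G ≤ T := hG1.trans (res_le hp hT.1 (closed_S1 z)
    (hT.subset_Ch.trans subset_union_right) hpT)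
  refine ⟨hVL, le_trans ?_ ((fix_le hGv hT.1 hGT).trans hG1)⟩
  intro ω hω
  have hω1 : ω ∈ (G.res (Lev (crd (mu z)))).set ∩ (T.un (F.res (Ch z))).set := by
    rw [← (step1_term_un hT (step1_term_res hF hu)).set_un hVL]
    exact hω
  have hω2 := mem_un.1 hω1.2
  refine mem_un.2 ⟨hω2.1, fun c hc hcT => ?_⟩
  by_cases hl : c ∈ Lev (crd (mu z))
  · exact hω1.1 c ⟨hc, hl⟩
  · have hcF : c ∈ F.D := by
      rcases hc with hc | hc
      · exact hc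
      · exact absurd (Or.inr (hc.2.1.resolve_left hl)) hc.2.2
    have hch : c ∈ Ch z := (S0_subset_S1 z (hFD hcF)).resolve_left hl
    rw [hG, un_r_left hcF]
    exact hω2.2 c ⟨hcF, hch⟩ hcT

theorem step1_glue_agr {z : Set Λ} {F p p' : Cond Λ} {S L : Set (Co Λ)} (hS : S ⊆ S0 z) :
    Agr S ((F.un (p.res (S1 z \ S0 z))).res L) ((F.un (p'.res (S1 z \ S0 z))).res L) := by
  intro c hc
  have key : ∀ r : Cond Λ, c ∈ (F.un (r.res (S1 z \ S0 z))).D → c ∈ F.D := fun r h =>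
    h.resolve_right fun h' => h'.2.2 (hS hc)
  refine ⟨⟨fun h => ⟨Or.inl (key p h.1), h.2⟩, fun h => ⟨Or.inl (key p' h.1), h.2⟩⟩, fun h => ?_⟩
  have hF := key p h.1
  exact (un_r_left hF).trans (un_r_left hF).symm

/-- One stage of the construction. -/
structure step1_St (Λ : Type u) [ConditionallyCompleteLinearOrderBot Λ] [Ctx Λ] where
  t : Cond Λ
  E : Cond Λ
  E' : Cond Λ
  γ : Λ
  β : Λ
  j : Λ
  k : Λ
  k' : Λ

/-- The requirements on a stage. -/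
structure step1_Ok (z : Set Λ) (b : Λ → Λ → Cond Λ → Prop) (e₀ : Cond Λ) (x : step1_St Λ) :
    Prop where
  term : Term z x.t
  vl : VL (mu z) x.E
  vl' : VL (mu z) x.E'
  agr : Agr (Sp z {x | x ⊆ z ∧ #x < crd (mu z)}) x.E x.E'
  le : x.E.un x.t ≤ e₀
  le' : x.E'.un x.t ≤ e₀
  γ_lt : x.γ < mu z
  β_lt : x.β < mu z
  j_lt : x.j < rho
  bγ : b x.γ x.j (x.E.un x.t)
  bγ' : b x.γ x.j (x.E'.un x.t)
  bβ : b x.β x.k (x.E.un x.t)
  bβ' : b x.β x.k' (x.E'.un x.t)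
  ne : x.k ≠ x.k'

theorem step1_step {z : Set Λ} (hz : GoodZ z) {w : Λ → Λ → Λ → Λ → Cond Λ → Prop}
    {b : Λ → Λ → Cond Λ → Prop} {e₀ : Cond Λ}
    (hb : Thr (mu z) w b e₀) (bs : ∀ β j p, Valid p → b β j p → b β j (p.res (S1 z)))
    (neg : ∀ e₁, Valid e₁ → e₁ ≤ e₀ → ∃ β < mu z, ∃ j j' e e' q, Valid e ∧ Valid e' ∧ e ≤ e₁ ∧
      e' ≤ e₁ ∧ Capt z q ∧ Red z q e ∧ Red z q e' ∧ b β j e ∧ b β j' e' ∧ j ≠ j')
    {E₀ T : Cond Λ} (hE₀ : VL (mu z) E₀) (hT : Term z T) (hle : E₀.un T ≤ e₀) {γ : Λ}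
    (hγ : γ < mu z) : ∃ x : step1_St Λ, step1_Ok z b e₀ x ∧ Ext T x.t ∧ x.γ = γ := by
  have hev : Valid (E₀.un T) := hE₀.1.un hT.1
  have heD : (E₀.un T).D ⊆ S1 z := union_subset_union hE₀.2 hT.subset_Ch
  have heT : E₀.un T ≤ T := by
    rw [Cond.le_def, hT.set_un hE₀]
    exact inter_subset_right
  obtain ⟨e, he, hee, j, hj, hbj⟩ := hb.dns γ hγ _ hev hle
  obtain ⟨β, hβ, k, k', ea, eb, q, hea, heb, hea', heb', hq, hra, hrb, hba, hbb, hne⟩ :=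
    neg e he (hee.trans hle)
  obtain ⟨a, ha, haa, haq⟩ := hra q hq le_rfl
  obtain ⟨q₁, p₁, hq₁, hp₁, hp₁a, -, -, hs₁, -, hm₁⟩ := red hz ha
  obtain ⟨a', ha', hab, haq'⟩ := hrb q₁ hq₁ (hm₁ q hq haq)
  obtain ⟨q₂, p₂, hq₂, hp₂, hp₂a, -, -, hs₂, -, hm₂⟩ := red hz ha'
  obtain ⟨F, hF, hFD, hFu, hFs⟩ := push hz hq₂
  have hF₁ : F ≤ p₁.res (S0 z) := by
    rw [Cond.le_def, hFs, hs₁]
    exact preimage_mono (hm₂ q₁ hq₁ haq')
  have hF₂ : F ≤ p₂.res (S0 z) := by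
    rw [Cond.le_def, hFs, hs₂]
  have h₁a : p₁ ≤ ea := hp₁a.trans haa
  have h₂b : p₂ ≤ eb := hp₂a.trans hab
  have h₁e : p₁ ≤ e := h₁a.trans hea'
  have h₂e : p₂ ≤ e := h₂b.trans heb'
  obtain ⟨hV₁, hL₁⟩ := step1_glue hF hFD hFu hp₁ hF₁ hT ((h₁e.trans hee).trans heT)
  obtain ⟨hV₂, hL₂⟩ := step1_glue hF hFD hFu hp₂ hF₂ hT ((h₂e.trans hee).trans heT)
  have hT' : Term z (T.un (F.res (Ch z))) := step1_term_un hT (step1_term_res hF hFu)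
  have tr : ∀ {p r E : Cond Λ} {δ i : Λ}, Valid p → Valid r → p ≤ r → VL (mu z) E →
      E.un (T.un (F.res (Ch z))) ≤ p.res (S1 z) → b δ i r →
      b δ i (E.un (T.un (F.res (Ch z)))) := fun hp hr hpr hE hL hbr =>
    hb.opn _ _ _ _ (hE.1.un hT'.1) (hL.trans (res_mono hp hr (closed_S1 z) hpr)) (bs _ _ _ hr hbr)
  refine ⟨⟨T.un (F.res (Ch z)), _, _, γ, β, j, k, k'⟩, ⟨hT', hV₁, hV₂,
    step1_glue_agr subset_union_left,
    hL₁.trans ((res_le hp₁ hev (closed_S1 z) heD (h₁e.trans hee)).trans hle),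
    hL₂.trans ((res_le hp₂ hev (closed_S1 z) heD (h₂e.trans hee)).trans hle),
    hγ, hβ, hj, tr hp₁ he h₁e hV₁ hL₁ hbj, tr hp₂ he h₂e hV₂ hL₂ hbj,
    tr hp₁ hea h₁a hV₁ hL₁ hba, tr hp₂ heb h₂b hV₂ hL₂ hbb, hne⟩, ext_un, rfl⟩

theorem step1_end {z : Set Λ} (hz : GoodZ z) {w : Λ → Λ → Λ → Λ → Cond Λ → Prop}
    {b : Λ → Λ → Cond Λ → Prop} {e₀ : Cond Λ}
    (wd : ∀ β < mu z, ∀ i < rho, ∀ α < β, ∀ q, Capt z q → ∃ q', Capt z q' ∧ q' ≤ q ∧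
      ∃ j, ∀ p, Valid p → p.set ⊆ phi z ⁻¹' q'.set → w β i α j p)
    (hb : Thr (mu z) w b e₀) {x y : step1_St Λ} (hx : step1_Ok z b e₀ x)
    (hy : step1_Ok z b e₀ y) (hext : Ext x.t y.t) (hlt : x.β < y.γ)
    (h : x.E.un y.E ≤ y.E) (h' : x.E'.un y.E' ≤ y.E') : False := by
  have hV := step1_VL_un hx.vl hy.vl
  have hV' := step1_VL_un hx.vl' hy.vl'
  have hH : Valid ((x.E.un y.E).un y.t) := hV.1.un hy.term.1
  have hH' : Valid ((x.E'.un y.E').un y.t) := hV'.1.un hy.term.1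
  have hagr : Agr (S0 z) ((x.E.un y.E).un y.t) ((x.E'.un y.E').un y.t) :=
    step1_agr hV hV' (hx.agr.un hy.agr)
  obtain ⟨q, hq, hqs⟩ := pull hz (hH.res (S0 z)) inter_subset_right
    fun x' ζ hc hi => step1_ust hV hy.term x' ζ hc.1 hi
  obtain ⟨q', hq', hqq, k, hk⟩ := wd y.γ hy.γ_lt y.j hy.j_lt x.β hlt q hq
  obtain ⟨F, hF, hFD, -, hFs⟩ := push hz hq'
  have key : ∀ {E₁ E₂ : Cond Λ} {i : Λ}, VL (mu z) E₁ → VL (mu z) E₂ → E₁.un E₂ ≤ E₂ →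
      F ≤ ((E₁.un E₂).un y.t).res (S0 z) → E₁.un x.t ≤ e₀ → b y.γ y.j (E₂.un y.t) →
      b x.β i (E₁.un x.t) → i = k := by
    intro E₁ E₂ i h₁ h₂ h₁₂ hFle hle hb₁ hb₂
    have hW := step1_VL_un h₁ h₂
    have hK : Valid (F.un ((E₁.un E₂).un y.t)) := hF.un (hW.1.un hy.term.1)
    have hKle : F.un ((E₁.un E₂).un y.t) ≤ (E₁.un E₂).un y.t :=
      un_le_of_res hFle (inter_subset_left.trans hFD)
    have hK₁ : F.un ((E₁.un E₂).un y.t) ≤ E₁.un x.t :=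
      hKle.trans (step1_un_mono hW h₁ hy.term hx.term un_le_left hext.le)
    have hK₂ : F.un ((E₁.un E₂).un y.t) ≤ E₂.un y.t :=
      hKle.trans (step1_un_mono hW h₂ hy.term hy.term h₁₂ le_rfl)
    refine hb.thr y.γ y.j x.β i k _ hlt hK (hK₁.trans hle) (hb.opn _ _ _ _ hK hK₂ hb₁)
      (hb.opn _ _ _ _ hK hK₁ hb₂) (hk _ hK ?_)
    rw [← hFs]
    exact un_le_left (q := F)
  have hF₁ : F ≤ ((x.E.un y.E).un y.t).res (S0 z) := by
    rw [Cond.le_def, hFs, hqs]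
    exact preimage_mono hqq
  have hF₂ : F ≤ ((x.E'.un y.E').un y.t).res (S0 z) := by
    rw [Cond.le_def, ← hagr.set_res]
    exact hF₁
  exact hx.ne ((key hx.vl hy.vl h hF₁ hx.le hy.bγ hx.bβ).trans
    (key hx.vl' hy.vl' h' hF₂ hx.le' hy.bγ' hx.bβ').symm)

theorem step1 {z : Set Λ} (hz : GoodZ z) {w : Λ → Λ → Λ → Λ → Cond Λ → Prop}
    {b : Λ → Λ → Cond Λ → Prop} {e₀ : Cond Λ} (he₀ : Valid e₀) (hD : e₀.D ⊆ S1 z)
    (wd : ∀ β < mu z, ∀ i < rho, ∀ α < β, ∀ q, Capt z q → ∃ q', Capt z q' ∧ q' ≤ q ∧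
      ∃ j, ∀ p, Valid p → p.set ⊆ phi z ⁻¹' q'.set → w β i α j p)
    (hb : Thr (mu z) w b e₀) (bs : ∀ β j p, Valid p → b β j p → b β j (p.res (S1 z))) :
    ∃ e₁, Valid e₁ ∧ e₁ ≤ e₀ ∧ ∀ β < mu z, ∀ j j' e e' q, Valid e → Valid e' → e ≤ e₁ → e' ≤ e₁ →
      Capt z q → Red z q e → Red z q e' → b β j e → b β j' e' → j = j' := by
  by_contra hcon
  have neg : ∀ e₁, Valid e₁ → e₁ ≤ e₀ → ∃ β < mu z, ∃ j j' e e' q, Valid e ∧ Valid e' ∧ e ≤ e₁ ∧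
      e' ≤ e₁ ∧ Capt z q ∧ Red z q e ∧ Red z q e' ∧ b β j e ∧ b β j' e' ∧ j ≠ j' := by
    intro e₁ h₁ h₂
    by_contra hn
    refine hcon ⟨e₁, h₁, h₂, fun β hβ j j' e e' q a₁ a₂ a₃ a₄ a₅ a₆ a₇ a₈ a₉ => ?_⟩
    by_contra hne
    exact hn ⟨β, hβ, j, j', e, e', q, a₁, a₂, a₃, a₄, a₅, a₆, a₇, a₈, a₉, hne⟩
  have hr : Reg (mu z) := hz.inac.reg
  obtain ⟨E₀, t₀, hE₀, ht₀, -, hle₀⟩ := decomp he₀ hD (term_empty z)
    (fun ω _ c hc => absurd hc (notMem_empty c))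
  have : Nonempty (step1_St Λ) := ⟨⟨e₀, e₀, e₀, ⊥, ⊥, ⊥, ⊥, ⊥⟩⟩
  obtain ⟨f, hf, hf'⟩ := exists_seq
    (fun (ξ : Λ) (x : step1_St Λ) => ξ < mu z → step1_Ok z b e₀ x ∧ Ext t₀ x.t)
    (fun _ x ξ y => ξ < mu z → Ext x.t y.t ∧ x.β < y.γ) (by
      intro ξ f hP hR
      by_cases hξ : ξ < mu z
      · have hP' : ∀ η ∈ Iio ξ, step1_Ok z b e₀ (f η) ∧ Ext t₀ (f η).t := fun η hη =>
          hP η hη (lt_trans hη hξ)
        have hcard : #(Iio ξ) < crd (mu z) := hr.2 ξ hξ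
        obtain ⟨U, hU, -, hUe⟩ := term_union hr hcard (fun η => (f η).t)
          (fun η hη => (hP' η hη).1.term) (by
            intro η hη η' hη' c hc hc'
            rcases lt_trichotomy η η' with h | h | h
            · exact ((hR η' hη' η h (lt_trans hη' hξ)).1 c hc).2.symm
            · rw [h]
            · exact ((hR η hη η' h (lt_trans hη hξ)).1 c hc').2)
        obtain ⟨γ, hγ, hγ'⟩ := hr.bdd (s := (fun η => (f η).β) '' Iio ξ)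
          (by
            rintro _ ⟨η, hη, rfl⟩
            exact (hP' η hη).1.β_lt) (mk_image_le.trans_lt hcard)
        have hT : Term z (t₀.un U) := step1_term_un ht₀ hU
        obtain ⟨x, hx, hxe, hxγ⟩ := step1_step hz hb bs neg hE₀ hT
          ((step1_un_mono hE₀ hE₀ hT ht₀ le_rfl un_le_left).trans hle₀) hγ
        refine ⟨x, fun _ => ⟨hx, ext_un.trans hxe⟩, fun η hη _ => ⟨Ext.trans ?_ hxe, ?_⟩⟩
        · intro c hc
          refine ⟨Or.inr (hUe η hη c hc).1, ?_⟩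
          by_cases h0 : c ∈ t₀.D
          · rw [un_r_left h0]
            exact ((hP' η hη).2 c h0).2.symm
          · rw [un_r_right h0]
            exact (hUe η hη c hc).2
        · rw [hxγ]
          exact hγ' _ ⟨η, hη, rfl⟩
      · exact ⟨f ξ, fun h => absurd h hξ, fun _ _ h => absurd h hξ⟩)
  obtain ⟨α, α', hα, hα', h, h'⟩ := pair_cc hz.inac hz.rho_lt hz.kp (fun ξ => (f ξ).E)
    (fun ξ => (f ξ).E') (fun ξ hξ => (hf ξ hξ).1.vl) (fun ξ hξ => (hf ξ hξ).1.vl')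
  exact step1_end hz wd hb (hf α (hα.trans hα')).1 (hf α' hα').1 (hf' α' α hα hα').1
    (hf' α' α hα hα').2 h h'

end Pool.Agent.P.MP_a18ac8_lc
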