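import Pool.Agent.P.MP_af0a18_lc.Main
import Pool.Agent.P.MP_a18ac8_lc.Defs
import Pool.Agent.P.MP_a18ac8_lc.Iface

/-!
The interface `Iface`, written for sets so that it transfers to an elementary submodel.
-/

universe u

set_option synthInstance.maxSize 65536

namespace Pool.Agent.P.MP_a18ac8_lc

open ZFSet Pool.Agent.Lib.Forcing Pool.Agent.P.MP_af0a18_lc

def OpenZ (le W : ZFSet.{u}) : Prop :=
  ∀ x p, pair x p ∈ W → ∀ q, pair q p ∈ le → pair x q ∈ W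

instance (a b : ℕ) : UDf.{u} (fun _ e => OpenZ (e a) (e b)) := by unfold OpenZ; infer_instance

def FunZ (a b P W : ZFSet.{u}) : Prop :=
  ∀ i ∈ a, ∀ γ ∈ b, ∀ γ' ∈ b, ∀ p ∈ P, pair (pair i γ) p ∈ W → pair (pair i γ') p ∈ W → γ = γ'

instance (a b c d : ℕ) : UDf.{u} (fun _ e => FunZ (e a) (e b) (e c) (e d)) := by
  unfold FunZ; infer_instance

/-- Every `τ ∈ b` gets a surjection from `a`. -/
def ColZ (M : Set ZFSet.{u}) (a b P le : ZFSet.{u}) : Prop :=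
  ∀ τ ∈ b, ∃ W ∈ M, OpenZ le W ∧ FunZ a τ P W ∧
    ∀ γ ∈ τ, ∀ p ∈ P, ∃ q, pair q p ∈ le ∧ ∃ i ∈ a, pair (pair i γ) q ∈ W

instance (a b c d : ℕ) : UDf.{u} (fun M e => ColZ M (e a) (e b) (e c) (e d)) := by
  unfold ColZ; infer_instance

/-- Partial functions from `a` to `b` are bounded. -/
def PresZ (M : Set ZFSet.{u}) (a b P le : ZFSet.{u}) : Prop :=
  ∀ W ∈ M, OpenZ le W → FunZ a b P W → ∀ p ∈ P, ∃ q, pair q p ∈ le ∧ ∃ β ∈ b,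
    ∀ i ∈ a, ∀ γ ∈ b, ∀ r, pair r q ∈ le → pair (pair i γ) r ∈ W → γ ∈ β

instance (a b c d : ℕ) : UDf.{u} (fun M e => PresZ M (e a) (e b) (e c) (e d)) := by
  unfold PresZ; infer_instance

/-- `W` names, below `p₀`, a coherent system of predecessor maps on `κ × ν`;
`(((β, i), α), j)` means that the node `(β, i)` has the predecessor `(α, j)`. -/
def SysZ (ν κ le W p₀ : ZFSet.{u}) : Prop :=
  (∀ β ∈ κ, ∀ i ∈ ν, ∀ α ∈ κ, ∀ j ∈ ν, ∀ j' ∈ ν, ∀ p, pair p p₀ ∈ le →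
    pair (pair (pair (pair β i) α) j) p ∈ W → pair (pair (pair (pair β i) α) j') p ∈ W → j = j') ∧
  (∀ β ∈ κ, ∀ i ∈ ν, ∀ α ∈ β, ∀ p, pair p p₀ ∈ le → ∃ q, pair q p ∈ le ∧
    ∃ j ∈ ν, pair (pair (pair (pair β i) α) j) q ∈ W) ∧
  ∀ γ ∈ κ, ∀ i ∈ ν, ∀ β ∈ γ, ∀ j ∈ ν, ∀ α ∈ β, ∀ k ∈ ν, ∀ k' ∈ ν, ∀ p, pair p p₀ ∈ le →
    pair (pair (pair (pair γ i) β) j) p ∈ W → pair (pair (pair (pair β j) α) k) p ∈ W →
    pair (pair (pair (pair γ i) α) k') p ∈ W → k = k'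

instance (a b c d f : ℕ) : UDf.{u} (fun _ e => SysZ (e a) (e b) (e c) (e d) (e f)) := by
  unfold SysZ; infer_instance

/-- `B` names, below `q`, a thread through the system `W`. -/
def ThreadZ (ν κ le W B q : ZFSet.{u}) : Prop :=
  OpenZ le B ∧
  (∀ β ∈ κ, ∀ p, pair p q ∈ le → ∃ r, pair r p ∈ le ∧ ∃ j ∈ ν, pair (pair β j) r ∈ B) ∧
  (∀ β ∈ κ, ∀ j ∈ ν, ∀ j' ∈ ν, ∀ p, pair p q ∈ le →
    pair (pair β j) p ∈ B → pair (pair β j') p ∈ B → j = j') ∧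
  ∀ β ∈ κ, ∀ j ∈ ν, ∀ α ∈ β, ∀ k ∈ ν, ∀ k' ∈ ν, ∀ p, pair p q ∈ le →
    pair (pair β j) p ∈ B → pair (pair α k) p ∈ B →
    pair (pair (pair (pair β j) α) k') p ∈ W → k = k'

instance (a b c d f g : ℕ) : UDf.{u} (fun _ e => ThreadZ (e a) (e b) (e c) (e d) (e f) (e g)) := by
  unfold ThreadZ; infer_instance

def TreeZ (M : Set ZFSet.{u}) (ν κ P le : ZFSet.{u}) : Prop :=
  ∀ W ∈ M, ∀ p₀ ∈ P, OpenZ le W → SysZ ν κ le W p₀ →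
    ∃ q, pair q p₀ ∈ le ∧ ∃ B ∈ M, ThreadZ ν κ le W B q

instance (a b c d : ℕ) : UDf.{u} (fun M e => TreeZ M (e a) (e b) (e c) (e d)) := by
  unfold TreeZ; infer_instance

/-- `X` is an open name for a subset of `κ`. -/
def NameZ (κ P le X : ZFSet.{u}) : Prop :=
  (∀ z ∈ X, ∃ γ ∈ κ, ∃ q ∈ P, z = pair γ q) ∧ OpenZ le X

instance (a b c d : ℕ) : UDf.{u} (fun _ e => NameZ (e a) (e b) (e c) (e d)) := by
  unfold NameZ; infer_instance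

/-- `X` is the section of `Y` at `i`. -/
def SecZ (κ P Y i X : ZFSet.{u}) : Prop :=
  ∀ γ ∈ κ, ∀ q ∈ P, (pair γ q ∈ X ↔ pair (pair i γ) q ∈ Y)

instance (a b c d f : ℕ) : UDf.{u} (fun _ e => SecZ (e a) (e b) (e c) (e d) (e f)) := by
  unfold SecZ; infer_instance

/-- `pair p X ∈ J` means that `p` forces the set named by `X` into the ideal. -/
def IdA (M : Set ZFSet.{u}) (κ P le J : ZFSet.{u}) : Prop :=
  (∀ p X, pair p X ∈ J → ∀ q, pair q p ∈ le → pair q X ∈ J) ∧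
  (∀ p ∈ P, ∀ X ∈ M, NameZ κ P le X →
    (∀ q, pair q p ∈ le → ∃ r, pair r q ∈ le ∧ pair r X ∈ J) → pair p X ∈ J) ∧
  (∀ p ∈ P, ∀ X ∈ M, ∀ X' ∈ M, NameZ κ P le X → NameZ κ P le X' →
    (∀ γ ∈ κ, ∀ q, pair q p ∈ le → pair γ q ∈ X → ∃ r, pair r q ∈ le ∧ pair γ r ∈ X') →
    pair p X' ∈ J → pair p X ∈ J) ∧
  (∀ p ∈ P, ∀ γ ∈ κ, ∀ X ∈ M, NameZ κ P le X →
    (∀ γ' ∈ κ, ∀ q ∈ P, pair γ' q ∈ X → γ' = γ) → pair p X ∈ J) ∧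
  ∀ p ∈ P, ∀ X ∈ M, NameZ κ P le X → (∀ γ ∈ κ, ∀ q ∈ P, pair γ q ∈ X) → ¬ pair p X ∈ J

instance (a b c d : ℕ) : UDf.{u} (fun M e => IdA M (e a) (e b) (e c) (e d)) := by
  unfold IdA; infer_instance

/-- Completeness. -/
def IdB (M : Set ZFSet.{u}) (κ P le J : ZFSet.{u}) : Prop :=
  ∀ p ∈ P, ∀ τ ∈ κ, ∀ Y ∈ M, OpenZ le Y → ∀ Z ∈ M, NameZ κ P le Z →
    (∀ γ ∈ κ, ∀ q ∈ P, pair γ q ∈ Z → ∃ i ∈ τ, pair (pair i γ) q ∈ Y) →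
    (∀ i ∈ τ, ∀ X ∈ M, NameZ κ P le X → SecZ κ P Y i X → pair p X ∈ J) → pair p Z ∈ J

instance (a b c d : ℕ) : UDf.{u} (fun M e => IdB M (e a) (e b) (e c) (e d)) := by
  unfold IdB; infer_instance

/-- Saturation. -/
def IdC (M : Set ZFSet.{u}) (κ lam P le J : ZFSet.{u}) : Prop :=
  ∀ p ∈ P, ∀ Y ∈ M, OpenZ le Y →
    (∀ ξ ∈ lam, ∀ η ∈ lam, ξ ≠ η → ∀ X ∈ M, NameZ κ P le X →
      (∀ γ ∈ κ, ∀ q ∈ P, pair γ q ∈ X → pair (pair ξ γ) q ∈ Y ∧ pair (pair η γ) q ∈ Y) →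
      pair p X ∈ J) →
    ∃ ξ ∈ lam, ∃ X ∈ M, NameZ κ P le X ∧ SecZ κ P Y ξ X ∧ pair p X ∈ J

instance (a b c d f : ℕ) : UDf.{u} (fun M e => IdC M (e a) (e b) (e c) (e d) (e f)) := by
  unfold IdC; infer_instance

/-- `(P, le)` is a nonempty forcing notion. -/
def OrdZ (P le : ZFSet.{u}) : Prop :=
  (∃ p ∈ P, p = p) ∧ (∀ z ∈ le, ∃ q ∈ P, ∃ p ∈ P, z = pair q p) ∧ (∀ p ∈ P, pair p p ∈ le) ∧
    ∀ r q, pair r q ∈ le → ∀ p, pair q p ∈ le → pair r p ∈ le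

instance (a b : ℕ) : UDf.{u} (fun _ e => OrdZ (e a) (e b)) := by unfold OrdZ; infer_instance

/-- Everything that is transferred to the ground model. -/
def TGood (M : Set ZFSet.{u}) : Prop :=
  ∃ w ∈ M, ∃ ν ∈ M, ∃ κ ∈ M, ∃ lam ∈ M, ∃ P ∈ M, ∃ le ∈ M, ∃ J ∈ M,
    IsOmega w ∧ lam.IsOrdinal ∧ w ∈ ν ∧ ν ∈ κ ∧ κ ∈ lam ∧ G4 M ∧ OrdZ P le ∧
    ColZ M w ν P le ∧ ColZ M ν κ P le ∧ ColZ M κ lam P le ∧ PresZ M w ν P le ∧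
    PresZ M ν κ P le ∧ TreeZ M ν κ P le ∧ IdA M κ P le J ∧ IdB M κ P le J ∧ IdC M κ lam P le J

instance : UDf.{u} (fun M _ => TGood M) := by unfold TGood; infer_instance

/-- The situation after forcing: `M` is the ground model, `H` the generic filter, `N` the
extension, with the facts about `N` that the three parts of the transfer use. -/
structure Ext' (M N : Set ZFSet.{u}) (P le H : ZFSet.{u}) : Prop where
  hM : IsZFModel M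
  hN : IsZFModel N
  hP : IsForcing P le
  PM : P ∈ M
  leM : le ∈ M
  gen : IsGeneric M P le H
  MN : M ⊆ N
  HN : H ∈ N
  nice : ∀ Z ∈ N, ∀ a ∈ M, ∃ S ∈ M, S ⊆ a.prod P ∧ OpenZ le S ∧
    ∀ x ∈ a, (x ∈ Z ↔ ∃ p ∈ H, pair x p ∈ S)
  enum : ∀ x ∈ N, ∃ α ∈ N, α.IsOrdinal ∧ Surj N α x

end Pool.Agent.P.MP_a18ac8_lc
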