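import Pool.Agent.P.MP_a18ac8_lc.Pi

universe u

namespace Pool.Agent.P.MP_a18ac8_lc

open Cardinal Set Sum Filter

variable {Λ : Type u} [ConditionallyCompleteLinearOrderBot Λ] [WellFoundedLT Λ]

variable [Ctx Λ]

/-- `b` names, below `p₀`, a thread of length `μ` through the system `w`. -/
structure Thr (μ : Λ) (w : Λ → Λ → Λ → Λ → Cond Λ → Prop) (b : Λ → Λ → Cond Λ → Prop)
    (p₀ : Cond Λ) : Prop where
  opn : ∀ β j, Opn (b β j)
  dns : ∀ β < μ, ∀ p, Valid p → p ≤ p₀ → ∃ q, Valid q ∧ q ≤ p ∧ ∃ j < rho, b β j q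
  fn : ∀ β j j' p, Valid p → p ≤ p₀ → b β j p → b β j' p → j = j'
  thr : ∀ β j α k k' p, α < β → Valid p → p ≤ p₀ → b β j p → b α k p → w β j α k' p → k = k'

/-- `W` names a coherent system on `kap × rho`. -/
structure Sys (W : Λ → Λ → Λ → Λ → Cond Λ → Prop) : Prop where
  opn : ∀ β i α j, Opn (W β i α j)
  fn : ∀ β i α j j' p, Valid p → W β i α j p → W β i α j' p → j = j'
  dns : ∀ β < kap, ∀ i < rho, ∀ α < β, Dns fun p => ∃ j < rho, W β i α j p
  coh : ∀ γ i β j α k k' p, α < β → β < γ → Valid p →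
    W γ i β j p → W β j α k p → W γ i α k' p → k = k'

end Pool.Agent.P.MP_a18ac8_lc
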